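import Mathlib

section

/-!
# Discrete and pro-`p` relation numbers of finite `p`-groups: definitions

`r1 d G`, `r2 p d G`: the two relation numbers with `d` generators. `IL p R`: the homomorphisms `R → F_p` invariant
under conjugation (as functions which vanish outside of `R`). `HM p G`: the homomorphisms `G → F_p`. `ev f i`: the
exponent sum of the generator `i` in the word `f`. `FrK p R`: all exponent sums of the elements of `R` are divisible by
`p`. `Hei p`: the Heisenberg group, `chi p i j` sends the generator `i` to `(1,0,0)`, the generator `j` to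
`(0,1,0)` and the other generators to `1`, and `kap p i j` is its third coordinate.
-/

set_option autoImplicit false

namespace Pool.Agent.RG

open Subgroup

/-- The commutator `a⁻¹ b⁻¹ a b`. -/
def cm {G : Type} [Group G] (a b : G) : G := a⁻¹ * b⁻¹ * a * b

/-- `S` presents `G` as a pro-`p` group (with the homomorphism `φ`). -/
structure ProP (p : ℕ) {ι G : Type} [Group G] (φ : FreeGroup ι →* G) (S : Finset (FreeGroup ι)) : Prop where
  surj : Function.Surjective φ
  le : normalClosure (S : Set (FreeGroup ι)) ≤ φ.ker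
  ker_le : ∀ K : Subgroup (FreeGroup ι), K.Normal → (∃ n : ℕ, K.index = p ^ n) →
    normalClosure (S : Set (FreeGroup ι)) ≤ K → φ.ker ≤ K

/-- `T` presents the group `G` (with the homomorphism `ψ`). -/
structure Disc {ι G : Type} [Group G] (ψ : FreeGroup ι →* G) (T : Finset (FreeGroup ι)) : Prop where
  surj : Function.Surjective ψ
  eq : normalClosure (T : Set (FreeGroup ι)) = ψ.ker

/-- The least number of relators of a discrete presentation of `G` with `d` generators. -/
noncomputable def r1 (d : ℕ) (G : Type) [Group G] : ℕ :=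
  sInf {r | ∃ (ψ : FreeGroup (Fin d) →* G) (T : Finset (FreeGroup (Fin d))), Disc ψ T ∧ T.card = r}

/-- The least number of relators of a pro-`p` presentation of `G` with `d` generators. -/
noncomputable def r2 (p d : ℕ) (G : Type) [Group G] : ℕ :=
  sInf {r | ∃ (φ : FreeGroup (Fin d) →* G) (S : Finset (FreeGroup (Fin d))), ProP p φ S ∧ S.card = r}

/-- The homomorphisms `R → F_p` which are invariant under conjugation. -/
def IL (p : ℕ) {F : Type} [Group F] (R : Subgroup F) : Submodule (ZMod p) (F → ZMod p) where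
  carrier := {l | (∀ f, f ∉ R → l f = 0) ∧ (∀ r ∈ R, ∀ s ∈ R, l (r * s) = l r + l s) ∧
    ∀ f, ∀ r ∈ R, l (f * r * f⁻¹) = l r}
  add_mem' := by
    rintro l m ⟨h1, h2, h3⟩ ⟨k1, k2, k3⟩
    refine ⟨fun f hf => ?_, fun r hr s hs => ?_, fun f r hr => ?_⟩
    · rw [Pi.add_apply, h1 f hf, k1 f hf, add_zero]
    · rw [Pi.add_apply, Pi.add_apply, Pi.add_apply, h2 r hr s hs, k2 r hr s hs]; ring
    · rw [Pi.add_apply, Pi.add_apply, h3 f r hr, k3 f r hr]
  zero_mem' := ⟨fun _ _ => rfl, fun _ _ _ _ => (add_zero _).symm, fun _ _ _ => rfl⟩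
  smul_mem' := by
    rintro c l ⟨h1, h2, h3⟩
    refine ⟨fun f hf => ?_, fun r hr s hs => ?_, fun f r hr => ?_⟩
    · rw [Pi.smul_apply, h1 f hf, smul_zero]
    · rw [Pi.smul_apply, Pi.smul_apply, Pi.smul_apply, h2 r hr s hs, smul_add]
    · rw [Pi.smul_apply, Pi.smul_apply, h3 f r hr]

/-- The homomorphisms `G → F_p`. -/
def HM (p : ℕ) (G : Type) [Group G] : Submodule (ZMod p) (G → ZMod p) where
  carrier := {f | ∀ a b, f (a * b) = f a + f b}
  add_mem' := by
    intro f g hf hg a b
    rw [Pi.add_apply, Pi.add_apply, Pi.add_apply, hf, hg]; ring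
  zero_mem' := fun _ _ => (add_zero _).symm
  smul_mem' := by
    intro c f hf a b
    rw [Pi.smul_apply, Pi.smul_apply, Pi.smul_apply, hf, smul_add]

/-- The exponent sum of the generator `i`. -/
def ev {ι : Type} [DecidableEq ι] (f : FreeGroup ι) (i : ι) : ℤ :=
  Multiplicative.toAdd (FreeGroup.lift (fun j => Multiplicative.ofAdd (if j = i then (1 : ℤ) else 0)) f)

/-- All exponent sums of the elements of `R` are divisible by `p`. -/
def FrK (p : ℕ) {ι : Type} [DecidableEq ι] (R : Subgroup (FreeGroup ι)) : Prop :=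
  ∀ r ∈ R, ∀ i, (p : ℤ) ∣ ev r i

/-- The Heisenberg group. -/
@[ext] structure Hei (p : ℕ) where
  a : ZMod p
  b : ZMod p
  c : ZMod p

instance instMulHei (p : ℕ) : Mul (Hei p) := ⟨fun x y => ⟨x.a + y.a, x.b + y.b, x.c + y.c + x.a * y.b⟩⟩

instance instInvHei (p : ℕ) : Inv (Hei p) := ⟨fun x => ⟨-x.a, -x.b, -x.c + x.a * x.b⟩⟩

instance instOneHei (p : ℕ) : One (Hei p) := ⟨⟨0, 0, 0⟩⟩

namespace Hei

variable {p : ℕ}

theorem mul_a (x y : Hei p) : (x * y).a = x.a + y.a := rfl
theorem mul_b (x y : Hei p) : (x * y).b = x.b + y.b := rfl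
theorem mul_c (x y : Hei p) : (x * y).c = x.c + y.c + x.a * y.b := rfl
theorem inv_a (x : Hei p) : (x⁻¹).a = -x.a := rfl
theorem inv_b (x : Hei p) : (x⁻¹).b = -x.b := rfl
theorem inv_c (x : Hei p) : (x⁻¹).c = -x.c + x.a * x.b := rfl
theorem one_a : (1 : Hei p).a = 0 := rfl
theorem one_b : (1 : Hei p).b = 0 := rfl
theorem one_c : (1 : Hei p).c = 0 := rfl

end Hei

instance instGroupHei (p : ℕ) : Group (Hei p) :=
  Group.ofLeftAxioms
    (fun x y z => by
      ext
      · simp only [Hei.mul_a]; ring
      · simp only [Hei.mul_b]; ring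
      · simp only [Hei.mul_a, Hei.mul_b, Hei.mul_c]; ring)
    (fun x => by
      ext
      · simp only [Hei.mul_a, Hei.one_a]; ring
      · simp only [Hei.mul_b, Hei.one_b]; ring
      · simp only [Hei.mul_c, Hei.one_a, Hei.one_c]; ring)
    (fun x => by
      ext
      · simp only [Hei.mul_a, Hei.inv_a, Hei.one_a]; ring
      · simp only [Hei.mul_b, Hei.inv_b, Hei.one_b]; ring
      · simp only [Hei.mul_c, Hei.inv_a, Hei.inv_c, Hei.one_c]; ring)

/-- The homomorphism onto the Heisenberg group belonging to two generators. -/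
def chi (p : ℕ) {ι : Type} [DecidableEq ι] (i j : ι) : FreeGroup ι →* Hei p :=
  FreeGroup.lift fun l => if l = i then ⟨1, 0, 0⟩ else if l = j then ⟨0, 1, 0⟩ else 1

/-- Its third coordinate. -/
def kap (p : ℕ) {ι : Type} [DecidableEq ι] (i j : ι) (f : FreeGroup ι) : ZMod p := (chi p i j f).c

open Classical in
/-- The function `l` on `R`, and `0` outside of `R`. -/
noncomputable def res {p : ℕ} {F : Type} [Group F] (R : Subgroup F) (l : F → ZMod p) : F → ZMod p :=
  fun f => if f ∈ R then l f else 0

/-- The free group with the generators `X i`, `Y j`. -/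
abbrev FF (k N : ℕ) : Type := FreeGroup (Fin k ⊕ Fin N)

/-- The words in the generators `X i`. -/
def inx (k N : ℕ) : FreeGroup (Fin k) →* FF k N := FreeGroup.map Sum.inl

def X {k N : ℕ} (i : Fin k) : FF k N := FreeGroup.of (Sum.inl i)

def Y {k N : ℕ} (j : Fin N) : FF k N := FreeGroup.of (Sum.inr j)

/-- The ordered product of the powers `g j ^ v j`. -/
def gpow {G : Type} [Group G] {N : ℕ} (g : Fin N → G) (v : Fin N → ℤ) : G := (List.ofFn fun j => g j ^ v j).prod

/-- Indices of the relators: pairs `X i`, `Y j`; pairs `Y j`, `Y l` with `j < l`; power relators. -/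
abbrev RI (k N nb : ℕ) : Type := (Fin k × Fin N) ⊕ ({q : Fin N × Fin N // q.1 < q.2} ⊕ Fin nb)

/-- The data of Theorem A: a generating family `x`, `y` of `G` and words for the relators. The first `m` of the `y j` are
the designated generators. -/
structure Dat (p : ℕ) (G : Type) [Group G] where
  (k N m nb t : ℕ)
  x : Fin k → G
  y : Fin N → G
  cw : Fin k → Fin N → FreeGroup (Fin k)
  aw : Fin N → Fin N → FreeGroup (Fin k)
  v : Fin nb → Fin N → ℤ
  bw : Fin nb → FreeGroup (Fin k)
  rho : Fin t → FreeGroup (Fin k)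
  sig : Fin t → {q : Fin N × Fin N // q.1 < q.2}
  gen : closure (Set.range (Sum.elim x y)) = ⊤
  fr : FrK p (FreeGroup.lift (Sum.elim x y)).ker
  hcw : ∀ i j, cw i j ∈ commutator (FreeGroup (Fin k))
  hcw2 : ∀ i j, FreeGroup.lift x (cw i j) = cm (x i) (y j)
  haw : ∀ j l, FreeGroup.lift x (aw j l) = cm (y j) (y l)
  hv : LinearIndependent ℤ v
  hv2 : ∀ w : Fin N → ℤ, gpow y w ∈ closure (Set.range x) ↔ w ∈ Submodule.span ℤ (Set.range v)
  hv3 : ∀ i j, (p : ℤ) ∣ v i j
  hbw : ∀ i, FreeGroup.lift x (bw i) = gpow y (v i)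
  hrho : normalClosure (Set.range rho) = (FreeGroup.lift x).ker
  hsig : Function.Injective sig
  hsig2 : ∀ j, (sig j).1.2.val < m
  hdes : ∀ i j, j.val < m → cw i j = 1
  hdes2 : ∀ j l, j.val < m → l.val < m → aw j l = 1

namespace Dat

variable {p : ℕ} {G : Type} [Group G] (D : Dat p G)

/-- The presentation map. -/
def psi : FF D.k D.N →* G := FreeGroup.lift (Sum.elim D.x D.y)

/-- The relators (without those of the words in the `X i`). -/
def rel : RI D.k D.N D.nb → FF D.k D.N
  | .inl (i, j) => cm (X i) (Y j) * (inx D.k D.N (D.cw i j))⁻¹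
  | .inr (.inl q) => cm (Y q.1.1) (Y q.1.2) * (inx D.k D.N (D.aw q.1.1 q.1.2))⁻¹
  | .inr (.inr i) => gpow Y (D.v i) * (inx D.k D.N (D.bw i))⁻¹

open Classical in
/-- The words absorbed in the relators of the designated pairs: `rho j` in the pair `sig j` for `j ∉ I`. -/
noncomputable def mo (I : Finset (Fin D.t)) (q : {q : Fin D.N × Fin D.N // q.1 < q.2}) : FreeGroup (Fin D.k) :=
  if h : ∃ j, j ∉ I ∧ D.sig j = q then D.rho h.choose else 1

/-- The modified relators. -/
noncomputable def rel' (I : Finset (Fin D.t)) : RI D.k D.N D.nb → FF D.k D.N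
  | .inl (i, j) => D.rel (.inl (i, j))
  | .inr (.inl q) => D.rel (.inr (.inl q)) * (inx D.k D.N (D.mo I q))⁻¹
  | .inr (.inr i) => D.rel (.inr (.inr i))

open Classical in
/-- The relators of the final presentation. -/
noncomputable def T (I : Finset (Fin D.t)) : Finset (FF D.k D.N) :=
  Finset.univ.image (D.rel' I) ∪ I.image fun j => inx D.k D.N (D.rho j)

end Dat

end Pool.Agent.RG
end

section

/-!
# RG B1: invariant homomorphisms `R → F_p`

`l ∈ IL p R` means: `l` vanishes outside of `R`, is additive on `R` and invariant under conjugation.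
`IL_one`, `IL_inv`, `IL_zpow`: additivity on the subgroup `R`.  `IL_prod`: induction on the list.
`IL_closure`: `{r ∈ R | l r = 0}` is a normal subgroup (`R` normal, invariance) which contains `S`
(`Subgroup.normalClosure_le_normal`).
`IL_ker`: `K = {r ∈ R | l r = 0}`; it is normal in `F`.  The map `R → F_p`, `r ↦ l r`, is a homomorphism with kernel
`K.subgroupOf R`, so `K.relIndex R` divides `p` (`Subgroup.index_ker`, the range is a subgroup of a group
of order `p`), so it is `1` or `p`, and `K.index = K.relIndex R * R.index` (`Subgroup.relIndex_mul_index`).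
`res_mem`, `res_eq`: from the definitions (`R` normal: `f * r * f⁻¹ ∈ R`).
-/

set_option autoImplicit false

namespace Pool.Agent.RG

open Subgroup

variable {p : ℕ} {F : Type} [Group F] {R : Subgroup F} {l : F → ZMod p}

theorem IL_mul (hl : l ∈ IL p R) {r s : F} (hr : r ∈ R) (hs : s ∈ R) : l (r * s) = l r + l s :=
  hl.2.1 r hr s hs

theorem IL_conj (hl : l ∈ IL p R) (f : F) {r : F} (hr : r ∈ R) : l (f * r * f⁻¹) = l r :=
  hl.2.2 f r hr

theorem IL_out (hl : l ∈ IL p R) {f : F} (hf : f ∉ R) : l f = 0 := hl.1 f hf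

theorem IL_one (hl : l ∈ IL p R) : l 1 = 0 := by
  have h := IL_mul hl (one_mem R) (one_mem R)
  rw [mul_one] at h
  exact left_eq_add.1 h

theorem IL_inv (hl : l ∈ IL p R) {r : F} (hr : r ∈ R) : l r⁻¹ = -l r := by
  have h := IL_mul hl hr (inv_mem hr)
  rw [mul_inv_cancel, IL_one hl] at h
  exact (neg_eq_of_add_eq_zero_right h.symm).symm

theorem IL_conj' (hl : l ∈ IL p R) (f : F) {r : F} (hr : r ∈ R) : l (f⁻¹ * r * f) = l r := by
  have h := IL_conj hl f⁻¹ hr
  rwa [inv_inv] at h

theorem IL_prod (hl : l ∈ IL p R) (L : List F) (h : ∀ r ∈ L, r ∈ R) : l L.prod = (L.map l).sum := by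
  induction L with
  | nil => simpa using IL_one hl
  | cons a L ih =>
    have ha : a ∈ R := h a (List.mem_cons_self)
    have hL : ∀ r ∈ L, r ∈ R := fun r hr => h r (List.mem_cons_of_mem a hr)
    rw [List.prod_cons, List.map_cons, List.sum_cons, IL_mul hl ha (list_prod_mem hL), ih hL]

theorem IL_zpow (hl : l ∈ IL p R) {r : F} (hr : r ∈ R) (n : ℤ) : l (r ^ n) = (n : ZMod p) * l r := by
  induction n using Int.induction_on with
  | zero => rw [zpow_zero, IL_one hl, Int.cast_zero, zero_mul]
  | succ n ih =>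
    rw [zpow_add_one, IL_mul hl (zpow_mem hr _) hr, ih]
    push_cast
    ring
  | pred n ih =>
    rw [zpow_sub_one, IL_mul hl (zpow_mem hr _) (inv_mem hr), ih, IL_inv hl hr]
    push_cast
    ring

/-- The elements of `R` on which `l` vanishes. -/
private def B1_K (hl : l ∈ IL p R) : Subgroup F where
  carrier := {r | r ∈ R ∧ l r = 0}
  mul_mem' := by
    rintro a b ⟨ha, ha'⟩ ⟨hb, hb'⟩
    exact ⟨mul_mem ha hb, by rw [IL_mul hl ha hb, ha', hb', add_zero]⟩
  one_mem' := ⟨one_mem R, IL_one hl⟩
  inv_mem' := by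
    rintro a ⟨ha, ha'⟩
    exact ⟨inv_mem ha, by rw [IL_inv hl ha, ha', neg_zero]⟩

private theorem B1_mem (hl : l ∈ IL p R) {r : F} : r ∈ B1_K hl ↔ r ∈ R ∧ l r = 0 := Iff.rfl

private theorem B1_normal [hR : R.Normal] (hl : l ∈ IL p R) : (B1_K hl).Normal := by
  refine ⟨fun r hr f => ?_⟩
  obtain ⟨h1, h2⟩ := (B1_mem hl).1 hr
  exact (B1_mem hl).2 ⟨hR.conj_mem r h1 f, by rw [IL_conj hl f h1, h2]⟩

theorem IL_closure [R.Normal] (hl : l ∈ IL p R) {S : Set F} (hS : ∀ s ∈ S, s ∈ R ∧ l s = 0) :
    ∀ r ∈ normalClosure S, l r = 0 := by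
  have hn : (B1_K hl).Normal := B1_normal hl
  have h : normalClosure S ≤ B1_K hl := normalClosure_le_normal fun s hs => (B1_mem hl).2 (hS s hs)
  intro r hr
  exact ((B1_mem hl).1 (h hr)).2

theorem IL_ker [Fact p.Prime] [R.Normal] (hl : l ∈ IL p R) {n : ℕ} (hR : R.index = p ^ n) :
    ∃ K : Subgroup F, K.Normal ∧ (∃ m : ℕ, K.index = p ^ m) ∧ K ≤ R ∧ ∀ r ∈ R, (r ∈ K ↔ l r = 0) := by
  have hle : B1_K hl ≤ R := fun r hr => ((B1_mem hl).1 hr).1
  refine ⟨B1_K hl, B1_normal hl, ?_, hle, fun r hr => ?_⟩
  · let f : R →* Multiplicative (ZMod p) :=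
      { toFun := fun r => Multiplicative.ofAdd (l r)
        map_one' := by
          change Multiplicative.ofAdd (l 1) = 1
          rw [IL_one hl, ofAdd_zero]
        map_mul' := fun a b => by
          change Multiplicative.ofAdd (l (a * b)) = _
          rw [IL_mul hl a.2 b.2, ofAdd_add] }
    have h1 : (B1_K hl).subgroupOf R = f.ker := by
      ext r
      rw [mem_subgroupOf, MonoidHom.mem_ker, B1_mem]
      constructor
      · rintro ⟨_, h⟩
        change Multiplicative.ofAdd (l r) = 1
        rw [h, ofAdd_zero]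
      · intro h
        refine ⟨r.2, ?_⟩
        have h' : Multiplicative.ofAdd (l r) = Multiplicative.ofAdd 0 := h
        exact Multiplicative.ofAdd.injective h'
    have h2 : Nat.card f.range ∣ p := by
      have h3 := Subgroup.card_subgroup_dvd_card f.range
      have h4 : Nat.card (Multiplicative (ZMod p)) = p := by
        rw [Nat.card_congr Multiplicative.toAdd, Nat.card_zmod]
      rwa [h4] at h3
    have h5 : (B1_K hl).relIndex R = Nat.card f.range := by
      rw [Subgroup.relIndex, h1, Subgroup.index_ker]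
    have h6 := Subgroup.relIndex_mul_index hle
    rcases (Nat.dvd_prime (Fact.out : p.Prime)).1 h2 with h7 | h7
    · refine ⟨n, ?_⟩
      rw [← h6, h5, h7, hR, one_mul]
    · refine ⟨n + 1, ?_⟩
      rw [← h6, h5, h7, hR, pow_succ']
  · rw [B1_mem]
    exact ⟨fun h => h.2, fun h => ⟨hr, h⟩⟩

theorem res_eq (l : F → ZMod p) {r : F} (hr : r ∈ R) : res R l r = l r := by
  unfold res
  rw [if_pos hr]

theorem res_mem [R.Normal] (l : F → ZMod p) (h2 : ∀ r ∈ R, ∀ s ∈ R, l (r * s) = l r + l s)
    (h3 : ∀ f, ∀ r ∈ R, l (f * r * f⁻¹) = l r) : res R l ∈ IL p R := by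
  refine ⟨fun f hf => ?_, fun r hr s hs => ?_, fun f r hr => ?_⟩
  · unfold res
    rw [if_neg hf]
  · rw [res_eq l (mul_mem hr hs), res_eq l hr, res_eq l hs, h2 r hr s hs]
  · rw [res_eq l (Subgroup.Normal.conj_mem inferInstance r hr f), res_eq l hr, h3 f r hr]

end Pool.Agent.RG
end

section

/-!
# RG EV: exponent sums and ordered products of powers

`ev f i` is the value at `f` of the homomorphism `FreeGroup ι → ℤ` (written multiplicatively) which sends the
generator `i` to `1` and the other generators to `0`; so `ev_one`, `ev_mul`, `ev_inv`, `ev_of` are `map_one`, `map_mul`,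
`map_inv`, `FreeGroup.lift_apply_of` (name to be checked), and `ev_zpow`, `ev_conj`, `ev_cm` follow.
`ev_commutator`: the kernel of a homomorphism to a commutative group contains the commutator subgroup
(`Abelianization.commutator_subset_ker`).
`ev_inx_inl`, `ev_inx_inr`: `FreeGroup.lift .. ∘ FreeGroup.map Sum.inl` agrees with the other homomorphism on
generators (`FreeGroup.induction_on` or `FreeGroup.ext_hom`).
`map_gpow`: `map_list_prod`, `List.map_ofFn`.  `gpow_comm`: `List.prod_ofFn`.
`ev_gpow_inr`, `ev_gpow_inl`: apply `map_gpow` to the homomorphism defining `ev`, then `gpow_comm` in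
`Multiplicative ℤ`; (or a general formula for `ev` of a list product).
`ev_hom`: both sides are homomorphisms in `f` and agree on the generators.  `hom_of_ev`: apply `ev_hom` to
the homomorphism `f ↦ Multiplicative.ofAdd (l f)`: `l f = ∑ i, (ev f i : ZMod p) * l (of i)` and
`(ev f i : ZMod p) = 0` (`ZMod.intCast_zmod_eq_zero_iff_dvd`).
-/

set_option autoImplicit false

namespace Pool.Agent.RG

open Subgroup

section
variable {ι : Type} [DecidableEq ι]

private def EV_h (i : ι) : FreeGroup ι →* Multiplicative ℤ :=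
  FreeGroup.lift (fun j => Multiplicative.ofAdd (if j = i then (1 : ℤ) else 0))

private theorem EV_eq (f : FreeGroup ι) (i : ι) : ev f i = Multiplicative.toAdd (EV_h i f) := rfl

theorem ev_one (i : ι) : ev (1 : FreeGroup ι) i = 0 := by
  rw [EV_eq, map_one, toAdd_one]

theorem ev_mul (f g : FreeGroup ι) (i : ι) : ev (f * g) i = ev f i + ev g i := by
  rw [EV_eq, map_mul, toAdd_mul, EV_eq, EV_eq]

theorem ev_inv (f : FreeGroup ι) (i : ι) : ev f⁻¹ i = -ev f i := by
  rw [EV_eq, map_inv, toAdd_inv, EV_eq]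

theorem ev_of (i j : ι) : ev (FreeGroup.of j) i = if j = i then 1 else 0 := by
  rw [EV_eq, EV_h, FreeGroup.lift_apply_of]
  rfl

theorem ev_zpow (f : FreeGroup ι) (n : ℤ) (i : ι) : ev (f ^ n) i = n * ev f i := by
  rw [EV_eq, map_zpow, toAdd_zpow, EV_eq, smul_eq_mul]

theorem ev_conj (f g : FreeGroup ι) (i : ι) : ev (f * g * f⁻¹) i = ev g i := by
  rw [ev_mul, ev_mul, ev_inv]
  ring

theorem ev_cm (f g : FreeGroup ι) (i : ι) : ev (cm f g) i = 0 := by
  unfold cm
  rw [ev_mul, ev_mul, ev_mul, ev_inv, ev_inv]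
  ring

theorem ev_commutator {f : FreeGroup ι} (h : f ∈ commutator (FreeGroup ι)) (i : ι) : ev f i = 0 := by
  have h1 : f ∈ (EV_h i).ker := Abelianization.commutator_subset_ker (EV_h i) h
  rw [MonoidHom.mem_ker] at h1
  rw [EV_eq, h1, toAdd_one]

end

theorem ev_inx_inl {k N : ℕ} (w : FreeGroup (Fin k)) (i : Fin k) :
    ev (inx k N w) (Sum.inl i) = ev w i := by
  have h : (EV_h (Sum.inl i : Fin k ⊕ Fin N)).comp (inx k N) = EV_h i := by
    refine FreeGroup.ext_hom _ _ fun a => ?_
    simp [EV_h, inx]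
  have h2 := DFunLike.congr_fun h w
  rw [MonoidHom.comp_apply] at h2
  rw [EV_eq, EV_eq, h2]

theorem ev_inx_inr {k N : ℕ} (w : FreeGroup (Fin k)) (j : Fin N) :
    ev (inx k N w) (Sum.inr j) = 0 := by
  have h : (EV_h (Sum.inr j : Fin k ⊕ Fin N)).comp (inx k N) = 1 := by
    refine FreeGroup.ext_hom _ _ fun a => ?_
    simp [EV_h, inx]
  have h2 := DFunLike.congr_fun h w
  rw [MonoidHom.comp_apply] at h2
  rw [EV_eq, h2]
  rfl

theorem map_gpow {G H : Type} [Group G] [Group H] (φ : G →* H) {N : ℕ} (g : Fin N → G)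
    (v : Fin N → ℤ) : φ (gpow g v) = gpow (fun j => φ (g j)) v := by
  unfold gpow
  rw [map_list_prod, List.map_ofFn]
  congr 2
  funext j
  simp

theorem gpow_comm {A : Type} [CommGroup A] {N : ℕ} (g : Fin N → A) (v : Fin N → ℤ) :
    gpow g v = ∏ j, g j ^ v j := by
  unfold gpow
  rw [List.prod_ofFn]

theorem ev_gpow_inr {k N : ℕ} (v : Fin N → ℤ) (j : Fin N) :
    ev (gpow Y v : FF k N) (Sum.inr j) = v j := by
  rw [EV_eq, map_gpow, gpow_comm, toAdd_prod, Finset.sum_eq_single j]
  · rw [toAdd_zpow, ← EV_eq]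
    unfold Y
    rw [ev_of]
    simp
  · intro b _ hb
    rw [toAdd_zpow, ← EV_eq]
    unfold Y
    rw [ev_of, if_neg (fun h => hb (Sum.inr_injective h)), smul_zero]
  · intro h
    exact absurd (Finset.mem_univ j) h

theorem ev_gpow_inl {k N : ℕ} (v : Fin N → ℤ) (i : Fin k) :
    ev (gpow Y v : FF k N) (Sum.inl i) = 0 := by
  rw [EV_eq, map_gpow, gpow_comm, toAdd_prod]
  refine Finset.sum_eq_zero fun b _ => ?_
  rw [toAdd_zpow, ← EV_eq]
  unfold Y
  rw [ev_of, if_neg (by simp), smul_zero]

theorem ev_hom {ι : Type} [DecidableEq ι] [Fintype ι] {A : Type} [CommGroup A]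
    (θ : FreeGroup ι →* A) (f : FreeGroup ι) : θ f = ∏ i, θ (FreeGroup.of i) ^ ev f i := by
  have h : θ = ∏ i, (zpowersHom A (θ (FreeGroup.of i))).comp (EV_h i) := by
    refine FreeGroup.ext_hom _ _ fun a => ?_
    rw [MonoidHom.finsetProd_apply, Finset.prod_eq_single a]
    · rw [MonoidHom.comp_apply, zpowersHom_apply, ← EV_eq, ev_of, if_pos rfl, zpow_one]
    · intro b _ hb
      rw [MonoidHom.comp_apply, zpowersHom_apply, ← EV_eq, ev_of, if_neg (fun h => hb h.symm),
        zpow_zero]
    · intro h
      exact absurd (Finset.mem_univ a) h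
  conv_lhs => rw [h]
  rw [MonoidHom.finsetProd_apply]
  refine Finset.prod_congr rfl fun i _ => ?_
  rw [MonoidHom.comp_apply, zpowersHom_apply, ← EV_eq]

theorem hom_of_ev {p : ℕ} {ι : Type} [DecidableEq ι] [Fintype ι] (l : FreeGroup ι → ZMod p)
    (hl : ∀ a b, l (a * b) = l a + l b) (f : FreeGroup ι) :
    l f = ∑ i, (ev f i : ZMod p) * l (FreeGroup.of i) := by
  have h1 : l 1 = 0 := by
    have := hl 1 1
    rw [mul_one] at this
    simpa using this
  let θ : FreeGroup ι →* Multiplicative (ZMod p) :=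
    { toFun := fun f => Multiplicative.ofAdd (l f)
      map_one' := by rw [h1]; rfl
      map_mul' := fun a b => by rw [hl]; rfl }
  have h2 := congrArg Multiplicative.toAdd (ev_hom θ f)
  rw [toAdd_prod] at h2
  have h3 : Multiplicative.toAdd (θ f) = l f := rfl
  rw [h3] at h2
  rw [h2]
  refine Finset.sum_congr rfl fun i _ => ?_
  rw [toAdd_zpow]
  have h4 : Multiplicative.toAdd (θ (FreeGroup.of i)) = l (FreeGroup.of i) := rfl
  rw [h4, zsmul_eq_mul]

theorem hom_of_ev_zero {p : ℕ} {ι : Type} [DecidableEq ι] [Fintype ι] (l : FreeGroup ι → ZMod p)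
    (hl : ∀ a b, l (a * b) = l a + l b) {f : FreeGroup ι} (hf : ∀ i, (p : ℤ) ∣ ev f i) :
    l f = 0 := by
  rw [hom_of_ev l hl f]
  refine Finset.sum_eq_zero fun i _ => ?_
  rw [(ZMod.intCast_zmod_eq_zero_iff_dvd _ _).2 (hf i), zero_mul]

end Pool.Agent.RG
end

section

/-!
# RG B3: comparison of two presentation maps of the same group

PROOF.  `α : FreeGroup ι →* FreeGroup κ` with `ψ ∘ α = φ` (`FreeGroup.lift` of preimages of `φ (of i)`), and
`β : FreeGroup κ →* FreeGroup ι` with `φ ∘ β = ψ`.  `l ↦ l ∘ α` is a linear map `IL p ψ.ker → IL p φ.ker`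
(`α f ∈ ψ.ker ↔ f ∈ φ.ker`).  It is injective: let `l ∘ α = 0`.  Put `γ = α ∘ β`, `ψ ∘ γ = ψ`,
`c f = f⁻¹ * γ f ∈ ψ.ker`.  `c (f g) = g⁻¹ * c f * g * c g`, so `f ↦ l (c f)` is additive (`IL_conj'` of B1, `IL_mul`), so
by `hom_of_ev_zero` (EV) it vanishes on `ψ.ker` (hypothesis `hfr`).  For `r ∈ ψ.ker`: `γ r = r * c r`,
`l (γ r) = l r + l (c r) = l r`, and `l (γ r) = (l ∘ α) (β r) = 0`.  So `l r = 0`.
`LinearMap.finrank_le_finrank_of_injective`.
-/

set_option autoImplicit false

namespace Pool.Agent.RG

open Subgroup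

private theorem B3_lift {ι κ G : Type} [Group G] {ψ : FreeGroup κ →* G}
    (hψ : Function.Surjective ψ) (φ : FreeGroup ι →* G) :
    ∃ α : FreeGroup ι →* FreeGroup κ, ∀ f, ψ (α f) = φ f := by
  choose a ha using fun i => hψ (φ (FreeGroup.of i))
  refine ⟨FreeGroup.lift a, fun f => ?_⟩
  have h : ψ.comp (FreeGroup.lift a) = φ := by
    refine FreeGroup.ext_hom _ _ fun i => ?_
    rw [MonoidHom.comp_apply, FreeGroup.lift_apply_of, ha]
  rw [← h]
  rfl

/-- Composition with `α`. -/
private def B3_pull {p : ℕ} {F E G : Type} [Group F] [Group E] [Group G] {ψ : F →* G}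
    {φ : E →* G} (α : E →* F) (hα : ∀ f, ψ (α f) = φ f) :
    IL p ψ.ker →ₗ[ZMod p] IL p φ.ker where
  toFun l := ⟨fun f => l.1 (α f), by
    have hm : ∀ {f : E}, f ∈ φ.ker → α f ∈ ψ.ker := fun {f} hf => by
      rw [MonoidHom.mem_ker, hα]
      exact hf
    refine ⟨fun f hf => l.2.1 _ fun h => hf ?_, fun r hr s hs => ?_, fun f r hr => ?_⟩
    · rw [MonoidHom.mem_ker, hα] at h
      exact h
    · beta_reduce
      rw [map_mul]
      exact l.2.2.1 _ (hm hr) _ (hm hs)
    · beta_reduce
      rw [map_mul, map_mul, map_inv]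
      exact l.2.2.2 _ _ (hm hr)⟩
  map_add' _ _ := rfl
  map_smul' _ _ := rfl

theorem finrank_IL_le {p : ℕ} [Fact p.Prime] {ι κ G : Type} [DecidableEq κ] [Fintype κ] [Group G]
    {ψ : FreeGroup κ →* G} (hψ : Function.Surjective ψ) (hfr : FrK p ψ.ker)
    {φ : FreeGroup ι →* G} (hφ : Function.Surjective φ) [Module.Finite (ZMod p) (IL p φ.ker)] :
    Module.finrank (ZMod p) (IL p ψ.ker) ≤ Module.finrank (ZMod p) (IL p φ.ker) := by
  obtain ⟨α, hα⟩ := B3_lift hψ φ
  obtain ⟨β, hβ⟩ := B3_lift hφ ψ
  refine LinearMap.finrank_le_finrank_of_injective (f := B3_pull α hα) ?_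
  rw [injective_iff_map_eq_zero]
  intro l hl0
  have hl1 : ∀ f, l.1 (α f) = 0 := fun f => congrFun (congrArg Subtype.val hl0) f
  have hl := l.2
  refine Subtype.ext (funext fun r => ?_)
  change l.1 r = 0
  by_cases hr : r ∈ ψ.ker
  swap
  · exact IL_out hl hr
  have hc : ∀ f, f⁻¹ * α (β f) ∈ ψ.ker := by
    intro f
    rw [MonoidHom.mem_ker, map_mul, map_inv, hα, hβ, inv_mul_cancel]
  have hadd : ∀ f g, l.1 ((f * g)⁻¹ * α (β (f * g))) =
      l.1 (f⁻¹ * α (β f)) + l.1 (g⁻¹ * α (β g)) := by
    intro f g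
    have e : (f * g)⁻¹ * α (β (f * g)) = (g⁻¹ * (f⁻¹ * α (β f)) * g) * (g⁻¹ * α (β g)) := by
      rw [map_mul, map_mul, mul_inv_rev]
      group
    have hm : g⁻¹ * (f⁻¹ * α (β f)) * g ∈ ψ.ker := by
      have h1 := (inferInstance : ψ.ker.Normal).conj_mem _ (hc f) g⁻¹
      rwa [inv_inv] at h1
    rw [e, IL_mul hl hm (hc g), IL_conj' hl g (hc f)]
  have h0 : l.1 (r⁻¹ * α (β r)) = 0 :=
    hom_of_ev_zero (fun f => l.1 (f⁻¹ * α (β f))) hadd fun i => hfr r hr i
  have h1 := IL_mul hl hr (hc r)
  rw [h0, add_zero, mul_inv_cancel_left, hl1] at h1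
  exact h1.symm

end Pool.Agent.RG
end

section

/-!
# RG AX: first consequences of the data

`D : Dat p G` (Defs): generators `x i`, `y j` of `G`; `G₀ := closure (Set.range D.x)`, the image of `FreeGroup.lift D.x`
(`FreeGroup.range_lift_eq_closure` or `FreeGroup.lift_range_..`; name to be searched).
`psi_inx`: both sides are homomorphisms of `w` which agree on generators.
`rel_mem`: `psi (cm a b) = cm (psi a) (psi b)`, `D.hcw2`, `D.haw`, `map_gpow` (EV), `D.hbw`.
`G0_normal`: `(y j)⁻¹ * x i * y j = x i * cm (x i) (y j) = x i * lift x (cw i j) ∈ G₀`.  So conjugation by `(y j)⁻¹` maps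
`G₀` into itself, and onto itself as `G₀` is finite; the normaliser of `G₀` contains all `x i`, `y j`, so it is `⊤`
(`D.gen`).
`comm_le`: the quotient `G ⧸ G₀` is generated by the images of the `y j`, which commute (`D.haw`: `cm (y j) (y l) ∈ G₀`),
so it is commutative.  (Or: for a normal subgroup `K` and a generating set `S` with all commutators of elements of `S`
in `K`, `commutator G ≤ K`: `Subgroup.closure_induction` twice, or `Subgroup.commutator_le` together with centralisers
in the quotient.)
`ev_mem`: let `r ∈ psi.ker`.  Apply `ev_hom` (EV) to the homomorphism `FF → G ⧸ G₀` (a commutative group by `comm_le`: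
`Subgroup.Normal.quotient_commutative_iff_commutator_le`): the product of the `(image of y j) ^ ev r (inr j)` is `1`, so
`gpow D.y (fun j => ev r (Sum.inr j)) ∈ G₀` (`map_gpow`, `gpow_comm`), and `D.hv2`.
-/

set_option autoImplicit false

namespace Pool.Agent.RG

open Subgroup

/-- commutators of generators in a normal subgroup -/
theorem commutator_le_of_gen {G : Type} [Group G] {K : Subgroup G} [K.Normal] {S : Set G}
    (hS : closure S = ⊤) (h : ∀ a ∈ S, ∀ b ∈ S, cm a b ∈ K) : commutator G ≤ K := by
  have key : ∀ a b : G, cm a b ∈ K → (a : G ⧸ K) * (b : G ⧸ K) = (b : G ⧸ K) * (a : G ⧸ K) := by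
    intro a b hab
    rw [← QuotientGroup.mk_mul, ← QuotientGroup.mk_mul, eq_comm, QuotientGroup.eq]
    have e : (b * a)⁻¹ * (a * b) = cm a b := by
      unfold cm
      group
    rw [e]
    exact hab
  have h1 : ∀ a ∈ S, ∀ b : G, (a : G ⧸ K) * (b : G ⧸ K) = (b : G ⧸ K) * (a : G ⧸ K) := by
    intro a ha b
    have hb : b ∈ closure S := by rw [hS]; exact mem_top b
    induction hb using closure_induction with
    | mem x hx => exact key a x (h a ha x hx)
    | one => simp
    | mul x y _ _ hx hy =>
      rw [QuotientGroup.mk_mul, ← mul_assoc, hx, mul_assoc, hy, mul_assoc]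
    | inv x _ hx =>
      rw [QuotientGroup.mk_inv]
      exact (Commute.inv_right (show Commute (a : G ⧸ K) (x : G ⧸ K) from hx)).eq
  have h2 : ∀ a b : G, (a : G ⧸ K) * (b : G ⧸ K) = (b : G ⧸ K) * (a : G ⧸ K) := by
    intro a b
    have ha : a ∈ closure S := by rw [hS]; exact mem_top a
    induction ha using closure_induction with
    | mem x hx => exact h1 x hx b
    | one => simp
    | mul x y _ _ hx hy =>
      rw [QuotientGroup.mk_mul, mul_assoc, hy, ← mul_assoc, hx, mul_assoc]
    | inv x _ hx =>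
      rw [QuotientGroup.mk_inv]
      exact (Commute.inv_left (show Commute (x : G ⧸ K) (b : G ⧸ K) from hx)).eq
  rw [commutator_def, Subgroup.commutator_le]
  intro a _ b _
  rw [← QuotientGroup.eq_one_iff, commutatorElement_def, QuotientGroup.mk_mul, QuotientGroup.mk_mul,
    QuotientGroup.mk_mul, h2 a b, QuotientGroup.mk_inv, QuotientGroup.mk_inv]
  group

theorem map_cm {G H : Type} [Group G] [Group H] (φ : G →* H) (a b : G) :
    φ (cm a b) = cm (φ a) (φ b) := by
  simp [cm]

theorem range_lift_eq {G : Type} [Group G] {ι : Type} (x : ι → G) :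
    (FreeGroup.lift x).range = closure (Set.range x) := FreeGroup.range_lift_eq_closure

private theorem AX_inv {G : Type} [Group G] [Finite G] {K : Subgroup G} {g : G} (H : ∀ h ∈ K, g * h * g⁻¹ ∈ K) :
    ∀ h ∈ K, g⁻¹ * h * g ∈ K := by
  have hp : ∀ n : ℕ, ∀ h ∈ K, g ^ n * h * (g ^ n)⁻¹ ∈ K := by
    intro n
    induction n with
    | zero => intro h hh; simpa using hh
    | succ n ih =>
      intro h hh
      have h1 := H _ (ih h hh)
      have e : g ^ (n + 1) * h * (g ^ (n + 1))⁻¹ = g * (g ^ n * h * (g ^ n)⁻¹) * g⁻¹ := by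
        rw [pow_succ']
        group
      rw [e]
      exact h1
  intro h hh
  have h1 := hp (orderOf g - 1) h hh
  have e : g ^ (orderOf g - 1) = g⁻¹ := by
    have h2 : g * g ^ (orderOf g - 1) = 1 := by
      rw [← pow_succ', Nat.sub_add_cancel (orderOf_pos g), pow_orderOf_eq_one]
    exact (inv_eq_of_mul_eq_one_right h2).symm
  rw [e, inv_inv] at h1
  exact h1

namespace Dat

variable {p : ℕ} {G : Type} [Group G] (D : Dat p G)

theorem psi_inx (w : FreeGroup (Fin D.k)) : D.psi (inx D.k D.N w) = FreeGroup.lift D.x w := by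
  have h : D.psi.comp (inx D.k D.N) = FreeGroup.lift D.x := by
    apply FreeGroup.ext_hom
    intro i
    simp [psi, inx]
  rw [← h]
  rfl

theorem psi_X (i : Fin D.k) : D.psi (X i) = D.x i := by
  simp [psi, X]

theorem psi_Y (j : Fin D.N) : D.psi (Y j) = D.y j := by
  simp [psi, Y]

theorem psi_surj : Function.Surjective D.psi := by
  rw [← MonoidHom.range_eq_top]
  exact (range_lift_eq _).trans D.gen

theorem rel_mem (τ : RI D.k D.N D.nb) : D.rel τ ∈ D.psi.ker := by
  rw [MonoidHom.mem_ker]
  rcases τ with ⟨i, j⟩ | q | i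
  · show D.psi (cm (X i) (Y j) * (inx D.k D.N (D.cw i j))⁻¹) = 1
    rw [map_mul, map_inv, map_cm, psi_inx, psi_X, psi_Y, D.hcw2, mul_inv_cancel]
  · show D.psi (cm (Y q.1.1) (Y q.1.2) * (inx D.k D.N (D.aw q.1.1 q.1.2))⁻¹) = 1
    rw [map_mul, map_inv, map_cm, psi_inx, psi_Y, psi_Y, D.haw, mul_inv_cancel]
  · show D.psi (gpow Y (D.v i) * (inx D.k D.N (D.bw i))⁻¹) = 1
    rw [map_mul, map_inv, map_gpow, psi_inx, D.hbw]
    have e : (fun j => D.psi (Y j)) = D.y := funext D.psi_Y
    rw [e, mul_inv_cancel]

private theorem AX_cm (i : Fin D.k) (j : Fin D.N) : cm (D.x i) (D.y j) ∈ closure (Set.range D.x) := by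
  rw [← D.hcw2, ← range_lift_eq]
  exact ⟨_, rfl⟩

theorem G0_normal [Finite G] : (closure (Set.range D.x)).Normal := by
  have hy : ∀ j, ∀ h ∈ closure (Set.range D.x), D.y j * h * (D.y j)⁻¹ ∈ closure (Set.range D.x) := by
    intro j
    have h1 : ∀ h ∈ closure (Set.range D.x), (D.y j)⁻¹ * h * (D.y j)⁻¹⁻¹ ∈ closure (Set.range D.x) := by
      intro h hh
      induction hh using closure_induction with
      | mem z hz =>
        obtain ⟨i, rfl⟩ := hz
        have e : (D.y j)⁻¹ * D.x i * (D.y j)⁻¹⁻¹ = D.x i * cm (D.x i) (D.y j) := by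
          unfold cm
          group
        rw [e]
        exact mul_mem (subset_closure ⟨i, rfl⟩) (D.AX_cm i j)
      | one => simp
      | mul a b _ _ ha hb =>
        have e : (D.y j)⁻¹ * (a * b) * (D.y j)⁻¹⁻¹ =
          ((D.y j)⁻¹ * a * (D.y j)⁻¹⁻¹) * ((D.y j)⁻¹ * b * (D.y j)⁻¹⁻¹) := by group
        rw [e]
        exact mul_mem ha hb
      | inv a _ ha =>
        have e : (D.y j)⁻¹ * a⁻¹ * (D.y j)⁻¹⁻¹ = ((D.y j)⁻¹ * a * (D.y j)⁻¹⁻¹)⁻¹ := by group
        rw [e]
        exact inv_mem ha
    have h2 := AX_inv h1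
    intro h hh
    have h3 := h2 h hh
    rw [inv_inv] at h3
    exact h3
  have hall : ∀ g : G, ∀ h ∈ closure (Set.range D.x), g * h * g⁻¹ ∈ closure (Set.range D.x) := by
    intro g
    have hg : g ∈ closure (Set.range (Sum.elim D.x D.y)) := by rw [D.gen]; exact mem_top g
    induction hg using closure_induction with
    | mem z hz =>
      obtain ⟨i | j, rfl⟩ := hz
      · intro h hh
        have hx : D.x i ∈ closure (Set.range D.x) := subset_closure ⟨i, rfl⟩
        exact mul_mem (mul_mem hx hh) (inv_mem hx)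
      · exact hy j
    | one => intro h hh; simpa using hh
    | mul a b _ _ ha hb =>
      intro h hh
      have e : a * b * h * (a * b)⁻¹ = a * (b * h * b⁻¹) * a⁻¹ := by group
      rw [e]
      exact ha _ (hb _ hh)
    | inv a _ ha =>
      intro h hh
      rw [inv_inv]
      exact AX_inv ha h hh
  exact ⟨fun h hh g => hall g h hh⟩

theorem comm_le [Finite G] : commutator G ≤ closure (Set.range D.x) := by
  have hn := D.G0_normal
  refine commutator_le_of_gen D.gen ?_
  rintro a ⟨i | j, rfl⟩ b ⟨i' | j', rfl⟩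
  · show cm (D.x i) (D.x i') ∈ _
    have h1 : D.x i ∈ closure (Set.range D.x) := subset_closure ⟨i, rfl⟩
    have h2 : D.x i' ∈ closure (Set.range D.x) := subset_closure ⟨i', rfl⟩
    exact mul_mem (mul_mem (mul_mem (inv_mem h1) (inv_mem h2)) h1) h2
  · exact D.AX_cm i j'
  · show cm (D.y j) (D.x i') ∈ _
    have e : cm (D.y j) (D.x i') = (cm (D.x i') (D.y j))⁻¹ := by
      unfold cm
      group
    rw [e]
    exact inv_mem (D.AX_cm i' j)
  · show cm (D.y j) (D.y j') ∈ _
    rw [← D.haw, ← range_lift_eq]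
    exact ⟨_, rfl⟩

theorem ev_mem [Finite G] {r : FF D.k D.N} (hr : r ∈ D.psi.ker) :
    (fun j => ev r (Sum.inr j)) ∈ Submodule.span ℤ (Set.range D.v) := by
  have hn := D.G0_normal
  have hq : IsMulCommutative (G ⧸ closure (Set.range D.x)) :=
    Subgroup.Normal.quotient_commutative_iff_commutator_le.2 D.comm_le
  rw [← D.hv2]
  let cg : CommGroup (G ⧸ closure (Set.range D.x)) :=
    { (inferInstance : Group (G ⧸ closure (Set.range D.x))) with mul_comm := hq.is_comm.comm }
  let π : G →* G ⧸ closure (Set.range D.x) := QuotientGroup.mk' _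
  have h1 := @ev_hom _ _ _ (G ⧸ closure (Set.range D.x)) cg (π.comp D.psi) r
  have h2 : (π.comp D.psi) r = 1 := by
    rw [MonoidHom.comp_apply, MonoidHom.mem_ker.1 hr, map_one]
  rw [← QuotientGroup.eq_one_iff]
  show π (gpow D.y fun j => ev r (Sum.inr j)) = 1
  have h3 := map_gpow π D.y (fun j => ev r (Sum.inr j))
  have h4 := @gpow_comm (G ⧸ closure (Set.range D.x)) cg _ (fun j => π (D.y j)) (fun j => ev r (Sum.inr j))
  refine h3.trans (h4.trans ?_)
  rw [← h2]
  refine Eq.trans ?_ h1.symm
  rw [Fintype.prod_sum_type]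
  have h5 : ∀ i : Fin D.k, (π.comp D.psi) (FreeGroup.of (Sum.inl i)) = 1 := by
    intro i
    have : D.psi (FreeGroup.of (Sum.inl i)) = D.x i := D.psi_X i
    rw [MonoidHom.comp_apply, this]
    exact (QuotientGroup.eq_one_iff _).2 (subset_closure ⟨i, rfl⟩)
  have h6 : ∀ j : Fin D.N, (π.comp D.psi) (FreeGroup.of (Sum.inr j)) = π (D.y j) := by
    intro j
    have : D.psi (FreeGroup.of (Sum.inr j)) = D.y j := D.psi_Y j
    rw [MonoidHom.comp_apply, this]
  have h7 : ∀ i : Fin D.k, (π.comp D.psi) (FreeGroup.of (Sum.inl i)) ^ ev r (Sum.inl i) = 1 := by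
    intro i
    rw [h5 i, one_zpow]
  rw [Finset.prod_eq_one fun i _ => h7 i]
  refine Eq.trans ?_ (one_mul _).symm
  exact Finset.prod_congr rfl fun j _ => by rw [h6 j]

end Dat

end Pool.Agent.RG
end

section

/-!
# RG E2: few generators have the full derived subgroup

PROOF.  Claim: for every `j` there is `X ⊆ S`, `X.card ≤ 2 j`, with `⁅closure X, closure X⁆ = commutator G` or
`p ^ j ≤ Nat.card ⁅closure X, closure X⁆`.  `j = 0`: `X = ∅`.  Step: let `A = ⁅closure X, closure X⁆ ≠ commutator G`, `p ^ j ≤ |A|`.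
There are `s, s' ∈ S` with `⁅closure (X ∪ {s, s'}), same⁆ ≠ A`: suppose not.  For `s ∈ S`: `A = ⁅K, K⁆` with
`K = closure (X ∪ {s, s})`, so `A` is normalised by `K ∋ s` (`Subgroup.commutator_normal`-like: `⁅K, K⁆` is normal in `K`; or directly:
conjugation by an element of `K` maps `⁅K, K⁆` to itself, `Subgroup.map_commutator`).  So the normaliser of `A` contains `S`,
`A` is normal in `G`.  For `s, s' ∈ S`: `cm s s' ∈ ⁅closure (X ∪ {s, s'}), ..⁆ = A`.  By `commutator_le_of_gen` (AX)
`commutator G ≤ A ≤ commutator G`, contradiction.  The new commutator group contains `A` properly and is a `p`-group, so its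
order is a multiple of `p ^ a`, `|A| = p ^ a`, and bigger: at least `p ^ (j + 1)`.
For `j = c + 1` the second alternative is impossible: `⁅closure X, closure X⁆ ≤ commutator G` has at most `p ^ c`
elements.  So take the set of `j = c`: if `p ^ c ≤ |⁅closure X, closure X⁆|` then it is equal to `commutator G`
(`Subgroup.eq_of_le_of_card_ge`).
-/

set_option autoImplicit false

namespace Pool.Agent.RG

open Subgroup

open scoped commutatorElement

private theorem E2_mono {G : Type} [Group G] {A B : Set G} (h : A ⊆ B) :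
    ⁅closure A, closure A⁆ ≤ ⁅closure B, closure B⁆ :=
  commutator_mono (closure_mono h) (closure_mono h)

private theorem E2_step {p : ℕ} [hp : Fact p.Prime] {G : Type} [Group G] [Finite G] [DecidableEq G]
    (hG : IsPGroup p G) (S : Finset G) (hS : closure (S : Set G) = ⊤) (j : ℕ) :
    ∃ X ⊆ S, X.card ≤ 2 * j ∧ (⁅closure (X : Set G), closure (X : Set G)⁆ = commutator G ∨
      p ^ j ≤ Nat.card ↥⁅closure (X : Set G), closure (X : Set G)⁆) := by
  induction j with
  | zero =>
    refine ⟨∅, Finset.empty_subset _, by simp, Or.inr ?_⟩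
    rw [pow_zero]
    exact Nat.card_pos
  | succ j ih =>
    obtain ⟨X, hXS, hX, h⟩ := ih
    by_cases he : ⁅closure (X : Set G), closure (X : Set G)⁆ = commutator G
    · exact ⟨X, hXS, by omega, Or.inl he⟩
    have h1 : p ^ j ≤ Nat.card ↥⁅closure (X : Set G), closure (X : Set G)⁆ := h.resolve_left he
    have h2 : ∃ s ∈ S, ∃ s' ∈ S,
        ⁅closure ((insert s (insert s' X) : Finset G) : Set G),
          closure ((insert s (insert s' X) : Finset G) : Set G)⁆ ≠
        ⁅closure (X : Set G), closure (X : Set G)⁆ := by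
      by_contra hcon
      push Not at hcon
      have hn : ∀ s ∈ S, s ∈ normalizer
          ((⁅closure (X : Set G), closure (X : Set G)⁆ : Subgroup G) : Set G) := by
        intro s hs
        have h3 := hcon s hs s hs
        rw [← h3]
        have h4 : closure ((insert s (insert s X) : Finset G) : Set G) ≤ normalizer
            ((⁅closure ((insert s (insert s X) : Finset G) : Set G),
              closure ((insert s (insert s X) : Finset G) : Set G)⁆ : Subgroup G) : Set G) := by
          rw [le_normalizer_iff_commutator_le_right]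
          refine commutator_mono le_rfl ?_
          rw [commutator_le]
          intro a ha b hb
          exact Subgroup.mul_mem _ (Subgroup.mul_mem _ (Subgroup.mul_mem _ ha hb)
            (Subgroup.inv_mem _ ha)) (Subgroup.inv_mem _ hb)
        exact h4 (subset_closure (by simp))
      have ht : normalizer ((⁅closure (X : Set G), closure (X : Set G)⁆ : Subgroup G) : Set G) = ⊤ := by
        rw [eq_top_iff, ← hS, closure_le]
        exact hn
      have : (⁅closure (X : Set G), closure (X : Set G)⁆ : Subgroup G).Normal :=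
        normalizer_eq_top_iff.1 ht
      have h5 : commutator G ≤ ⁅closure (X : Set G), closure (X : Set G)⁆ := by
        refine commutator_le_of_gen hS fun a ha b hb => ?_
        rw [← hcon a ha b hb]
        have h6 : cm a b = (⁅a⁻¹, b⁻¹⁆ : G) := by
          exact (commutatorElement_def a⁻¹ b⁻¹).symm ▸ (by rw [inv_inv, inv_inv]; rfl)
        rw [h6]
        refine commutator_mem_commutator (Subgroup.inv_mem _ (Subgroup.subset_closure ?_))
          (Subgroup.inv_mem _ (Subgroup.subset_closure ?_))
        · simp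
        · simp
      exact he (le_antisymm (by rw [_root_.commutator_def]; exact commutator_mono le_top le_top) h5)
    obtain ⟨s, hs, s', hs', hne⟩ := h2
    refine ⟨insert s (insert s' X), ?_, ?_, Or.inr ?_⟩
    · intro a ha
      rw [Finset.mem_insert, Finset.mem_insert] at ha
      rcases ha with rfl | rfl | ha
      · exact hs
      · exact hs'
      · exact hXS ha
    · have e1 := Finset.card_insert_le s (insert s' X)
      have e2 := Finset.card_insert_le s' X
      omega
    · have hle : ⁅closure (X : Set G), closure (X : Set G)⁆ ≤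
          ⁅closure ((insert s (insert s' X) : Finset G) : Set G),
            closure ((insert s (insert s' X) : Finset G) : Set G)⁆ := by
        refine E2_mono ?_
        intro a ha
        rw [Finset.coe_insert, Finset.coe_insert]
        exact Or.inr (Or.inr ha)
      obtain ⟨a, ha⟩ := (hG.to_subgroup ⁅closure (X : Set G), closure (X : Set G)⁆).exists_card_eq
      obtain ⟨b, hb⟩ := (hG.to_subgroup ⁅closure ((insert s (insert s' X) : Finset G) : Set G),
            closure ((insert s (insert s' X) : Finset G) : Set G)⁆).exists_card_eq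
      have hlt : p ^ a < p ^ b := by
        by_contra hcon
        push Not at hcon
        rw [← ha, ← hb] at hcon
        exact hne (eq_of_le_of_card_ge hle hcon).symm
      rw [ha] at h1
      rw [hb]
      have hp1 : 1 < p := hp.out.one_lt
      have h7 : j ≤ a := (Nat.pow_le_pow_iff_right hp1).1 h1
      have h8 : a < b := (Nat.pow_lt_pow_iff_right hp1).1 hlt
      exact Nat.pow_le_pow_right (by omega) (by omega)

theorem exists_core {p : ℕ} [Fact p.Prime] {G : Type} [Group G] [Finite G] [DecidableEq G]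
    (hG : IsPGroup p G) {c : ℕ} (hc : Nat.card (commutator G) = p ^ c) (S : Finset G)
    (hS : closure (S : Set G) = ⊤) :
    ∃ X ⊆ S, X.card ≤ 2 * c ∧
      ⁅closure (X : Set G), closure (X : Set G)⁆ = commutator G := by
  obtain ⟨X, hXS, hX, h⟩ := E2_step hG S hS c
  refine ⟨X, hXS, hX, ?_⟩
  rcases h with h | h
  · exact h
  · refine eq_of_le_of_card_ge ?_ ?_
    · rw [_root_.commutator_def]
      exact commutator_mono le_top le_top
    · rw [hc]
      exact h

end Pool.Agent.RG
end

section

/-!
# RG E3: centralisers have small index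

`index_centralizer_le`: the index is the number of conjugates of `g`; `x⁻¹ g x = g * cm g x` (`cm g x = g⁻¹ x⁻¹ g x`), so the map
`G ⧸ centralizer {g} → commutator G`, `x ↦ cm g x` (or a suitable variant for left cosets: `x ↦ g⁻¹ * (x g x⁻¹)`, which depends on
`x` only up to right multiplication with elements which commute with `g`) is injective
(`Subgroup.index`, `Nat.card_le_card_of_injective`).
`index_centralizer_set_le`: induction on the finset; `centralizer (insert g S) = centralizer {g} ⊓ centralizer S`,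
`Subgroup.index_inf_le`.
-/

set_option autoImplicit false

namespace Pool.Agent.RG

open Subgroup
open scoped commutatorElement

variable {G : Type} [Group G] [Finite G]

theorem index_centralizer_le (g : G) :
    (centralizer ({g} : Set G)).index ≤ Nat.card (commutator G) := by
  classical
  have hmem : ∀ x : G, g⁻¹ * (x * g * x⁻¹) ∈ commutator G := by
    intro x
    have h : ⁅g⁻¹, x⁆ ∈ commutator G := by
      rw [_root_.commutator_def]
      exact Subgroup.commutator_mem_commutator (Subgroup.mem_top _) (Subgroup.mem_top _)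
    have h2 : ⁅g⁻¹, x⁆ = g⁻¹ * (x * g * x⁻¹) := by
      simp only [commutatorElement_def, inv_inv]
      group
    rw [← h2]
    exact h
  have hrel : ∀ x y : G, (x : G ⧸ centralizer ({g} : Set G)) = (y : G ⧸ centralizer ({g} : Set G)) ↔
      x * g * x⁻¹ = y * g * y⁻¹ := by
    intro x y
    rw [QuotientGroup.eq, Subgroup.mem_centralizer_singleton_iff]
    constructor
    · intro h
      have h3 : x⁻¹ * y * g * (x⁻¹ * y)⁻¹ = g := by
        rw [h]
        group
      calc x * g * x⁻¹ = x * (x⁻¹ * y * g * (x⁻¹ * y)⁻¹) * x⁻¹ := by rw [h3]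
        _ = y * g * y⁻¹ := by group
    · intro h
      have h4 : x⁻¹ * y * g = g * (x⁻¹ * y) := by
        calc x⁻¹ * y * g = x⁻¹ * (y * g * y⁻¹) * y := by group
          _ = x⁻¹ * (x * g * x⁻¹) * y := by rw [h]
          _ = g * (x⁻¹ * y) := by group
      exact h4
  let f : G ⧸ centralizer ({g} : Set G) → commutator G :=
    Quotient.lift (fun x : G => (⟨g⁻¹ * (x * g * x⁻¹), hmem x⟩ : commutator G)) (by
      intro x y hxy
      have h5 : (x : G ⧸ centralizer ({g} : Set G)) = (y : G ⧸ centralizer ({g} : Set G)) :=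
        Quotient.sound hxy
      have h6 := (hrel x y).1 h5
      apply Subtype.ext
      show g⁻¹ * (x * g * x⁻¹) = g⁻¹ * (y * g * y⁻¹)
      rw [h6])
  have hf : Function.Injective f := by
    intro a b
    refine Quotient.inductionOn₂ a b ?_
    intro x y hxy
    have h7 : g⁻¹ * (x * g * x⁻¹) = g⁻¹ * (y * g * y⁻¹) := congrArg Subtype.val hxy
    exact (hrel x y).2 (mul_left_cancel h7)
  exact Nat.card_le_card_of_injective f hf

theorem index_centralizer_set_le [DecidableEq G] (S : Finset G) :
    (centralizer (S : Set G)).index ≤ Nat.card (commutator G) ^ S.card := by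
  induction S using Finset.induction_on with
  | empty =>
    have h : centralizer ((∅ : Finset G) : Set G) = ⊤ := by
      rw [Subgroup.eq_top_iff']
      intro x
      rw [Subgroup.mem_centralizer_iff]
      intro h hh
      simp at hh
    rw [h]
    simp
  | insert a S ha ih =>
    have h : centralizer ((insert a S : Finset G) : Set G) =
        centralizer ({a} : Set G) ⊓ centralizer (S : Set G) := by
      ext x
      simp only [Subgroup.mem_inf, Subgroup.mem_centralizer_iff, Finset.coe_insert,
        Set.mem_insert_iff, Set.mem_singleton_iff, forall_eq, forall_eq_or_imp]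
    rw [h, Finset.card_insert_of_notMem ha, pow_succ, mul_comm (_ ^ _)]
    exact Subgroup.index_inf_le.trans (Nat.mul_le_mul (index_centralizer_le a) ih)

end Pool.Agent.RG
end

section

/-!
# RG V1: generation of a finite `p`-group is detected by homomorphisms to `F_p`

`exists_char`: take a maximal subgroup `M ≥ K` (coatom of the finite lattice, `IsCoatomic`, `eq_top_or_exists_le_coatom`).  A finite
`p`-group is nilpotent (`IsPGroup.isNilpotent`), so `M` is normal (`NormalizerCondition.normal_of_coatom`,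
`Group.normalizerCondition_of_isNilpotent`); `G ⧸ M` is a simple `p`-group (no subgroups except `⊥` and `⊤`, since `M` is a
coatom), so its order is `p` (e.g. its centre is `⊤`, an element of order `p` generates everything).  So there is an
isomorphism of `G ⧸ M` with `Multiplicative (ZMod p)` (`zmodCyclicMulEquiv` and `Nat.card = p`, or
`isCyclic_of_prime_card`, `mulEquivOfPrimeCardEq`), and `f` = the composition; it is not `0` as `M ≠ ⊤`, and `0` on `M ≥ K`.
`closure_eq_top_iff`: `→`: the kernel `{g | f g = 0}` is a subgroup which contains `S`.  `←`: `exists_char` for `K = closure S`.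
`Ev_mul`, `Ev_one`: from the definition.
-/

set_option autoImplicit false

namespace Pool.Agent.RG

open Subgroup

/-- The evaluation of the homomorphisms at `g`. -/
def Ev (p : ℕ) (G : Type) [Group G] (g : G) : HM p G →ₗ[ZMod p] ZMod p where
  toFun f := f.1 g
  map_add' _ _ := rfl
  map_smul' _ _ := rfl

theorem Ev_apply {p : ℕ} {G : Type} [Group G] (g : G) (f : HM p G) : Ev p G g f = f.1 g := rfl

theorem Ev_mul {p : ℕ} {G : Type} [Group G] (a b : G) : Ev p G (a * b) = Ev p G a + Ev p G b := by
  refine LinearMap.ext fun f => ?_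
  rw [LinearMap.add_apply, Ev_apply, Ev_apply, Ev_apply]
  exact f.2 a b

theorem Ev_one {p : ℕ} {G : Type} [Group G] : Ev p G 1 = 0 := by
  have h := Ev_mul (p := p) (1 : G) 1
  rw [mul_one] at h
  exact left_eq_add.1 h

private theorem V1_one {p : ℕ} {G : Type} [Group G] {f : G → ZMod p} (hf : f ∈ HM p G) : f 1 = 0 := by
  have h : f (1 * 1) = f 1 + f 1 := hf 1 1
  rw [mul_one] at h
  exact left_eq_add.1 h

private theorem V1_inv {p : ℕ} {G : Type} [Group G] {f : G → ZMod p} (hf : f ∈ HM p G) (a : G) :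
    f a⁻¹ = -f a := by
  have h : f (a⁻¹ * a) = f a⁻¹ + f a := hf a⁻¹ a
  rw [inv_mul_cancel, V1_one hf] at h
  exact eq_neg_of_add_eq_zero_left h.symm

variable {p : ℕ} [Fact p.Prime] {G : Type} [Group G] [Finite G]

theorem exists_char (hG : IsPGroup p G) (K : Subgroup G) (hK : K ≠ ⊤) :
    ∃ f ∈ HM p G, f ≠ 0 ∧ ∀ g ∈ K, f g = 0 := by
  obtain h0 | ⟨M, hM, hKM⟩ := eq_top_or_exists_le_coatom K
  · exact absurd h0 hK
  have hnil : Group.IsNilpotent G := hG.isNilpotent
  have hN : M.Normal := NormalizerCondition.normal_of_coatom M Group.normalizerCondition_of_isNilpotent hM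
  have hQp : IsPGroup p (G ⧸ M) := hG.to_quotient M
  have hne : Nontrivial (G ⧸ M) := by
    rw [QuotientGroup.nontrivial_iff]
    exact hM.1
  have hcard : Nat.card (G ⧸ M) = p := by
    obtain ⟨n, hn⟩ := hQp.exists_card_eq
    have hn0 : n ≠ 0 := by
      rintro rfl
      rw [pow_zero] at hn
      exact absurd hn (Finite.one_lt_card (α := G ⧸ M)).ne'
    obtain ⟨x, hx⟩ := exists_prime_orderOf_dvd_card' (G := G ⧸ M) p (hn ▸ dvd_pow_self p hn0)
    have h1 : Subgroup.zpowers x = ⊤ := by
      have h2 : M ≤ (Subgroup.zpowers x).comap (QuotientGroup.mk' M) := by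
        intro g hg
        rw [Subgroup.mem_comap]
        have h3 : QuotientGroup.mk' M g = 1 := (QuotientGroup.eq_one_iff g).2 hg
        rw [h3]
        exact one_mem _
      have hs : Function.Surjective (QuotientGroup.mk' M) := QuotientGroup.mk'_surjective M
      rcases h2.eq_or_lt with h3 | h3
      · exfalso
        have h4 : Subgroup.zpowers x = ⊥ := by
          rw [← Subgroup.map_comap_eq_self_of_surjective hs (Subgroup.zpowers x), ← h3]
          rw [Subgroup.map_eq_bot_iff, QuotientGroup.ker_mk']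
        rw [Subgroup.zpowers_eq_bot] at h4
        rw [h4, orderOf_one] at hx
        exact (Fact.out : p.Prime).one_lt.ne hx
      · have h4 := hM.2 _ h3
        rw [← Subgroup.map_comap_eq_self_of_surjective hs (Subgroup.zpowers x), h4,
          Subgroup.map_top_of_surjective _ hs]
    rw [← hx, ← Nat.card_zpowers, h1, Subgroup.card_top]
  have hcard' : Nat.card (Multiplicative (ZMod p)) = p := by
    rw [Nat.card_congr Multiplicative.toAdd, Nat.card_zmod]
  let e : (G ⧸ M) ≃* Multiplicative (ZMod p) := mulEquivOfPrimeCardEq hcard hcard'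
  refine ⟨fun g => Multiplicative.toAdd (e (QuotientGroup.mk' M g)), ?_, ?_, ?_⟩
  · intro a b
    change Multiplicative.toAdd (e (QuotientGroup.mk' M (a * b))) = _
    rw [map_mul, map_mul, toAdd_mul]
  · intro h
    apply hM.1
    rw [eq_top_iff]
    intro g _
    have h1 := congrFun h g
    change Multiplicative.toAdd (e (QuotientGroup.mk' M g)) = 0 at h1
    rw [toAdd_eq_zero, map_eq_one_iff e e.injective] at h1
    exact (QuotientGroup.eq_one_iff g).1 h1
  · intro g hg
    have h1 : QuotientGroup.mk' M g = 1 := (QuotientGroup.eq_one_iff g).2 (hKM hg)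
    change Multiplicative.toAdd (e (QuotientGroup.mk' M g)) = 0
    rw [h1, map_one, toAdd_one]

theorem closure_eq_top_iff (hG : IsPGroup p G) (S : Set G) :
    closure S = ⊤ ↔ ∀ f ∈ HM p G, (∀ s ∈ S, f s = 0) → f = 0 := by
  constructor
  · intro h f hf hS
    funext g
    have hg : g ∈ closure S := h ▸ Subgroup.mem_top g
    change f g = 0
    induction hg using Subgroup.closure_induction with
    | mem x hx => exact hS x hx
    | one => exact V1_one hf
    | mul x y _ _ hx hy => rw [hf x y, hx, hy, add_zero]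
    | inv x _ hx => rw [V1_inv hf, hx, neg_zero]
  · intro h
    by_contra hne
    obtain ⟨f, hf, hf0, hf1⟩ := exists_char hG (closure S) hne
    exact hf0 (h f hf fun s hs => hf1 s (Subgroup.subset_closure hs))

end Pool.Agent.RG
end

section

/-!
# RG V2: the dimension of `HM`, minimal generating families

`HM p G` is finite dimensional (a subspace of `G → F_p`).  Write `V` for the dual space `HM p G →ₗ F_p`.
`gen_iff`: `closure (range g) = ⊤` iff no `f ≠ 0` in `HM` vanishes on all `g i` (`closure_eq_top_iff`) iff the forms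
`Ev (g i)` span `V` (a proper subspace of the dual of a finite dimensional space is annihilated by some `f ≠ 0`:
`Subspace.dualCoannihilator`.., `Submodule.exists_le_ker_of_lt_top` applied to `V` and the double dual).
`Ev_span`: `g = id` in `gen_iff` (`closure univ = ⊤`).  `Ev_surj`: the range of `Ev` is closed under addition (`Ev_mul`,
`Ev_one`), so under multiplication with elements of `F_p` (natural numbers), so it is a subspace; it spans.
`finrank_HM`: `≤`: a generating set with `Group.rank G` elements (`Group.rank_spec`) spans `V`, `finrank V = finrank HM`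
(`Subspace.dual_finrank_eq`, `finrank_span_le_card` or `finrank_range_le_card`).  `≥`: a basis of `V` consisting of forms
`Ev (g i)` (`Ev_span`; `Module.Basis.extend`.. or choose preimages of a basis by `Ev_surj`); the `g i` generate `G` by `gen_iff`, so
`Group.rank G ≤ finrank V` (`Group.rank_le`).
`indep_of_gen`: a spanning family of `finrank V` forms is linearly independent (`linearIndependent_of_top_le_span_of_card_eq_finrank`).
`frK_of_gen`: the forms `Ev (g i)` are a basis of `V`, so there are `f_i ∈ HM` with `f_i (g j) = δ_ij` (the dual basis, via the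
double dual `Module.evalEquiv`).  For `r ∈ ker`: `0 = f_i (1) = f_i (lift g r) = ∑ j, ev r j * f_i (g j) = ev r i` in `F_p`
(`hom_of_ev` (EV) for the function `f_i ∘ lift g`).
-/

set_option autoImplicit false

namespace Pool.Agent.RG

open Subgroup

variable {p : ℕ} [Fact p.Prime] {G : Type} [Group G] [Finite G]

private theorem V2_fin : FiniteDimensional (ZMod p) (HM p G) := by
  have : FiniteDimensional (ZMod p) (G → ZMod p) := inferInstance
  exact FiniteDimensional.finiteDimensional_submodule _

theorem gen_iff (hG : IsPGroup p G) {ι : Type} (g : ι → G) :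
    closure (Set.range g) = ⊤ ↔ Submodule.span (ZMod p) (Set.range fun i => Ev p G (g i)) = ⊤ := by
  have hfin : FiniteDimensional (ZMod p) (HM p G) := V2_fin
  rw [closure_eq_top_iff hG]
  constructor
  · intro h
    let W : Subspace (ZMod p) (Module.Dual (ZMod p) (HM p G)) :=
      Submodule.span (ZMod p) (Set.range fun i => Ev p G (g i))
    have h1 : W.dualCoannihilator = ⊥ := by
      rw [eq_bot_iff]
      intro f hf
      rw [Submodule.mem_dualCoannihilator] at hf
      rw [Submodule.mem_bot]
      have h2 := h f.1 f.2 (by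
        rintro s ⟨i, rfl⟩
        have := hf (Ev p G (g i)) (Submodule.subset_span ⟨i, rfl⟩)
        rwa [Ev_apply] at this)
      exact Subtype.ext h2
    have h3 : W.dualCoannihilator.dualAnnihilator = W :=
      Subspace.dualCoannihilator_dualAnnihilator_eq
    rw [h1, Submodule.dualAnnihilator_bot] at h3
    exact h3.symm
  · intro h f hf hz
    have h1 : ∀ φ : Module.Dual (ZMod p) (HM p G), φ ⟨f, hf⟩ = 0 := by
      intro φ
      have hφ : φ ∈ Submodule.span (ZMod p) (Set.range fun i => Ev p G (g i)) := by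
        rw [h]; exact Submodule.mem_top
      refine Submodule.span_induction (p := fun φ _ => φ (⟨f, hf⟩ : HM p G) = 0) ?_ ?_ ?_ ?_ hφ
      · rintro _ ⟨i, rfl⟩
        show f (g i) = 0
        exact hz _ ⟨i, rfl⟩
      · rfl
      · intro a b _ _ ha hb
        rw [LinearMap.add_apply, ha, hb, add_zero]
      · intro c a _ ha
        rw [LinearMap.smul_apply, ha, smul_zero]
    have h2 := (Module.forall_dual_apply_eq_zero_iff (ZMod p) (⟨f, hf⟩ : HM p G)).1 h1
    exact congrArg Subtype.val h2

private theorem V2_span (hG : IsPGroup p G) :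
    Submodule.span (ZMod p) (Set.range (Ev p G)) = ⊤ := by
  have h := (gen_iff hG (id : G → G)).1 (by rw [Set.range_id]; exact closure_univ)
  exact h

omit [Finite G] in
private theorem V2_pow (g : G) (n : ℕ) : Ev p G (g ^ n) = (n : ZMod p) • Ev p G g := by
  induction n with
  | zero => rw [pow_zero, Ev_one, Nat.cast_zero, zero_smul]
  | succ n ih => rw [pow_succ, Ev_mul, ih, Nat.cast_succ, add_smul, one_smul]

theorem Ev_surj (hG : IsPGroup p G) : Function.Surjective (Ev p G) := by
  let S : Submodule (ZMod p) (HM p G →ₗ[ZMod p] ZMod p) :=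
    { carrier := Set.range (Ev p G)
      add_mem' := by
        rintro _ _ ⟨a, rfl⟩ ⟨b, rfl⟩
        exact ⟨a * b, Ev_mul a b⟩
      zero_mem' := ⟨1, Ev_one⟩
      smul_mem' := by
        rintro c _ ⟨a, rfl⟩
        refine ⟨a ^ c.val, ?_⟩
        rw [V2_pow, ZMod.natCast_val, ZMod.cast_id', id] }
  have h1 : (⊤ : Submodule (ZMod p) (HM p G →ₗ[ZMod p] ZMod p)) ≤ S := by
    rw [← V2_span hG]
    exact Submodule.span_le.2 (fun _ h => h)
  intro φ
  exact h1 (Submodule.mem_top : φ ∈ ⊤)

theorem finrank_HM (hG : IsPGroup p G) : Module.finrank (ZMod p) (HM p G →ₗ[ZMod p] ZMod p) = Group.rank G := by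
  classical
  have hfin : FiniteDimensional (ZMod p) (HM p G) := V2_fin
  refine le_antisymm ?_ ?_
  · obtain ⟨S, hS, hcl⟩ := Group.rank_spec G
    have h1 : closure (Set.range (fun s : S => (s : G))) = ⊤ := by
      rw [Subtype.range_coe_subtype]
      exact hcl
    have h2 := (gen_iff hG (fun s : S => (s : G))).1 h1
    have h3 := finrank_range_le_card (R := ZMod p) (fun s : S => Ev p G (s : G))
    rw [Set.finrank, h2, finrank_top, Fintype.card_coe, hS] at h3
    exact h3
  · let b := Module.finBasis (ZMod p) (HM p G →ₗ[ZMod p] ZMod p)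
    choose g hg using fun i => Ev_surj (p := p) (G := G) hG (b i)
    have h1 : (fun i => Ev p G (g i)) = b := funext hg
    have h2 : closure (Set.range g) = ⊤ := by
      rw [gen_iff hG g, h1]
      exact b.span_eq
    have h3 := Group.rank_le (S := Finset.univ.image g) (by
      rw [Finset.coe_image, Finset.coe_univ, Set.image_univ]
      exact h2)
    refine h3.trans (Finset.card_image_le.trans ?_)
    rw [Finset.card_univ, Fintype.card_fin]

theorem indep_of_gen (hG : IsPGroup p G) {ι : Type} [Fintype ι] (g : ι → G)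
    (hg : closure (Set.range g) = ⊤) (hc : Fintype.card ι = Group.rank G) :
    LinearIndependent (ZMod p) fun i => Ev p G (g i) := by
  have hfin : FiniteDimensional (ZMod p) (HM p G) := V2_fin
  refine linearIndependent_of_top_le_span_of_card_eq_finrank ?_ ?_
  · rw [(gen_iff hG g).1 hg]
  · rw [hc, finrank_HM hG]

theorem frK_of_gen (hG : IsPGroup p G) {ι : Type} [Fintype ι] [DecidableEq ι] (g : ι → G)
    (hg : closure (Set.range g) = ⊤) (hc : Fintype.card ι = Group.rank G) :
    FrK p (FreeGroup.lift g).ker := by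
  have hfin : FiniteDimensional (ZMod p) (HM p G) := V2_fin
  intro r hr i
  have hli := indep_of_gen hG g hg hc
  have hsp := (gen_iff hG g).1 hg
  let b := Module.Basis.mk hli hsp.ge
  have hb : ∀ j, b j = Ev p G (g j) := fun j => Module.Basis.mk_apply hli hsp.ge j
  obtain ⟨f, hf⟩ := (Module.evalEquiv (ZMod p) (HM p G)).surjective (b.coord i)
  have hfg : ∀ j, f.1 (g j) = if j = i then 1 else 0 := by
    intro j
    have h1 := congrArg (fun ψ : Module.Dual (ZMod p) (Module.Dual (ZMod p) (HM p G)) =>
      ψ (Ev p G (g j))) hf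
    simp only [Module.evalEquiv_apply, Module.Dual.eval_apply] at h1
    rw [Ev_apply] at h1
    rw [h1, ← hb, Module.Basis.coord_apply, Module.Basis.repr_self, Finsupp.single_apply]
  have hmul : ∀ a b : G, f.1 (a * b) = f.1 a + f.1 b := f.2
  have hone : f.1 1 = 0 := by
    have := hmul 1 1
    rw [mul_one] at this
    exact left_eq_add.1 this
  have h2 := hom_of_ev (p := p) (fun w => f.1 (FreeGroup.lift g w))
    (fun a b => by rw [map_mul, hmul]) r
  rw [MonoidHom.mem_ker] at hr
  simp only [hr, hone, FreeGroup.lift_apply_of, hfg, mul_ite, mul_one, mul_zero,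
    Finset.sum_ite_eq', Finset.mem_univ, if_true] at h2
  exact (ZMod.intCast_zmod_eq_zero_iff_dvd _ p).1 h2.symm

end Pool.Agent.RG
end

section

/-!
# RG V3: extension of independent families

`exists_indep`: let `W` be the span of the `Ev (g i)`; `Nat.card W ≤ p ^ card ι` (`finrank_span_le_card`,
`Module.natCard_eq_pow_finrank`).  Suppose `Ev h ∈ W` for all `h ∈ C`.  The map `Ev : G → V` is surjective (`Ev_surj`) and a
homomorphism (to `Multiplicative V`); the image `E` of `C` has index at most `C.index` in `V` (`Subgroup.index_map_le`-like,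
`Subgroup.index_map_dvd`), so `p ^ rank G = Nat.card V ≤ C.index * Nat.card E ≤ p ^ u * p ^ card ι < p ^ rank G`,
contradiction.  So there is `h ∈ C` with `Ev h ∉ W`, and the extended family is linearly independent (`LinearIndependent.option`).
`exists_complete`: `Ev (g i)` independent; the forms `Ev h`, `h : G`, span `V` (`Ev_surj`), so the family can be extended to a basis by
forms `Ev (g' j)`: iterate: as long as the span of the family is not `⊤` there is `h` with `Ev h` outside; induction on
`finrank V - card ι`; or apply `exists_linearIndependent_extension` to the sets of forms.  Number of elements `= finrank V = rank`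
(`finrank_HM`), generation by `gen_iff`.
-/

set_option autoImplicit false

namespace Pool.Agent.RG

open Subgroup

variable {p : ℕ} [Fact p.Prime] {G : Type} [Group G] [Finite G]

theorem exists_indep (hG : IsPGroup p G) {ι : Type} [Fintype ι] (g : ι → G)
    (hg : LinearIndependent (ZMod p) fun i => Ev p G (g i)) (C : Subgroup G) {u : ℕ}
    (hC : C.index ≤ p ^ u) (hu : Fintype.card ι + u < Group.rank G) :
    ∃ h ∈ C, LinearIndependent (ZMod p) fun i : Option ι => Ev p G (i.elim h g) := by
  classical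
  have hp : p.Prime := Fact.out
  have key : ∃ h ∈ C, Ev p G h ∉ Submodule.span (ZMod p) (Set.range fun i => Ev p G (g i)) := by
    by_contra hcon
    push Not at hcon
    have hfinV : Finite (HM p G →ₗ[ZMod p] ZMod p) := Module.finite_of_finite (ZMod p)
    let φ : G →* Multiplicative (HM p G →ₗ[ZMod p] ZMod p) :=
      { toFun := fun x => Multiplicative.ofAdd (Ev p G x)
        map_one' := by rw [Ev_one]; rfl
        map_mul' := fun a b => by rw [Ev_mul]; rfl }
    have hφ : Function.Surjective φ := by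
      intro y
      obtain ⟨x, hx⟩ := Ev_surj hG (Multiplicative.toAdd y)
      exact ⟨x, by
        show Multiplicative.ofAdd (Ev p G x) = y
        rw [hx]
        rfl⟩
    have h1 : (C.map φ).index ≤ C.index :=
      Nat.le_of_dvd (Nat.pos_of_ne_zero C.index_ne_zero_of_finite) (Subgroup.index_map_dvd C hφ)
    have h2 : Nat.card (C.map φ) ≤
        Nat.card (Submodule.span (ZMod p) (Set.range fun i => Ev p G (g i))) := by
      refine Nat.card_le_card_of_injective
        (fun x => (⟨Multiplicative.toAdd x.1, ?_⟩ :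
          (Submodule.span (ZMod p) (Set.range fun i => Ev p G (g i))))) ?_
      · obtain ⟨c, hc, hcx⟩ := x.2
        rw [← hcx]
        exact hcon c hc
      · intro x y hxy
        have hxy' : Multiplicative.toAdd x.1 = Multiplicative.toAdd y.1 := Subtype.mk.inj hxy
        exact Subtype.ext (Multiplicative.toAdd.injective hxy')
    have h3 : Nat.card (Submodule.span (ZMod p) (Set.range fun i => Ev p G (g i))) ≤
        p ^ Fintype.card ι := by
      rw [Module.natCard_eq_pow_finrank (K := ZMod p), Nat.card_zmod]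
      exact Nat.pow_le_pow_right hp.pos (finrank_range_le_card _)
    have h4 : Nat.card (Multiplicative (HM p G →ₗ[ZMod p] ZMod p)) = p ^ Group.rank G := by
      have h5 : Nat.card (Multiplicative (HM p G →ₗ[ZMod p] ZMod p)) =
          Nat.card (HM p G →ₗ[ZMod p] ZMod p) := rfl
      rw [h5, Module.natCard_eq_pow_finrank (K := ZMod p), Nat.card_zmod, finrank_HM hG]
    have h6 := (C.map φ).card_mul_index
    rw [h4] at h6
    have h7 : Nat.card (C.map φ) * (C.map φ).index ≤ p ^ Fintype.card ι * p ^ u :=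
      Nat.mul_le_mul (h2.trans h3) (h1.trans hC)
    rw [h6, ← pow_add] at h7
    have h8 : p ^ (Fintype.card ι + u) < p ^ Group.rank G := Nat.pow_lt_pow_right hp.one_lt hu
    omega
  obtain ⟨h, hhC, hh⟩ := key
  refine ⟨h, hhC, ?_⟩
  have h9 := LinearIndependent.option hg hh
  have h10 : (fun i : Option ι => Ev p G (i.elim h g)) =
      fun o => Option.casesOn' o (Ev p G h) (fun i => Ev p G (g i)) := by
    funext i
    cases i <;> rfl
  rw [h10]
  exact h9

private theorem V3_aux (hG : IsPGroup p G) (b : ℕ) : ∀ (ι : Type) [Fintype ι] (g : ι → G),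
    (LinearIndependent (ZMod p) fun i => Ev p G (g i)) → Fintype.card ι + b = Group.rank G →
      ∃ g' : Fin b → G, closure (Set.range (Sum.elim g g')) = ⊤ := by
  have hp : p.Prime := Fact.out
  induction b with
  | zero =>
    intro ι _ g hg hc
    refine ⟨Fin.elim0, ?_⟩
    have h1 : Submodule.span (ZMod p) (Set.range fun i => Ev p G (g i)) = ⊤ := by
      apply hg.span_eq_top_of_card_eq_finrank'
      rw [finrank_HM hG]
      omega
    have h2 := (gen_iff hG g).2 h1
    rw [eq_top_iff, ← h2]
    apply Subgroup.closure_mono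
    rintro _ ⟨i, rfl⟩
    exact ⟨Sum.inl i, rfl⟩
  | succ b ih =>
    intro ι _ g hg hc
    obtain ⟨h, -, hh⟩ := exists_indep hG g hg ⊤ (u := 0) (by simp) (by omega)
    obtain ⟨g', hg'⟩ := ih (Option ι) (fun i => i.elim h g) hh (by
      rw [Fintype.card_option]
      omega)
    refine ⟨Fin.cons h g', ?_⟩
    rw [eq_top_iff, ← hg']
    apply Subgroup.closure_mono
    rintro _ ⟨i, rfl⟩
    rcases i with (_ | i) | j
    · exact ⟨Sum.inr 0, by simp⟩
    · exact ⟨Sum.inl i, rfl⟩
    · exact ⟨Sum.inr j.succ, by simp⟩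

theorem exists_complete (hG : IsPGroup p G) {ι : Type} [Fintype ι] (g : ι → G)
    (hg : LinearIndependent (ZMod p) fun i => Ev p G (g i)) :
    ∃ b : ℕ, Fintype.card ι + b = Group.rank G ∧
      ∃ g' : Fin b → G, closure (Set.range (Sum.elim g g')) = ⊤ := by
  have h1 : Fintype.card ι ≤ Group.rank G := by
    rw [← finrank_HM hG]
    exact hg.fintype_card_le_finrank
  refine ⟨Group.rank G - Fintype.card ι, by omega, ?_⟩
  exact V3_aux hG _ ι g hg (by omega)

end Pool.Agent.RG
end

section

/-!
# RG E4: the generating family with `4c + 1` designated elements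

PROOF.  `c = 0`: the group is commutative; take `m = 0`, `k = 0` and for `y` a generating family of `Group.rank G` elements
(`Group.rank_spec`); `⁅closure ∅, ..⁆ = ⊥ = commutator G` (order `p ^ 0 = 1`).
`c ≥ 1`: `S` with `closure S = ⊤`, `S.card = Group.rank G` (`Group.rank_spec`).  `X ⊆ S` from `exists_core` (E2), `k = X.card ≤ 2 c`,
`x : Fin k → G` an enumeration of `X` (`X.equivFin`).  The forms `Ev (x i)` are linearly independent (`indep_of_gen` for the
inclusion of `S`, restricted to `X`).
Claim: for every `r ≤ 4 c + 1` there is `h : Fin r → G` with `Ev` of `Sum.elim x h` linearly independent, all `h j` commuting with all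
`x i` and with each other.  Step `r → r + 1`, `r ≤ 4 c`: `C = ` centraliser of the set of all `x i`, `h j`, index
`≤ (p ^ c) ^ (k + r) = p ^ (c (k + r))` (`index_centralizer_set_le` E3); `k + r ≤ 6 c`,
`(k + r) + c (k + r) ≤ 6 c (c + 1) ≤ 12 c ^ 2 < 13 c ^ 2 ≤ Group.rank G`; `exists_indep` (V3) gives `h' ∈ C`; the family with the index
type `Option (Fin k ⊕ Fin r)` is reindexed by `Fin k ⊕ Fin (r + 1)` (`Fin.snoc`).
With `r = m = 4 c + 1`: `exists_complete` (V3) gives `b`, `g'`; `N = m + b`, `y = Fin.append h g'` (`y j = h j` for `j.val < m`).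
`cm a b = 1` iff `a` and `b` commute.  Count: `k ^ 2 + k + c (k + 1) ≤ 6 c ^ 2 + 3 c ≤ 8 c ^ 2 + 2 c = m (m - 1) / 2`.
-/

set_option autoImplicit false

namespace Pool.Agent.RG

open Subgroup

theorem cm_eq_one {G : Type} [Group G] {a b : G} : cm a b = 1 ↔ a * b = b * a := by
  have h : cm a b = (b * a)⁻¹ * (a * b) := by
    unfold cm
    group
  rw [h, inv_mul_eq_one]
  exact eq_comm

/-- The reindexing map. -/
def E4_psi (k r : ℕ) : Fin k ⊕ Fin (r + 1) → Option (Fin k ⊕ Fin r)
  | Sum.inl i => some (Sum.inl i)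
  | Sum.inr j => Fin.cases none (fun j => some (Sum.inr j)) j

theorem E4_psi_inj (k r : ℕ) : Function.Injective (E4_psi k r) := by
  intro a b h
  rcases a with a | a <;> rcases b with b | b
  · simp only [E4_psi, Option.some.injEq, Sum.inl.injEq] at h
    rw [h]
  · refine Fin.cases (motive := fun b => E4_psi k r (Sum.inl a) = E4_psi k r (Sum.inr b) →
      (Sum.inl a : Fin k ⊕ Fin (r + 1)) = Sum.inr b) ?_ (fun j => ?_) b h
    · intro h
      simp [E4_psi] at h
    · intro h
      simp [E4_psi] at h
  · refine Fin.cases (motive := fun a => E4_psi k r (Sum.inr a) = E4_psi k r (Sum.inl b) →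
      (Sum.inr a : Fin k ⊕ Fin (r + 1)) = Sum.inl b) ?_ (fun j => ?_) a h
    · intro h
      simp [E4_psi] at h
    · intro h
      simp [E4_psi] at h
  · refine Fin.cases (motive := fun a => E4_psi k r (Sum.inr a) = E4_psi k r (Sum.inr b) →
      (Sum.inr a : Fin k ⊕ Fin (r + 1)) = Sum.inr b) ?_ (fun j => ?_) a h
    · refine Fin.cases (motive := fun b => E4_psi k r (Sum.inr 0) = E4_psi k r (Sum.inr b) →
        (Sum.inr 0 : Fin k ⊕ Fin (r + 1)) = Sum.inr b) ?_ (fun l => ?_) b
      · intro _
        rfl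
      · intro h
        simp [E4_psi] at h
    · refine Fin.cases (motive := fun b => E4_psi k r (Sum.inr j.succ) = E4_psi k r (Sum.inr b) →
        (Sum.inr j.succ : Fin k ⊕ Fin (r + 1)) = Sum.inr b) ?_ (fun l => ?_) b
      · intro h
        simp [E4_psi] at h
      · intro h
        simp [E4_psi] at h
        rw [h]

/-- Commuting elements, one after the other. -/
theorem E4_claim {p : ℕ} [Fact p.Prime] {G : Type} [Group G] [Finite G] (hG : IsPGroup p G)
    {c : ℕ} (hc : Nat.card (commutator G) = p ^ c) (hd : 13 * c ^ 2 ≤ Group.rank G) (hc1 : 1 ≤ c)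
    {k : ℕ} (hk : k ≤ 2 * c) (x : Fin k → G)
    (hx : LinearIndependent (ZMod p) fun i => Ev p G (x i)) :
    ∀ r : ℕ, r ≤ 4 * c + 1 → ∃ h : Fin r → G,
      (LinearIndependent (ZMod p) fun i : Fin k ⊕ Fin r => Ev p G (Sum.elim x h i)) ∧
      (∀ i j, x i * h j = h j * x i) ∧ (∀ j l, h j * h l = h l * h j) := by
  classical
  intro r
  induction r with
  | zero =>
    intro _
    refine ⟨Fin.elim0, ?_, fun i j => j.elim0, fun j l => j.elim0⟩
    have h1 := hx.comp (fun i : Fin k ⊕ Fin 0 => Sum.elim id (fun j => Fin.elim0 j) i) (by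
      rintro (a | a) (b | b) h
      · exact congrArg Sum.inl h
      · exact b.elim0
      · exact a.elim0
      · exact a.elim0)
    have e : (fun i : Fin k ⊕ Fin 0 => Ev p G (Sum.elim x Fin.elim0 i)) =
        (fun i => Ev p G (x i)) ∘ (fun i : Fin k ⊕ Fin 0 => Sum.elim id (fun j => Fin.elim0 j) i) := by
      funext i
      rcases i with i | i
      · rfl
      · exact i.elim0
    rw [e]
    exact h1
  | succ r ih =>
    intro hr
    obtain ⟨h, h1, h2, h3⟩ := ih (by omega)
    set T : Finset G := (Finset.univ.image x) ∪ (Finset.univ.image h) with hT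
    have hTc : T.card ≤ k + r := by
      refine (Finset.card_union_le _ _).trans (Nat.add_le_add ?_ ?_)
      · refine Finset.card_image_le.trans ?_
        rw [Finset.card_univ, Fintype.card_fin]
      · refine Finset.card_image_le.trans ?_
        rw [Finset.card_univ, Fintype.card_fin]
    have hp : 0 < p := (Fact.out : p.Prime).pos
    have hidx : (centralizer (T : Set G)).index ≤ p ^ (c * (k + r)) := by
      refine (index_centralizer_set_le T).trans ?_
      rw [hc, ← pow_mul]
      exact Nat.pow_le_pow_right hp (Nat.mul_le_mul le_rfl hTc)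
    have hu : Fintype.card (Fin k ⊕ Fin r) + c * (k + r) < Group.rank G := by
      rw [Fintype.card_sum, Fintype.card_fin, Fintype.card_fin]
      have h4 : k + r ≤ 6 * c := by omega
      have h5 : c * (k + r) ≤ c * (6 * c) := Nat.mul_le_mul le_rfl h4
      nlinarith
    obtain ⟨h', hh', hi⟩ := exists_indep hG (Sum.elim x h) h1 (centralizer (T : Set G)) hidx hu
    rw [mem_centralizer_iff] at hh'
    have hxc : ∀ i, x i * h' = h' * x i := fun i => hh' (x i) (by
      rw [Finset.mem_coe, hT, Finset.mem_union]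
      exact Or.inl (Finset.mem_image_of_mem x (Finset.mem_univ i)))
    have hhc : ∀ i, h i * h' = h' * h i := fun i => hh' (h i) (by
      rw [Finset.mem_coe, hT, Finset.mem_union]
      exact Or.inr (Finset.mem_image_of_mem h (Finset.mem_univ i)))
    refine ⟨Fin.cons h' h, ?_, ?_, ?_⟩
    · have h4 := hi.comp (E4_psi k r) (E4_psi_inj k r)
      have e : (fun i : Fin k ⊕ Fin (r + 1) => Ev p G (Sum.elim x (Fin.cons h' h) i)) =
          (fun i : Option (Fin k ⊕ Fin r) => Ev p G (i.elim h' (Sum.elim x h))) ∘ E4_psi k r := by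
        funext i
        rcases i with i | i
        · rfl
        · refine Fin.cases ?_ (fun j => ?_) i
          · rfl
          · rfl
      rw [e]
      exact h4
    · intro i j
      refine Fin.cases ?_ (fun j => ?_) j
      · rw [Fin.cons_zero]
        exact hxc i
      · rw [Fin.cons_succ]
        exact h2 i j
    · intro j l
      refine Fin.cases ?_ (fun j => ?_) j
      · refine Fin.cases ?_ (fun l => ?_) l
        · rfl
        · rw [Fin.cons_zero, Fin.cons_succ]
          exact (hhc l).symm
      · refine Fin.cases ?_ (fun l => ?_) l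
        · rw [Fin.cons_zero, Fin.cons_succ]
          exact hhc j
        · rw [Fin.cons_succ, Fin.cons_succ]
          exact h3 j l

theorem exists_family {p : ℕ} [Fact p.Prime] {G : Type} [Group G] [Finite G] (hG : IsPGroup p G)
    {c : ℕ} (hc : Nat.card (commutator G) = p ^ c) (hd : 13 * c ^ 2 ≤ Group.rank G) :
    ∃ (k N m : ℕ) (x : Fin k → G) (y : Fin N → G), k + N = Group.rank G ∧ m ≤ N ∧
      closure (Set.range (Sum.elim x y)) = ⊤ ∧
      ⁅closure (Set.range x), closure (Set.range x)⁆ = commutator G ∧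
      (∀ i j, j.val < m → cm (x i) (y j) = 1) ∧
      (∀ j l, j.val < m → l.val < m → cm (y j) (y l) = 1) ∧
      k ^ 2 + k + c * (k + 1) ≤ m * (m - 1) / 2 := by
  classical
  obtain ⟨S, hScard, hS⟩ := Group.rank_spec G
  rcases Nat.eq_zero_or_pos c with rfl | hc1
  · set y : Fin S.card → G := fun i => (S.equivFin.symm i).1 with hy
    have hyr : Set.range y = (S : Set G) := by
      ext g
      constructor
      · rintro ⟨i, rfl⟩
        exact (S.equivFin.symm i).2
      · intro hg
        refine ⟨S.equivFin ⟨g, hg⟩, ?_⟩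
        rw [hy]
        simp
    have hbot : commutator G = ⊥ := by
      rw [pow_zero] at hc
      exact Subgroup.card_eq_one.1 hc
    refine ⟨0, S.card, 0, Fin.elim0, y, by rw [zero_add, hScard], Nat.zero_le _, ?_, ?_,
      fun i => i.elim0, fun j l hj => absurd hj (Nat.not_lt_zero _), by simp⟩
    · have h1 : Set.range (Sum.elim (Fin.elim0 : Fin 0 → G) y) = (S : Set G) := by
        rw [← hyr, Set.Sum.elim_range]
        simp
      rw [h1, hS]
    · have h1 : Set.range (Fin.elim0 : Fin 0 → G) = ∅ := Set.range_eq_empty _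
      rw [h1, Subgroup.closure_empty, hbot, Subgroup.commutator_bot_left]
  · obtain ⟨X, hXS, hXc, hXcomm⟩ := exists_core hG hc S hS
    set x : Fin X.card → G := fun i => (X.equivFin.symm i).1 with hx
    have hxr : Set.range x = (X : Set G) := by
      ext g
      constructor
      · rintro ⟨i, rfl⟩
        exact (X.equivFin.symm i).2
      · intro hg
        refine ⟨X.equivFin ⟨g, hg⟩, ?_⟩
        rw [hx]
        simp
    have hind : LinearIndependent (ZMod p) fun s : S => Ev p G s.1 := by
      refine indep_of_gen hG (fun s : S => s.1) ?_ ?_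
      · rw [Subtype.range_coe_subtype]
        exact hS
      · rw [Fintype.card_coe, hScard]
    have hxi : LinearIndependent (ZMod p) fun i => Ev p G (x i) := by
      have h1 := hind.comp (fun i : Fin X.card =>
        (⟨(X.equivFin.symm i).1, hXS (X.equivFin.symm i).2⟩ : S)) (by
          intro a b h
          have h2 : (X.equivFin.symm a).1 = (X.equivFin.symm b).1 :=
            congrArg (fun s : S => s.1) h
          exact X.equivFin.symm.injective (Subtype.ext h2))
      exact h1
    obtain ⟨h, h1, h2, h3⟩ := E4_claim hG hc hd hc1 hXc x hxi (4 * c + 1) le_rfl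
    obtain ⟨b, hb, g', hg'⟩ := exists_complete hG (Sum.elim x h) h1
    rw [Fintype.card_sum, Fintype.card_fin, Fintype.card_fin] at hb
    have hyj : ∀ (j : Fin (4 * c + 1 + b)) (hj : j.val < 4 * c + 1),
        Fin.append h g' j = h ⟨j.val, hj⟩ := by
      intro j hj
      exact Fin.append_left h g' ⟨j.val, hj⟩
    refine ⟨X.card, 4 * c + 1 + b, 4 * c + 1, x, Fin.append h g', by rw [← hb]; ring,
      Nat.le_add_right _ _, ?_, ?_, ?_, ?_, ?_⟩
    · rw [← hg']
      congr 1
      ext g
      constructor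
      · rintro ⟨i, rfl⟩
        rcases i with i | i
        · exact ⟨Sum.inl (Sum.inl i), rfl⟩
        · refine Fin.addCases (fun i => ?_) (fun i => ?_) i
          · exact ⟨Sum.inl (Sum.inr i), by simp⟩
          · exact ⟨Sum.inr i, by simp⟩
      · rintro ⟨i, rfl⟩
        rcases i with (i | i) | i
        · exact ⟨Sum.inl i, rfl⟩
        · exact ⟨Sum.inr (Fin.castAdd b i), by simp⟩
        · exact ⟨Sum.inr (Fin.natAdd (4 * c + 1) i), by simp⟩
    · rw [hxr]
      exact hXcomm
    · intro i j hj
      rw [cm_eq_one, hyj j hj]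
      exact h2 i _
    · intro j l hj hl
      rw [cm_eq_one, hyj j hj, hyj l hl]
      exact h3 _ _
    · rw [Nat.le_div_iff_mul_le (by norm_num), Nat.add_sub_cancel]
      set k := X.card
      have h4 : k * k ≤ 2 * c * (2 * c) := Nat.mul_le_mul hXc hXc
      have h5 : c * k ≤ c * (2 * c) := Nat.mul_le_mul le_rfl hXc
      nlinarith

end Pool.Agent.RG
end

section

/-!
# RG CL: the relators of type a, b, c and the `rho j` present `G`

PROOF.  `N` := the normal closure.  `N ≤ psi.ker`: `D.rel_mem`, `psi_inx`, and `rho j ∈ (lift x).ker` (`D.hrho`).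
Let `q : FF → H = FF ⧸ N`, `Q = image of inx`, i.e. `(q.comp inx).range`.
(1) `Q` is finite: `q.comp inx` kills `rho j`, so it kills `(lift x).ker` (`D.hrho`, `Subgroup.normalClosure_le_normal`), so
it factors over `(lift x).range ⊆ G` (`Nat.card` or `Finite` of the range of a homomorphism whose kernel contains the
kernel of a homomorphism with finite range; `QuotientGroup.quotientKerEquivRange`).
(2) `Q` is normal: `(Y j)⁻¹ (X i) (Y j) = X i * cm (X i) (Y j)`, image `q (X i) * q (inx (cw i j)) ∈ Q`; conjugation by `q (Y j)`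
maps the finite group `Q` into, so onto itself; the normaliser of `Q` contains all generators.
(3) `H ⧸ Q` is commutative: `commutator H ≤ Q` by `commutator_le_of_gen` with `S` = the images of all generators:
the commutators with some `X i` are in `Q` because `Q` is normal, `cm (Y j) (Y l) = inx (aw ..)` if `j < l`, for `l < j` take
the inverse, for `j = l` it is `1`.
(4) Let `f ∈ psi.ker`, `w j = ev f (inr j)`; `w ∈ span (range v)` by `D.ev_mem`: `w = ∑ n_i v_i`
(`Submodule.mem_span_range_iff_exists_fun`).  In the commutative group `H ⧸ Q`: `f = ∏ (Y j) ^ w j` (`ev_hom`; the `X i` are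
trivial) `= ∏_i (∏_j (Y j) ^ v i j) ^ n_i = 1`, because `gpow Y (v i) = inx (bw i)` in `H`.  So `q f ∈ Q`: `q f = q (inx u)`.
(5) `f * (inx u)⁻¹ ∈ N ≤ psi.ker`, so `lift x u = psi (inx u) = 1`, `u ∈ (lift x).ker = normalClosure (range rho)`, so
`q (inx u) = 1` by (1), `q f = 1`, `f ∈ N`.
-/

set_option autoImplicit false

namespace Pool.Agent.RG

open Subgroup

private theorem CL_span {A : Type} [CommGroup A] {N nb : ℕ} (g : Fin N → A) (v : Fin nb → Fin N → ℤ)
    (hv : ∀ i, ∏ j, g j ^ v i j = 1) {w : Fin N → ℤ} (hw : w ∈ Submodule.span ℤ (Set.range v)) :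
    ∏ j, g j ^ w j = 1 := by
  induction hw using Submodule.span_induction with
  | mem x hx =>
    obtain ⟨i, rfl⟩ := hx
    exact hv i
  | zero => simp
  | add x y _ _ hx hy =>
    simp only [Pi.add_apply, zpow_add, Finset.prod_mul_distrib, hx, hy, mul_one]
  | smul n x _ hx =>
    have h : ∀ j, g j ^ (n • x) j = (g j ^ x j) ^ n := by
      intro j
      rw [Pi.smul_apply, smul_eq_mul, mul_comm, zpow_mul]
    simp only [h, Finset.prod_zpow, hx, one_zpow]

private theorem CL_theta {G H K : Type} [Group G] [Finite G] [Group H] [Group K] (φ : H →* G)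
    (θ : H →* K) (h : φ.ker ≤ θ.ker) : Finite θ.range := by
  have h1 : Set.range θ ⊆ (fun g : G => θ (Function.invFun φ g)) '' Set.univ := by
    rintro _ ⟨w, rfl⟩
    refine ⟨φ w, trivial, ?_⟩
    have h2 : φ (Function.invFun φ (φ w)) = φ w := Function.invFun_eq ⟨w, rfl⟩
    have h3 : (Function.invFun φ (φ w)) * w⁻¹ ∈ φ.ker := by
      rw [MonoidHom.mem_ker, map_mul, map_inv, h2, mul_inv_cancel]
    have h4 := h h3
    rw [MonoidHom.mem_ker, map_mul, map_inv, mul_inv_eq_one] at h4
    exact h4
  have h5 : (Set.range θ).Finite := (Set.finite_univ.image _).subset h1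
  exact h5

private theorem CL_inv_mem {G : Type} [Group G] {a b : G} : cm a b = (cm b a)⁻¹ := by
  unfold cm
  group

theorem Dat.claim1 {p : ℕ} {G : Type} [Group G] [Finite G] (D : Dat p G) :
    normalClosure (Set.range D.rel ∪ Set.range fun j => inx D.k D.N (D.rho j)) = D.psi.ker := by
  classical
  have hle : normalClosure (Set.range D.rel ∪ Set.range fun j => inx D.k D.N (D.rho j)) ≤
      D.psi.ker := by
    apply normalClosure_le_normal
    rintro f (⟨τ, rfl⟩ | ⟨j, rfl⟩)
    · exact D.rel_mem τ
    · show _ ∈ D.psi.ker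
      rw [MonoidHom.mem_ker]
      show D.psi (inx D.k D.N (D.rho j)) = 1
      rw [D.psi_inx]
      have h1 : D.rho j ∈ (FreeGroup.lift D.x).ker := by
        rw [← D.hrho]
        exact subset_normalClosure ⟨j, rfl⟩
      exact h1
  apply le_antisymm hle
  obtain ⟨N, hN⟩ : ∃ N, N =
    normalClosure (Set.range D.rel ∪ Set.range fun j => inx D.k D.N (D.rho j)) := ⟨_, rfl⟩
  rw [← hN] at hle ⊢
  have hNn : N.Normal := by
    rw [hN]
    infer_instance
  have hNrel : ∀ τ, D.rel τ ∈ N := by
    intro τ
    rw [hN]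
    exact subset_normalClosure (Or.inl ⟨τ, rfl⟩)
  have hNrho : ∀ j, inx D.k D.N (D.rho j) ∈ N := by
    intro j
    rw [hN]
    exact subset_normalClosure (Or.inr ⟨j, rfl⟩)
  obtain ⟨q, hq⟩ : ∃ q : FF D.k D.N →* FF D.k D.N ⧸ N, q = QuotientGroup.mk' N := ⟨_, rfl⟩
  have hqs : Function.Surjective q := by
    rw [hq]
    exact QuotientGroup.mk'_surjective N
  have hq1 : ∀ f, q f = 1 ↔ f ∈ N := by
    intro f
    rw [hq]
    exact QuotientGroup.eq_one_iff f
  obtain ⟨θ, hθ⟩ : ∃ θ : FreeGroup (Fin D.k) →* FF D.k D.N ⧸ N, θ = q.comp (inx D.k D.N) :=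
    ⟨_, rfl⟩
  have hθa : ∀ w, θ w = q (inx D.k D.N w) := by
    intro w
    rw [hθ]
    rfl
  have hker : (FreeGroup.lift D.x).ker ≤ θ.ker := by
    rw [← D.hrho]
    apply normalClosure_le_normal
    rintro _ ⟨j, rfl⟩
    show _ ∈ θ.ker
    rw [MonoidHom.mem_ker, hθa, hq1]
    exact hNrho j
  obtain ⟨Q, hQ⟩ : ∃ Q, Q = θ.range := ⟨_, rfl⟩
  have hQf : Finite Q := by
    rw [hQ]
    exact CL_theta (FreeGroup.lift D.x) θ hker
  have hθQ : ∀ w, θ w ∈ Q := by
    intro w
    rw [hQ]
    exact ⟨w, rfl⟩
  have hXQ : ∀ i, q (X i) ∈ Q := by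
    intro i
    have h1 := hθQ (FreeGroup.of i)
    rw [hθa] at h1
    exact h1
  -- relators
  have hcw : ∀ i j, q (cm (X i) (Y j)) = θ (D.cw i j) := by
    intro i j
    have h1 := (hq1 _).mpr (hNrel (.inl (i, j)))
    rw [hθa]
    have h2 : D.rel (.inl (i, j)) = cm (X i) (Y j) * (inx D.k D.N (D.cw i j))⁻¹ := rfl
    rw [h2, map_mul, map_inv, mul_inv_eq_one] at h1
    exact h1
  have haw : ∀ j l (h : j < l), q (cm (Y j) (Y l)) = θ (D.aw j l) := by
    intro j l h
    have h1 := (hq1 _).mpr (hNrel (.inr (.inl ⟨(j, l), h⟩)))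
    rw [hθa]
    have h2 : D.rel (.inr (.inl ⟨(j, l), h⟩)) = cm (Y j) (Y l) * (inx D.k D.N (D.aw j l))⁻¹ := rfl
    rw [h2, map_mul, map_inv, mul_inv_eq_one] at h1
    exact h1
  have hbw : ∀ i, q (gpow Y (D.v i)) = θ (D.bw i) := by
    intro i
    have h1 := (hq1 _).mpr (hNrel (.inr (.inr i)))
    rw [hθa]
    have h2 : D.rel (.inr (.inr i)) = gpow Y (D.v i) * (inx D.k D.N (D.bw i))⁻¹ := rfl
    rw [h2, map_mul, map_inv, mul_inv_eq_one] at h1
    exact h1
  have hXY : ∀ i j, (q (Y j))⁻¹ * q (X i) * q (Y j) ∈ Q := by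
    intro i j
    have h1 : (q (Y j))⁻¹ * q (X i) * q (Y j) = q (X i) * q (cm (X i) (Y j)) := by
      rw [map_cm]
      unfold cm
      group
    rw [h1, hcw]
    exact Q.mul_mem (hXQ i) (hθQ _)
  have hYQ : ∀ j w, (q (Y j))⁻¹ * θ w * q (Y j) ∈ Q := by
    intro j w
    induction w using FreeGroup.induction_on with
    | C1 =>
      rw [map_one]
      simp
    | of i =>
      rw [hθa]
      exact hXY i j
    | inv_of i hi =>
      have h1 := Q.inv_mem hi
      rw [map_inv]
      have h2 : ((q (Y j))⁻¹ * θ (FreeGroup.of i) * q (Y j))⁻¹ =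
        (q (Y j))⁻¹ * (θ (FreeGroup.of i))⁻¹ * q (Y j) := by group
      rw [h2] at h1
      exact h1
    | mul a b ha hb =>
      have h1 := Q.mul_mem ha hb
      rw [map_mul]
      have h2 : ((q (Y j))⁻¹ * θ a * q (Y j)) * ((q (Y j))⁻¹ * θ b * q (Y j)) =
        (q (Y j))⁻¹ * (θ a * θ b) * q (Y j) := by group
      rw [h2] at h1
      exact h1
  have hclos : closure (Set.range fun s => q (FreeGroup.of s)) = ⊤ := by
    have h1 : (Set.range fun s => q (FreeGroup.of s)) =
        q '' (Set.range (FreeGroup.of : Fin D.k ⊕ Fin D.N → FF D.k D.N)) := by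
      rw [← Set.range_comp]
      rfl
    rw [h1, ← MonoidHom.map_closure, FreeGroup.closure_range_of, ← MonoidHom.range_eq_map,
      MonoidHom.range_eq_top]
    exact hqs
  have hQn : Q.Normal := by
    rw [← normalizer_eq_top_iff, eq_top_iff, ← hclos, closure_le]
    rintro _ ⟨s, rfl⟩
    show q (FreeGroup.of s) ∈ normalizer (Q : Set (FF D.k D.N ⧸ N))
    rcases s with i | j
    · exact Q.le_normalizer (hXQ i)
    · have h1 : (q (Y j))⁻¹ ∈ normalizer (Q : Set (FF D.k D.N ⧸ N)) := by
        have : Finite (Q : Set (FF D.k D.N ⧸ N)) := hQf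
        refine mem_normalizer_fintype fun n hn => ?_
        have hn' : n ∈ θ.range := by
          rw [← hQ]
          exact hn
        obtain ⟨w, rfl⟩ := hn'
        rw [inv_inv]
        exact hYQ j w
      have h2 := (normalizer (Q : Set (FF D.k D.N ⧸ N))).inv_mem h1
      rw [inv_inv] at h2
      exact h2
  have hcomm : commutator (FF D.k D.N ⧸ N) ≤ Q := by
    refine commutator_le_of_gen hclos ?_
    rintro _ ⟨s, rfl⟩ _ ⟨t, rfl⟩
    rcases s with i | j
    · have h1 : cm (q (FreeGroup.of (Sum.inl i))) (q (FreeGroup.of t)) =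
        (q (FreeGroup.of (Sum.inl i)))⁻¹ * ((q (FreeGroup.of t))⁻¹ * q (FreeGroup.of (Sum.inl i)) *
          ((q (FreeGroup.of t))⁻¹)⁻¹) := by
        unfold cm
        group
      show cm (q (FreeGroup.of (Sum.inl i))) (q (FreeGroup.of t)) ∈ Q
      rw [h1]
      exact Q.mul_mem (Q.inv_mem (hXQ i)) (hQn.conj_mem _ (hXQ i) _)
    · rcases t with i | l
      · have h1 : cm (q (FreeGroup.of (Sum.inr j))) (q (FreeGroup.of (Sum.inl i))) =
          ((q (FreeGroup.of (Sum.inr j)))⁻¹ * (q (FreeGroup.of (Sum.inl i)))⁻¹ *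
            ((q (FreeGroup.of (Sum.inr j)))⁻¹)⁻¹) * q (FreeGroup.of (Sum.inl i)) := by
          unfold cm
          group
        show cm (q (FreeGroup.of (Sum.inr j))) (q (FreeGroup.of (Sum.inl i))) ∈ Q
        rw [h1]
        exact Q.mul_mem (hQn.conj_mem _ (Q.inv_mem (hXQ i)) _) (hXQ i)
      · show cm (q (Y j)) (q (Y l)) ∈ Q
        rcases lt_trichotomy j l with h | h | h
        · rw [← map_cm, haw j l h]
          exact hθQ _
        · subst h
          have h1 : cm (q (Y j)) (q (Y j)) = 1 := by
            unfold cm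
            group
          rw [h1]
          exact Q.one_mem
        · rw [CL_inv_mem, ← map_cm, haw l j h]
          exact Q.inv_mem (hθQ _)
  intro f hf
  have hw := D.ev_mem hf
  let _ : CommGroup ((FF D.k D.N ⧸ N) ⧸ Q) :=
    { (inferInstance : Group ((FF D.k D.N ⧸ N) ⧸ Q)) with
      mul_comm := (Normal.quotient_commutative_iff_commutator_le.mpr hcomm).is_comm.comm }
  obtain ⟨θ', hθ'⟩ : ∃ θ' : FF D.k D.N →* ((FF D.k D.N ⧸ N) ⧸ Q),
    θ' = (QuotientGroup.mk' Q).comp q := ⟨_, rfl⟩
  have hθ'1 : ∀ g, θ' g = 1 ↔ q g ∈ Q := by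
    intro g
    rw [hθ']
    exact QuotientGroup.eq_one_iff (q g)
  have h1 : θ' f = 1 := by
    rw [ev_hom θ' f, Fintype.prod_sum_type]
    have h2 : (∏ i, θ' (FreeGroup.of (Sum.inl i)) ^ ev f (Sum.inl i)) = 1 := by
      refine Finset.prod_eq_one fun i _ => ?_
      have h7 : θ' (FreeGroup.of (Sum.inl i)) = 1 := (hθ'1 _).mpr (hXQ i)
      rw [h7, one_zpow]
    rw [h2, one_mul]
    refine CL_span (fun j => θ' (FreeGroup.of (Sum.inr j))) D.v ?_ hw
    intro i
    have h3 := gpow_comm (fun j => θ' (Y j)) (D.v i)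
    rw [← map_gpow, (hθ'1 _).mpr (by rw [hbw]; exact hθQ _)] at h3
    exact h3.symm
  rw [hθ'1, hQ] at h1
  obtain ⟨u, hu⟩ := h1
  have h4 : f * (inx D.k D.N u)⁻¹ ∈ N := by
    rw [← hq1, map_mul, map_inv, ← hθa, hu, mul_inv_cancel]
  have h5 := hle h4
  rw [MonoidHom.mem_ker, map_mul, map_inv, MonoidHom.mem_ker.mp hf, one_mul, inv_eq_one,
    D.psi_inx] at h5
  have h6 : θ u = 1 := hker h5
  rw [← hq1, ← hu, h6]

end Pool.Agent.RG
end
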