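import Mathlib
import Pool.Agent.Lib.MP_1a39b9_al.Mg.G004

section

/-!
# RG D1: central subgroups of `p`-power index kill `p`-powers of commutators

PROOF of `pow_comm_of_central`.  The index of the centre divides the index of `D` (`Subgroup.index_dvd_of_le`), so it
is `p ^ m` (`Nat.dvd_prime_pow`), in particular finite.  The transfer `MonoidHom.transferCenterPow : Q →* center Q`,
`g ↦ g ^ (center Q).index` (needs `(center Q).FiniteIndex`) is a homomorphism into a commutative group, so it is `1` on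
the commutator subgroup (`Abelianization.commutator_subset_ker`).
`torsion_finite`: the subgroup `{g ∈ D | g ^ m = 1}` of the finitely generated abelian group `D` is finite.  (`D` is a
noetherian `ℤ`-module (`Additive D`), so the subgroup is finitely generated and torsion:
`CommGroup.finite_of_fg_torsion` / `AddCommGroup.finite_of_fg_torsion`.)
-/

set_option autoImplicit false

namespace Pool.Agent.RG

open Subgroup

private theorem D1_add {A : Type} [AddCommGroup A] (hA : AddGroup.FG A) {m : ℕ} (hm : 0 < m) :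
    {a : A | m • a = 0}.Finite := by
  have h1 : Module.Finite ℤ A := Module.Finite.iff_addGroup_fg.2 hA
  have h2 : IsNoetherian ℤ A := isNoetherian_of_isNoetherianRing_of_finite ℤ A
  let T : Submodule ℤ A := LinearMap.ker (LinearMap.lsmul ℤ A (m : ℤ))
  have hT : ∀ a, a ∈ T ↔ m • a = 0 := by
    intro a
    change (m : ℤ) • a = 0 ↔ m • a = 0
    rw [natCast_zsmul]
  have h3 : Module.Finite ℤ T := Module.Finite.iff_fg.2 (IsNoetherian.noetherian T)
  have h4 : Finite T := by
    refine Module.finite_of_fg_torsion T fun x => ?_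
    refine ⟨⟨(m : ℤ), mem_nonZeroDivisors_of_ne_zero (by exact_mod_cast hm.ne')⟩, ?_⟩
    have h5 := (hT x.1).1 x.2
    refine Subtype.ext ?_
    change (m : ℤ) • x.1 = 0
    rw [natCast_zsmul]
    exact h5
  refine (Set.toFinite (T : Set A)).subset fun a ha => ?_
  exact (hT a).2 ha

theorem pow_comm_of_central {Q : Type} [Group Q] {p : ℕ} [Fact p.Prime] (D : Subgroup Q)
    (hD : D ≤ center Q) {n : ℕ} (hidx : D.index = p ^ n) :
    ∃ m : ℕ, ∀ g ∈ commutator Q, g ^ p ^ m = 1 := by
  obtain ⟨m, -, hm⟩ := (Nat.dvd_prime_pow (Fact.out : p.Prime)).1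
    (hidx ▸ index_dvd_of_le hD : (center Q).index ∣ p ^ n)
  have hfin : (center Q).FiniteIndex := ⟨by
    rw [hm]
    exact pow_ne_zero _ (Fact.out : p.Prime).ne_zero⟩
  have h0 : commutator Q ≤ (MonoidHom.transferCenterPow Q).ker := by
    rw [commutator_def, Subgroup.commutator_le]
    intro a _ b _
    rw [MonoidHom.mem_ker, map_commutatorElement, commutatorElement_eq_one_iff_mul_comm]
    exact Subtype.ext (mem_center_iff.1 (MonoidHom.transferCenterPow Q b).2
      (MonoidHom.transferCenterPow Q a).1)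
  refine ⟨m, fun g hg => ?_⟩
  have h1 : MonoidHom.transferCenterPow Q g = 1 := MonoidHom.mem_ker.1 (h0 hg)
  have h2 := congrArg Subtype.val h1
  rw [MonoidHom.transferCenterPow_apply, hm] at h2
  exact h2

theorem torsion_finite {Q : Type} [Group Q] (D : Subgroup Q) (hcomm : ∀ a ∈ D, ∀ b ∈ D, a * b = b * a)
    (hfg : D.FG) {m : ℕ} (hm : 0 < m) : {g : Q | g ∈ D ∧ g ^ m = 1}.Finite := by
  let cg : CommGroup D :=
    { (inferInstance : Group D) with
      mul_comm := fun a b => Subtype.ext (hcomm a.1 a.2 b.1 b.2) }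
  have hD : Group.FG D := (Group.fg_iff_subgroup_fg D).2 hfg
  have hA : AddGroup.FG (Additive D) := by
    rw [← GroupFG.iff_add_fg]
    exact hD
  have h1 := D1_add hA hm
  have h2 : ((fun a : Additive D => ((Additive.toMul a : D) : Q)) '' {a : Additive D | m • a = 0}).Finite :=
    h1.image _
  refine h2.subset ?_
  rintro g ⟨hg, hgm⟩
  refine ⟨Additive.ofMul ⟨g, hg⟩, ?_, rfl⟩
  change Additive.ofMul ((⟨g, hg⟩ : D) ^ m) = 0
  have h3 : (⟨g, hg⟩ : D) ^ m = 1 := Subtype.ext (by
    rw [SubmonoidClass.coe_pow]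
    exact hgm)
  rw [h3]
  rfl

end Pool.Agent.RG
end

section

/-!
# RG D2: an endomorphism which is trivial modulo commutators, on a central subgroup

Let `m` be from `pow_comm_of_central` (D1), `P = p ^ m`.  For `g ∈ D` put `τ = g⁻¹ * θ g`; it is in `D` (`h1`) and in
`commutator Q`, so `τ ^ P = 1`.
`theta_map`: the finite set `A = {g | g ∈ D ∧ g ^ P = 1}` (`torsion_finite`) is mapped by `θ` into itself, injectively, so
onto itself (`Set.Finite.surjOn_of_injOn_image_subset`-like, `Finite.injective_iff_surjective`).  So `τ = θ τ'` with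
`τ' ∈ A`, and `g = θ g * τ⁻¹ = θ (g * τ'⁻¹)`.
`theta_id`: `τ ^ P = 1` and `τ ^ s = 1` (`τ ∈ D`), `P`, `s` coprime, so `τ = 1` (`orderOf_dvd_of_pow_eq_one`,
`Nat.eq_one_of_dvd_coprimes` or `pow_gcd_eq_one`).
-/

set_option autoImplicit false

namespace Pool.Agent.RG

open Subgroup

variable {Q : Type} [Group Q] {p : ℕ} [Fact p.Prime]

theorem theta_map (D : Subgroup Q) (hD : D ≤ center Q) (hfg : D.FG) {n : ℕ} (hidx : D.index = p ^ n)
    (θ : Q →* Q) (hinj : Function.Injective θ) (h1 : ∀ g ∈ D, θ g ∈ D)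
    (h2 : ∀ g, g⁻¹ * θ g ∈ commutator Q) : ∀ g ∈ D, ∃ g' ∈ D, θ g' = g := by
  obtain ⟨m, hm⟩ := pow_comm_of_central D hD hidx
  have hP : 0 < p ^ m := pow_pos (Fact.out : p.Prime).pos m
  have hfin : {g : Q | g ∈ D ∧ g ^ p ^ m = 1}.Finite :=
    torsion_finite D (fun a ha b _ => (mem_center_iff.1 (hD ha) b).symm) hfg hP
  have hmaps : Set.MapsTo θ {g : Q | g ∈ D ∧ g ^ p ^ m = 1} {g : Q | g ∈ D ∧ g ^ p ^ m = 1} := by
    rintro g ⟨hg, hg'⟩
    exact ⟨h1 g hg, by rw [← map_pow, hg', map_one]⟩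
  have hsurj : Set.SurjOn θ {g : Q | g ∈ D ∧ g ^ p ^ m = 1} {g : Q | g ∈ D ∧ g ^ p ^ m = 1} := by
    intro b hb
    have := hfin.to_subtype
    have hi : Function.Injective (hmaps.restrict θ _ _) := by
      intro x y hxy
      apply Subtype.ext
      exact hinj (congrArg Subtype.val hxy)
    obtain ⟨x, hx⟩ := Finite.injective_iff_surjective.1 hi ⟨b, hb⟩
    exact ⟨x.1, x.2, congrArg Subtype.val hx⟩
  intro g hg
  have hτD : g⁻¹ * θ g ∈ D := D.mul_mem (D.inv_mem hg) (h1 g hg)
  obtain ⟨τ', ⟨hτ'D, _⟩, hτ'⟩ := hsurj (show g⁻¹ * θ g ∈ {g : Q | g ∈ D ∧ g ^ p ^ m = 1} from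
    ⟨hτD, hm _ (h2 g)⟩)
  refine ⟨g * τ'⁻¹, D.mul_mem hg (D.inv_mem hτ'D), ?_⟩
  rw [map_mul, map_inv, hτ']
  group

theorem theta_id (D : Subgroup Q) (hD : D ≤ center Q) {n : ℕ} (hidx : D.index = p ^ n)
    (θ : Q →* Q) (h1 : ∀ g ∈ D, θ g ∈ D) (h2 : ∀ g, g⁻¹ * θ g ∈ commutator Q) {s : ℕ}
    (hs : s.Coprime p) (hDs : ∀ g ∈ D, g ^ s = 1) : ∀ g ∈ D, θ g = g := by
  obtain ⟨m, hm⟩ := pow_comm_of_central D hD hidx
  intro g hg
  have hτD : g⁻¹ * θ g ∈ D := D.mul_mem (D.inv_mem hg) (h1 g hg)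
  have e1 : orderOf (g⁻¹ * θ g) ∣ p ^ m := orderOf_dvd_of_pow_eq_one (hm _ (h2 g))
  have e2 : orderOf (g⁻¹ * θ g) ∣ s := orderOf_dvd_of_pow_eq_one (hDs _ hτD)
  have hcop : s.Coprime (p ^ m) := Nat.Coprime.pow_right m hs
  have e3 : orderOf (g⁻¹ * θ g) = 1 := Nat.eq_one_of_dvd_coprimes hcop e2 e1
  have e4 : g⁻¹ * θ g = 1 := orderOf_eq_one_iff.1 e3
  exact (inv_mul_eq_one.1 e4).symm

end Pool.Agent.RG
end

section

/-!
# RG D3: a normal abelian subgroup without invariant homomorphisms to `F_p`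

`exists_inv_hom`: `D / E` is an elementary abelian `p`-group, not trivial, i.e. a nonzero vector space over `F_p`
(`AddCommGroup.zmodModule` for `Additive` of the quotient `D ⧸ E.subgroupOf D`; a commutator of two elements of `D` is in
`E` by `hcomm`, so the quotient is commutative).  Take `r ∈ D`, `r ∉ E`, and a linear form which is not `0` at the class of `r`
(`Module.exists_dual_forall_apply_eq_zero..`, `Module.Dual.separating`, or `exists_dual_map_eq_bot..`; over a field: extend `r̄`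
to a basis).  `l` = the form on `D`, `0` outside.  Additive, `0` on `E`; invariant: `f r f⁻¹ = r * (r⁻¹ f r f⁻¹)` and
`r⁻¹ f r f⁻¹ ∈ ⁅D, ⊤⁆ ≤ E`.
`eq_of_nilpotent`: the quotient `H ⧸ P` is a finite `p`-group, so nilpotent (`IsPGroup.isNilpotent`).  Let `D̄` be the image of
`D`; `D̄ ≤ ⁅D̄, ⊤⁆` by `h`, so `D̄ ≤ lowerCentralSeries n` for all `n` (induction, `Subgroup.commutator_mono`), so `D̄ = ⊥`.
`exists_coprime_exp`: `Additive D` is a finitely generated `ℤ`-module `M` with `(p) M = M`; Nakayama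
(`Submodule.exists_sub_one_mem_and_smul_eq_zero_of_fg_of_le_smul`) gives `r ≡ 1 mod p` with `r M = 0`; `s = r.natAbs`.
-/

set_option autoImplicit false

namespace Pool.Agent.RG

open Subgroup

variable {H : Type} [Group H] {p : ℕ} [Fact p.Prime]

private theorem D3_exists_fun0 {A : Type} [AddCommGroup A] [Module (ZMod p) A] (x₀ : A)
    (h : x₀ ≠ 0) : ∃ f : A → ZMod p, (∀ a b, f (a + b) = f a + f b) ∧ f x₀ ≠ 0 := by
  obtain ⟨f, hf⟩ : ∃ f : Module.Dual (ZMod p) A, f x₀ ≠ 0 := by
    by_contra hcon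
    push Not at hcon
    exact h ((Module.forall_dual_apply_eq_zero_iff (ZMod p) x₀).1 hcon)
  exact ⟨fun a => f a, fun a b => map_add f a b, hf⟩

private theorem D3_exists_fun {A : Type} [CommGroup A] (hp : ∀ x : A, x ^ p = 1) (x₀ : A)
    (h : x₀ ≠ 1) : ∃ f : A → ZMod p, (∀ a b, f (a * b) = f a + f b) ∧ f x₀ ≠ 0 := by
  have hx : Additive.ofMul x₀ ≠ 0 := fun h' => h (by simpa using h')
  obtain ⟨f, h1, h2⟩ := @D3_exists_fun0 p _ (Additive A) _
    (AddCommGroup.zmodModule (n := p) (fun x => by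
      rw [← ofMul_toMul x, ← ofMul_pow, hp, ofMul_one])) (Additive.ofMul x₀) hx
  refine ⟨fun a => f (Additive.ofMul a), ?_, h2⟩
  intro a b
  show f (Additive.ofMul (a * b)) = f (Additive.ofMul a) + f (Additive.ofMul b)
  rw [ofMul_mul, h1]

theorem exists_inv_hom (D E : Subgroup H) [D.Normal] [E.Normal] (hED : E < D)
    (hcomm : ⁅D, (⊤ : Subgroup H)⁆ ≤ E) (hpow : ∀ g ∈ D, g ^ p ∈ E) :
    ∃ l ∈ IL p D, (∀ r ∈ E, l r = 0) ∧ ∃ r ∈ D, l r ≠ 0 := by
  classical
  obtain ⟨hle, hne⟩ := lt_iff_le_and_ne.1 hED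
  obtain ⟨r₀, hr₀D, hr₀E⟩ : ∃ r ∈ D, r ∉ E := by
    by_contra hcon
    push Not at hcon
    exact hne (le_antisymm hle hcon)
  set π : H →* H ⧸ E := QuotientGroup.mk' E with hπ
  set A : Subgroup (H ⧸ E) := D.map π with hA
  have hcen : ∀ a ∈ D, ∀ g : H, π g * π a = π a * π g := by
    intro a ha g
    have h1 : a * g * a⁻¹ * g⁻¹ ∈ E := hcomm (commutator_mem_commutator ha (mem_top g))
    have h2 : π (a * g * a⁻¹ * g⁻¹) = 1 := (QuotientGroup.eq_one_iff _).2 h1
    rw [map_mul, map_mul, map_mul, map_inv, map_inv, mul_inv_eq_one, mul_inv_eq_iff_eq_mul] at h2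
    exact h2.symm
  have hAcomm : ∀ a b : A, a * b = b * a := by
    rintro ⟨_, a, ha, rfl⟩ ⟨_, b, hb, rfl⟩
    apply Subtype.ext
    exact (hcen b hb a)
  let instA : CommGroup A := { (inferInstance : Group A) with mul_comm := hAcomm }
  have hp0 : ∀ x : A, x ^ p = 1 := by
    rintro ⟨_, a, ha, rfl⟩
    apply Subtype.ext
    have h1 : π (a ^ p) = 1 := (QuotientGroup.eq_one_iff _).2 (hpow a ha)
    rw [map_pow] at h1
    exact h1
  have hx₀0 : (⟨π r₀, r₀, hr₀D, rfl⟩ : A) ≠ 1 := by
    intro h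
    have h2 : π r₀ = 1 := congrArg Subtype.val h
    exact hr₀E ((QuotientGroup.eq_one_iff _).1 h2)
  obtain ⟨f, hf1, hf⟩ := D3_exists_fun (A := A) hp0 _ hx₀0
  have hf0 : f 1 = 0 := by
    have := hf1 1 1
    rw [mul_one] at this
    simpa using this
  let l : H → ZMod p := fun h => if hh : h ∈ D then f (⟨π h, h, hh, rfl⟩ : A) else 0
  have hl : ∀ h (hh : h ∈ D), l h = f (⟨π h, h, hh, rfl⟩ : A) := by
    intro h hh
    simp only [l, hh, dite_true]
  refine ⟨l, ⟨?_, ?_, ?_⟩, ?_, r₀, hr₀D, ?_⟩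
  · intro h hh
    simp only [l, hh, dite_false]
  · intro r hr s hs
    rw [hl _ (D.mul_mem hr hs), hl r hr, hl s hs, ← hf1]
    exact congrArg f (Subtype.ext (map_mul π r s))
  · intro g r hr
    have hm : g * r * g⁻¹ ∈ D := Subgroup.Normal.conj_mem inferInstance r hr g
    rw [hl _ hm, hl r hr]
    refine congrArg f (Subtype.ext ?_)
    show π (g * r * g⁻¹) = π r
    rw [map_mul, map_mul, map_inv, hcen r hr g, mul_inv_cancel_right]
  · intro r hr
    rw [hl r (hle hr)]
    have h1 : (⟨π r, r, hle hr, rfl⟩ : A) = 1 := by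
      apply Subtype.ext
      exact (QuotientGroup.eq_one_iff _).2 hr
    rw [h1, hf0]
  · rw [hl r₀ hr₀D]
    exact hf

theorem eq_of_nilpotent (D P : Subgroup H) [D.Normal] [P.Normal] (hPD : P ≤ D) {n : ℕ}
    (hidx : P.index = p ^ n) (h : D ≤ ⁅D, (⊤ : Subgroup H)⁆ ⊔ P) : D ≤ P := by
  set π : H →* H ⧸ P := QuotientGroup.mk' P with hπ
  have hcard : Nat.card (H ⧸ P) = p ^ n := hidx
  have hpp : 0 < p := (Fact.out : p.Prime).pos
  have : Finite (H ⧸ P) := Nat.finite_of_card_ne_zero (by rw [hcard]; positivity)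
  have hPG : IsPGroup p (H ⧸ P) := IsPGroup.of_card hcard
  have hnil : Group.IsNilpotent (H ⧸ P) := hPG.isNilpotent
  obtain ⟨m, hm⟩ := Subgroup.nilpotent_iff_lowerCentralSeries.1 hnil
  have hstep : D.map π ≤ ⁅D.map π, (⊤ : Subgroup (H ⧸ P))⁆ := by
    have h1 := Subgroup.map_mono (f := π) h
    rw [Subgroup.map_sup, Subgroup.map_commutator,
      Subgroup.map_top_of_surjective π (QuotientGroup.mk'_surjective P)] at h1
    have h2 : P.map π = ⊥ := by
      rw [Subgroup.map_eq_bot_iff, QuotientGroup.ker_mk']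
    rwa [h2, sup_bot_eq] at h1
  have hall : ∀ k, D.map π ≤ (⊤ : Subgroup (H ⧸ P)).lowerCentralSeries k := by
    intro k
    induction k with
    | zero => exact le_top
    | succ k ih =>
      rw [Subgroup.lowerCentralSeries_succ]
      exact hstep.trans (Subgroup.commutator_mono ih le_rfl)
  have hbot : D.map π = ⊥ := le_bot_iff.1 (hm ▸ hall m)
  rw [Subgroup.map_eq_bot_iff, QuotientGroup.ker_mk'] at hbot
  exact hbot

theorem exists_coprime_exp (D : Subgroup H) (hcomm : ∀ a ∈ D, ∀ b ∈ D, a * b = b * a) (hfg : D.FG)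
    (h : ∀ g ∈ D, ∃ g' ∈ D, g' ^ p = g) : ∃ s : ℕ, s.Coprime p ∧ ∀ g ∈ D, g ^ s = 1 := by
  let instD : CommGroup D := { (inferInstance : Group D) with
    mul_comm := fun a b => Subtype.ext (hcomm a a.2 b b.2) }
  have hfgD : Group.FG D := (Group.fg_iff_subgroup_fg D).2 hfg
  have : AddGroup.FG (Additive D) := inferInstance
  have hmf : Module.Finite ℤ (Additive D) := Module.Finite.iff_addGroup_fg.2 inferInstance
  obtain ⟨r, hr1, hr2⟩ := Submodule.exists_sub_one_mem_and_smul_eq_zero_of_fg_of_le_smul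
    (Ideal.span {(p : ℤ)}) (⊤ : Submodule ℤ (Additive D)) hmf.fg_top (by
      intro x _
      obtain ⟨y, rfl⟩ : ∃ y : D, Additive.ofMul y = x := ⟨x.toMul, rfl⟩
      obtain ⟨g', hg', hg⟩ := h y.1 y.2
      have h1 : Additive.ofMul y = (p : ℤ) • Additive.ofMul (⟨g', hg'⟩ : D) := by
        rw [← ofMul_zpow]
        congr 1
        apply Subtype.ext
        show (y : H) = ((⟨g', hg'⟩ : D) ^ (p : ℤ) : D)
        rw [zpow_natCast]
        exact hg.symm
      rw [h1]
      exact Submodule.smul_mem_smul (Ideal.mem_span_singleton_self _) Submodule.mem_top)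
  rw [Ideal.mem_span_singleton] at hr1
  refine ⟨r.natAbs, ?_, ?_⟩
  · rw [Nat.coprime_comm, Nat.Prime.coprime_iff_not_dvd (Fact.out : p.Prime)]
    intro hdvd
    have h1 : (p : ℤ) ∣ r := Int.natCast_dvd.2 hdvd
    have h2 : (p : ℤ) ∣ 1 := by
      have := dvd_sub h1 hr1
      rwa [sub_sub_cancel] at this
    have h3 : p ∣ 1 := by exact_mod_cast h2
    exact (Fact.out : p.Prime).one_lt.ne' (Nat.dvd_one.1 h3)
  · intro g hg
    have h1 := hr2 (Additive.ofMul (⟨g, hg⟩ : D)) Submodule.mem_top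
    rw [← ofMul_zpow] at h1
    have h2 : ((⟨g, hg⟩ : D) ^ r : D) = 1 := h1
    have h3 : g ^ r = 1 := by
      have := congrArg Subtype.val h2
      simpa using this
    rcases Int.natAbs_eq r with h4 | h4
    · rw [h4, zpow_natCast] at h3
      exact h3
    · rw [h4, zpow_neg, zpow_natCast, inv_eq_one] at h3
      exact h3

end Pool.Agent.RG
end

section

/-!
# RG D3b: combination

PROOF.  `P = {g ^ p | g ∈ D}`; since `D` is commutative this is a subgroup (`pow` of a product), normal in `H` (conjugation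
commutes with powers and `D` is normal), `P ≤ D`.  `D / P` is a finitely generated abelian group of exponent `p`, so it is
a finite `p`-group (`CommGroup.finite_of_fg_torsion`; `IsPGroup`): `P.relIndex D = p ^ a`, and
`P.index = P.relIndex D * D.index` is a power of `p`.  `E = ⁅D, ⊤⁆ ⊔ P` is normal, `E ≤ D`.  If `E ≠ D`, `exists_inv_hom` gives
`l ∈ IL p D` with `l r ≠ 0`, contradiction to `hsep`.  So `D ≤ ⁅D, ⊤⁆ ⊔ P`, `D ≤ P` by `eq_of_nilpotent`, and
`exists_coprime_exp`.
-/

set_option autoImplicit false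

namespace Pool.Agent.RG

open Subgroup

variable {H : Type} [Group H] {p : ℕ} [Fact p.Prime]

private theorem D3b_pow_mul {D : Subgroup H} (hcomm : ∀ a ∈ D, ∀ b ∈ D, a * b = b * a)
    {a b : H} (ha : a ∈ D) (hb : b ∈ D) (n : ℕ) : (a * b) ^ n = a ^ n * b ^ n :=
  (show Commute a b from hcomm a ha b hb).mul_pow n

/-- The subgroup of the `p`-th powers. -/
private def D3b_P (p : ℕ) (D : Subgroup H) (hcomm : ∀ a ∈ D, ∀ b ∈ D, a * b = b * a) : Subgroup H where
  carrier := {x | ∃ g ∈ D, g ^ p = x}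
  mul_mem' := by
    rintro _ _ ⟨g, hg, rfl⟩ ⟨g', hg', rfl⟩
    exact ⟨g * g', D.mul_mem hg hg', D3b_pow_mul hcomm hg hg' p⟩
  one_mem' := ⟨1, D.one_mem, one_pow p⟩
  inv_mem' := by
    rintro _ ⟨g, hg, rfl⟩
    exact ⟨g⁻¹, D.inv_mem hg, inv_pow g p⟩

private theorem D3b_P_le (D : Subgroup H) (hcomm : ∀ a ∈ D, ∀ b ∈ D, a * b = b * a) :
    D3b_P p D hcomm ≤ D := by
  rintro _ ⟨g, hg, rfl⟩
  exact D.pow_mem hg p

private theorem D3b_P_normal (D : Subgroup H) [D.Normal] (hcomm : ∀ a ∈ D, ∀ b ∈ D, a * b = b * a) :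
    (D3b_P p D hcomm).Normal := by
  constructor
  rintro _ ⟨g, hg, rfl⟩ h
  exact ⟨h * g * h⁻¹, Subgroup.Normal.conj_mem inferInstance g hg h, conj_pow⟩

private theorem D3b_relIndex (D : Subgroup H) (hcomm : ∀ a ∈ D, ∀ b ∈ D, a * b = b * a)
    (hfg : D.FG) : ∃ a : ℕ, (D3b_P p D hcomm).relIndex D = p ^ a := by
  letI : CommGroup D := { (inferInstance : Group D) with
    mul_comm := fun a b => Subtype.ext (hcomm a a.2 b b.2) }
  haveI : Group.FG D := (Group.fg_iff_subgroup_fg D).2 hfg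
  haveI : Group.FG (D ⧸ (D3b_P p D hcomm).subgroupOf D) := QuotientGroup.fg _
  have hexp : ∀ x : D ⧸ (D3b_P p D hcomm).subgroupOf D, x ^ p = 1 := by
    intro x
    obtain ⟨g, rfl⟩ := QuotientGroup.mk_surjective x
    rw [← QuotientGroup.mk_pow, QuotientGroup.eq_one_iff, Subgroup.mem_subgroupOf]
    exact ⟨g, g.2, by simp⟩
  have htor : Monoid.IsTorsion (D ⧸ (D3b_P p D hcomm).subgroupOf D) := fun x =>
    isOfFinOrder_iff_pow_eq_one.2 ⟨p, (Fact.out : p.Prime).pos, hexp x⟩
  haveI : Finite (D ⧸ (D3b_P p D hcomm).subgroupOf D) := CommGroup.finite_of_fg_torsion _ htor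
  have hp : IsPGroup p (D ⧸ (D3b_P p D hcomm).subgroupOf D) := fun x => ⟨1, by rw [pow_one]; exact hexp x⟩
  exact (IsPGroup.iff_card.1 hp)

theorem exists_coprime (D : Subgroup H) [D.Normal] (hcomm : ∀ a ∈ D, ∀ b ∈ D, a * b = b * a)
    (hfg : D.FG) {n : ℕ} (hidx : D.index = p ^ n) (hsep : ∀ l ∈ IL p D, ∀ r ∈ D, l r = 0) :
    ∃ s : ℕ, s.Coprime p ∧ ∀ g ∈ D, g ^ s = 1 := by
  haveI := D3b_P_normal (p := p) D hcomm
  obtain ⟨a, ha⟩ := D3b_relIndex (p := p) D hcomm hfg
  have hPD : D3b_P p D hcomm ≤ D := D3b_P_le D hcomm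
  have hidxP : (D3b_P p D hcomm).index = p ^ (a + n) := by
    rw [← Subgroup.relIndex_mul_index hPD, ha, hidx, pow_add]
  have hED : ⁅D, (⊤ : Subgroup H)⁆ ⊔ D3b_P p D hcomm ≤ D := sup_le (Subgroup.commutator_le_left _ _) hPD
  have hDE : D ≤ ⁅D, (⊤ : Subgroup H)⁆ ⊔ D3b_P p D hcomm := by
    by_contra hcon
    have hlt : ⁅D, (⊤ : Subgroup H)⁆ ⊔ D3b_P p D hcomm < D := lt_of_le_not_ge hED hcon
    obtain ⟨l, hl, -, r, hr, hne⟩ := exists_inv_hom (p := p) D (⁅D, (⊤ : Subgroup H)⁆ ⊔ D3b_P p D hcomm)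
      hlt le_sup_left (fun g hg => Subgroup.mem_sup_right ⟨g, hg, rfl⟩)
    exact hne (hsep l hl r hr)
  have hDP : D ≤ D3b_P p D hcomm := eq_of_nilpotent D (D3b_P p D hcomm) hPD hidxP hDE
  exact exists_coprime_exp D hcomm hfg fun g hg => hDP hg

end Pool.Agent.RG
end

section

/-!
# RG D4: the kernel is trivial

`Set4 H p N Q D y` (structure `KD` below): `Q`, `D` subgroups, `D` central in `Q`, finitely generated, of `p`-power index in `Q`,
`Q` and the `y l` generate `H`, conjugation `g ↦ (y l)⁻¹ g (y l)` maps `Q` into `Q`, `D` into `D` and is trivial modulo `⁅Q, Q⁆`.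
For each `l` let `θ : Q →* Q` be this conjugation (an injective homomorphism of the group `Q`); `D' = D.subgroupOf Q` is
central in `Q`, finitely generated, `D'.index = D.relIndex Q = p ^ n`.
`KD.normal`: by `theta_map` (D2) `(y l)⁻¹ D (y l) = D` for every `l`, so `y l` is in the normaliser of `D`; `Q` is in
the normaliser as `D` is central in `Q`; so the normaliser is `⊤` (`hgen`).
`KD.eq_bot`: `exists_coprime` (D3b) gives `s`; `theta_id` (D2): `y l` commutes with `D`.  So `D ≤ center H` (the centraliser of `D`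
contains `Q` and the `y l`).  `pow_comm_of_central` (D1) for `H`: every element of `commutator H` has order a power of `p`; so
for `g ∈ D`: `g ^ p ^ m = 1`, `g ^ s = 1`, coprime, so `g = 1`.
-/

set_option autoImplicit false

namespace Pool.Agent.RG

open Subgroup

/-- The situation of step 1.6. -/
structure KD {H : Type} [Group H] (p : ℕ) {N : ℕ} (Q D : Subgroup H) (y : Fin N → H) : Prop where
  le : D ≤ Q
  fg : D.FG
  cen : ∀ a ∈ D, ∀ b ∈ Q, a * b = b * a
  idx : ∃ n : ℕ, D.relIndex Q = p ^ n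
  gen : closure ((Q : Set H) ∪ Set.range y) = ⊤
  hQ : ∀ l, ∀ g ∈ Q, (y l)⁻¹ * g * y l ∈ Q
  hD : ∀ l, ∀ g ∈ D, (y l)⁻¹ * g * y l ∈ D
  hc : ∀ l, ∀ g ∈ Q, g⁻¹ * ((y l)⁻¹ * g * y l) ∈ ⁅Q, Q⁆

variable {H : Type} [Group H] {p : ℕ} [Fact p.Prime] {N : ℕ} {Q D : Subgroup H} {y : Fin N → H}

/-- conjugation by `(y l)⁻¹` on `Q` -/
private def D4_th (h : KD p Q D y) (l : Fin N) : Q →* Q where
  toFun g := ⟨(y l)⁻¹ * (g : H) * y l, h.hQ l g g.2⟩
  map_one' := by
    apply Subtype.ext
    simp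
  map_mul' := fun a b => by
    apply Subtype.ext
    show (y l)⁻¹ * ((a : H) * (b : H)) * y l = (y l)⁻¹ * (a : H) * y l * ((y l)⁻¹ * (b : H) * y l)
    group

omit [Fact p.Prime] in
private theorem D4_inj (h : KD p Q D y) (l : Fin N) : Function.Injective (D4_th h l) := by
  intro a b hab
  have h1 : (y l)⁻¹ * (a : H) * y l = (y l)⁻¹ * (b : H) * y l := congrArg Subtype.val hab
  apply Subtype.ext
  exact mul_left_cancel (mul_right_cancel h1)

omit [Fact p.Prime] in
private theorem D4_cen (h : KD p Q D y) : D.subgroupOf Q ≤ center Q := by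
  intro g hg
  rw [mem_center_iff]
  intro b
  apply Subtype.ext
  exact (h.cen g (mem_subgroupOf.1 hg) b b.2).symm

omit [Fact p.Prime] in
private theorem D4_fg (h : KD p Q D y) : (D.subgroupOf Q).FG := by
  have h1 : Group.FG D := (Group.fg_iff_subgroup_fg D).2 h.fg
  exact (Group.fg_iff_subgroup_fg _).1
    (Group.fg_of_surjective (f := (subgroupOfEquivOfLe h.le).symm.toMonoidHom)
      (subgroupOfEquivOfLe h.le).symm.surjective)

omit [Fact p.Prime] in
private theorem D4_h1 (h : KD p Q D y) (l : Fin N) :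
    ∀ g ∈ D.subgroupOf Q, D4_th h l g ∈ D.subgroupOf Q := by
  intro g hg
  exact mem_subgroupOf.2 (h.hD l g (mem_subgroupOf.1 hg))

omit [Fact p.Prime] in
private theorem D4_h2 (h : KD p Q D y) (l : Fin N) (g : Q) : g⁻¹ * D4_th h l g ∈ commutator Q := by
  have h1 : (g : H)⁻¹ * ((y l)⁻¹ * (g : H) * y l) ∈ ⁅Q, Q⁆ := h.hc l g g.2
  rw [← map_subtype_commutator, mem_map] at h1
  obtain ⟨z, hz, hz2⟩ := h1
  have h3 : z = g⁻¹ * D4_th h l g := Subtype.ext hz2
  rw [← h3]
  exact hz

theorem KD.normal (h : KD p Q D y) : D.Normal := by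
  obtain ⟨n, hn⟩ := h.idx
  have hy : ∀ l, ∀ g ∈ D, y l * g * (y l)⁻¹ ∈ D := by
    intro l g hg
    obtain ⟨g', hg', h3⟩ := theta_map (D.subgroupOf Q) (D4_cen h) (D4_fg h) hn (D4_th h l)
      (D4_inj h l) (D4_h1 h l) (D4_h2 h l) ⟨g, h.le hg⟩ (mem_subgroupOf.2 hg)
    have h4 : (y l)⁻¹ * (g' : H) * y l = g := congrArg Subtype.val h3
    have h5 : y l * g * (y l)⁻¹ = g' := by
      rw [← h4]; group
    rw [h5]
    exact mem_subgroupOf.1 hg'
  have hset : (Q : Set H) ∪ Set.range y ⊆ {z : H | ∀ g : H, g ∈ D ↔ z * g * z⁻¹ ∈ D} := by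
    rintro z (hz | ⟨l, rfl⟩)
    · intro g
      constructor
      · intro hg
        have : z * g * z⁻¹ = g := by
          rw [← h.cen g hg z hz]; group
        rw [this]; exact hg
      · intro hg
        have h6 := h.cen _ hg z hz
        have : g = z * g * z⁻¹ := by
          have h7 : z * g = z * (z * g * z⁻¹) := by
            rw [← h6]; group
          exact mul_left_cancel h7
        rw [this]; exact hg
    · intro g
      constructor
      · exact hy l g
      · intro hg
        have h8 := h.hD l _ hg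
        have h9 : (y l)⁻¹ * (y l * g * (y l)⁻¹) * y l = g := by group
        rwa [h9] at h8
  have hall : ∀ z : H, ∀ g : H, g ∈ D ↔ z * g * z⁻¹ ∈ D := by
    intro z
    have hz : z ∈ closure ((Q : Set H) ∪ Set.range y) := by
      rw [h.gen]; exact mem_top z
    induction hz using closure_induction with
    | mem z hz => exact hset hz
    | one => intro g; simp
    | mul a b _ _ ha hb =>
      intro g
      have h10 : a * b * g * (a * b)⁻¹ = a * (b * g * b⁻¹) * a⁻¹ := by group
      rw [h10, ← ha, ← hb]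
    | inv a _ ha =>
      intro g
      rw [ha (a⁻¹ * g * a⁻¹⁻¹)]
      have h11 : a * (a⁻¹ * g * a⁻¹⁻¹) * a⁻¹ = g := by group
      rw [h11]
  exact ⟨fun g hg z => (hall z g).1 hg⟩

theorem KD.eq_bot (h : KD p Q D y) {n : ℕ} (hidx : D.index = p ^ n) (hcomm : D ≤ commutator H)
    (hsep : ∀ l ∈ IL p D, ∀ r ∈ D, l r = 0) : D = ⊥ := by
  have := h.normal
  obtain ⟨n', hn'⟩ := h.idx
  obtain ⟨s, hs, hs2⟩ := exists_coprime D (fun a ha b hb => h.cen a ha b (h.le hb)) h.fg hidx hsep
  have hy : ∀ l, ∀ g ∈ D, (y l)⁻¹ * g * y l = g := by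
    intro l g hg
    have h3 := theta_id (D.subgroupOf Q) (D4_cen h) hn' (D4_th h l) (D4_h1 h l) (D4_h2 h l) hs
      (fun g hg => Subtype.ext (by
        rw [coe_pow]
        exact hs2 g (mem_subgroupOf.1 hg))) ⟨g, h.le hg⟩ (mem_subgroupOf.2 hg)
    exact congrArg Subtype.val h3
  have hcen : D ≤ center H := by
    intro g hg
    rw [mem_center_iff]
    intro z
    have hz : z ∈ closure ((Q : Set H) ∪ Set.range y) := by
      rw [h.gen]; exact mem_top z
    induction hz using closure_induction with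
    | mem z hz =>
      rcases hz with hz | ⟨l, rfl⟩
      · exact (h.cen g hg z hz).symm
      · have h4 := hy l g hg
        calc y l * g = y l * ((y l)⁻¹ * g * y l) := by rw [h4]
          _ = g * y l := by group
    | one => simp
    | mul a b _ _ ha hb => rw [mul_assoc, hb, ← mul_assoc, ha, mul_assoc]
    | inv a _ ha =>
      calc a⁻¹ * g = a⁻¹ * (g * a) * a⁻¹ := by group
        _ = a⁻¹ * (a * g) * a⁻¹ := by rw [ha]
        _ = g * a⁻¹ := by group
  obtain ⟨m, hm⟩ := pow_comm_of_central D hcen hidx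
  rw [eq_bot_iff_forall]
  intro g hg
  have h5 : g ^ p ^ m = 1 := hm g (hcomm hg)
  have h6 : g ^ s = 1 := hs2 g hg
  have h7 : Nat.Coprime (p ^ m) s := (Nat.Coprime.pow_right m hs).symm
  have h8 : g ^ Nat.gcd (p ^ m) s = 1 := pow_gcd_eq_one.2 ⟨h5, h6⟩
  rw [Nat.Coprime.gcd_eq_one h7, pow_one] at h8
  exact h8

end Pool.Agent.RG
end

section

/-!
# RG B2: the dimension of `IL` is at most the number of relators

`IL_findim`: the linear map `IL p R → (τ → F_p)`, `l ↦ (l (t i))_i`, is injective: if all `l (t i) = 0`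
then `l = 0` on `R` by `IL_closure` (`t i ∈ R` as `R` is the normal closure), and `l = 0` outside of `R`.
`ProP.inj`: let `l ∈ IL p φ.ker`, `l s = 0` for `s ∈ S`.  The index of `φ.ker` is `Nat.card G`
(`Subgroup.index_ker`, surjectivity), a power of `p` (`IsPGroup.iff_card`).  Take `K` from `IL_ker`; `K` contains `S`
(`S ⊆ φ.ker` by `h.le`), so the normal closure of `S`, so `φ.ker ≤ K` by `h.ker_le`: `l = 0` on `φ.ker`.
`ProP.findim`, `ProP.finrank_le`: the map `IL p φ.ker → (S → F_p)` is linear and injective;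
`LinearMap.finrank_le_finrank_of_injective`, `Module.finrank_fintype_fun_eq_card`, `Fintype.card_coe`.
-/

set_option autoImplicit false

namespace Pool.Agent.RG

open Subgroup

theorem IL_findim {p : ℕ} [Fact p.Prime] {F : Type} [Group F] {R : Subgroup F} [R.Normal] {τ : Type}
    [Finite τ] (t : τ → F) (ht : normalClosure (Set.range t) = R) :
    Module.Finite (ZMod p) (IL p R) := by
  have hle : ∀ i, t i ∈ R := fun i => by
    rw [← ht]
    exact subset_normalClosure ⟨i, rfl⟩
  let Φ : IL p R →ₗ[ZMod p] (τ → ZMod p) :=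
    { toFun := fun l i => (l : F → ZMod p) (t i)
      map_add' := fun _ _ => rfl
      map_smul' := fun _ _ => rfl }
  refine Module.Finite.of_injective Φ ?_
  rw [injective_iff_map_eq_zero]
  rintro ⟨l, hl⟩ h
  have h1 : ∀ i, l (t i) = 0 := fun i => congrFun h i
  apply Subtype.ext
  funext r
  show l r = 0
  by_cases hr : r ∈ R
  · refine IL_closure hl (S := Set.range t) ?_ r (by rw [ht]; exact hr)
    rintro _ ⟨i, rfl⟩
    exact ⟨hle i, h1 i⟩
  · exact IL_out hl hr

variable {p : ℕ} [Fact p.Prime] {ι G : Type} [Group G] [Finite G] {φ : FreeGroup ι →* G}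
  {S : Finset (FreeGroup ι)}

theorem ProP.inj (hG : IsPGroup p G) (h : ProP p φ S) {l : FreeGroup ι → ZMod p}
    (hl : l ∈ IL p φ.ker) (h0 : ∀ s ∈ S, l s = 0) : l = 0 := by
  obtain ⟨n, hn⟩ := IsPGroup.iff_card.1 hG
  have hidx : φ.ker.index = p ^ n := by
    rw [Subgroup.index_ker, MonoidHom.range_eq_top.2 h.surj, Subgroup.card_top, hn]
  obtain ⟨K, hKn, hKi, hKR, hK⟩ := IL_ker hl hidx
  have hSK : normalClosure (S : Set (FreeGroup ι)) ≤ K := by
    have := hKn
    apply normalClosure_le_normal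
    intro s hs
    exact (hK s (h.le (subset_normalClosure hs))).2 (h0 s hs)
  have h1 := h.ker_le K hKn hKi hSK
  funext r
  by_cases hr : r ∈ φ.ker
  · exact (hK r hr).1 (h1 hr)
  · exact IL_out hl hr

/-- The values at the relators. -/
private def B2_map (p : ℕ) {ι G : Type} [Group G] (φ : FreeGroup ι →* G) (S : Finset (FreeGroup ι)) :
    IL p φ.ker →ₗ[ZMod p] (S → ZMod p) where
  toFun l s := (l : FreeGroup ι → ZMod p) s
  map_add' _ _ := rfl
  map_smul' _ _ := rfl

private theorem B2_inj (hG : IsPGroup p G) (h : ProP p φ S) :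
    Function.Injective (B2_map p φ S) := by
  rw [injective_iff_map_eq_zero]
  rintro ⟨l, hl⟩ h1
  have h2 : ∀ s ∈ S, l s = 0 := fun s hs => congrFun h1 ⟨s, hs⟩
  exact Subtype.ext (ProP.inj hG h hl h2)

theorem ProP.findim (hG : IsPGroup p G) (h : ProP p φ S) :
    Module.Finite (ZMod p) (IL p φ.ker) := by
  refine Module.Finite.of_injective (B2_map p φ S) (B2_inj hG h)

theorem ProP.finrank_le (hG : IsPGroup p G) (h : ProP p φ S) :
    Module.finrank (ZMod p) (IL p φ.ker) ≤ S.card := by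
  have h1 := LinearMap.finrank_le_finrank_of_injective (B2_inj hG h)
  rw [Module.finrank_fintype_fun_eq_card, Fintype.card_coe] at h1
  exact h1

end Pool.Agent.RG
end

section

/-!
# RG K1: the Heisenberg functionals

`chi p i j : FreeGroup ι →* Hei p` sends the generator `i` to `(1,0,0)`, `j` to `(0,1,0)`, the others to `1`;
multiplication `(a,b,c)(a',b',c') = (a+a', b+b', c+c'+ab')` (`Hei.mul_a`, ...).  `kap` is the third coordinate.
`chi_a`, `chi_b`: `f ↦ (chi f).a` is additive (`Hei.mul_a`) with the same values on generators as `ev f i`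
(`FreeGroup.induction_on`, or compare two homomorphisms to `Multiplicative (ZMod p)` with `FreeGroup.ext_hom`).
`kap_mul`: `Hei.mul_c` and `chi_a`, `chi_b`.
`kap_conj`: if `p` divides all exponent sums of `r` then `kap (f * r * f⁻¹) = kap r` (computation in `Hei p`: the element
`chi r` has `a = b = 0` and is central).
`kap_mem`: `res_mem` (B1) with `kap_mul` (`ev r i = 0` in `ZMod p`) and `kap_conj`.
`kap_cm`: `chi (cm f g)` satisfies `(chi g * chi f) * chi (cm f g) = chi f * chi g`, and its first two coordinates are 0;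
compare third coordinates.
`kap_list`: for a list of elements with `chi` of first two coordinates 0.  `chi_zpow_left`: `(1,0,0)^n = (n,0,0)`,
`chi_zpow_right`: `(0,1,0)^n = (0,n,0)` (induction).
-/

set_option autoImplicit false

namespace Pool.Agent.RG

open Subgroup

variable {p : ℕ} {ι : Type} [DecidableEq ι]

theorem chi_a (i j : ι) (f : FreeGroup ι) : (chi p i j f).a = (ev f i : ZMod p) := by
  induction f using FreeGroup.induction_on with
  | C1 => rw [map_one, ev_one, Int.cast_zero]; rfl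
  | of x =>
    rw [ev_of]
    unfold chi
    rw [FreeGroup.lift_apply_of]
    by_cases h1 : x = i
    · simp [h1]
    · by_cases h2 : x = j
      · rw [if_neg h1, if_pos h2, if_neg h1, Int.cast_zero]
      · rw [if_neg h1, if_neg h2, if_neg h1, Int.cast_zero]; rfl
  | inv_of x ih => rw [map_inv, Hei.inv_a, ih, ev_inv, Int.cast_neg]
  | mul x y hx hy => rw [map_mul, Hei.mul_a, hx, hy, ev_mul, Int.cast_add]

theorem chi_b {i j : ι} (hij : i ≠ j) (f : FreeGroup ι) : (chi p i j f).b = (ev f j : ZMod p) := by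
  induction f using FreeGroup.induction_on with
  | C1 => rw [map_one, ev_one, Int.cast_zero]; rfl
  | of x =>
    rw [ev_of]
    unfold chi
    rw [FreeGroup.lift_apply_of]
    by_cases h1 : x = i
    · have h3 : x ≠ j := fun h => hij (h1.symm.trans h)
      rw [if_pos h1, if_neg h3, Int.cast_zero]
    · by_cases h2 : x = j
      · rw [if_neg h1, if_pos h2, if_pos h2, Int.cast_one]
      · rw [if_neg h1, if_neg h2, if_neg h2, Int.cast_zero]; rfl
  | inv_of x ih => rw [map_inv, Hei.inv_b, ih, ev_inv, Int.cast_neg]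
  | mul x y hx hy => rw [map_mul, Hei.mul_b, hx, hy, ev_mul, Int.cast_add]

theorem kap_one (i j : ι) : kap p i j (1 : FreeGroup ι) = 0 := by
  unfold kap
  rw [map_one]
  rfl

theorem kap_mul {i j : ι} (hij : i ≠ j) (f g : FreeGroup ι) :
    kap p i j (f * g) = kap p i j f + kap p i j g + (ev f i : ZMod p) * (ev g j : ZMod p) := by
  unfold kap
  rw [map_mul, Hei.mul_c, chi_a, chi_b hij]

theorem kap_conj {i j : ι} (hij : i ≠ j) (f r : FreeGroup ι) (hi : (p : ℤ) ∣ ev r i)
    (hj : (p : ℤ) ∣ ev r j) : kap p i j (f * r * f⁻¹) = kap p i j r := by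
  have ha : (chi p i j r).a = 0 := by
    rw [chi_a]
    exact (ZMod.intCast_zmod_eq_zero_iff_dvd _ _).2 hi
  have hb : (chi p i j r).b = 0 := by
    rw [chi_b hij]
    exact (ZMod.intCast_zmod_eq_zero_iff_dvd _ _).2 hj
  unfold kap
  rw [map_mul, map_mul, map_inv]
  simp only [Hei.mul_a, Hei.mul_c, Hei.inv_b, Hei.inv_c, ha, hb]
  ring

theorem kap_mem {R : Subgroup (FreeGroup ι)} [R.Normal] (h : FrK p R) {i j : ι} (hij : i ≠ j) :
    res R (kap p i j) ∈ IL p R := by
  refine res_mem _ (fun r hr s hs => ?_) (fun f r hr => ?_)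
  · rw [kap_mul hij, (ZMod.intCast_zmod_eq_zero_iff_dvd _ _).2 (h r hr i), zero_mul, add_zero]
  · exact kap_conj hij f r (h r hr i) (h r hr j)

theorem kap_cm {i j : ι} (hij : i ≠ j) (f g : FreeGroup ι) : kap p i j (cm f g) =
    (ev f i : ZMod p) * (ev g j : ZMod p) - (ev g i : ZMod p) * (ev f j : ZMod p) := by
  unfold kap cm
  rw [map_mul, map_mul, map_mul, map_inv, map_inv]
  rw [← chi_a i j f, ← chi_a i j g, ← chi_b hij f, ← chi_b hij g]
  simp only [Hei.mul_a, Hei.mul_c, Hei.inv_a, Hei.inv_b, Hei.inv_c]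
  ring

theorem kap_of (i j l : ι) : kap p i j (FreeGroup.of l) = 0 := by
  unfold kap chi
  rw [FreeGroup.lift_apply_of]
  by_cases h1 : l = i
  · rw [if_pos h1]
  · by_cases h2 : l = j
    · rw [if_neg h1, if_pos h2]
    · rw [if_neg h1, if_neg h2]; rfl

private theorem K1_zpow (x : Hei p) (h : x.a * x.b = 0) (hc : x.c = 0) (n : ℤ) :
    (x ^ n).a = n * x.a ∧ (x ^ n).b = n * x.b ∧ (x ^ n).c = 0 := by
  induction n using Int.induction_on with
  | zero =>
    rw [zpow_zero, Int.cast_zero, zero_mul, zero_mul]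
    exact ⟨rfl, rfl, rfl⟩
  | succ n ih =>
    obtain ⟨h1, h2, h3⟩ := ih
    rw [zpow_add_one]
    refine ⟨?_, ?_, ?_⟩
    · rw [Hei.mul_a, h1]; push_cast; ring
    · rw [Hei.mul_b, h2]; push_cast; ring
    · rw [Hei.mul_c, h3, hc, h1, mul_assoc, h]; ring
  | pred n ih =>
    obtain ⟨h1, h2, h3⟩ := ih
    rw [zpow_sub_one]
    refine ⟨?_, ?_, ?_⟩
    · rw [Hei.mul_a, h1, Hei.inv_a]; push_cast; ring
    · rw [Hei.mul_b, h2, Hei.inv_b]; push_cast; ring
    · rw [Hei.mul_c, h3, Hei.inv_c, Hei.inv_b, hc, h1, h, mul_neg, mul_assoc, h]; ring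

/-- a power whose exponent is divisible by `p` of a generator -/
theorem chi_of_zpow (i j l : ι) {n : ℤ} (hn : (p : ℤ) ∣ n) :
    chi p i j (FreeGroup.of l ^ n) = 1 := by
  have h0 : ((n : ℤ) : ZMod p) = 0 := (ZMod.intCast_zmod_eq_zero_iff_dvd _ _).2 hn
  have h1 : (chi p i j (FreeGroup.of l)).a * (chi p i j (FreeGroup.of l)).b = 0 := by
    unfold chi
    rw [FreeGroup.lift_apply_of]
    by_cases h1 : l = i
    · rw [if_pos h1, mul_zero]
    · by_cases h2 : l = j
      · rw [if_neg h1, if_pos h2, zero_mul]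
      · rw [if_neg h1, if_neg h2, Hei.one_a, zero_mul]
  obtain ⟨e1, e2, e3⟩ := K1_zpow (chi p i j (FreeGroup.of l)) h1 (kap_of i j l) n
  rw [map_zpow]
  ext
  · rw [e1, h0, zero_mul]; rfl
  · rw [e2, h0, zero_mul]; rfl
  · rw [e3]; rfl

theorem chi_gpow {k N : ℕ} (i j : Fin k ⊕ Fin N) (v : Fin N → ℤ) (hv : ∀ l, (p : ℤ) ∣ v l) :
    chi p i j (gpow Y v : FF k N) = 1 := by
  unfold gpow
  rw [map_list_prod, List.map_ofFn]
  have h1 : ((chi p i j : FreeGroup (Fin k ⊕ Fin N) → Hei p) ∘ fun l : Fin N => (Y l : FF k N) ^ v l) = fun _ => 1 := by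
    funext l
    exact chi_of_zpow i j (Sum.inr l) (hv l)
  rw [h1]
  apply List.prod_eq_one
  intro x hx
  rw [List.mem_ofFn] at hx
  obtain ⟨_, h2⟩ := hx
  exact h2.symm

/-- words in the generators `X i` -/
theorem kap_inx_lr {k N : ℕ} (i : Fin k) (j : Fin N) (w : FreeGroup (Fin k)) :
    kap p (Sum.inl i) (Sum.inr j) (inx k N w) = 0 := by
  have hij : (Sum.inl i : Fin k ⊕ Fin N) ≠ Sum.inr j := Sum.inl_ne_inr
  induction w using FreeGroup.induction_on with
  | C1 => rw [map_one, kap_one]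
  | of x => exact kap_of _ _ _
  | inv_of x ih =>
    have h1 := kap_mul (p := p) hij (inx k N (FreeGroup.of x)) (inx k N (FreeGroup.of x)⁻¹)
    rw [← map_mul, mul_inv_cancel, map_one, kap_one, ih, ev_inx_inr, Int.cast_zero, mul_zero, zero_add, add_zero] at h1
    exact h1.symm
  | mul x y hx hy => rw [map_mul, kap_mul hij, hx, hy, ev_inx_inr, Int.cast_zero, mul_zero, zero_add, add_zero]

theorem kap_inx_rr {k N : ℕ} (i j : Fin N) (w : FreeGroup (Fin k)) :
    kap p (Sum.inr i) (Sum.inr j) (inx k N w) = 0 := by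
  have h1 : (chi p (Sum.inr i : Fin k ⊕ Fin N) (Sum.inr j)).comp (inx k N) = 1 := by
    apply FreeGroup.ext_hom
    intro x
    rw [MonoidHom.comp_apply]
    unfold inx chi
    rw [FreeGroup.map.of, FreeGroup.lift_apply_of, if_neg Sum.inl_ne_inr, if_neg Sum.inl_ne_inr]
    rfl
  have h2 := DFunLike.congr_fun h1 w
  rw [MonoidHom.comp_apply] at h2
  unfold kap
  rw [h2]
  rfl

end Pool.Agent.RG
end

section

/-!
# RG DU: the dual functionals of the relators

PROOF.  `R = D.psi.ker`; `D.fr : FrK p R` (`D.psi` unfolds to the lift in `D.fr`).  The relators are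
`a i j = cm (X i) (Y j) * (inx (cw i j))⁻¹`, `c q = cm (Y q.1) (Y q.2) * (inx ..)⁻¹` (`q.1 < q.2`),
`b i = gpow Y (v i) * (inx (bw i))⁻¹`, all in `R` (`D.rel_mem`).
Functionals:
* for `a i j`: `res R (kap p (inl i) (inr j))` (`kap_mem`);
* for `c q`: `res R (kap p (inr q.1.1) (inr q.1.2))`;
* for `b i`: `res R l`, `l r = ` the coordinate of index `i` modulo `p` of `(ev r (inr j))_j` in the basis `v` of
  `Submodule.span ℤ (range v)` (`Basis.span D.hv`, `D.ev_mem`); outside of `R` it does not matter (use `res_mem`,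
  the map `r ↦ (ev r (inr j))_j` is additive and invariant under conjugation, `ev_mul`, `ev_conj`).
Values (`kap_mul`, `kap_cm`, `ev_cm`, `ev_of`, `ev_inx_inr`, `ev_inx_inl`, `kap_inx_lr`, `kap_inx_rr`, `chi_gpow`; note
`X i = of (inl i)`, `Y j = of (inr j)`; the first factor of a relator of type a, c has all `ev = 0`, the first factor of
type b has `ev (inl i) = 0` and `ev (inr j) = v j`, divisible by `p`):
* `kap (inl i) (inr j)` : on `a i' j'` it is `1` if `i = i'`, `j = j'`, otherwise `0`; on type c: `ev (Y _) (inl i) = 0`, so `0`;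
  on type b: `chi (gpow Y v) = 1` (`D.hv3`), `kap (inx ..) = 0`; on `inx r`: `0`.
* `kap (inr j) (inr l)`, `j < l` : on `a i' j'`: `ev (X i') (inr _) = 0` and the second product vanishes as well; on `c q'`: `1` if
  `q' = (j, l)` and otherwise `0` (`q'.1 = l`, `q'.2 = j` is impossible because of the orders); type b and `inx`: `0`.
* coordinate functional: `ev` of types a, c at `inr j` is `0`; on `b i'` it is `v i'`, coordinate `δ`; on `inx r`: `0`.
Split into several lemmas (value on each type).  For `r ∈ (lift x).ker`: `inx r ∈ R` by `psi_inx`.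
-/

set_option autoImplicit false

namespace Pool.Agent.RG

open Subgroup

private theorem DU_mulinx_lr {p k N : ℕ} (i : Fin k) (j : Fin N) (f : FF k N) (w : FreeGroup (Fin k)) :
    kap p (Sum.inl i) (Sum.inr j) (f * (inx k N w)⁻¹) = kap p (Sum.inl i) (Sum.inr j) f := by
  rw [← map_inv, kap_mul (by simp), kap_inx_lr, ev_inx_inr, Int.cast_zero, mul_zero, add_zero, add_zero]

private theorem DU_mulinx_rr {p k N : ℕ} {i j : Fin N} (hij : i ≠ j) (f : FF k N)
    (w : FreeGroup (Fin k)) :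
    kap p (Sum.inr i) (Sum.inr j) (f * (inx k N w)⁻¹) = kap p (Sum.inr i) (Sum.inr j) f := by
  rw [← map_inv, kap_mul (by simpa using hij), kap_inx_rr, ev_inx_inr, Int.cast_zero, mul_zero,
    add_zero, add_zero]

private theorem DU_kap_gpow {p k N : ℕ} (i j : Fin k ⊕ Fin N) (v : Fin N → ℤ)
    (hv : ∀ l, (p : ℤ) ∣ v l) : kap p i j (gpow Y v : FF k N) = 0 := by
  rw [kap, chi_gpow i j v hv, Hei.one_c]

open Classical in
/-- the coordinate of a vector of the span -/
private noncomputable def DU_co {N nb : ℕ} {v : Fin nb → Fin N → ℤ} (hv : LinearIndependent ℤ v)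
    (i : Fin nb) (w : Fin N → ℤ) : ℤ :=
  if h : w ∈ Submodule.span ℤ (Set.range v) then (Module.Basis.span hv).repr ⟨w, h⟩ i else 0

private theorem DU_co_add {N nb : ℕ} {v : Fin nb → Fin N → ℤ} (hv : LinearIndependent ℤ v)
    (i : Fin nb) {w w' : Fin N → ℤ} (hw : w ∈ Submodule.span ℤ (Set.range v))
    (hw' : w' ∈ Submodule.span ℤ (Set.range v)) :
    DU_co hv i (w + w') = DU_co hv i w + DU_co hv i w' := by
  unfold DU_co
  rw [dif_pos hw, dif_pos hw', dif_pos (Submodule.add_mem _ hw hw'), ← Finsupp.add_apply, ← map_add]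
  rfl

private theorem DU_co_zero {N nb : ℕ} {v : Fin nb → Fin N → ℤ} (hv : LinearIndependent ℤ v)
    (i : Fin nb) : DU_co hv i 0 = 0 := by
  have h := DU_co_add hv i (Submodule.zero_mem (Submodule.span ℤ (Set.range v)))
    (Submodule.zero_mem (Submodule.span ℤ (Set.range v)))
  rw [add_zero] at h
  linarith

private theorem DU_co_self {N nb : ℕ} {v : Fin nb → Fin N → ℤ} (hv : LinearIndependent ℤ v)
    (i i' : Fin nb) : DU_co hv i (v i') = if i = i' then 1 else 0 := by
  have hm : v i' ∈ Submodule.span ℤ (Set.range v) := Submodule.subset_span ⟨i', rfl⟩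
  unfold DU_co
  rw [dif_pos hm]
  have h2 : (⟨v i', hm⟩ : Submodule.span ℤ (Set.range v)) = Module.Basis.span hv i' :=
    (Module.Basis.span_apply hv i').symm
  rw [h2, Module.Basis.repr_self, Finsupp.single_apply]
  simp only [eq_comm]

theorem Dat.exists_dual {p : ℕ} [Fact p.Prime] {G : Type} [Group G] [Finite G] (D : Dat p G) :
    ∃ lam : RI D.k D.N D.nb → FF D.k D.N → ZMod p, (∀ τ, lam τ ∈ IL p D.psi.ker) ∧
      (∀ τ τ', lam τ (D.rel τ') = if τ = τ' then 1 else 0) ∧
      ∀ τ, ∀ r ∈ (FreeGroup.lift D.x).ker, lam τ (inx D.k D.N r) = 0 := by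
  have hfr : FrK p D.psi.ker := D.fr
  set lam : RI D.k D.N D.nb → FF D.k D.N → ZMod p := fun τ => match τ with
    | .inl (i, j) => res D.psi.ker (kap p (Sum.inl i) (Sum.inr j))
    | .inr (.inl q) => res D.psi.ker (kap p (Sum.inr q.1.1) (Sum.inr q.1.2))
    | .inr (.inr i) => res D.psi.ker (fun r => ((DU_co D.hv i (fun j => ev r (Sum.inr j)) : ℤ) : ZMod p))
    with hlam
  refine ⟨lam, ?_, ?_, ?_⟩
  · rintro (⟨i, j⟩ | q | i)
    · exact kap_mem hfr (by simp)
    · exact kap_mem hfr (by simpa using ne_of_lt q.2)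
    · refine res_mem _ ?_ ?_
      · intro r hr s hs
        have h1 := DU_co_add D.hv i (D.ev_mem hr) (D.ev_mem hs)
        have h2 : (fun j => ev (r * s) (Sum.inr j : Fin D.k ⊕ Fin D.N)) =
            (fun j => ev r (Sum.inr j)) + (fun j => ev s (Sum.inr j)) := by
          funext j; rw [Pi.add_apply, ev_mul]
        show ((DU_co D.hv i (fun j => ev (r * s) (Sum.inr j)) : ℤ) : ZMod p) = _
        rw [h2, h1, Int.cast_add]
      · intro f r hr
        show ((DU_co D.hv i (fun j => ev (f * r * f⁻¹) (Sum.inr j)) : ℤ) : ZMod p) = _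
        simp only [ev_conj]
  · intro τ τ'
    have hm : D.rel τ' ∈ D.psi.ker := D.rel_mem τ'
    rcases τ with ⟨i, j⟩ | q | i
    · show res D.psi.ker (kap p (Sum.inl i) (Sum.inr j)) (D.rel τ') = _
      rw [res_eq _ hm]
      rcases τ' with ⟨i', j'⟩ | q' | i'
      · show kap p (Sum.inl i) (Sum.inr j) (cm (X i') (Y j') * (inx D.k D.N (D.cw i' j'))⁻¹) = _
        rw [DU_mulinx_lr, kap_cm (by simp), X, Y, ev_of, ev_of, ev_of, ev_of]
        by_cases h1 : i = i' <;> by_cases h2 : j = j' <;> simp [h1, h2, eq_comm]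
      · show kap p (Sum.inl i) (Sum.inr j) (cm (Y q'.1.1) (Y q'.1.2) * (inx D.k D.N _)⁻¹) = _
        rw [DU_mulinx_lr, kap_cm (by simp), Y, Y, ev_of, ev_of, ev_of, ev_of]
        simp
      · show kap p (Sum.inl i) (Sum.inr j) (gpow Y (D.v i') * (inx D.k D.N _)⁻¹) = _
        rw [DU_mulinx_lr, DU_kap_gpow _ _ _ (D.hv3 i')]
        simp
    · have hq : q.1.1 ≠ q.1.2 := ne_of_lt q.2
      show res D.psi.ker (kap p (Sum.inr q.1.1) (Sum.inr q.1.2)) (D.rel τ') = _
      rw [res_eq _ hm]
      rcases τ' with ⟨i', j'⟩ | q' | i'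
      · show kap p (Sum.inr q.1.1) (Sum.inr q.1.2) (cm (X i') (Y j') * (inx D.k D.N (D.cw i' j'))⁻¹) = _
        rw [DU_mulinx_rr hq, kap_cm (by simpa using hq), X, Y, ev_of, ev_of, ev_of, ev_of]
        simp
      · show kap p (Sum.inr q.1.1) (Sum.inr q.1.2) (cm (Y q'.1.1) (Y q'.1.2) * (inx D.k D.N _)⁻¹) = _
        rw [DU_mulinx_rr hq, kap_cm (by simpa using hq), Y, Y, ev_of, ev_of, ev_of, ev_of]
        obtain ⟨⟨a, b⟩, hab⟩ := q
        obtain ⟨⟨c, d⟩, hcd⟩ := q'
        simp only at hab hcd ⊢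
        by_cases h1 : a = c
        · subst h1
          by_cases h2 : b = d
          · subst h2
            have h3 : ¬ b = a := (ne_of_lt hab).symm
            simp [h3]
          · have h3 : ¬ a = b := ne_of_lt hab
            have h4 : ¬ d = b := fun h => h2 h.symm
            simp [h2, h3, h4]
        · have h4 : ¬ c = a := fun h => h1 h.symm
          by_cases h2 : d = a
          · subst h2
            have h5 : ¬ c = b := fun h => by
              subst h
              exact absurd hcd (not_lt.mpr hab.le)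
            simp [h1, h4, h5]
          · simp [h1, h4, h2]
      · show kap p (Sum.inr q.1.1) (Sum.inr q.1.2) (gpow Y (D.v i') * (inx D.k D.N _)⁻¹) = _
        rw [DU_mulinx_rr hq, DU_kap_gpow _ _ _ (D.hv3 i')]
        simp
    · show res D.psi.ker (fun r => ((DU_co D.hv i (fun j => ev r (Sum.inr j)) : ℤ) : ZMod p))
        (D.rel τ') = _
      rw [res_eq _ hm]
      show ((DU_co D.hv i (fun j => ev (D.rel τ') (Sum.inr j)) : ℤ) : ZMod p) = _
      rcases τ' with ⟨i', j'⟩ | q' | i'
      · have h2 : (fun j => ev (D.rel (.inl (i', j'))) (Sum.inr j : Fin D.k ⊕ Fin D.N)) = 0 := by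
          funext j
          show ev (cm (X i') (Y j') * (inx D.k D.N (D.cw i' j'))⁻¹) _ = 0
          rw [ev_mul, ev_cm, ev_inv, ev_inx_inr]
          simp
        rw [h2, DU_co_zero]
        simp
      · have h2 : (fun j => ev (D.rel (.inr (.inl q'))) (Sum.inr j : Fin D.k ⊕ Fin D.N)) = 0 := by
          funext j
          show ev (cm (Y q'.1.1) (Y q'.1.2) * (inx D.k D.N _)⁻¹) _ = 0
          rw [ev_mul, ev_cm, ev_inv, ev_inx_inr]
          simp
        rw [h2, DU_co_zero]
        simp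
      · have h2 : (fun j => ev (D.rel (.inr (.inr i'))) (Sum.inr j : Fin D.k ⊕ Fin D.N)) = D.v i' := by
          funext j
          show ev (gpow Y (D.v i') * (inx D.k D.N _)⁻¹) _ = D.v i' j
          rw [ev_mul, ev_gpow_inr, ev_inv, ev_inx_inr]
          simp
        rw [h2, DU_co_self]
        by_cases h : i = i' <;> simp [h]
  · intro τ r hr
    have hm : inx D.k D.N r ∈ D.psi.ker := by
      rw [MonoidHom.mem_ker, D.psi_inx]
      exact hr
    rcases τ with ⟨i, j⟩ | q | i
    · show res D.psi.ker (kap p (Sum.inl i) (Sum.inr j)) (inx D.k D.N r) = _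
      rw [res_eq _ hm, kap_inx_lr]
    · show res D.psi.ker (kap p (Sum.inr q.1.1) (Sum.inr q.1.2)) (inx D.k D.N r) = _
      rw [res_eq _ hm, kap_inx_rr]
    · show res D.psi.ker (fun r => ((DU_co D.hv i (fun j => ev r (Sum.inr j)) : ℤ) : ZMod p))
        (inx D.k D.N r) = _
      rw [res_eq _ hm]
      show ((DU_co D.hv i (fun j => ev (inx D.k D.N r) (Sum.inr j)) : ℤ) : ZMod p) = _
      have h2 : (fun j => ev (inx D.k D.N r) (Sum.inr j : Fin D.k ⊕ Fin D.N)) = 0 := by
        funext j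
        exact ev_inx_inr r j
      rw [h2, DU_co_zero, Int.cast_zero]

end Pool.Agent.RG
end

section

/-!
# RG SEL: linear algebra: selection of relators

PROOF.  Let `W` be the span of the `r j` in the dual space `V →ₗ[K] K` (finite dimensional).  There is a subset `I`
of `Fin t` such that `(r i)_{i ∈ I}` is a basis of `W` (`exists_linearIndependent'` or
`exists_linearIndependent`, applied to the family `r`: an injective reindexing with linearly independent
values and the same span; take `I` = its image).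
(1) The family `e τ` (`τ : T`), `r i` (`i ∈ I`) is linearly independent: in a relation `∑ a_τ e τ + ∑ b_i r i = 0` evaluate
at `lam τ`: `a_τ = 0` (`h1`, `h2`); then all `b_i = 0`.  So `card T + card I ≤ finrank (V →ₗ[K] K) = finrank V`
(`LinearIndependent.fintype_card_le_finrank`, `Subspace.dual_finrank_eq`).
(2) If `r i l = 0` for `i ∈ I` then the evaluation at `l` vanishes on the span `W`, so `r j l = 0` for all `j`
(`Submodule.span_induction`).
-/

set_option autoImplicit false

namespace Pool.Agent.RG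

theorem abs_select {K V : Type} [Field K] [AddCommGroup V] [Module K V] [Module.Finite K V]
    {T : Type} [Fintype T] [DecidableEq T] {t : ℕ} (e : T → V →ₗ[K] K) (r : Fin t → V →ₗ[K] K)
    (lam : T → V) (h1 : ∀ a b, e b (lam a) = if a = b then 1 else 0) (h2 : ∀ a j, r j (lam a) = 0) :
    ∃ I : Finset (Fin t), Fintype.card T + I.card ≤ Module.finrank K V ∧
      ∀ l : V, (∀ i ∈ I, r i l = 0) → ∀ j, r j l = 0 := by
  classical
  obtain ⟨κ, a, ha, hspan, hli⟩ := exists_linearIndependent' K r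
  have hκ : Finite κ := Finite.of_injective a ha
  obtain ⟨_⟩ := nonempty_fintype κ
  refine ⟨Finset.univ.image a, ?_, ?_⟩
  · rw [Finset.card_image_of_injective _ ha, Finset.card_univ]
    have hall : LinearIndependent K (Sum.elim e (r ∘ a)) := by
      rw [Fintype.linearIndependent_iff]
      intro g hg
      rw [Fintype.sum_sum_type] at hg
      simp only [Sum.elim_inl, Sum.elim_inr, Function.comp_apply] at hg
      have hinl : ∀ τ, g (Sum.inl τ) = 0 := by
        intro τ
        have h3 := LinearMap.congr_fun hg (lam τ)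
        simp only [LinearMap.add_apply, LinearMap.sum_apply, LinearMap.smul_apply, h1, h2,
          Finset.sum_const_zero, add_zero, LinearMap.zero_apply, smul_eq_mul, mul_ite, mul_one, mul_zero,
          Finset.sum_ite_eq, Finset.mem_univ, if_true] at h3
        exact h3
      rintro (τ | i)
      · exact hinl τ
      · have h4 : ∑ i, g (Sum.inr i) • (r ∘ a) i = 0 := by
          simpa only [hinl, zero_smul, Finset.sum_const_zero, zero_add, Function.comp_apply] using hg
        exact (Fintype.linearIndependent_iff.1 hli) (fun i => g (Sum.inr i)) h4 i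
    have h5 := hall.fintype_card_le_finrank
    rw [Fintype.card_sum] at h5
    have h6 : Module.finrank K (V →ₗ[K] K) = Module.finrank K V := Subspace.dual_finrank_eq
    omega
  · intro l hl j
    have hj : r j ∈ Submodule.span K (Set.range (r ∘ a)) := by
      rw [hspan]
      exact Submodule.subset_span ⟨j, rfl⟩
    refine Submodule.span_induction (p := fun f _ => f l = 0) ?_ ?_ ?_ ?_ hj
    · rintro _ ⟨i, rfl⟩
      exact hl (a i) (Finset.mem_image_of_mem a (Finset.mem_univ i))
    · rfl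
    · intro f g _ _ hf hg
      rw [LinearMap.add_apply, hf, hg, add_zero]
    · intro c f _ hf
      rw [LinearMap.smul_apply, hf, smul_zero]

end Pool.Agent.RG
end
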