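import Pool.Agent.Lib.MP_1a39b9_al.Mg.G004
import Pool.Agent.Lib.MP_1a39b9_al.Mg.G005

section

/-!
# Theorem B: definitions

`Mk p x th pi b`: the group `G` of order `p ^ (d + e)` is generated by `x`, `th` is a homomorphism from `F_p ^ e` into the centre,
`x i ^ p = th (pi i)`, `[x i, x j] = th (b i j)`.  `act g b`: the family `b` in the new generators given by the columns of `g`.
`part i = i % 3`.  The generators `0`, `1`, `2` are special.  `Gd p b`: the conditions on the family `b`:
the special generator `a` commutes with the generators of the part `a`, the commutators of `a` with the nonspecial generators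
outside of the part `a` span, the commutators inside of each part span.
-/

set_option autoImplicit false

namespace Pool.Agent.RG

open Subgroup

/-- The commutators and the `p`-th powers are central and of order dividing `p`. -/
structure PC2 (p : ℕ) (G : Type) [Group G] : Prop where
  cc : ∀ a b c : G, cm (cm a b) c = 1
  pc : ∀ a b : G, cm (a ^ p) b = 1
  cp : ∀ a b : G, cm a b ^ p = 1
  pp : ∀ a : G, a ^ (p ^ 2) = 1

/-- The subgroup generated by the `p`-th powers and the commutators. -/
def Ph (p : ℕ) (G : Type) [Group G] : Subgroup G :=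
  closure ({g | ∃ a : G, g = a ^ p} ∪ {g | ∃ a b : G, g = cm a b})

/-- There is a discrete presentation with `d` generators, `d` the least number of generators, which is at least as
short as every pro-`p` presentation with `d` generators. -/
def NoGap (p : ℕ) (G : Type) [Group G] : Prop :=
  ∃ d : ℕ, (∃ φ : FreeGroup (Fin d) →* G, Function.Surjective φ) ∧
    (∀ m < d, ∀ φ : FreeGroup (Fin m) →* G, ¬ Function.Surjective φ) ∧
    ∃ (ψ : FreeGroup (Fin d) →* G) (T : Finset (FreeGroup (Fin d))), Disc ψ T ∧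
      ∀ (φ : FreeGroup (Fin d) →* G) (S : Finset (FreeGroup (Fin d))), ProP p φ S → T.card ≤ S.card

/-- A marking. -/
structure Mk (p : ℕ) {G : Type} [Group G] {d e : ℕ} (x : Fin d → G) (th : (Fin e → ZMod p) → G)
    (pi : Fin d → Fin e → ZMod p) (b : Fin d → Fin d → Fin e → ZMod p) : Prop where
  gen : closure (Set.range x) = ⊤
  add : ∀ v w, th (v + w) = th v * th w
  cen : ∀ v g, th v * g = g * th v
  pw : ∀ i, x i ^ p = th (pi i)
  cmm : ∀ i j, cm (x i) (x j) = th (b i j)
  card : Nat.card G = p ^ (d + e)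

/-- The action of the matrices on the families. -/
def act {p d e : ℕ} (g : Matrix (Fin d) (Fin d) (ZMod p)) (b : Fin d → Fin d → Fin e → ZMod p) :
    Fin d → Fin d → Fin e → ZMod p :=
  fun i j => ∑ k, ∑ l, (g k i * g l j) • b k l

/-- Alternating families. -/
def Alt {p d e : ℕ} (b : Fin d → Fin d → Fin e → ZMod p) : Prop :=
  (∀ i, b i i = 0) ∧ ∀ i j, b j i = -b i j

/-- The part of an index. -/
def part {d : ℕ} (i : Fin d) : ℕ := i.val % 3

/-- The indices of the nonspecial generators outside of the part `r`. -/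
abbrev Out (d r : ℕ) : Type := {j : Fin d // 3 ≤ j.val ∧ part j ≠ r}

/-- The pairs of nonspecial generators of the part `r`. -/
abbrev Ins (d r : ℕ) : Type :=
  {q : Fin d × Fin d // 3 ≤ q.1.val ∧ q.1 < q.2 ∧ part q.1 = r ∧ part q.2 = r}

/-- The pairs `i < j`. -/
abbrev Pr (d : ℕ) : Type := {q : Fin d × Fin d // q.1 < q.2}

/-- The conditions on the commutators. -/
structure Gd (p : ℕ) {d e : ℕ} (b : Fin d → Fin d → Fin e → ZMod p) : Prop where
  zer : ∀ a j : Fin d, a.val < 3 → part j = a.val → b a j = 0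
  spo : ∀ a : Fin d, a.val < 3 →
    Submodule.span (ZMod p) (Set.range fun j : Out d a.val => b a j.1) = ⊤
  spi : ∀ r < 3, Submodule.span (ZMod p) (Set.range fun q : Ins d r => b q.1.1 q.1.2) = ⊤

/-- A lower bound for the number of the nonspecial generators of a part. -/
def qq (d : ℕ) : ℕ := d / 3 - 1

/-- The conditions on the numbers. -/
structure Big (d e : ℕ) : Prop where
  out : e + 1 ≤ 2 * qq d
  ins : 2 * (e + 1) ≤ qq d * (qq d - 1)
  five : 5 ≤ qq d

/-- The alternating family with given values at the pairs `i < j`. -/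
def ext {p d e : ℕ} (c : Pr d → Fin e → ZMod p) : Fin d → Fin d → Fin e → ZMod p := fun i j =>
  if h : i < j then c ⟨(i, j), h⟩ else if h : j < i then -c ⟨(j, i), h⟩ else 0

/-- There is a change of generators after which the conditions hold. -/
def Good (p : ℕ) {d e : ℕ} (b : Fin d → Fin d → Fin e → ZMod p) : Prop :=
  ∃ g : Matrix (Fin d) (Fin d) (ZMod p), IsUnit g ∧ Gd p (act g b)

/-- The matrix `g` fixes the special generators and maps the nonspecial ones to nonspecial ones. -/
def Fix3 {p d : ℕ} (g : Matrix (Fin d) (Fin d) (ZMod p)) : Prop :=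
  ∀ k i : Fin d, (k.val < 3 ∨ i.val < 3) → g k i = if k = i then 1 else 0

/-- The words with all exponent sums divisible by `p`. -/
def FrF (p d : ℕ) : Subgroup (FreeGroup (Fin d)) where
  carrier := {f | ∀ i, (p : ℤ) ∣ ev f i}
  mul_mem' := by
    intro f g hf hg i
    have : ev (f * g) i = ev f i + ev g i := by
      unfold ev
      rw [map_mul]
      rfl
    rw [this]
    exact dvd_add (hf i) (hg i)
  one_mem' := by
    intro i
    have : ev (1 : FreeGroup (Fin d)) i = 0 := by
      unfold ev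
      rw [map_one]
      rfl
    rw [this]
    exact dvd_zero _
  inv_mem' := by
    intro f hf i
    have : ev f⁻¹ i = -ev f i := by
      unfold ev
      rw [map_inv]
      rfl
    rw [this]
    exact (dvd_neg).mpr (hf i)

/-- The invariant homomorphism `FrF → F_p ^ e` with the values `pi i` at `x_i ^ p`, `c q` at the commutators. -/
def lam {p d e : ℕ} (pi : Fin d → Fin e → ZMod p) (c : Pr d → Fin e → ZMod p) (f : FreeGroup (Fin d)) :
    Fin e → ZMod p :=
  ∑ i, ((ev f i / (p : ℤ) : ℤ) : ZMod p) • pi i + ∑ q : Pr d, kap p q.1.1 q.1.2 f • c q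

/-- The data of a marking. -/
abbrev Sd (p d e : ℕ) : Type := (Fin d → Fin e → ZMod p) × (Pr d → Fin e → ZMod p)

/-- The data span. -/
def Spn {p d e : ℕ} (s : Sd p d e) : Prop :=
  Submodule.span (ZMod p) (Set.range s.1 ∪ Set.range s.2) = ⊤

/-- The marked group laws on `p ^ (d + e)` points with the data `s`. -/
def Mset {p d e : ℕ} (s : Sd p d e) :
    Set (Group (Fin (p ^ (d + e))) × (Fin d → Fin (p ^ (d + e))) × ((Fin e → ZMod p) → Fin (p ^ (d + e)))) :=
  {t | letI := t.1; Mk p t.2.1 t.2.2 s.1 (ext s.2)}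

/-- The group laws on `N` points in the class with `|Ph| = p ^ e`. -/
def Laws (p N e : ℕ) : Set (Group (Fin N)) :=
  {I | letI := I; PC2 p (Fin N) ∧ Nat.card (Ph p (Fin N)) = p ^ e}

/-- The number of the bases of `F_p ^ d`. -/
def bet (p d : ℕ) : ℕ := ∏ i ∈ Finset.range d, (p ^ d - p ^ i)

/-- The number of the markings of a group. -/
def Nmk (p d e : ℕ) : ℕ := p ^ (d * e) * bet p d * bet p e

end Pool.Agent.RG
end

section

/-!
# RG C3: the order of a central extension

PROOF of `card_abelian`.  `A` is commutative and generated by the `d` elements `X i` with `X i ^ p = 1`.  The map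
`(Fin d → ZMod p) → A`, `v ↦ ∏ i, X i ^ (v i).val` is surjective (its range is closed under multiplication, because `X i ^ n` depends only on `n` modulo `p`,
it contains the `X i`, and inverses: `g⁻¹ = g ^ (p - 1)`; or use the homomorphism from `Fin d → Multiplicative (ZMod p)`), so `|A| ≤ p ^ d`.
Alternative: `Additive A` is a `ZMod p`-module (`AddCommGroup.zmodModule`) spanned by `d` elements.
PROOF of `card_central`.  `N = closure (range z)` is central (`Subgroup.closure_le` with `center H`), so normal; `H ⧸ N` is commutative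
(`QuotientGroup.mk_surjective`, it is generated by the images of the `X i`, which commute because `cm (X i) (X j) ∈ N`; `commutator_le_of_gen` in AX), its order is at most `p ^ d` (`card_abelian`), the order
of `N` (commutative, generated by the `e` elements `z a`) at most `p ^ e`.  `Nat.card H = Nat.card (H ⧸ N) * Nat.card N` (`Subgroup.card_eq_card_quotient_mul_card_subgroup`),
finiteness: `Nat.finite_of_card_ne_zero`, or surjections from finite types.
-/

set_option autoImplicit false

namespace Pool.Agent.RG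

open Subgroup

private theorem C3_comm {A : Type} [Group A] {d : ℕ} (X : Fin d → A)
    (hX : closure (Set.range X) = ⊤) (hc : ∀ i j, X i * X j = X j * X i) (a b : A) : a * b = b * a := by
  have h1 : ∀ i, ∀ b : A, Commute (X i) b := by
    intro i b
    have hb : b ∈ closure (Set.range X) := by rw [hX]; exact mem_top b
    induction hb using closure_induction with
    | mem x hx =>
      obtain ⟨j, rfl⟩ := hx
      exact hc i j
    | one => exact Commute.one_right _
    | mul x y _ _ hx hy => exact hx.mul_right hy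
    | inv x _ hx => exact hx.inv_right
  have h2 : Commute a b := by
    have ha : a ∈ closure (Set.range X) := by rw [hX]; exact mem_top a
    induction ha using closure_induction with
    | mem x hx =>
      obtain ⟨j, rfl⟩ := hx
      exact h1 j b
    | one => exact Commute.one_left _
    | mul x y _ _ hx hy => exact hx.mul_left hy
    | inv x _ hx => exact hx.inv_left
  exact h2.eq

private theorem C3_abelian {A : Type} [CommGroup A] {p d : ℕ} (hp : 1 ≤ p) (X : Fin d → A)
    (hX : closure (Set.range X) = ⊤) (hX2 : ∀ i, X i ^ p = 1) :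
    Finite A ∧ Nat.card A ≤ p ^ d := by
  classical
  have h1 : ∀ a : A, ∃ v : Fin d → ℤ, a = ∏ i, X i ^ v i := by
    intro a
    have ha : a ∈ closure (Set.range X) := by rw [hX]; exact mem_top a
    induction ha using closure_induction with
    | mem x hx =>
      obtain ⟨j, rfl⟩ := hx
      refine ⟨Pi.single j 1, ?_⟩
      rw [Finset.prod_eq_single j]
      · simp
      · intro i _ hij
        simp [hij]
      · intro h
        exact absurd (Finset.mem_univ j) h
    | one => exact ⟨0, by simp⟩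
    | mul x y _ _ hx hy =>
      obtain ⟨v, hv⟩ := hx
      obtain ⟨w, hw⟩ := hy
      refine ⟨v + w, ?_⟩
      rw [hv, hw, ← Finset.prod_mul_distrib]
      exact Finset.prod_congr rfl fun i _ => by rw [Pi.add_apply, zpow_add]
    | inv x _ hx =>
      obtain ⟨v, hv⟩ := hx
      refine ⟨-v, ?_⟩
      rw [hv, ← Finset.prod_inv_distrib]
      exact Finset.prod_congr rfl fun i _ => by rw [Pi.neg_apply, zpow_neg]
  have hs : Function.Surjective fun v : Fin d → Fin p => ∏ i, X i ^ (v i : ℕ) := by
    intro a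
    obtain ⟨v, hv⟩ := h1 a
    have hp0 : (p : ℤ) ≠ 0 := by
      have : p ≠ 0 := by omega
      exact_mod_cast this
    have hlt : ∀ i, (v i % (p : ℤ)).toNat < p := by
      intro i
      have h2 := Int.emod_nonneg (v i) hp0
      have h3 := Int.emod_lt_of_pos (v i) (show (0 : ℤ) < p by omega)
      omega
    refine ⟨fun i => ⟨(v i % (p : ℤ)).toNat, hlt i⟩, ?_⟩
    rw [hv]
    refine Finset.prod_congr rfl fun i _ => ?_
    show X i ^ ((v i % (p : ℤ)).toNat) = X i ^ v i
    have h2 := Int.emod_nonneg (v i) hp0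
    rw [← zpow_natCast, Int.toNat_of_nonneg h2]
    have h3 : v i = (p : ℤ) * (v i / p) + v i % p := (Int.mul_ediv_add_emod (v i) p).symm
    conv_rhs => rw [h3]
    rw [zpow_add, zpow_mul, zpow_natCast, hX2, one_zpow, one_mul]
  refine ⟨Finite.of_surjective _ hs, ?_⟩
  have h4 := Nat.card_le_card_of_surjective _ hs
  simpa using h4

theorem card_abelian {A : Type} [Group A] {p d : ℕ} (hp : 1 ≤ p) (X : Fin d → A)
    (hX : closure (Set.range X) = ⊤) (hc : ∀ i j, X i * X j = X j * X i) (hX2 : ∀ i, X i ^ p = 1) :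
    Finite A ∧ Nat.card A ≤ p ^ d := by
  let cg : CommGroup A := { (inferInstance : Group A) with mul_comm := C3_comm X hX hc }
  exact @C3_abelian A cg p d hp X hX hX2

theorem card_central {H : Type} [Group H] {p d e : ℕ} (hp : 1 ≤ p) (X : Fin d → H)
    (hX : closure (Set.range X) = ⊤) (z : Fin e → H) (hz : ∀ a h, z a * h = h * z a)
    (hz2 : ∀ a, z a ^ p = 1) (h1 : ∀ i j, cm (X i) (X j) ∈ closure (Set.range z))
    (h2 : ∀ i, X i ^ p ∈ closure (Set.range z)) : Finite H ∧ Nat.card H ≤ p ^ (d + e) := by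
  have hcen : ∀ n ∈ closure (Set.range z), ∀ h : H, Commute n h := by
    intro n hn h
    induction hn using closure_induction with
    | mem x hx =>
      obtain ⟨a, rfl⟩ := hx
      exact hz a h
    | one => exact Commute.one_left _
    | mul x y _ _ hx hy => exact hx.mul_left hy
    | inv x _ hx => exact hx.inv_left
  have hN : (closure (Set.range z)).Normal := by
    refine ⟨fun n hn g => ?_⟩
    have e : g * n * g⁻¹ = n := by
      rw [← (hcen n hn g).eq, mul_assoc, mul_inv_cancel, mul_one]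
    rw [e]
    exact hn
  have hQ : Finite (H ⧸ closure (Set.range z)) ∧ Nat.card (H ⧸ closure (Set.range z)) ≤ p ^ d := by
    refine card_abelian hp (fun i => (X i : H ⧸ closure (Set.range z))) ?_ ?_ ?_
    · have h3 : (closure (Set.range X)).map (QuotientGroup.mk' (closure (Set.range z))) =
          closure ((QuotientGroup.mk' (closure (Set.range z))) '' Set.range X) := MonoidHom.map_closure _ _
      rw [hX, Subgroup.map_top_of_surjective _ (QuotientGroup.mk'_surjective _)] at h3
      rw [h3]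
      congr 1
      rw [← Set.range_comp]
      rfl
    · intro i j
      show ((X i * X j : H) : H ⧸ closure (Set.range z)) = ((X j * X i : H) : H ⧸ closure (Set.range z))
      rw [eq_comm, QuotientGroup.eq]
      have e : (X j * X i)⁻¹ * (X i * X j) = cm (X i) (X j) := by
        unfold cm
        group
      rw [e]
      exact h1 i j
    · intro i
      show ((X i ^ p : H) : H ⧸ closure (Set.range z)) = 1
      exact (QuotientGroup.eq_one_iff _).2 (h2 i)
  have hN2 : Finite (closure (Set.range z)) ∧ Nat.card (closure (Set.range z)) ≤ p ^ e := by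
    refine card_abelian hp (fun a => (⟨z a, subset_closure ⟨a, rfl⟩⟩ : closure (Set.range z))) ?_ ?_ ?_
    · have h3 := Subgroup.closure_closure_coe_preimage (k := Set.range z)
      rw [← h3]
      congr 1
      ext x
      constructor
      · rintro ⟨a, rfl⟩
        exact ⟨a, rfl⟩
      · rintro ⟨a, ha⟩
        exact ⟨a, Subtype.ext ha⟩
    · intro i j
      exact Subtype.ext (hz i (z j))
    · intro i
      exact Subtype.ext (by
        simpa using hz2 i)
  have h5 := Subgroup.card_eq_card_quotient_mul_card_subgroup (closure (Set.range z))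
  have f1 := hQ.1
  have f2 := hN2.1
  have h6 : 0 < Nat.card (H ⧸ closure (Set.range z)) := Nat.card_pos
  have h7 : 0 < Nat.card (closure (Set.range z)) := Nat.card_pos
  refine ⟨Nat.finite_of_card_ne_zero ?_, ?_⟩
  · rw [h5]
    exact (Nat.mul_pos h6 h7).ne'
  · rw [h5, pow_add]
    exact Nat.mul_le_mul hQ.2 hN2.2

end Pool.Agent.RG
end

section

/-!
# RG C4: the words with exponent sums divisible by `p`

`cm a b = a⁻¹ b⁻¹ a b`.
PROOF of `frF_eq`.  `⊆`: the generators are in `FrF` (`ev_zpow` or induction, `ev_of`, `ev_cm`) and `FrF` is normal (`ev_mul`, `ev_inv`).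
`⊇`: let `N` be the normal closure.  `F ⧸ N` is commutative (generated by commuting elements), so `f ∈ FrF` is mapped to
`∏ i, X̄ i ^ ev f i` (`ev_hom` for the map to the commutative group `F ⧸ N`; to have a `CommGroup` use a local instance with `mul_comm` proved by
`commutator_le_of_gen` or `Subgroup.closure_induction₂`), and `X̄ i ^ p = 1`, `p ∣ ev f i`: this is `1`.
PROOF of `eq_on_frF`: the difference of two such functions (component by component) is a homomorphism on `FrF`, invariant under conjugation, and vanishes on the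
generators; so on the normal closure (`Subgroup.normalClosure` = closure of the conjugates, `Subgroup.closure_induction`; or `IL_closure` of B1 for the function
which is `0` outside of `FrF`), which is `FrF` by `frF_eq`.
-/

set_option autoImplicit false

namespace Pool.Agent.RG

open Subgroup

instance instNormalFrF (p d : ℕ) : (FrF p d).Normal := by
  refine ⟨fun f hf g i => ?_⟩
  rw [ev_conj]
  exact hf i

private theorem C4_gen_pow (p d : ℕ) (i : Fin d) : (FreeGroup.of i : FreeGroup (Fin d)) ^ p ∈ FrF p d := by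
  intro j
  have h : ev ((FreeGroup.of i : FreeGroup (Fin d)) ^ p) j = (p : ℤ) * ev (FreeGroup.of i) j := by
    rw [← ev_zpow, zpow_natCast]
  rw [h]
  exact dvd_mul_right _ _

private theorem C4_gen_cm (p d : ℕ) (i j : Fin d) :
    cm (FreeGroup.of i : FreeGroup (Fin d)) (FreeGroup.of j) ∈ FrF p d := by
  intro k
  rw [ev_cm]
  exact dvd_zero _

private theorem C4_cm_comm {G : Type} [Group G] {a b : G} (h : cm a b = 1) : a * b = b * a := by
  unfold cm at h
  have h2 : a⁻¹ * b⁻¹ * a * b = (b * a)⁻¹ * (a * b) := by group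
  rw [h2, inv_mul_eq_one] at h
  exact h.symm

private theorem C4_comm {d : ℕ} {Q : Type} [Group Q] (π : FreeGroup (Fin d) →* Q)
    (hs : Function.Surjective π)
    (h : ∀ i j : Fin d, i < j → π (FreeGroup.of i) * π (FreeGroup.of j) = π (FreeGroup.of j) * π (FreeGroup.of i)) :
    ∀ x y : Q, x * y = y * x := by
  have h' : ∀ i j : Fin d,
      π (FreeGroup.of i) * π (FreeGroup.of j) = π (FreeGroup.of j) * π (FreeGroup.of i) := by
    intro i j
    rcases lt_trichotomy i j with hij | hij | hij
    · exact h i j hij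
    · rw [hij]
    · exact (h j i hij).symm
  have h1 : ∀ (i : Fin d) (f : FreeGroup (Fin d)), π (FreeGroup.of i) * π f = π f * π (FreeGroup.of i) := by
    intro i f
    have e : (MulAut.conj (π (FreeGroup.of i))).toMonoidHom.comp π = π := by
      refine FreeGroup.ext_hom _ _ (fun j => ?_)
      simp only [MonoidHom.comp_apply, MulEquiv.coe_toMonoidHom, MulAut.conj_apply]
      rw [h' i j, mul_inv_cancel_right]
    have e2 := DFunLike.congr_fun e f
    simp only [MonoidHom.comp_apply, MulEquiv.coe_toMonoidHom, MulAut.conj_apply] at e2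
    rwa [mul_inv_eq_iff_eq_mul] at e2
  have h2 : ∀ g f : FreeGroup (Fin d), π g * π f = π f * π g := by
    intro g f
    have e : (MulAut.conj (π g)).toMonoidHom.comp π = π := by
      refine FreeGroup.ext_hom _ _ (fun j => ?_)
      simp only [MonoidHom.comp_apply, MulEquiv.coe_toMonoidHom, MulAut.conj_apply]
      rw [← h1 j g, mul_inv_cancel_right]
    have e2 := DFunLike.congr_fun e f
    simp only [MonoidHom.comp_apply, MulEquiv.coe_toMonoidHom, MulAut.conj_apply] at e2
    rwa [mul_inv_eq_iff_eq_mul] at e2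
  intro x y
  obtain ⟨f, rfl⟩ := hs x
  obtain ⟨g, rfl⟩ := hs y
  exact h2 f g

theorem frF_eq (p d : ℕ) :
    normalClosure ((Set.range fun i : Fin d => (FreeGroup.of i : FreeGroup (Fin d)) ^ p) ∪
      Set.range fun q : Pr d => cm (FreeGroup.of q.1.1) (FreeGroup.of q.1.2)) = FrF p d := by
  apply le_antisymm
  · refine normalClosure_le_normal ?_
    rintro s (⟨i, rfl⟩ | ⟨q, rfl⟩)
    · exact C4_gen_pow p d i
    · exact C4_gen_cm p d q.1.1 q.1.2
  · intro f hf
    obtain ⟨N, hN⟩ : ∃ N : Subgroup (FreeGroup (Fin d)),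
        N = normalClosure ((Set.range fun i : Fin d => (FreeGroup.of i : FreeGroup (Fin d)) ^ p) ∪
      Set.range fun q : Pr d => cm (FreeGroup.of q.1.1) (FreeGroup.of q.1.2)) := ⟨_, rfl⟩
    rw [← hN]
    have hn : N.Normal := by rw [hN]; infer_instance
    have hp : ∀ i : Fin d, (FreeGroup.of i : FreeGroup (Fin d)) ^ p ∈ N := fun i => by
      rw [hN]
      exact subset_normalClosure (Or.inl ⟨i, rfl⟩)
    have hc : ∀ i j : Fin d, i < j → cm (FreeGroup.of i) (FreeGroup.of j) ∈ N := fun i j hij => by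
      rw [hN]
      exact subset_normalClosure (Or.inr ⟨⟨(i, j), hij⟩, rfl⟩)
    have hcomm := C4_comm (QuotientGroup.mk' N) (QuotientGroup.mk'_surjective N) (by
      intro i j hij
      refine C4_cm_comm ?_
      have e : cm (QuotientGroup.mk' N (FreeGroup.of i)) (QuotientGroup.mk' N (FreeGroup.of j)) =
          QuotientGroup.mk' N (cm (FreeGroup.of i) (FreeGroup.of j)) := by
        unfold cm
        simp only [map_mul, map_inv]
      rw [e]
      exact (QuotientGroup.eq_one_iff _).2 (hc i j hij))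
    let _ : CommGroup (FreeGroup (Fin d) ⧸ N) :=
      { (inferInstance : Group (FreeGroup (Fin d) ⧸ N)) with mul_comm := hcomm }
    have h3 := ev_hom (A := FreeGroup (Fin d) ⧸ N) (QuotientGroup.mk' N) f
    have h4 : ∀ i : Fin d, (QuotientGroup.mk' N) (FreeGroup.of i) ^ ev f i = 1 := by
      intro i
      obtain ⟨k, hk⟩ := hf i
      rw [hk, zpow_mul, zpow_natCast, ← map_pow]
      have h5 : (QuotientGroup.mk' N) ((FreeGroup.of i) ^ p) = 1 :=
        (QuotientGroup.eq_one_iff _).2 (hp i)
      rw [h5, one_zpow]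
    rw [Finset.prod_congr rfl (fun i _ => h4 i), Finset.prod_const_one] at h3
    exact (QuotientGroup.eq_one_iff _).1 h3

theorem eq_on_frF {p d e : ℕ} (l m : FreeGroup (Fin d) → Fin e → ZMod p)
    (hl : ∀ f ∈ FrF p d, ∀ g ∈ FrF p d, l (f * g) = l f + l g)
    (hl2 : ∀ f, ∀ g ∈ FrF p d, l (f * g * f⁻¹) = l g)
    (hm : ∀ f ∈ FrF p d, ∀ g ∈ FrF p d, m (f * g) = m f + m g)
    (hm2 : ∀ f, ∀ g ∈ FrF p d, m (f * g * f⁻¹) = m g)
    (h1 : ∀ i, l (FreeGroup.of i ^ p) = m (FreeGroup.of i ^ p))
    (h2 : ∀ q : Pr d, l (cm (FreeGroup.of q.1.1) (FreeGroup.of q.1.2)) =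
      m (cm (FreeGroup.of q.1.1) (FreeGroup.of q.1.2))) :
    ∀ f ∈ FrF p d, l f = m f := by
  have one0 : ∀ l : FreeGroup (Fin d) → Fin e → ZMod p,
      (∀ f ∈ FrF p d, ∀ g ∈ FrF p d, l (f * g) = l f + l g) → l 1 = 0 := by
    intro l hl
    have h := hl 1 (one_mem _) 1 (one_mem _)
    rw [mul_one] at h
    exact (left_eq_add).1 h
  have inv0 : ∀ l : FreeGroup (Fin d) → Fin e → ZMod p,
      (∀ f ∈ FrF p d, ∀ g ∈ FrF p d, l (f * g) = l f + l g) → ∀ f ∈ FrF p d, l f⁻¹ = -l f := by
    intro l hl f hf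
    have h := hl f hf f⁻¹ (inv_mem hf)
    rw [mul_inv_cancel, one0 l hl] at h
    exact (neg_eq_of_add_eq_zero_right h.symm).symm
  let K : Subgroup (FreeGroup (Fin d)) :=
    { carrier := {f | f ∈ FrF p d ∧ l f = m f}
      mul_mem' := by
        rintro f g ⟨hf, hf2⟩ ⟨hg, hg2⟩
        exact ⟨mul_mem hf hg, by rw [hl f hf g hg, hm f hf g hg, hf2, hg2]⟩
      one_mem' := ⟨one_mem _, by rw [one0 l hl, one0 m hm]⟩
      inv_mem' := by
        rintro f ⟨hf, hf2⟩
        exact ⟨inv_mem hf, by rw [inv0 l hl f hf, inv0 m hm f hf, hf2]⟩ }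
  have hK : K.Normal := ⟨fun g hg f =>
    ⟨(instNormalFrF p d).conj_mem g hg.1 f, by rw [hl2 f g hg.1, hm2 f g hg.1, hg.2]⟩⟩
  intro f hf
  rw [← frF_eq] at hf
  have h : normalClosure ((Set.range fun i : Fin d => (FreeGroup.of i : FreeGroup (Fin d)) ^ p) ∪
      Set.range fun q : Pr d => cm (FreeGroup.of q.1.1) (FreeGroup.of q.1.2)) ≤ K := by
    refine normalClosure_le_normal ?_
    rintro s (⟨i, rfl⟩ | ⟨q, rfl⟩)
    · exact ⟨C4_gen_pow p d i, h1 i⟩
    · exact ⟨C4_gen_cm p d q.1.1 q.1.2, h2 q⟩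
  exact (h hf).2

end Pool.Agent.RG
end

section

/-!
# RG Q1: markings, first properties

PROOFS.  `zero`: `th 0 = th (0 + 0) = th 0 * th 0`.  `neg`: `th (v + -v) = 1`.  `smul`: `c • v = c.val • v` (`ZMod.natCast_zmod_val`, `Nat.cast_smul_eq_nsmul`), and
`th (n • v) = th v ^ n` by induction.  `zsmul`: the same for integers (`th v ^ p = 1`, so `th v ^ n` depends on `n` modulo `p` only; or induction).  `pow_p`: `p • v = 0`.
`sum`: induction over the finset (or list).
`finite`: `Nat.finite_of_card_ne_zero`.  `pgroup`: `IsPGroup.of_card`.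
`cm_mem`, `pow_mem`: the set `range th` is a central subgroup `Z` (closed under products and inverses by `add`, `neg`), so normal; `G ⧸ Z` is generated by the images of the `x i`, which
commute (`cmm`), so `G ⧸ Z` is commutative (`commutator_le_of_gen` in AX), and in it `g ^ p = 1` for the generators (`pw`), so for all elements (closure induction, commutative).
`pc2`: `cm a b = th v` is central and `th v ^ p = 1`; `a ^ p = th v`; `a ^ (p ^ 2) = (a ^ p) ^ p = 1`.
`lift_frF`: `FrF` is the normal closure of the `of i ^ p` and the `cm (of i) (of j)` (`frF_eq`), and the preimage of the normal subgroup `range th` under `lift x` is normal and contains them.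
-/

set_option autoImplicit false

namespace Pool.Agent.RG

open Subgroup

open scoped commutatorElement

namespace Mk

variable {p : ℕ} [Fact p.Prime] {G : Type} [Group G] {d e : ℕ} {x : Fin d → G}
  {th : (Fin e → ZMod p) → G} {pi : Fin d → Fin e → ZMod p} {b : Fin d → Fin d → Fin e → ZMod p}

theorem zero (h : Mk p x th pi b) : th 0 = 1 := by
  have h1 := h.add 0 0
  rw [add_zero] at h1
  exact (mul_eq_left.1 h1.symm)

/-- `th` as a homomorphism. -/
private def Q1_hom (h : Mk p x th pi b) : Multiplicative (Fin e → ZMod p) →* G where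
  toFun v := th v.toAdd
  map_one' := h.zero
  map_mul' v w := h.add _ _

theorem neg (h : Mk p x th pi b) (v : Fin e → ZMod p) : th (-v) = (th v)⁻¹ :=
  map_inv (Q1_hom h) (Multiplicative.ofAdd v)

private theorem Q1_nsmul (h : Mk p x th pi b) (n : ℕ) (v : Fin e → ZMod p) : th (n • v) = th v ^ n :=
  map_pow (Q1_hom h) (Multiplicative.ofAdd v) n

theorem pow_p (h : Mk p x th pi b) (v : Fin e → ZMod p) : th v ^ p = 1 := by
  rw [← Q1_nsmul h, ← h.zero]
  congr 1
  ext i
  simp

theorem smul (h : Mk p x th pi b) (c : ZMod p) (v : Fin e → ZMod p) : th (c • v) = th v ^ c.val := by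
  rw [← Q1_nsmul h]
  congr 1
  ext i
  simp

theorem zsmul (h : Mk p x th pi b) (n : ℤ) (v : Fin e → ZMod p) :
    th ((n : ZMod p) • v) = th v ^ n := by
  have h1 : th (n • v) = th v ^ n := map_zpow (Q1_hom h) (Multiplicative.ofAdd v) n
  rw [← h1]
  congr 1
  ext i
  simp

/-- Every value of `th` is in the subgroup generated by the values at the unit vectors. -/
theorem mem_closure (h : Mk p x th pi b) (v : Fin e → ZMod p) :
    th v ∈ closure (Set.range fun a : Fin e => th (Pi.single a 1)) := by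
  have key : ∀ s : Finset (Fin e), th (∑ a ∈ s, Pi.single a (v a)) ∈
      closure (Set.range fun a : Fin e => th (Pi.single a 1)) := by
    intro s
    induction s using Finset.induction_on with
    | empty =>
      rw [Finset.sum_empty, h.zero]
      exact one_mem _
    | insert a s ha ih =>
      rw [Finset.sum_insert ha, h.add]
      refine mul_mem ?_ ih
      have h1 : (Pi.single a (v a) : Fin e → ZMod p) = v a • Pi.single a 1 := by
        rw [← Pi.single_smul, smul_eq_mul, mul_one]
      rw [h1, h.smul]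
      exact Subgroup.pow_mem _ (Subgroup.subset_closure (Set.mem_range_self a)) _
  have h2 := key Finset.univ
  rwa [Finset.univ_sum_single] at h2

theorem finite (h : Mk p x th pi b) : Finite G := by
  refine Nat.finite_of_card_ne_zero ?_
  rw [h.card]
  exact pow_ne_zero _ (Fact.out : p.Prime).ne_zero

theorem pgroup (h : Mk p x th pi b) : IsPGroup p G := IsPGroup.of_card h.card

/-- the range of `th` -/
private def Q1_Z (h : Mk p x th pi b) : Subgroup G := (Q1_hom h).range

private theorem Q1_mem (h : Mk p x th pi b) {g : G} : g ∈ Q1_Z h ↔ ∃ v, g = th v := by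
  constructor
  · rintro ⟨v, rfl⟩
    exact ⟨v.toAdd, rfl⟩
  · rintro ⟨v, rfl⟩
    exact ⟨Multiplicative.ofAdd v, rfl⟩

private theorem Q1_normal (h : Mk p x th pi b) : (Q1_Z h).Normal := by
  refine ⟨fun g hg k => ?_⟩
  obtain ⟨v, rfl⟩ := (Q1_mem h).1 hg
  rw [← h.cen, mul_assoc, mul_inv_cancel, mul_one]
  exact hg

theorem cm_mem (h : Mk p x th pi b) (g k : G) : ∃ v, cm g k = th v := by
  have := Q1_normal h
  have h1 : commutator G ≤ Q1_Z h := by
    refine commutator_le_of_gen h.gen ?_
    rintro _ ⟨i, rfl⟩ _ ⟨j, rfl⟩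
    exact (Q1_mem h).2 ⟨_, h.cmm i j⟩
  refine (Q1_mem h).1 (h1 ?_)
  have h2 : cm g k = ⁅g⁻¹, k⁻¹⁆ := by
    unfold cm
    rw [commutatorElement_def, inv_inv, inv_inv]
  rw [h2, _root_.commutator_def]
  exact commutator_mem_commutator (mem_top _) (mem_top _)

theorem pow_mem (h : Mk p x th pi b) (g : G) : ∃ v, g ^ p = th v := by
  have hn := Q1_normal h
  refine (Q1_mem h).1 ?_
  have hg : g ∈ closure (Set.range x) := by
    rw [h.gen]
    exact mem_top _
  induction hg using closure_induction with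
  | mem y hy =>
    obtain ⟨i, rfl⟩ := hy
    exact (Q1_mem h).2 ⟨_, h.pw i⟩
  | one =>
    rw [one_pow]
    exact one_mem _
  | mul a c _ _ ha hc =>
    rw [← QuotientGroup.eq_one_iff] at ha hc ⊢
    have hcomm : Commute (a : G ⧸ Q1_Z h) (c : G ⧸ Q1_Z h) := by
      obtain ⟨v, hv⟩ := h.cm_mem a c
      have h1 : ((cm a c : G) : G ⧸ Q1_Z h) = 1 := (QuotientGroup.eq_one_iff _).2 ((Q1_mem h).2 ⟨v, hv⟩)
      unfold cm at h1
      rw [QuotientGroup.mk_mul, QuotientGroup.mk_mul, QuotientGroup.mk_mul, QuotientGroup.mk_inv, QuotientGroup.mk_inv] at h1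
      show (a : G ⧸ Q1_Z h) * c = c * a
      have h2 := congrArg (fun z => (c : G ⧸ Q1_Z h) * a * z) h1
      simp only [mul_one] at h2
      rw [← h2]
      group
    rw [QuotientGroup.mk_pow, QuotientGroup.mk_mul, hcomm.mul_pow, ← QuotientGroup.mk_pow, ← QuotientGroup.mk_pow, ha, hc, one_mul]
  | inv a _ ha =>
    rw [inv_pow]
    exact inv_mem ha

theorem pc2 (h : Mk p x th pi b) : PC2 p G := by
  have hc : ∀ v g, cm (th v) g = 1 := by
    intro v g
    unfold cm
    rw [mul_assoc, mul_assoc, h.cen v g, ← mul_assoc, ← mul_assoc, mul_assoc, mul_assoc]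
    have : g⁻¹ * (g * th v) = th v := by group
    rw [this, inv_mul_cancel]
  refine ⟨fun a b' c => ?_, fun a b' => ?_, fun a b' => ?_, fun a => ?_⟩
  · obtain ⟨v, hv⟩ := h.cm_mem a b'
    rw [hv, hc]
  · obtain ⟨v, hv⟩ := h.pow_mem a
    rw [hv, hc]
  · obtain ⟨v, hv⟩ := h.cm_mem a b'
    rw [hv, h.pow_p]
  · obtain ⟨v, hv⟩ := h.pow_mem a
    rw [pow_two, pow_mul, hv, h.pow_p]

theorem lift_frF (h : Mk p x th pi b) {f : FreeGroup (Fin d)} (hf : f ∈ FrF p d) :
    ∃ v, FreeGroup.lift x f = th v := by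
  have hn := Q1_normal h
  refine (Q1_mem h).1 ?_
  have h1 : FrF p d ≤ (Q1_Z h).comap (FreeGroup.lift x) := by
    rw [← frF_eq]
    refine normalClosure_le_normal ?_
    rintro _ (⟨i, rfl⟩ | ⟨q, rfl⟩)
    · show FreeGroup.lift x (FreeGroup.of i ^ p) ∈ Q1_Z h
      rw [map_pow, FreeGroup.lift_apply_of]
      exact (Q1_mem h).2 ⟨_, h.pw i⟩
    · show FreeGroup.lift x (cm (FreeGroup.of q.1.1) (FreeGroup.of q.1.2)) ∈ Q1_Z h
      rw [map_cm, FreeGroup.lift_apply_of, FreeGroup.lift_apply_of]
      exact (Q1_mem h).2 ⟨_, h.cmm _ _⟩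
  exact h1 hf

end Mk

end Pool.Agent.RG
end

section

/-!
# RG Q2: markings: the homomorphism to `F_p ^ d`, injectivity, rank

PROOF of `theta` and `inj`.  `Z` = the subgroup `range th` (central, normal), `|Z| ≤ p ^ e` (surjection from `Fin e → ZMod p`, `Nat.card_fun`, `Nat.card_zmod`).
`Q = G ⧸ Z` is commutative and generated by the images `X i` of the `x i` with `X i ^ p = 1` (`cm_mem`, `pow_mem`), so `|Q| ≤ p ^ d` (`card_abelian` in C3).
`|Q| |Z| = |G| = p ^ (d + e)`: so `|Q| = p ^ d` and `|Z| = p ^ e`; `th` is a surjection of `F_p ^ e` onto `Z` of the same finite cardinality, so injective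
(`Function.Surjective.injective_of_finite..`, `Nat.bijective_iff_surjective_and_card` or `Fintype.bijective_iff_surjective_and_card`).
The map `α : Multiplicative (Fin d → ZMod p) →* Q`, `v ↦ ∏ i, X i ^ (v i).val` is a homomorphism, surjective (its range contains the generators `X i`), the two groups have `p ^ d` elements:
bijective.  `θ = α⁻¹ ∘ mk`.  `θ g = 1 ↔ mk g = 1 ↔ g ∈ Z`.
`frK`: `θ (lift x f) = ofAdd (fun i => (ev f i : ZMod p))` (both sides are homomorphisms in `f`: `FreeGroup.ext_hom`, `ev_hom`, or induction); if `lift x f = 1` then `p ∣ ev f i`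
(`ZMod.intCast_zmod_eq_zero_iff_dvd`).
`rank`: `θ ∘ φ` is surjective from `FreeGroup (Fin m)` onto `F_p ^ d` (`θ` is surjective: `α⁻¹ ∘ mk`; or because its range contains the unit vectors): the images of the `m` generators generate, so
`p ^ d ≤ p ^ m` by `card_abelian` (for the group `Multiplicative (Fin d → ZMod p)`).  Then `d ≤ m` (`Nat.pow_le_pow_iff_right`).
`ph`: `⊆`: `cm_mem`, `pow_mem`, and `range th` is a subgroup.  `⊇`: `Ph` is normal, contained in `Z`, `G ⧸ Ph` is commutative and generated by `d` elements with `p`-th power `1`,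
so `|G ⧸ Ph| ≤ p ^ d = |G ⧸ Z|`, so `|Ph| ≥ |Z|` and `Ph = Z`.
`alt`: `th (b i i) = cm (x i) (x i) = 1 = th 0`, `th (b j i) = cm (x j) (x i) = (cm (x i) (x j))⁻¹ = th (-b i j)`, `inj`.
-/

set_option autoImplicit false

namespace Pool.Agent.RG

open Subgroup

namespace Mk

variable {p : ℕ} [Fact p.Prime] {G : Type} [Group G] {d e : ℕ} {x : Fin d → G}
  {th : (Fin e → ZMod p) → G} {pi : Fin d → Fin e → ZMod p} {b : Fin d → Fin d → Fin e → ZMod p}

/-- The range of `th` as a subgroup. -/
private def Q2_Z (h : Mk p x th pi b) : Subgroup G where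
  carrier := {g | ∃ v, g = th v}
  mul_mem' := by
    rintro _ _ ⟨v, rfl⟩ ⟨w, rfl⟩
    exact ⟨v + w, (h.add v w).symm⟩
  one_mem' := ⟨0, h.zero.symm⟩
  inv_mem' := by
    rintro _ ⟨v, rfl⟩
    exact ⟨-v, (h.neg v).symm⟩

private theorem Q2_mem (h : Mk p x th pi b) {g : G} : g ∈ h.Q2_Z ↔ ∃ v, g = th v := Iff.rfl

private theorem Q2_normal_of_le (h : Mk p x th pi b) {K : Subgroup G} (hK : K ≤ h.Q2_Z) : K.Normal := by
  refine ⟨fun n hn g => ?_⟩
  obtain ⟨v, rfl⟩ := hK hn
  rw [← h.cen v g, mul_inv_cancel_right]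
  exact hn

private theorem Q2_quot (K : Subgroup G) [K.Normal] (hcm : ∀ a b : G, cm a b ∈ K)
    (hpw : ∀ a : G, a ^ p ∈ K) {m : ℕ} (y : Fin m → G) (hy : closure (Set.range y) = ⊤) :
    Finite (G ⧸ K) ∧ Nat.card (G ⧸ K) ≤ p ^ m := by
  have hp : 1 ≤ p := (Fact.out : p.Prime).one_lt.le
  refine card_abelian hp (fun i => (QuotientGroup.mk' K (y i))) ?_ ?_ ?_
  · have h1 : Set.range (fun i => QuotientGroup.mk' K (y i)) = (QuotientGroup.mk' K) '' Set.range y := by
      rw [← Set.range_comp]
      rfl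
    rw [h1, ← MonoidHom.map_closure, hy]
    exact Subgroup.map_top_of_surjective _ (QuotientGroup.mk'_surjective K)
  · intro i j
    rw [← map_mul, ← map_mul]
    refine (QuotientGroup.eq.2 ?_)
    have h2 : (y i * y j)⁻¹ * (y j * y i) = cm (y j) (y i) := by
      unfold cm
      group
    rw [h2]
    exact hcm _ _
  · intro i
    rw [← map_pow]
    exact (QuotientGroup.eq_one_iff _).2 (hpw _)

private theorem Q2_card (h : Mk p x th pi b) :
    Nat.card h.Q2_Z = p ^ e ∧ ∀ (K : Subgroup G) [K.Normal], (∀ a b : G, cm a b ∈ K) →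
      (∀ a : G, a ^ p ∈ K) → K ≤ h.Q2_Z → Nat.card (G ⧸ K) = p ^ d ∧ Nat.card K = p ^ e := by
  have hp : 1 < p := (Fact.out : p.Prime).one_lt
  have hNe : NeZero p := ⟨by omega⟩
  have hfin : Finite G := h.finite
  have hZ : Nat.card h.Q2_Z ≤ p ^ e := by
    have h1 : Function.Surjective (fun v : Fin e → ZMod p => (⟨th v, v, rfl⟩ : h.Q2_Z)) := by
      rintro ⟨g, v, hv⟩
      exact ⟨v, Subtype.ext hv.symm⟩
    have h2 := Nat.card_le_card_of_surjective _ h1
    rw [Nat.card_fun, Nat.card_zmod, Nat.card_fin] at h2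
    exact h2
  have key : ∀ (K : Subgroup G) [K.Normal], (∀ a b : G, cm a b ∈ K) →
      (∀ a : G, a ^ p ∈ K) → K ≤ h.Q2_Z → Nat.card (G ⧸ K) = p ^ d ∧ Nat.card K = p ^ e := by
    intro K hKn hcm hpw hK
    have h3 := (Q2_quot K hcm hpw x h.gen).2
    have h4 := Subgroup.card_eq_card_quotient_mul_card_subgroup K
    rw [h.card, pow_add] at h4
    have h5 : Nat.card K ≤ p ^ e := (Subgroup.card_le_of_le hK).trans hZ
    have h6 : 0 < p ^ d := Nat.pow_pos (by omega)
    have h7 : 0 < p ^ e := Nat.pow_pos (by omega)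
    have h8 : Nat.card K = p ^ e := by
      refine le_antisymm h5 ?_
      by_contra hlt
      push Not at hlt
      have h9 : Nat.card (G ⧸ K) * Nat.card K < p ^ d * p ^ e :=
        (Nat.mul_le_mul_right _ h3).trans_lt (Nat.mul_lt_mul_of_pos_left hlt h6)
      omega
    rw [h8] at h4
    exact ⟨(Nat.eq_of_mul_eq_mul_right h7 h4).symm, h8⟩
  refine ⟨?_, key⟩
  have hn : (h.Q2_Z).Normal := h.Q2_normal_of_le le_rfl
  exact (key h.Q2_Z (fun a b => h.cm_mem a b) (fun a => h.pow_mem a) le_rfl).2

theorem theta (h : Mk p x th pi b) : ∃ θ : G →* Multiplicative (Fin d → ZMod p),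
    (∀ i, θ (x i) = Multiplicative.ofAdd (Pi.single i 1)) ∧ ∀ g, θ g = 1 ↔ ∃ v, g = th v := by
  have hp : 1 < p := (Fact.out : p.Prime).one_lt
  have hF : Fact (1 < p) := ⟨hp⟩
  have hNe : NeZero p := ⟨by omega⟩
  have hfin : Finite G := h.finite
  have hn : (h.Q2_Z).Normal := h.Q2_normal_of_le le_rfl
  have hcomm : ∀ u v : G ⧸ h.Q2_Z, u * v = v * u := by
    intro u v
    obtain ⟨a, rfl⟩ := QuotientGroup.mk'_surjective _ u
    obtain ⟨c, rfl⟩ := QuotientGroup.mk'_surjective _ v
    rw [← map_mul, ← map_mul]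
    refine QuotientGroup.eq.2 ?_
    have h2 : (a * c)⁻¹ * (c * a) = cm c a := by
      unfold cm
      group
    rw [h2]
    exact h.cm_mem _ _
  let iQ : CommGroup (G ⧸ h.Q2_Z) := { (inferInstance : Group (G ⧸ h.Q2_Z)) with mul_comm := hcomm }
  let X : Fin d → G ⧸ h.Q2_Z := fun i => QuotientGroup.mk' h.Q2_Z (x i)
  have hXp : ∀ i, X i ^ p = 1 := by
    intro i
    show (QuotientGroup.mk' h.Q2_Z (x i)) ^ p = 1
    rw [← map_pow]
    exact (QuotientGroup.eq_one_iff _).2 (h.pow_mem _)
  have hXadd : ∀ i (a c : ZMod p), X i ^ (a + c).val = X i ^ a.val * X i ^ c.val := by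
    intro i a c
    rw [← pow_add, ZMod.val_add, ← pow_eq_pow_mod _ (hXp i)]
  let α : Multiplicative (Fin d → ZMod p) →* G ⧸ h.Q2_Z :=
    { toFun := fun v => ∏ i, X i ^ (Multiplicative.toAdd v i).val
      map_one' := by
        refine Finset.prod_eq_one fun i _ => ?_
        show X i ^ (0 : ZMod p).val = 1
        rw [ZMod.val_zero, pow_zero]
      map_mul' := by
        intro v w
        rw [← Finset.prod_mul_distrib]
        refine Finset.prod_congr rfl fun i _ => ?_
        exact hXadd i _ _ }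
  have hα : ∀ i, α (Multiplicative.ofAdd (Pi.single i 1)) = X i := by
    intro i
    show ∏ j, X j ^ ((Pi.single i 1 : Fin d → ZMod p) j).val = X i
    rw [Finset.prod_eq_single i]
    · rw [Pi.single_eq_same, ZMod.val_one, pow_one]
    · intro j _ hj
      rw [Pi.single_eq_of_ne hj, ZMod.val_zero, pow_zero]
    · intro hi
      exact absurd (Finset.mem_univ i) hi
  have hcl : closure (Set.range X) = ⊤ := by
    have h1 : Set.range X = (QuotientGroup.mk' h.Q2_Z) '' Set.range x := by
      rw [← Set.range_comp]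
      rfl
    rw [h1, ← MonoidHom.map_closure, h.gen]
    exact Subgroup.map_top_of_surjective _ (QuotientGroup.mk'_surjective _)
  have hsurj : Function.Surjective α := by
    rw [← MonoidHom.range_eq_top, eq_top_iff, ← hcl, Subgroup.closure_le]
    rintro _ ⟨i, rfl⟩
    exact ⟨_, hα i⟩
  have hcard : Nat.card (Multiplicative (Fin d → ZMod p)) = Nat.card (G ⧸ h.Q2_Z) := by
    rw [(h.Q2_card.2 h.Q2_Z (fun a b => h.cm_mem a b) (fun a => h.pow_mem a) le_rfl).1]
    have h1 : Nat.card (Multiplicative (Fin d → ZMod p)) = Nat.card (Fin d → ZMod p) := rfl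
    rw [h1, Nat.card_fun, Nat.card_zmod, Nat.card_fin]
  have hbij : Function.Bijective α := (Nat.bijective_iff_surjective_and_card α).2 ⟨hsurj, hcard⟩
  let E : Multiplicative (Fin d → ZMod p) ≃* G ⧸ h.Q2_Z := MulEquiv.ofBijective α hbij
  have hE : ∀ v, E v = α v := fun v => rfl
  refine ⟨E.symm.toMonoidHom.comp (QuotientGroup.mk' h.Q2_Z), ?_, ?_⟩
  · intro i
    show E.symm (X i) = _
    rw [← hα i, ← hE, E.symm_apply_apply]
  · intro g
    have h1 : (E.symm.toMonoidHom.comp (QuotientGroup.mk' h.Q2_Z)) g = 1 ↔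
        QuotientGroup.mk' h.Q2_Z g = 1 := by
      show E.symm (QuotientGroup.mk' h.Q2_Z g) = 1 ↔ _
      exact E.symm.map_eq_one_iff
    rw [h1]
    exact QuotientGroup.eq_one_iff g

theorem inj (h : Mk p x th pi b) : Function.Injective th := by
  have hp : 1 < p := (Fact.out : p.Prime).one_lt
  have hNe : NeZero p := ⟨by omega⟩
  have hfin : Finite G := h.finite
  let f : (Fin e → ZMod p) → h.Q2_Z := fun v => ⟨th v, v, rfl⟩
  have h1 : Function.Surjective f := by
    rintro ⟨g, v, hv⟩
    exact ⟨v, Subtype.ext hv.symm⟩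
  have h2 : Nat.card (Fin e → ZMod p) = Nat.card h.Q2_Z := by
    rw [h.Q2_card.1, Nat.card_fun, Nat.card_zmod, Nat.card_fin]
  have h3 : Function.Bijective f := (Nat.bijective_iff_surjective_and_card f).2 ⟨h1, h2⟩
  intro v w hvw
  exact h3.1 (Subtype.ext hvw)

theorem frK (h : Mk p x th pi b) : FrK p (FreeGroup.lift x).ker := by
  obtain ⟨θ, h1, h2⟩ := h.theta
  intro r hr i
  have h3 : ∀ a c : FreeGroup (Fin d), (Multiplicative.toAdd (θ (FreeGroup.lift x (a * c)))) i =
      (Multiplicative.toAdd (θ (FreeGroup.lift x a))) i + (Multiplicative.toAdd (θ (FreeGroup.lift x c))) i := by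
    intro a c
    rw [map_mul, map_mul]
    rfl
  have h4 := hom_of_ev (fun f => (Multiplicative.toAdd (θ (FreeGroup.lift x f))) i) h3 r
  have h5 : θ (FreeGroup.lift x r) = 1 := by
    rw [MonoidHom.mem_ker.1 hr, map_one]
  rw [h5] at h4
  have h6 : ∀ j, (Multiplicative.toAdd (θ (FreeGroup.lift x (FreeGroup.of j)))) i =
      (Pi.single j 1 : Fin d → ZMod p) i := by
    intro j
    rw [FreeGroup.lift_apply_of, h1 j]
    rfl
  simp only [h6] at h4
  rw [Finset.sum_eq_single i] at h4
  · rw [Pi.single_eq_same, mul_one] at h4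
    exact (ZMod.intCast_zmod_eq_zero_iff_dvd _ _).1 h4.symm
  · intro j _ hj
    rw [Pi.single_eq_of_ne hj.symm, mul_zero]
  · intro hi
    exact absurd (Finset.mem_univ i) hi

theorem rank (h : Mk p x th pi b) {m : ℕ} (hm : m < d) (φ : FreeGroup (Fin m) →* G) :
    ¬ Function.Surjective φ := by
  intro hφ
  have hp : 1 < p := (Fact.out : p.Prime).one_lt
  have hn : (h.Q2_Z).Normal := h.Q2_normal_of_le le_rfl
  have h1 : closure (Set.range fun j => φ (FreeGroup.of j)) = ⊤ := by
    rw [eq_top_iff, ← MonoidHom.range_eq_top.2 hφ]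
    have h2 : φ = FreeGroup.lift (fun j => φ (FreeGroup.of j)) := by
      ext j
      rw [FreeGroup.lift_apply_of]
    conv_lhs => rw [h2]
    rw [range_lift_eq]
  have h3 := (Q2_quot h.Q2_Z (fun a b => h.cm_mem a b) (fun a => h.pow_mem a) _ h1).2
  rw [(h.Q2_card.2 h.Q2_Z (fun a b => h.cm_mem a b) (fun a => h.pow_mem a) le_rfl).1] at h3
  exact absurd h3 (not_le.2 (Nat.pow_lt_pow_right hp hm))

theorem ph (h : Mk p x th pi b) (g : G) : g ∈ Ph p G ↔ ∃ v, g = th v := by
  have hle : Ph p G ≤ h.Q2_Z := by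
    unfold Ph
    rw [Subgroup.closure_le]
    rintro _ (⟨a, rfl⟩ | ⟨a, c, rfl⟩)
    · exact h.pow_mem a
    · exact h.cm_mem a c
  have hn : (Ph p G).Normal := h.Q2_normal_of_le hle
  have hfin : Finite G := h.finite
  have h1 := (h.Q2_card.2 (Ph p G) (fun a c => subset_closure (Or.inr ⟨a, c, rfl⟩))
    (fun a => subset_closure (Or.inl ⟨a, rfl⟩)) hle).2
  have h2 : Ph p G = h.Q2_Z := Subgroup.eq_of_le_of_card_ge hle (by rw [h1, h.Q2_card.1])
  rw [h2]
  exact h.Q2_mem

theorem alt (h : Mk p x th pi b) : Alt b := by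
  refine ⟨fun i => ?_, fun i j => ?_⟩
  · apply h.inj
    rw [← h.cmm, h.zero]
    unfold cm
    group
  · apply h.inj
    rw [← h.cmm, h.neg, ← h.cmm]
    unfold cm
    group

end Mk

end Pool.Agent.RG
end

section

/-!
# RG G4: the class `PC2`, characterisation of the markings

PROOFS.  `ph_central`: the generators of `Ph` are central (`cc`, `pc`; `cm g k = 1 ↔ g k = k g`).  `ph_pow`: `Ph` is commutative and its generators `a ^ p`, `cm a b` have order dividing `p`
(`pp`: `(a ^ p) ^ p = a ^ (p ^ 2) = 1`; `cp`); closure induction.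
`mk_iff`.  `→`: `gen`, `add`, `inj`, `ph`.  `←`: `th` is injective into `Ph`, `|Ph| = p ^ e = |F_p ^ e|`, so `range th = Ph`.  `cen`: `ph_central`.  `s.1 i` = the vector with `th (s.1 i) = x i ^ p ∈ Ph`,
`s.2 q` = the vector with `th (s.2 q) = cm (x q.1.1) (x q.1.2)`.  `cmm` for `ext s.2`: `i < j`; `i = j`: `1 = th 0`; `j < i`: `cm (x i) (x j) = (cm (x j) (x i))⁻¹ = th (-..)`.
`exists_type`: `Ph` is a subgroup of a `p`-group of order `p ^ n`: its order is `p ^ e` with `e ≤ n` (`IsPGroup.iff_card` or `Nat.dvd_prime_pow`, `Subgroup.card_subgroup_dvd_card`).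
-/

set_option autoImplicit false

namespace Pool.Agent.RG

open Subgroup

section
variable {p : ℕ} [Fact p.Prime] {G : Type} [Group G]

private theorem G4_comm_of_cm {a b : G} (h : cm a b = 1) : a * b = b * a := by
  unfold cm at h
  have h2 : a⁻¹ * b⁻¹ * a * b = (b * a)⁻¹ * (a * b) := by group
  rw [h2, inv_mul_eq_one] at h
  exact h.symm

private theorem G4_cm_inv (a b : G) : cm a b = (cm b a)⁻¹ := by
  unfold cm
  group

private theorem G4_cm_self (a : G) : cm a a = 1 := by
  unfold cm
  group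

theorem ph_central (h : PC2 p G) {g : G} (hg : g ∈ Ph p G) (k : G) : g * k = k * g := by
  unfold Ph at hg
  induction hg using closure_induction with
  | mem y hy =>
    rcases hy with ⟨a, rfl⟩ | ⟨a, b, rfl⟩
    · exact G4_comm_of_cm (h.pc a k)
    · exact G4_comm_of_cm (h.cc a b k)
  | one => rw [one_mul, mul_one]
  | mul y z _ _ hy hz => rw [mul_assoc, hz, ← mul_assoc, hy, mul_assoc]
  | inv y _ hy =>
    rw [inv_mul_eq_iff_eq_mul, ← mul_assoc, hy, mul_inv_cancel_right]

theorem ph_pow (h : PC2 p G) {g : G} (hg : g ∈ Ph p G) : g ^ p = 1 := by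
  have h' : ∀ y ∈ Ph p G, ∀ z, y * z = z * y := fun y hy z => ph_central h hy z
  unfold Ph at hg h'
  induction hg using closure_induction with
  | mem y hy =>
    rcases hy with ⟨a, rfl⟩ | ⟨a, b, rfl⟩
    · rw [← pow_mul, ← pow_two]
      exact h.pp a
    · exact h.cp a b
  | one => exact one_pow p
  | mul y z hy' _ hy hz =>
    have hc : Commute y z := h' y hy' z
    rw [hc.mul_pow, hy, hz, one_mul]
  | inv y _ hy => rw [inv_pow, hy, inv_one]

theorem mk_iff {d e : ℕ} (h : PC2 p G) (hc : Nat.card G = p ^ (d + e)) (hp : Nat.card (Ph p G) = p ^ e)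
    (x : Fin d → G) (th : (Fin e → ZMod p) → G) :
    (∃ s : Sd p d e, Mk p x th s.1 (ext s.2)) ↔
      closure (Set.range x) = ⊤ ∧ ((∀ v w, th (v + w) = th v * th w) ∧ Function.Injective th ∧
        ∀ v, th v ∈ Ph p G) := by
  constructor
  · rintro ⟨s, hs⟩
    exact ⟨hs.gen, hs.add, hs.inj, fun v => (hs.ph _).2 ⟨v, rfl⟩⟩
  · rintro ⟨hg, ha, hi, hm⟩
    have hpp : 0 < p := (Fact.out : p.Prime).pos
    have hfin : Finite G := Nat.finite_of_card_ne_zero (by
      rw [hc]
      exact (pow_pos hpp _).ne')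
    have hsur : ∀ g ∈ Ph p G, ∃ v, g = th v := by
      have hbij : Function.Bijective (fun v : Fin e → ZMod p => (⟨th v, hm v⟩ : Ph p G)) := by
        refine Function.Injective.bijective_of_nat_card_le ?_ ?_
        · intro v w hvw
          exact hi (congrArg Subtype.val hvw)
        · rw [hp, Nat.card_fun, Nat.card_zmod, Nat.card_fin]
      intro g hgg
      obtain ⟨v, hv⟩ := hbij.2 ⟨g, hgg⟩
      exact ⟨v, (congrArg Subtype.val hv).symm⟩
    have h0 : th 0 = 1 := by
      have h1 := ha 0 0
      rw [add_zero] at h1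
      exact (left_eq_mul).1 h1
    have hneg : ∀ v, th (-v) = (th v)⁻¹ := by
      intro v
      have h1 := ha v (-v)
      rw [add_neg_cancel, h0] at h1
      exact (inv_eq_of_mul_eq_one_right h1.symm).symm
    have hpw : ∀ i : Fin d, ∃ v, x i ^ p = th v := fun i =>
      hsur _ (subset_closure (Or.inl ⟨x i, rfl⟩))
    have hcm : ∀ q : Pr d, ∃ v, cm (x q.1.1) (x q.1.2) = th v := fun q =>
      hsur _ (subset_closure (Or.inr ⟨x q.1.1, x q.1.2, rfl⟩))
    choose s1 hs1 using hpw
    choose s2 hs2 using hcm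
    refine ⟨(s1, s2), ⟨hg, ha, fun v g => ph_central h (hm v) g, hs1, fun i j => ?_, hc⟩⟩
    rcases lt_trichotomy i j with hij | hij | hij
    · have e1 : Pool.Agent.RG.ext (p := p) s2 i j = s2 ⟨(i, j), hij⟩ := by
        unfold Pool.Agent.RG.ext
        rw [dif_pos hij]
      rw [e1]
      exact hs2 ⟨(i, j), hij⟩
    · have e1 : Pool.Agent.RG.ext (p := p) s2 i j = 0 := by
        unfold Pool.Agent.RG.ext
        rw [hij, dif_neg (lt_irrefl _), dif_neg (lt_irrefl _)]
      rw [e1, h0, hij]
      exact G4_cm_self _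
    · have e1 : Pool.Agent.RG.ext (p := p) s2 i j = -s2 ⟨(j, i), hij⟩ := by
        unfold Pool.Agent.RG.ext
        rw [dif_neg (not_lt.2 hij.le), dif_pos hij]
      rw [e1, hneg, G4_cm_inv, hs2 ⟨(j, i), hij⟩]

theorem exists_type {n : ℕ} (hc : Nat.card G = p ^ n) : ∃ e ≤ n, Nat.card (Ph p G) = p ^ e := by
  have h1 := Subgroup.card_subgroup_dvd_card (Ph p G)
  rw [hc] at h1
  obtain ⟨e, he, h2⟩ := (Nat.dvd_prime_pow (Fact.out : p.Prime)).1 h1
  exact ⟨e, he, h2⟩

end

end Pool.Agent.RG
end

section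

/-!
# RG A1: the action of matrices on families

`act g b i j = ∑ k, ∑ l, (g k i * g l j) • b k l`.
PROOFS.  `act_mul`: expand both sides, `Matrix.mul_apply`, exchange the sums (`Finset.sum_comm`, `Finset.smul_sum`, `Finset.sum_mul_sum`).
`act_alt`: `act g b j i = -act g b i j` by exchanging `k`, `l`.  `act g b i i = ∑ k ∑ l (g k i * g l i) • b k l = 0`: the terms `(k, l)`, `(l, k)` cancel, the diagonal terms are `0`.
(Also for `p = 2`: do not argue with `2 x = 0`.  Use `Finset.sum_involution` on pairs with the swap - the terms with `k = l` are `0` - or split the sum in `k < l`, `k = l`, `l < k`.)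
`Fix3.inv`: `g * g⁻¹ = 1` (`Matrix.mul_nonsing_inv`, `IsUnit g.det`): for `k.val < 3` `(g * h) k i = ∑ l, g k l * h l i = h k i` because `g k l = δ`; for `i.val < 3` use `h * g = 1`.
`Fix3.mul`: for `k.val < 3` `(g * h) k i = ∑ l, g k l * h l i = h k i`; for `i.val < 3` `(g * h) k i = ∑ l, g k l * h l i = g k i`.
`act_row`: `a.val < 3`, so `g k a = δ_ka`.
-/

set_option autoImplicit false

namespace Pool.Agent.RG

section
variable {p d e : ℕ}

theorem act_one (b : Fin d → Fin d → Fin e → ZMod p) : act 1 b = b := by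
  funext i j
  unfold act
  rw [Finset.sum_eq_single i]
  · rw [Finset.sum_eq_single j]
    · rw [Matrix.one_apply_eq, Matrix.one_apply_eq, one_mul, one_smul]
    · intro l _ hl
      rw [Matrix.one_apply_ne hl, mul_zero, zero_smul]
    · intro h
      exact absurd (Finset.mem_univ j) h
  · intro k _ hk
    refine Finset.sum_eq_zero fun l _ => ?_
    rw [Matrix.one_apply_ne hk, zero_mul, zero_smul]
  · intro h
    exact absurd (Finset.mem_univ i) h

theorem act_mul (g h : Matrix (Fin d) (Fin d) (ZMod p)) (b : Fin d → Fin d → Fin e → ZMod p) :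
    act (g * h) b = act h (act g b) := by
  funext i j c
  simp only [act, Finset.sum_apply, Pi.smul_apply, smul_eq_mul, Matrix.mul_apply]
  have hL : ∀ k l : Fin d, (∑ k', g k k' * h k' i) * (∑ l', g l l' * h l' j) * b k l c =
      ∑ k', ∑ l', (h k' i * h l' j) * ((g k k' * g l l') * b k l c) := by
    intro k l
    rw [Finset.sum_mul_sum, Finset.sum_mul]
    refine Finset.sum_congr rfl fun k' _ => ?_
    rw [Finset.sum_mul]
    exact Finset.sum_congr rfl fun l' _ => by ring
  have hR : ∀ k' l' : Fin d, (h k' i * h l' j) * ∑ k, ∑ l, (g k k' * g l l') * b k l c =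
      ∑ k, ∑ l, (h k' i * h l' j) * ((g k k' * g l l') * b k l c) := by
    intro k' l'
    rw [Finset.mul_sum]
    exact Finset.sum_congr rfl fun k _ => Finset.mul_sum _ _ _
  rw [Finset.sum_congr rfl fun k _ => Finset.sum_congr rfl fun l _ => hL k l]
  rw [Finset.sum_congr rfl fun k _ => Finset.sum_congr rfl fun l _ => hR k l]
  calc ∑ k, ∑ l, ∑ k', ∑ l', (h k' i * h l' j) * ((g k k' * g l l') * b k l c)
      = ∑ k, ∑ k', ∑ l, ∑ l', (h k' i * h l' j) * ((g k k' * g l l') * b k l c) :=
        Finset.sum_congr rfl fun k _ => Finset.sum_comm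
    _ = ∑ k', ∑ k, ∑ l, ∑ l', (h k' i * h l' j) * ((g k k' * g l l') * b k l c) := Finset.sum_comm
    _ = ∑ k', ∑ k, ∑ l', ∑ l, (h k' i * h l' j) * ((g k k' * g l l') * b k l c) :=
        Finset.sum_congr rfl fun k' _ => Finset.sum_congr rfl fun k _ => Finset.sum_comm
    _ = ∑ k', ∑ l', ∑ k, ∑ l, (h k' i * h l' j) * ((g k k' * g l l') * b k l c) :=
        Finset.sum_congr rfl fun k' _ => Finset.sum_comm

theorem act_add (g : Matrix (Fin d) (Fin d) (ZMod p)) (b b' : Fin d → Fin d → Fin e → ZMod p) :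
    act g (b + b') = act g b + act g b' := by
  funext i j
  show (∑ k, ∑ l, (g k i * g l j) • (b k l + b' k l)) =
    (∑ k, ∑ l, (g k i * g l j) • b k l) + ∑ k, ∑ l, (g k i * g l j) • b' k l
  rw [← Finset.sum_add_distrib]
  refine Finset.sum_congr rfl fun k _ => ?_
  rw [← Finset.sum_add_distrib]
  exact Finset.sum_congr rfl fun l _ => smul_add _ _ _

theorem act_alt (g : Matrix (Fin d) (Fin d) (ZMod p)) {b : Fin d → Fin d → Fin e → ZMod p}
    (hb : Alt b) : Alt (act g b) := by
  classical
  refine ⟨fun i => ?_, fun i j => ?_⟩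
  · show (∑ k, ∑ l, (g k i * g l i) • b k l) = 0
    rw [← Finset.sum_product']
    refine Finset.sum_involution (fun a _ => (a.2, a.1)) ?_ ?_ ?_ ?_
    · rintro ⟨k, l⟩ _
      show (g k i * g l i) • b k l + (g l i * g k i) • b l k = 0
      rw [hb.2 k l, smul_neg, mul_comm (g l i), add_neg_cancel]
    · rintro ⟨k, l⟩ _ hne heq
      have h1 : l = k := congrArg Prod.fst heq
      apply hne
      show (g k i * g l i) • b k l = 0
      rw [h1, hb.1, smul_zero]
    · rintro ⟨k, l⟩ _
      exact Finset.mem_product.2 ⟨Finset.mem_univ _, Finset.mem_univ _⟩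
    · rintro ⟨k, l⟩ _
      rfl
  · show (∑ k, ∑ l, (g k j * g l i) • b k l) = -∑ k, ∑ l, (g k i * g l j) • b k l
    rw [Finset.sum_comm, ← Finset.sum_neg_distrib]
    refine Finset.sum_congr rfl fun k _ => ?_
    rw [← Finset.sum_neg_distrib]
    refine Finset.sum_congr rfl fun l _ => ?_
    rw [hb.2 k l, smul_neg, mul_comm (g l j)]

theorem Fix3.one : Fix3 (1 : Matrix (Fin d) (Fin d) (ZMod p)) := by
  intro k i _
  rw [Matrix.one_apply]

private theorem A1_left {g : Matrix (Fin d) (Fin d) (ZMod p)} (hg : Fix3 g) (h : Matrix (Fin d) (Fin d) (ZMod p))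
    {k i : Fin d} (hk : k.val < 3) : (g * h) k i = h k i := by
  rw [Matrix.mul_apply, Finset.sum_eq_single k]
  · rw [hg k k (Or.inl hk), if_pos rfl, one_mul]
  · intro l _ hl
    rw [hg k l (Or.inl hk), if_neg (Ne.symm hl), zero_mul]
  · intro h
    exact absurd (Finset.mem_univ k) h

private theorem A1_right {h : Matrix (Fin d) (Fin d) (ZMod p)} (hh : Fix3 h) (g : Matrix (Fin d) (Fin d) (ZMod p))
    {k i : Fin d} (hi : i.val < 3) : (g * h) k i = g k i := by
  rw [Matrix.mul_apply, Finset.sum_eq_single i]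
  · rw [hh i i (Or.inl hi), if_pos rfl, mul_one]
  · intro l _ hl
    rw [hh l i (Or.inr hi), if_neg hl, mul_zero]
  · intro h
    exact absurd (Finset.mem_univ i) h

theorem Fix3.mul {g h : Matrix (Fin d) (Fin d) (ZMod p)} (hg : Fix3 g) (hh : Fix3 h) :
    Fix3 (g * h) := by
  intro k i hki
  rcases hki with hk | hi
  · rw [A1_left hg h hk]
    exact hh k i (Or.inl hk)
  · rw [A1_right hh g hi]
    exact hg k i (Or.inr hi)

theorem Fix3.inv {g : Matrix (Fin d) (Fin d) (ZMod p)} (hg : Fix3 g) (hu : IsUnit g) :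
    Fix3 g⁻¹ := by
  have hd : IsUnit g.det := (Matrix.isUnit_iff_isUnit_det g).1 hu
  intro k i hki
  rcases hki with hk | hi
  · rw [← A1_left hg g⁻¹ hk, Matrix.mul_nonsing_inv g hd, Matrix.one_apply]
  · rw [← A1_right hg g⁻¹ hi, Matrix.nonsing_inv_mul g hd, Matrix.one_apply]

theorem act_row {g : Matrix (Fin d) (Fin d) (ZMod p)} (hg : Fix3 g)
    (b : Fin d → Fin d → Fin e → ZMod p) {a : Fin d} (ha : a.val < 3) (j : Fin d) :
    act g b a j = ∑ l, g l j • b a l := by
  unfold act
  rw [Finset.sum_eq_single a]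
  · refine Finset.sum_congr rfl fun l _ => ?_
    rw [hg a a (Or.inl ha), if_pos rfl, one_mul]
  · intro k _ hk
    refine Finset.sum_eq_zero fun l _ => ?_
    rw [hg k a (Or.inr ha), if_neg hk, zero_mul, zero_smul]
  · intro h
    exact absurd (Finset.mem_univ a) h

theorem act_rows_eq {g : Matrix (Fin d) (Fin d) (ZMod p)} (hg : Fix3 g)
    {b b' : Fin d → Fin d → Fin e → ZMod p} {r : ℕ} (hr : r ≤ 3)
    (h : ∀ i j : Fin d, i.val < r → b i j = b' i j) :
    ∀ i j : Fin d, i.val < r → act g b i j = act g b' i j := by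
  intro i j hi
  rw [act_row hg b (lt_of_lt_of_le hi hr), act_row hg b' (lt_of_lt_of_le hi hr)]
  exact Finset.sum_congr rfl fun l _ => by rw [h i l hi]

end

end Pool.Agent.RG
end

section

/-!
# RG A2: the shift argument

PROOF.  Let `S` be the set on the left.  For `b ∈ S` choose a linear functional `f_b ≠ 0`, `f_b : (Fin e → ZMod p) →ₗ[ZMod p] ZMod p`, which vanishes on the vectors `act (g b) b q.1 q.2`, `q ∈ T`
(`Submodule.exists_le_ker_of_lt_top`), and for every `f ≠ 0` a vector `y f` with `f (y f) = 1`.  For `τ : T → ZMod p` and a vector `y` let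
`Δ τ y i j = τ (i, j) • y` if `(i, j) ∈ T`, `-τ (j, i) • y` if `(j, i) ∈ T`, `0` otherwise (not both are in `T`, as `q.1 < q.2` on `T`): alternating (`Alt`).
Map `S × (T → ZMod p) → ((Fin e → ZMod p) →ₗ[ZMod p] ZMod p) × Al`, `(b, τ) ↦ (f_b, b')`, `b' = act (g b)⁻¹ (act (g b) b + Δ τ (y f_b))`.
`b' ∈ Al` (`act_alt`).  `b' i j = b i j` for `i.val < r`: `b' = b + act (g b)⁻¹ Δ` (`act_add`, `act_mul`, `act_one`) and `(act h Δ) i j = ∑ l, h l j • Δ i l` (`act_row`, `Fix3.inv`) with `Δ i l = 0`, because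
`(i, l) ∈ T` implies `r ≤ i`, and `(l, i) ∈ T` implies `3 ≤ i`.  So `g b' = g b` (`hg3`) and `act (g b') b' = act (g b) b + Δ`, hence `f_b (act (g b') b' q.1 q.2) = 0 + τ q` for `q ∈ T`.
INJECTIVE: `(f, b')` determines `g b = g b'`, `τ q = f (act (g b') b' q.1 q.2)`, and then `act (g b) b = act (g b') b' - Δ τ (y f)`, and `b` (`act` of a unit is injective).
The number of functionals is `p ^ e`.  `Nat.card` of the product: `Set.ncard S * p ^ T.card ≤ p ^ e * Set.ncard Al` (`Nat.card_le_card_of_injective`, everything is finite).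
-/

set_option autoImplicit false

namespace Pool.Agent.RG

open Classical in
/-- The shift. -/
private noncomputable def A2_D {p d e : ℕ} (T : Finset (Fin d × Fin d)) (τ : T → ZMod p)
    (y : Fin e → ZMod p) : Fin d → Fin d → Fin e → ZMod p := fun i j =>
  if h : (i, j) ∈ T then τ ⟨(i, j), h⟩ • y
  else if h : (j, i) ∈ T then -(τ ⟨(j, i), h⟩ • y) else 0

private theorem A2_D_alt {p d e : ℕ} (T : Finset (Fin d × Fin d))
    (hT : ∀ q ∈ T, q.1 < q.2) (τ : T → ZMod p) (y : Fin e → ZMod p) : Alt (A2_D T τ y) := by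
  constructor
  · intro i
    have h : (i, i) ∉ T := fun h => absurd (hT _ h) (lt_irrefl _)
    simp [A2_D, h]
  · intro i j
    by_cases h1 : (i, j) ∈ T
    · have h2 : (j, i) ∉ T := fun h => absurd (lt_trans (hT _ h1) (hT _ h)) (lt_irrefl _)
      simp [A2_D, h1, h2]
    · by_cases h2 : (j, i) ∈ T
      · simp [A2_D, h1, h2]
      · simp [A2_D, h1, h2]

private theorem A2_alt_add {p d e : ℕ} {b b' : Fin d → Fin d → Fin e → ZMod p}
    (h : Alt b) (h' : Alt b') : Alt (b + b') := by
  constructor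
  · intro i
    have h1 := h.1 i
    have h2 := h'.1 i
    show b i i + b' i i = 0
    rw [h1, h2, add_zero]
  · intro i j
    have h1 := h.2 i j
    have h2 := h'.2 i j
    show b j i + b' j i = -(b i j + b' i j)
    rw [h1, h2, neg_add]

private theorem A2_fun {p e : ℕ} [Fact p.Prime] (W : Submodule (ZMod p) (Fin e → ZMod p))
    (hW : W ≠ ⊤) : ∃ u : Fin e → ZMod p, (∃ y : Fin e → ZMod p, ∑ a, y a * u a = 1) ∧
      ∀ v ∈ W, ∑ a, v a * u a = 0 := by
  classical
  obtain ⟨f, hf0, hf⟩ := Submodule.exists_le_ker_of_lt_top W (lt_top_iff_ne_top.mpr hW)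
  have hrep : ∀ v, f v = ∑ a, v a * f (fun j => if a = j then 1 else 0) := by
    intro v
    rw [LinearMap.pi_apply_eq_sum_univ f v]
    rfl
  have hv : ∃ v, f v ≠ 0 := by
    by_contra hno
    push Not at hno
    exact hf0 (LinearMap.ext hno)
  obtain ⟨v, hv⟩ := hv
  refine ⟨fun a => f (fun j => if a = j then 1 else 0), ⟨(f v)⁻¹ • v, ?_⟩, ?_⟩
  · rw [← hrep, map_smul, smul_eq_mul, inv_mul_cancel₀ hv]
  · intro w hw
    rw [← hrep]
    exact hf hw

open Classical in
/-- A vector with value `1`. -/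
private noncomputable def A2_y {p e : ℕ} (u : Fin e → ZMod p) : Fin e → ZMod p :=
  if h : ∃ y : Fin e → ZMod p, ∑ a, y a * u a = 1 then h.choose else 0

private theorem A2_y_spec {p e : ℕ} {u : Fin e → ZMod p}
    (h : ∃ y : Fin e → ZMod p, ∑ a, y a * u a = 1) : ∑ a, A2_y u a * u a = 1 := by
  unfold A2_y
  rw [dif_pos h]
  exact h.choose_spec

private theorem A2_cancel {p d e : ℕ} [Fact p.Prime] {g : Matrix (Fin d) (Fin d) (ZMod p)}
    (hg : IsUnit g) (b : Fin d → Fin d → Fin e → ZMod p) : act g⁻¹ (act g b) = b := by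
  rw [← act_mul, Matrix.mul_nonsing_inv g ((Matrix.isUnit_iff_isUnit_det g).mp hg), act_one]

private theorem A2_cancel' {p d e : ℕ} [Fact p.Prime] {g : Matrix (Fin d) (Fin d) (ZMod p)}
    (hg : IsUnit g) (b : Fin d → Fin d → Fin e → ZMod p) : act g (act g⁻¹ b) = b := by
  rw [← act_mul, Matrix.nonsing_inv_mul g ((Matrix.isUnit_iff_isUnit_det g).mp hg), act_one]

private theorem A2_val {p d e : ℕ} [Fact p.Prime] (T : Finset (Fin d × Fin d)) (τ : T → ZMod p)
    {X : Fin d → Fin d → Fin e → ZMod p} {u : Fin e → ZMod p}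
    (hu : ∃ y : Fin e → ZMod p, ∑ a, y a * u a = 1)
    (hX : ∀ q : T, ∑ a, X q.1.1 q.1.2 a * u a = 0) (q : T) :
    ∑ a, (X + A2_D T τ (A2_y u)) q.1.1 q.1.2 a * u a = τ q := by
  have h1 : A2_D T τ (A2_y u) q.1.1 q.1.2 = τ q • A2_y u := by
    have hq : ((q.1.1, q.1.2) : Fin d × Fin d) ∈ T := q.2
    unfold A2_D
    rw [dif_pos hq]
  have h2 : ∀ a, (X + A2_D T τ (A2_y u)) q.1.1 q.1.2 a * u a =
      X q.1.1 q.1.2 a * u a + τ q * (A2_y u a * u a) := by
    intro a
    show (X q.1.1 q.1.2 a + A2_D T τ (A2_y u) q.1.1 q.1.2 a) * u a = _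
    rw [h1, Pi.smul_apply, smul_eq_mul]
    ring
  rw [Finset.sum_congr rfl fun a _ => h2 a, Finset.sum_add_distrib, hX q, ← Finset.mul_sum,
    A2_y_spec hu, zero_add, mul_one]

theorem shift_count {p d e : ℕ} [Fact p.Prime] {r : ℕ} (hr : r ≤ 3) (T : Finset (Fin d × Fin d))
    (hT : ∀ q ∈ T, q.1 < q.2 ∧ r ≤ q.1.val ∧ 3 ≤ q.2.val)
    (g : (Fin d → Fin d → Fin e → ZMod p) → Matrix (Fin d) (Fin d) (ZMod p))
    (hg : ∀ b, IsUnit (g b)) (hg2 : ∀ b, Fix3 (g b))
    (hg3 : ∀ b b', (∀ i j : Fin d, i.val < r → b i j = b' i j) → g b = g b') :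
    Set.ncard {b : Fin d → Fin d → Fin e → ZMod p | Alt b ∧
      Submodule.span (ZMod p) (Set.range fun q : T => act (g b) b q.1.1 q.1.2) ≠ ⊤} * p ^ T.card ≤
    p ^ e * Set.ncard {b : Fin d → Fin d → Fin e → ZMod p | Alt b} := by
  classical
  set S : Set (Fin d → Fin d → Fin e → ZMod p) := {b | Alt b ∧
      Submodule.span (ZMod p) (Set.range fun q : T => act (g b) b q.1.1 q.1.2) ≠ ⊤} with hS
  set Al : Set (Fin d → Fin d → Fin e → ZMod p) := {b | Alt b} with hAl
  have hex : ∀ b : S, ∃ u : Fin e → ZMod p, (∃ y : Fin e → ZMod p, ∑ a, y a * u a = 1) ∧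
      ∀ q : T, ∑ a, act (g b.1) b.1 q.1.1 q.1.2 a * u a = 0 := by
    intro b
    obtain ⟨u, hu1, hu2⟩ := A2_fun _ b.2.2
    exact ⟨u, hu1, fun q => hu2 _ (Submodule.subset_span ⟨q, rfl⟩)⟩
  choose U hU1 hU2 using hex
  have hlt : ∀ q ∈ T, q.1 < q.2 := fun q hq => (hT q hq).1
  -- the new family
  have hnew : ∀ (b : S) (τ : T → ZMod p),
      g (act (g b.1)⁻¹ (act (g b.1) b.1 + A2_D T τ (A2_y (U b)))) = g b.1 := by
    intro b τ
    symm
    apply hg3
    intro i j hi
    have h0 : ∀ l, A2_D T τ (A2_y (U b)) i l = 0 := by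
      intro l
      have h1 : (i, l) ∉ T := by
        intro h
        have := (hT _ h).2.1
        simp only at this
        omega
      have h2 : (l, i) ∉ T := by
        intro h
        have := (hT _ h).2.2
        simp only at this
        omega
      simp [A2_D, h1, h2]
    rw [act_add, A2_cancel (hg b.1)]
    show b.1 i j = b.1 i j + act (g b.1)⁻¹ (A2_D T τ (A2_y (U b))) i j
    rw [act_row (Fix3.inv (hg2 b.1) (hg b.1)) _ (lt_of_lt_of_le hi hr)]
    simp [h0]
  let Φ : S × (T → ZMod p) → (Fin e → ZMod p) × Al := fun x =>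
    (U x.1, ⟨act (g x.1.1)⁻¹ (act (g x.1.1) x.1.1 + A2_D T x.2 (A2_y (U x.1))),
      act_alt _ (A2_alt_add (act_alt _ x.1.2.1) (A2_D_alt T hlt _ _))⟩)
  have hinj : Function.Injective Φ := by
    rintro ⟨b, τ⟩ ⟨b', τ'⟩ h
    have hu : U b = U b' := congrArg Prod.fst h
    have hb : act (g b.1)⁻¹ (act (g b.1) b.1 + A2_D T τ (A2_y (U b))) =
        act (g b'.1)⁻¹ (act (g b'.1) b'.1 + A2_D T τ' (A2_y (U b'))) :=
      congrArg (fun z => (z.2 : Fin d → Fin d → Fin e → ZMod p)) h
    have hgg : g b.1 = g b'.1 := by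
      rw [← hnew b τ, ← hnew b' τ', hb]
    have hX : act (g b.1) b.1 + A2_D T τ (A2_y (U b)) =
        act (g b'.1) b'.1 + A2_D T τ' (A2_y (U b')) := by
      have h1 := congrArg (act (g b.1)) hb
      rw [A2_cancel' (hg b.1)] at h1
      rw [h1, hgg, A2_cancel' (hg b'.1)]
    have hτ : τ = τ' := by
      funext q
      have h1 := A2_val T τ (hU1 b) (hU2 b) q
      have h2 := A2_val T τ' (hU1 b') (hU2 b') q
      rw [← h1, ← h2, hX, hu]
    have hact : act (g b.1) b.1 = act (g b'.1) b'.1 := by
      rw [hτ, hu] at hX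
      exact add_right_cancel hX
    have hbb : b.1 = b'.1 := by
      have h1 := congrArg (act (g b.1)⁻¹) hact
      rw [A2_cancel (hg b.1)] at h1
      rw [h1, hgg, A2_cancel (hg b'.1)]
    exact Prod.ext (Subtype.ext hbb) hτ
  have hle := Nat.card_le_card_of_injective Φ hinj
  rw [Nat.card_prod, Nat.card_prod, Nat.card_coe_set_eq, Nat.card_coe_set_eq] at hle
  have h1 : Nat.card (T → ZMod p) = p ^ T.card := by
    rw [Nat.card_fun, Nat.card_zmod, Nat.card_eq_fintype_card, Fintype.card_coe]
  have h2 : Nat.card (Fin e → ZMod p) = p ^ e := by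
    rw [Nat.card_fun, Nat.card_zmod, Nat.card_eq_fintype_card, Fintype.card_fin]
  rw [h1, h2] at hle
  exact hle

end Pool.Agent.RG
end

section

/-!
# RG A3: the unipotent matrices

PROOF of `exists_U`.  If the span condition fails take `U = 1`.  Otherwise for every `j` with `3 ≤ j`, `part j = a` there are coefficients `ξ j : Out d a → ZMod p` with
`∑ k, ξ j k • L k = -L j` (`Submodule.mem_span_range_iff_exists_fun`).  `N k j = ξ j ⟨k, _⟩` if `3 ≤ j`, `part j = a` and `3 ≤ k`, `part k ≠ a`; `0` otherwise.  `U = 1 + N`.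
`N * N = 0` (a nonzero term needs an index in the part `a` and not in the part `a`), so `U * (1 - N) = 1 = (1 - N) * U`: `U` is a unit.  `Fix3`, and the column `j` is the unit vector for the other `j`: clear.
`∑ k, U k j • L k = L j + ∑ k, ξ j k • L k = 0`.
PROOF of `span_row`: `⊤ ≤`: with `V = U⁻¹` (`Fix3`): `L m = ∑ j, V j m • (∑ l, U l j • L l)` (matrix product `U * V = 1`), for `3 ≤ m` the coefficients `V j m` vanish for `j.val < 3`; so the span of the
`L m`, `3 ≤ m`, is contained in the span of the new vectors with `3 ≤ j`.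
-/

set_option autoImplicit false

namespace Pool.Agent.RG

theorem exists_U {p d e : ℕ} [Fact p.Prime] (a : ℕ) (L : Fin d → Fin e → ZMod p) :
    ∃ U : Matrix (Fin d) (Fin d) (ZMod p), IsUnit U ∧ Fix3 U ∧
      (∀ j : Fin d, ¬ (3 ≤ j.val ∧ part j = a) → ∀ k, U k j = if k = j then 1 else 0) ∧
      (Submodule.span (ZMod p) (Set.range fun j : Out d a => L j.1) = ⊤ →
        ∀ j : Fin d, 3 ≤ j.val → part j = a → ∑ k, U k j • L k = 0) := by
  classical
  by_cases hsp : Submodule.span (ZMod p) (Set.range fun j : Out d a => L j.1) = ⊤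
  · have hx : ∀ j : Fin d, ∃ ξ : Out d a → ZMod p, ∑ k, ξ k • L k.1 = -L j := by
      intro j
      have h1 : -L j ∈ Submodule.span (ZMod p) (Set.range fun j : Out d a => L j.1) := by
        rw [hsp]
        exact Submodule.mem_top
      exact (Submodule.mem_span_range_iff_exists_fun (ZMod p)).1 h1
    choose ξ hξ using hx
    let N : Matrix (Fin d) (Fin d) (ZMod p) := fun k j =>
      if h : (3 ≤ j.val ∧ part j = a) ∧ (3 ≤ k.val ∧ part k ≠ a) then ξ j ⟨k, h.2⟩ else 0
    have hN0 : ∀ k j, ¬ ((3 ≤ j.val ∧ part j = a) ∧ (3 ≤ k.val ∧ part k ≠ a)) → N k j = 0 :=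
      fun k j h => dif_neg h
    have hNN : N * N = 0 := by
      ext i j
      rw [Matrix.mul_apply]
      refine Finset.sum_eq_zero fun k _ => ?_
      by_cases h : part k = a
      · rw [hN0 k j (fun h' => h'.2.2 h), mul_zero]
      · rw [hN0 i k (fun h' => h h'.1.2), zero_mul]
    have hU : IsUnit (1 + N) := by
      have h1 : (1 + N) * (1 - N) = 1 := by
        rw [add_mul, mul_sub, mul_sub, hNN]
        simp
      have h2 : (1 - N) * (1 + N) = 1 := by
        rw [sub_mul, mul_add, mul_add, hNN]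
        simp
      exact ⟨⟨1 + N, 1 - N, h1, h2⟩, rfl⟩
    refine ⟨1 + N, hU, ?_, ?_, ?_⟩
    · intro k i h
      rw [Matrix.add_apply, hN0 k i (fun h' => by have := h'.1.1; have := h'.2.1; omega), add_zero,
        Matrix.one_apply]
    · intro j hj k
      rw [Matrix.add_apply, hN0 k j (fun h' => hj h'.1), add_zero, Matrix.one_apply]
    · intro _ j h3 hj
      have h1 : ∀ k, (1 + N) k j • L k = (if k = j then L k else 0) + N k j • L k := by
        intro k
        rw [Matrix.add_apply, Matrix.one_apply, add_smul]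
        split_ifs with h
        · rw [one_smul]
        · rw [zero_smul]
      have h2 : ∑ k, N k j • L k = ∑ k : Out d a, ξ j k • L k.1 := by
        rw [← Fintype.sum_subtype_add_sum_subtype (fun k : Fin d => 3 ≤ k.val ∧ part k ≠ a)
          (fun k => N k j • L k)]
        have h3' : ∑ i : {x : Fin d // ¬ (3 ≤ x.val ∧ part x ≠ a)}, N i.1 j • L i.1 = 0 := by
          refine Finset.sum_eq_zero fun k _ => ?_
          rw [hN0 k.1 j (fun h' => k.2 h'.2), zero_smul]
        rw [h3', add_zero]
        refine Finset.sum_congr rfl fun k _ => ?_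
        have h4 : N k.1 j = ξ j k := dif_pos ⟨⟨h3, hj⟩, k.2⟩
        rw [h4]
      rw [Finset.sum_congr rfl (fun k _ => h1 k), Finset.sum_add_distrib, h2, hξ,
        Finset.sum_ite_eq' Finset.univ j, if_pos (Finset.mem_univ j), add_neg_cancel]
  · refine ⟨1, isUnit_one, Fix3.one, fun j _ k => Matrix.one_apply, fun h => absurd h hsp⟩

theorem span_row {p d e : ℕ} {U : Matrix (Fin d) (Fin d) (ZMod p)} (hU : IsUnit U) (hF : Fix3 U)
    (L : Fin d → Fin e → ZMod p)
    (h : Submodule.span (ZMod p) (Set.range fun j : {j : Fin d // 3 ≤ j.val} => L j.1) = ⊤) :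
    Submodule.span (ZMod p)
      (Set.range fun j : {j : Fin d // 3 ≤ j.val} => ∑ l, U l j.1 • L l) = ⊤ := by
  classical
  have hd : IsUnit U.det := (Matrix.isUnit_iff_isUnit_det U).1 hU
  have hUV : U * U⁻¹ = 1 := Matrix.mul_nonsing_inv U hd
  have hV : Fix3 U⁻¹ := hF.inv hU
  rw [eq_top_iff, ← h, Submodule.span_le]
  rintro _ ⟨m, rfl⟩
  have h1 : L m.1 = ∑ j, U⁻¹ j m.1 • ∑ l, U l j • L l := by
    have h2 : ∀ l, ∑ j, U⁻¹ j m.1 * U l j = if l = m.1 then 1 else 0 := by
      intro l
      rw [← Matrix.one_apply, ← hUV, Matrix.mul_apply]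
      exact Finset.sum_congr rfl fun j _ => mul_comm _ _
    simp only [Finset.smul_sum, smul_smul]
    rw [Finset.sum_comm]
    simp only [← Finset.sum_smul, h2]
    rw [Finset.sum_eq_single m.1]
    · rw [if_pos rfl, one_smul]
    · intro b _ hb
      rw [if_neg hb, zero_smul]
    · intro hm
      exact absurd (Finset.mem_univ _) hm
  show L m.1 ∈ _
  rw [h1]
  refine Submodule.sum_mem _ fun j _ => ?_
  by_cases hj : 3 ≤ j.val
  · exact Submodule.smul_mem _ _ (Submodule.subset_span ⟨⟨j, hj⟩, rfl⟩)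
  · have h3 : U⁻¹ j m.1 = 0 := by
      rw [hV j m.1 (Or.inl (by omega))]
      refine if_neg ?_
      intro h4
      exact hj (h4 ▸ m.2)
    rw [h3, zero_smul]
    exact Submodule.zero_mem _

end Pool.Agent.RG
end

section

/-!
# RG A4: the change of the generators depending on the family

`Gn n b` is the product of the first `n` unipotent matrices.
PROOFS.  `Gn_unit`, `Gn_fix`: induction (`Fix3.one`, `Fix3.mul`, `Um_spec`).  `Gn_dep`: induction on `n`: `Gn n b = Gn n b'`, and the row `n` of `act (Gn n b) b` is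
`j ↦ ∑ l, (Gn n b) l j • b n l` (`act_row`, `n < 3`; `row` unfolds to this if `n < d`, and is `0` otherwise): the same for `b'`, as the row `n` of `b` and of `b'` agree.
`Gn_zero`: induction on `n`, for all `a < n`; `act (Gn (n+1) b) b = act U (act (Gn n b) b)` (`act_mul`), `U = Um n (row ..)`.  `a = n`: `act_row` and the last part of `exists_U` (the span condition is
`h n`).  `a < n`: `act U b' a j = ∑ l, U l j • b' a l = b' a j` (column `j` of `U` is a unit vector because `part j = a ≠ n`), which is `0` by induction.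
`Gn_span`: by induction on `n > a`: the vectors `act (Gn n b) b a j`, `3 ≤ j`, span.  Start `n = a`: the family over `Out d a` spans by `h a`, so the larger family does.
Step: `act_mul`, `act_row`, `span_row`.  Then `act (Gn n b) b a j = 0` for `3 ≤ j`, `part j = a` (`Gn_zero`), so the family over `Out d a` has the same span.
-/

set_option autoImplicit false

namespace Pool.Agent.RG

section
variable {p d e : ℕ} [Fact p.Prime]

/-- The matrix of `exists_U`. -/
noncomputable def Um (a : ℕ) (L : Fin d → Fin e → ZMod p) : Matrix (Fin d) (Fin d) (ZMod p) :=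
  (exists_U a L).choose

/-- The row `n` of a family. -/
def row (b : Fin d → Fin d → Fin e → ZMod p) (n : ℕ) : Fin d → Fin e → ZMod p := fun j =>
  if h : n < d then b ⟨n, h⟩ j else 0

/-- The product of the first `n` matrices. -/
noncomputable def Gn : ℕ → (Fin d → Fin d → Fin e → ZMod p) → Matrix (Fin d) (Fin d) (ZMod p)
  | 0, _ => 1
  | n + 1, b => Gn n b * Um n (row (act (Gn n b) b) n)

theorem Gn_unit (n : ℕ) (b : Fin d → Fin d → Fin e → ZMod p) : IsUnit (Gn n b) := by
  induction n with
  | zero => exact isUnit_one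
  | succ n ih => exact ih.mul (exists_U n (row (act (Gn n b) b) n)).choose_spec.1

theorem Gn_fix (n : ℕ) (b : Fin d → Fin d → Fin e → ZMod p) : Fix3 (Gn n b) := by
  induction n with
  | zero => exact Fix3.one
  | succ n ih => exact ih.mul (exists_U n (row (act (Gn n b) b) n)).choose_spec.2.1

theorem Gn_dep {n : ℕ} (hn : n ≤ 3) {b b' : Fin d → Fin d → Fin e → ZMod p}
    (h : ∀ i j : Fin d, i.val < n → b i j = b' i j) : Gn n b = Gn n b' := by
  induction n with
  | zero => rfl
  | succ n ih =>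
    have h1 : Gn n b = Gn n b' := ih (by omega) fun i j hi => h i j (by omega)
    have h2 : row (act (Gn n b) b) n = row (act (Gn n b') b') n := by
      rw [← h1]
      funext j
      unfold row
      split_ifs with hd
      · exact act_rows_eq (Gn_fix n b) hn h ⟨n, hd⟩ j (Nat.lt_succ_self n)
      · rfl
    change Gn n b * Um n (row (act (Gn n b) b) n) = Gn n b' * Um n (row (act (Gn n b') b') n)
    rw [h2, h1]

theorem Gn_zero {n : ℕ} (hn : n ≤ 3) {b : Fin d → Fin d → Fin e → ZMod p}
    (h : ∀ a : Fin d, a.val < n → Submodule.span (ZMod p)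
      (Set.range fun j : Out d a.val => act (Gn a.val b) b a j.1) = ⊤)
    (a j : Fin d) (ha : a.val < n) (hj : 3 ≤ j.val) (hj2 : part j = a.val) :
    act (Gn n b) b a j = 0 := by
  induction n with
  | zero => exact absurd ha (Nat.not_lt_zero _)
  | succ n ih =>
    have hsp := (exists_U n (row (act (Gn n b) b) n)).choose_spec
    have e1 : act (Gn (n + 1) b) b a j = ∑ l, Um n (row (act (Gn n b) b) n) l j • act (Gn n b) b a l := by
      change act (Gn n b * Um n (row (act (Gn n b) b) n)) b a j = _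
      rw [act_mul]
      exact act_row hsp.2.1 _ (by omega) j
    rw [e1]
    rcases Nat.lt_or_ge a.val n with han | han
    · have hz := ih (by omega) (fun a' ha' => h a' (by omega)) han
      have hU : ∀ k, Um n (row (act (Gn n b) b) n) k j = if k = j then 1 else 0 :=
        hsp.2.2.1 j (fun hh => by have := hh.2; omega)
      have e2 : ∑ l, Um n (row (act (Gn n b) b) n) l j • act (Gn n b) b a l = act (Gn n b) b a j := by
        rw [Finset.sum_eq_single j]
        · rw [hU, if_pos rfl, one_smul]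
        · intro l _ hl
          rw [hU, if_neg hl, zero_smul]
        · intro hj'
          exact absurd (Finset.mem_univ j) hj'
      rw [e2, hz]
    · have hn' : n = a.val := by omega
      subst hn'
      have hrow : row (act (Gn a.val b) b) a.val = fun l => act (Gn a.val b) b a l := by
        funext l
        unfold row
        rw [dif_pos a.isLt]
      have h4 := hsp.2.2.2
      have h5 := h4 (by rw [hrow]; exact h a ha) j hj hj2
      refine Eq.trans (Finset.sum_congr rfl fun l _ => ?_) h5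
      exact congrArg (fun w => Um a.val (row (act (Gn a.val b) b) a.val) l j • w) (congrFun hrow l).symm

theorem Gn_span {n : ℕ} (hn : n ≤ 3) {b : Fin d → Fin d → Fin e → ZMod p}
    (h : ∀ a : Fin d, a.val < n → Submodule.span (ZMod p)
      (Set.range fun j : Out d a.val => act (Gn a.val b) b a j.1) = ⊤)
    (a : Fin d) (ha : a.val < n) :
    Submodule.span (ZMod p) (Set.range fun j : Out d a.val => act (Gn n b) b a j.1) = ⊤ := by
  have key : ∀ m, a.val ≤ m → m ≤ n →
      Submodule.span (ZMod p) (Set.range fun j : {j : Fin d // 3 ≤ j.val} => act (Gn m b) b a j.1) = ⊤ := by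
    intro m ham
    induction m, ham using Nat.le_induction with
    | base =>
      intro _
      rw [eq_top_iff, ← h a ha]
      apply Submodule.span_mono
      rintro _ ⟨j, rfl⟩
      exact ⟨⟨j.1, j.2.1⟩, rfl⟩
    | succ m ham ih =>
      intro hmn
      have hsp := (exists_U m (row (act (Gn m b) b) m)).choose_spec
      have h1 := span_row hsp.1 hsp.2.1 (fun l => act (Gn m b) b a l) (ih (by omega))
      rw [eq_top_iff, ← h1]
      apply Submodule.span_mono
      rintro _ ⟨j, rfl⟩
      refine ⟨j, ?_⟩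
      change act (Gn m b * Um m (row (act (Gn m b) b) m)) b a j.1 = _
      rw [act_mul]
      exact act_row hsp.2.1 _ (by omega) j.1
  rw [eq_top_iff, ← key n ha.le le_rfl, Submodule.span_le]
  rintro _ ⟨j, rfl⟩
  by_cases hp : part j.1 = a.val
  · have h0 : act (Gn n b) b a j.1 = 0 := Gn_zero hn h a j.1 ha j.2 hp
    change act (Gn n b) b a j.1 ∈ _
    rw [h0]
    exact Submodule.zero_mem _
  · exact Submodule.subset_span ⟨⟨j.1, j.2, hp⟩, rfl⟩

end

end Pool.Agent.RG
end

section

/-!
# RG W1: words over given vectors which generate the free group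

`Wd b`: there are words `w k` over `b k` (the exponent sums of `w k` are `b k` modulo `p`) which generate the free group.
PROOF of `wd_move`.  `b' k = b k - t k • b j`, `t j = 0`.  Let `w'` be the words over `b'`.  Put `w k = w' k * w' j ^ (t k).val` for `k ≠ j`, `w j = w' j`
(for `k = j` the formula gives the same, `t j = 0`).  `w k` is over `b' k + t k • b' j = b k` (`ev_mul`, `ev_zpow` or for natural powers, `ZMod.natCast_zmod_val`).  `w' k = w k * w j ^ (-t)` is in the closure
of the `w k`.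
PROOF of `wd_zero`: `e = 0`: the free group on `Fin 0` is trivial.
PROOF of `wd_shape`: the case where `b j 0 = 1` for one index `j`, and `b k 0 = 0` for all others: given words `w' k` in `FreeGroup (Fin e)`, `k ≠ j`, over the vectors
`fun a => b k a.succ` which generate `FreeGroup (Fin e)`, put `w k = map Fin.succ (w' k)` (`FreeGroup.map`) and
`w j = of 0 * (∏ a, of a.succ ^ (b j a.succ).val)` (ordered product, or any word `u` in the `of a.succ` over `fun a => b j a.succ`, for example
`FreeGroup.map Fin.succ` of a product).  The closure contains all `of a.succ` and then `of 0`.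
-/

set_option autoImplicit false

namespace Pool.Agent.RG

open Subgroup

/-- There are words over the vectors `b k` which generate the free group. -/
def Wd {p e : ℕ} {κ : Type} (b : κ → Fin e → ZMod p) : Prop :=
  ∃ w : κ → FreeGroup (Fin e), (∀ k a, ((ev (w k) a : ℤ) : ZMod p) = b k a) ∧
    closure (Set.range w) = ⊤

theorem exists_word {p e : ℕ} [NeZero p] (v : Fin e → ZMod p) :
    ∃ w : FreeGroup (Fin e), ∀ a, ((ev w a : ℤ) : ZMod p) = v a := by
  classical
  have key : ∀ s : Finset (Fin e), ∃ w : FreeGroup (Fin e), ∀ a,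
      ((ev w a : ℤ) : ZMod p) = if a ∈ s then v a else 0 := by
    intro s
    induction s using Finset.induction_on with
    | empty =>
      refine ⟨1, fun a => ?_⟩
      rw [ev_one]
      simp
    | insert b s hb ih =>
      obtain ⟨w, hw⟩ := ih
      refine ⟨w * FreeGroup.of b ^ ((v b).val : ℤ), fun a => ?_⟩
      rw [ev_mul, ev_zpow, ev_of, Int.cast_add, hw, Int.cast_mul, Int.cast_natCast,
        ZMod.natCast_zmod_val]
      by_cases hab : b = a
      · subst hab
        simp [hb]
      · have hab' : ¬ a = b := fun h => hab h.symm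
        simp [hab, hab']
  obtain ⟨w, hw⟩ := key Finset.univ
  exact ⟨w, fun a => by rw [hw]; simp⟩

theorem wd_move {p e : ℕ} [NeZero p] {κ : Type} (b : κ → Fin e → ZMod p) (j : κ) (t : κ → ZMod p)
    (ht : t j = 0) (h : Wd fun k => b k - t k • b j) : Wd b := by
  obtain ⟨w', h1, h2⟩ := h
  have hj : w' j * w' j ^ ((t j).val : ℤ) = w' j := by
    rw [ht, ZMod.val_zero, Nat.cast_zero, zpow_zero, mul_one]
  refine ⟨fun k => w' k * w' j ^ ((t k).val : ℤ), ?_, ?_⟩
  · intro k a
    have e1 := h1 k a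
    have e2 := h1 j a
    simp only [Pi.sub_apply, Pi.smul_apply, smul_eq_mul, ht, zero_mul, sub_zero] at e1 e2
    rw [ev_mul, ev_zpow, Int.cast_add, Int.cast_mul, Int.cast_natCast, ZMod.natCast_zmod_val,
      e1, e2]
    ring
  · rw [eq_top_iff, ← h2, closure_le]
    rintro _ ⟨k, rfl⟩
    have m1 : w' k * w' j ^ ((t k).val : ℤ) ∈
        closure (Set.range fun k => w' k * w' j ^ ((t k).val : ℤ)) :=
      subset_closure ⟨k, rfl⟩
    have m2 : w' j ∈ closure (Set.range fun k => w' k * w' j ^ ((t k).val : ℤ)) := by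
      have : w' j * w' j ^ ((t j).val : ℤ) ∈
        closure (Set.range fun k => w' k * w' j ^ ((t k).val : ℤ)) := subset_closure ⟨j, rfl⟩
      rwa [hj] at this
    have m3 := mul_mem m1 (inv_mem (zpow_mem m2 ((t k).val : ℤ)))
    rwa [mul_assoc, mul_inv_cancel, mul_one] at m3

theorem wd_zero {p : ℕ} {κ : Type} (b : κ → Fin 0 → ZMod p) : Wd b := by
  refine ⟨fun _ => 1, fun _ a => a.elim0, ?_⟩
  rw [eq_top_iff]
  intro x _
  rw [Subsingleton.elim x 1]
  exact one_mem _

private theorem W1_ev_succ {e : ℕ} (f : FreeGroup (Fin e)) (a : Fin e) :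
    ev (FreeGroup.map Fin.succ f) a.succ = ev f a := by
  unfold ev
  congr 1
  have h : (FreeGroup.lift (fun j => Multiplicative.ofAdd (if j = a.succ then (1 : ℤ) else 0))).comp
      (FreeGroup.map (Fin.succ : Fin e → Fin (e + 1))) =
      FreeGroup.lift (fun j => Multiplicative.ofAdd (if j = a then (1 : ℤ) else 0)) := by
    refine FreeGroup.ext_hom _ _ fun b => ?_
    simp
  exact DFunLike.congr_fun h f

private theorem W1_ev_zero {e : ℕ} (f : FreeGroup (Fin e)) :
    ev (FreeGroup.map Fin.succ f) 0 = 0 := by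
  unfold ev
  have h : (FreeGroup.lift (fun j => Multiplicative.ofAdd (if j = 0 then (1 : ℤ) else 0))).comp
      (FreeGroup.map (Fin.succ : Fin e → Fin (e + 1))) = 1 := by
    refine FreeGroup.ext_hom _ _ fun b => ?_
    simp
  have h2 := DFunLike.congr_fun h f
  rw [MonoidHom.comp_apply] at h2
  rw [h2]
  rfl

theorem wd_shape {p e : ℕ} [NeZero p] {κ : Type} (b : κ → Fin (e + 1) → ZMod p) (j : κ)
    (hj : b j 0 = 1) (hk : ∀ k, k ≠ j → b k 0 = 0)
    (h : Wd fun (k : {k : κ // k ≠ j}) (a : Fin e) => b k.1 a.succ) : Wd b := by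
  classical
  obtain ⟨w', h1, h2⟩ := h
  obtain ⟨u, hu⟩ := exists_word (p := p) (fun a : Fin e => b j a.succ)
  let w : κ → FreeGroup (Fin (e + 1)) := fun k =>
    if h : k = j then FreeGroup.of 0 * FreeGroup.map Fin.succ u
    else FreeGroup.map Fin.succ (w' ⟨k, h⟩)
  have wj : w j = FreeGroup.of 0 * FreeGroup.map Fin.succ u := by simp [w]
  have wk : ∀ k (h : k ≠ j), w k = FreeGroup.map Fin.succ (w' ⟨k, h⟩) := by
    intro k h
    simp [w, h]
  refine ⟨w, ?_, ?_⟩
  · intro k a
    by_cases hkj : k = j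
    · subst hkj
      rw [wj, ev_mul, ev_of]
      refine Fin.cases ?_ (fun a => ?_) a
      · rw [W1_ev_zero, hj]
        simp
      · rw [W1_ev_succ, Int.cast_add, hu]
        have : ¬ (0 : Fin (e + 1)) = a.succ := fun h => Fin.succ_ne_zero a h.symm
        simp [this]
    · rw [wk k hkj]
      refine Fin.cases ?_ (fun a => ?_) a
      · rw [W1_ev_zero, hk k hkj]
        simp
      · rw [W1_ev_succ]
        exact h1 ⟨k, hkj⟩ a
  · have hmap : ∀ f : FreeGroup (Fin e), FreeGroup.map Fin.succ f ∈ closure (Set.range w) := by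
      intro f
      have hf : f ∈ closure (Set.range w') := by rw [h2]; exact mem_top f
      have h3 : closure (Set.range w') ≤
          (closure (Set.range w)).comap (FreeGroup.map (Fin.succ : Fin e → Fin (e + 1))) := by
        rw [closure_le]
        rintro _ ⟨k, rfl⟩
        rw [SetLike.mem_coe, mem_comap, ← wk k.1 k.2]
        exact subset_closure ⟨k.1, rfl⟩
      exact h3 hf
    rw [eq_top_iff, ← FreeGroup.closure_range_of, closure_le]
    rintro _ ⟨a, rfl⟩
    refine Fin.cases ?_ (fun a => ?_) a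
    · have m1 : w j ∈ closure (Set.range w) := subset_closure ⟨j, rfl⟩
      rw [wj] at m1
      have m2 := mul_mem m1 (inv_mem (hmap u))
      rwa [mul_assoc, mul_inv_cancel, mul_one] at m2
    · have := hmap (FreeGroup.of a)
      rwa [FreeGroup.map.of] at this

end Pool.Agent.RG
end

section

/-!
# RG W2: Lemma W

If more than `e` vectors span `F_p ^ e` then there are words over them which generate the free group of rank `e`.
PROOF.  Induction on `e`.  `e = 0`: `wd_zero`.  Step: the vectors `b k` in `F_p ^ (e + 1)` span, `card κ ≥ e + 2 ≥ 2`.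
There is `i` with `b i 0 ≠ 0` (otherwise the span is in the kernel of the first coordinate).  Take `j ≠ i`.
First move (pivot `i`, `t` supported at `j`: `t j = (b j 0 - 1) / b i 0`): `b' j = b j - t j • b i` has first coordinate `1`, `b' k = b k` otherwise: `wd_move`.
Second move (pivot `j`, `t k = b' k 0` for `k ≠ j`, `t j = 0`): `b'' k = b' k - b' k 0 • b' j` has first coordinate `0` for `k ≠ j`, `b'' j = b' j`: `wd_move`.
The span of `b''` is everything (the span does not change: `b' k` is in the span of the `b''`, etc.; state this as a lemma for a move).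
`wd_shape` and the induction hypothesis for `κ' = {k // k ≠ j}`, `card κ' = card κ - 1 ≥ e + 1`: the vectors `fun a => b'' k a.succ`, `k ≠ j`, span `F_p ^ e`: for `v`
in `F_p ^ e` write `(0, v) = ∑ c_k b'' k`; the first coordinate gives `c_j = 0`.
(`Submodule.mem_span_range_iff_exists_fun` or `Submodule.span_induction`.)
-/

set_option autoImplicit false

namespace Pool.Agent.RG

open Subgroup

theorem span_move {p e : ℕ} {κ : Type} (b : κ → Fin e → ZMod p) (j : κ) (t : κ → ZMod p)
    (ht : t j = 0) (h : Submodule.span (ZMod p) (Set.range b) = ⊤) :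
    Submodule.span (ZMod p) (Set.range fun k => b k - t k • b j) = ⊤ := by
  rw [eq_top_iff, ← h, Submodule.span_le]
  have hj : b j ∈ Submodule.span (ZMod p) (Set.range fun k => b k - t k • b j) := by
    have h1 : (fun k => b k - t k • b j) j = b j := by
      simp [ht]
    have h2 : (fun k => b k - t k • b j) j ∈
        Submodule.span (ZMod p) (Set.range fun k => b k - t k • b j) :=
      Submodule.subset_span (Set.mem_range_self j)
    rw [h1] at h2
    exact h2
  rintro _ ⟨k, rfl⟩
  have h2 : (fun k => b k - t k • b j) k ∈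
      Submodule.span (ZMod p) (Set.range fun k => b k - t k • b j) :=
    Submodule.subset_span (Set.mem_range_self k)
  have h3 : b k = (fun k => b k - t k • b j) k + t k • b j := by
    simp
  have h4 := Submodule.add_mem _ h2 (Submodule.smul_mem _ (t k) hj)
  rw [← h3] at h4
  exact h4

private theorem W2_tail {p e : ℕ} [Fact p.Prime] {κ : Type} [Fintype κ]
    (b : κ → Fin (e + 1) → ZMod p) (j : κ) (hj : b j 0 = 1) (hk : ∀ k, k ≠ j → b k 0 = 0)
    (h : Submodule.span (ZMod p) (Set.range b) = ⊤) :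
    Submodule.span (ZMod p)
      (Set.range fun (k : {k : κ // k ≠ j}) (a : Fin e) => b k.1 a.succ) = ⊤ := by
  classical
  rw [eq_top_iff]
  intro v _
  have h1 : (Fin.cons (0 : ZMod p) v : Fin (e + 1) → ZMod p) ∈
      Submodule.span (ZMod p) (Set.range b) := by
    rw [h]; exact Submodule.mem_top
  rw [Submodule.mem_span_range_iff_exists_fun] at h1
  obtain ⟨c, hc⟩ := h1
  have hc0 : c j = 0 := by
    have h2 := congrFun hc 0
    rw [Finset.sum_apply, Fin.cons_zero, Finset.sum_eq_single j] at h2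
    · simpa [hj] using h2
    · intro k _ hkj
      simp [hk k hkj]
    · intro hn
      exact absurd (Finset.mem_univ j) hn
  rw [Submodule.mem_span_range_iff_exists_fun]
  refine ⟨fun k => c k.1, ?_⟩
  funext a
  have h3 := congrFun hc a.succ
  rw [Finset.sum_apply, Fin.cons_succ] at h3
  rw [Finset.sum_apply, ← h3]
  have h4 : ∑ k, (c k • b k) a.succ =
      (c j • b j) a.succ + ∑ k ∈ Finset.univ.erase j, (c k • b k) a.succ :=
    (Finset.add_sum_erase Finset.univ (fun k => (c k • b k) a.succ) (Finset.mem_univ j)).symm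
  rw [h4, hc0]
  have h5 : ((0 : ZMod p) • b j) a.succ = 0 := by simp
  rw [h5, zero_add]
  refine (Finset.sum_subtype (Finset.univ.erase j) (p := fun k => k ≠ j) ?_
    (fun k => (c k • b k) a.succ)).symm
  intro k
  simp

theorem lemmaW {p : ℕ} [Fact p.Prime] : ∀ (e : ℕ) {κ : Type} [Fintype κ]
    (b : κ → Fin e → ZMod p), e + 1 ≤ Fintype.card κ →
    Submodule.span (ZMod p) (Set.range b) = ⊤ → Wd b := by
  intro e
  induction e with
  | zero =>
    intro κ _ b _ _
    exact wd_zero b
  | succ e ih =>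
    intro κ _ b hcard hspan
    classical
    have hi : ∃ i, b i 0 ≠ 0 := by
      by_contra hno
      push Not at hno
      have h1 : Submodule.span (ZMod p) (Set.range b) ≤
          LinearMap.ker (LinearMap.proj (R := ZMod p) (φ := fun _ : Fin (e + 1) => ZMod p) 0) := by
        rw [Submodule.span_le]
        rintro _ ⟨k, rfl⟩
        exact hno k
      rw [hspan] at h1
      have h2 := h1 (Submodule.mem_top (x := fun _ : Fin (e + 1) => (1 : ZMod p)))
      have h3 : (1 : ZMod p) = 0 := h2
      exact one_ne_zero h3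
    obtain ⟨i, hi⟩ := hi
    have hnt : Nontrivial κ := by
      rw [← Fintype.one_lt_card_iff_nontrivial]
      omega
    obtain ⟨j, hji⟩ := exists_ne i
    set t1 : κ → ZMod p := fun k => if k = j then (b j 0 - 1) / (b i 0) else 0 with ht1
    have ht1i : t1 i = 0 := by
      simp [ht1, hji.symm]
    apply wd_move b i t1 ht1i
    have hs1 := span_move b i t1 ht1i hspan
    set b1 : κ → Fin (e + 1) → ZMod p := fun k => b k - t1 k • b i with hb1
    have hb1j : b1 j 0 = 1 := by
      simp only [hb1, ht1, Pi.sub_apply, Pi.smul_apply, smul_eq_mul, if_true]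
      field_simp
      ring
    set t2 : κ → ZMod p := fun k => if k = j then 0 else b1 k 0 with ht2
    have ht2j : t2 j = 0 := by simp [ht2]
    apply wd_move b1 j t2 ht2j
    have hs2 := span_move b1 j t2 ht2j hs1
    set b2 : κ → Fin (e + 1) → ZMod p := fun k => b1 k - t2 k • b1 j with hb2
    have hb2j : b2 j 0 = 1 := by
      simp [hb2, ht2j, hb1j]
    have hb2k : ∀ k, k ≠ j → b2 k 0 = 0 := by
      intro k hk
      simp [hb2, ht2, hk, hb1j]
    apply wd_shape b2 j hb2j hb2k
    apply ih
    · have h1 : Fintype.card {k : κ // k ≠ j} = Fintype.card κ - 1 := by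
        rw [Fintype.card_subtype_compl, Fintype.card_subtype_eq]
      rw [h1]
      omega
    · exact W2_tail b2 j hb2j hb2k hs2

end Pool.Agent.RG
end

section

/-!
# RG W3: the words of the relators; the number of the generators in the parts

PROOF of `card_out`, `card_ins`.  For a residue `r` the numbers `3 + r', 3 + r' + 3, …` below `d` which are `r` modulo `3`: at least `(d - 3) / 3 = qq d` of them (`d / 3 - 1`).
Give an injection `Fin (qq d) → {j : Fin d // 3 ≤ j ∧ part j = r}`, `t ↦ 3 (t + 1) + r` (`3 (t + 1) + r < 3 (qq d + 1) ≤ d`, since `t + 1 ≤ qq d`, `r ≤ 2`).  `Out d r` contains the two other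
classes: injection `Fin (qq d) ⊕ Fin (qq d) → Out d r`.  `Ins d r`: injection from the pairs `s < t` in `Fin (qq d)`, and `2 * #pairs = qq d (qq d - 1)`.

PROOF of `exists_words`.  Define `w i j` by cases:
* `i.val < 3`, `3 ≤ j.val`, `part j ≠ i.val`: `w i j = wS i ⟨j, _⟩`, where `wS i : Out d i.val → _` are the words from `lemmaW` for the family `fun j : Out d i.val => b i j.1`
  (`Gd.spo`, `card_out`, `Big.out`);
* `i.val < 3`, `part j = i.val`: `1` (over `b i j = 0`, `Gd.zer`);
* `3 ≤ i.val`, `i < j`, `part i = part j = r` with `r = 1, 2`: the words from `lemmaW` for the family of `Ins d r`;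
* `3 ≤ i.val`, `i < j`, `part i = part j = 0`: `of a` if `(i, j) = (u a, v a)` for some (unique) `a`, any word over `b i j` (`exists_word`) otherwise;
* any word over `b i j` in all other cases.
For `r = 0` the closure contains all `of a`, so it is `⊤` (`FreeGroup.closure_range_of`).
(Suggestion: first prove for each of the five families the existence of words, then define `w` with `if`s, or use `Classical.choose` of a statement
`∀ i j, ∃ w, ...` where `...` says: over `b i j` if `i < j`, and equal to the word of the family to which the pair belongs.)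
-/

set_option autoImplicit false

namespace Pool.Agent.RG

open Subgroup

theorem card_out {d r : ℕ} (hr : r < 3) (hd : 3 ≤ d) : 2 * qq d ≤ Fintype.card (Out d r) := by
  have hq : qq d = d / 3 - 1 := rfl
  obtain ⟨r1, r2, h1, h2, h12, hr1, hr2⟩ : ∃ r1 r2 : ℕ, r1 < 3 ∧ r2 < 3 ∧ r1 ≠ r2 ∧ r1 ≠ r ∧ r2 ≠ r := by
    rcases (by omega : r = 0 ∨ r = 1 ∨ r = 2) with rfl | rfl | rfl
    · exact ⟨1, 2, by omega⟩
    · exact ⟨0, 2, by omega⟩
    · exact ⟨0, 1, by omega⟩
  let f : Fin (qq d) ⊕ Fin (qq d) → Out d r := fun x =>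
    match x with
    | Sum.inl t => ⟨⟨3 * (t.val + 1) + r1, by have := t.2; omega⟩, by
        refine ⟨by show 3 ≤ 3 * (t.val + 1) + r1; omega, ?_⟩
        show (3 * (t.val + 1) + r1) % 3 ≠ r
        omega⟩
    | Sum.inr t => ⟨⟨3 * (t.val + 1) + r2, by have := t.2; omega⟩, by
        refine ⟨by show 3 ≤ 3 * (t.val + 1) + r2; omega, ?_⟩
        show (3 * (t.val + 1) + r2) % 3 ≠ r
        omega⟩
  have hf : Function.Injective f := by
    rintro (s | s) (t | t) hst
    · have h3 : 3 * (s.val + 1) + r1 = 3 * (t.val + 1) + r1 := congrArg (fun z : Out d r => z.1.val) hst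
      exact congrArg Sum.inl (Fin.ext (by omega))
    · have h3 : 3 * (s.val + 1) + r1 = 3 * (t.val + 1) + r2 := congrArg (fun z : Out d r => z.1.val) hst
      omega
    · have h3 : 3 * (s.val + 1) + r2 = 3 * (t.val + 1) + r1 := congrArg (fun z : Out d r => z.1.val) hst
      omega
    · have h3 : 3 * (s.val + 1) + r2 = 3 * (t.val + 1) + r2 := congrArg (fun z : Out d r => z.1.val) hst
      exact congrArg Sum.inr (Fin.ext (by omega))
  have h4 := Fintype.card_le_of_injective f hf
  rw [Fintype.card_sum, Fintype.card_fin] at h4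
  omega

theorem card_ins {d r : ℕ} (hr : r < 3) (hd : 3 ≤ d) :
    qq d * (qq d - 1) ≤ 2 * Fintype.card (Ins d r) := by
  have hq : qq d = d / 3 - 1 := rfl
  let g : Fin (qq d) → Fin d := fun t => ⟨3 * (t.val + 1) + r, by have := t.2; omega⟩
  have hg3 : ∀ t, 3 ≤ (g t).val := fun t => by show 3 ≤ 3 * (t.val + 1) + r; omega
  have hgp : ∀ t, part (g t) = r := fun t => by show (3 * (t.val + 1) + r) % 3 = r; omega
  have hgl : ∀ s t : Fin (qq d), s < t → g s < g t := fun s t hst => by
    show 3 * (s.val + 1) + r < 3 * (t.val + 1) + r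
    have : s.val < t.val := hst
    omega
  have hgi : ∀ s t : Fin (qq d), g s = g t → s = t := fun s t hst => by
    have h3 : 3 * (s.val + 1) + r = 3 * (t.val + 1) + r := congrArg Fin.val hst
    exact Fin.ext (by omega)
  let f : {x : Fin (qq d) × Fin (qq d) // x.1 ≠ x.2} → Ins d r × Bool := fun x =>
    if h : x.1.1 < x.1.2 then (⟨(g x.1.1, g x.1.2), hg3 _, hgl _ _ h, hgp _, hgp _⟩, true)
    else (⟨(g x.1.2, g x.1.1), hg3 _, hgl _ _ (lt_of_le_of_ne (not_lt.1 h) (Ne.symm x.2)), hgp _, hgp _⟩, false)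
  have hf : Function.Injective f := by
    intro x y hxy
    by_cases hx : x.1.1 < x.1.2
    · by_cases hy : y.1.1 < y.1.2
      · simp only [f, dif_pos hx, dif_pos hy, Prod.mk.injEq, Subtype.mk.injEq, and_true] at hxy
        exact Subtype.ext (Prod.ext (hgi _ _ hxy.1) (hgi _ _ hxy.2))
      · simp only [f, dif_pos hx, dif_neg hy, Prod.mk.injEq, Bool.true_eq_false, and_false] at hxy
    · by_cases hy : y.1.1 < y.1.2
      · simp only [f, dif_neg hx, dif_pos hy, Prod.mk.injEq, Bool.false_eq_true, and_false] at hxy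
      · simp only [f, dif_neg hx, dif_neg hy, Prod.mk.injEq, Subtype.mk.injEq, and_true] at hxy
        exact Subtype.ext (Prod.ext (hgi _ _ hxy.2) (hgi _ _ hxy.1))
  have h4 := Fintype.card_le_of_injective f hf
  rw [Fintype.card_prod, Fintype.card_bool] at h4
  have h5 : Fintype.card {x : Fin (qq d) × Fin (qq d) // x.1 ≠ x.2} = qq d * qq d - qq d := by
    have h6 := Finset.offDiag_card (Finset.univ : Finset (Fin (qq d)))
    rw [Finset.card_univ, Fintype.card_fin] at h6
    rw [← h6, Fintype.card_subtype]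
    congr 1
    ext x
    simp
  rw [h5] at h4
  rw [Nat.mul_sub, mul_one]
  omega

theorem Big.three_le {d e : ℕ} (h : Big d e) : 3 ≤ d := by
  have := h.five
  unfold qq at this
  omega

theorem exists_words {p : ℕ} [Fact p.Prime] {d e : ℕ} (hB : Big d e)
    {b : Fin d → Fin d → Fin e → ZMod p} (hb : Gd p b) (q : Fin e → Ins d 0)
    (hq : ∀ a, b (q a).1.1 (q a).1.2 = Pi.single a 1) :
    ∃ w : Fin d → Fin d → FreeGroup (Fin e),
      (∀ i j, i < j → ∀ a, ((ev (w i j) a : ℤ) : ZMod p) = b i j a) ∧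
      (∀ a j : Fin d, a.val < 3 → part j = a.val → w a j = 1) ∧
      (∀ a, w (q a).1.1 (q a).1.2 = FreeGroup.of a) ∧
      (∀ a : Fin d, a.val < 3 → closure (Set.range fun j : Out d a.val => w a j.1) = ⊤) ∧
      ∀ r < 3, closure (Set.range fun t : Ins d r => w t.1.1 t.1.2) = ⊤ := by
  classical
  have hp : NeZero p := ⟨(Fact.out : p.Prime).ne_zero⟩
  have hd := hB.three_le
  -- the words of the special generators
  have hS : ∀ a : Fin d, a.val < 3 → Wd (fun j : Out d a.val => b a j.1) := fun a ha =>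
    lemmaW e _ (hB.out.trans (card_out ha hd)) (hb.spo a ha)
  have hS' : ∀ a : Fin d, ∃ w : Out d a.val → FreeGroup (Fin e), a.val < 3 →
      (∀ k c, ((ev (w k) c : ℤ) : ZMod p) = b a k.1 c) ∧ closure (Set.range w) = ⊤ := by
    intro a
    by_cases ha : a.val < 3
    · obtain ⟨w, hw⟩ := hS a ha
      exact ⟨w, fun _ => hw⟩
    · exact ⟨fun _ => 1, fun h => absurd h ha⟩
  choose wS hwS using hS'
  -- any words
  have hA : ∀ i j : Fin d, ∃ w : FreeGroup (Fin e), ∀ a, ((ev w a : ℤ) : ZMod p) = b i j a := fun i j => exists_word (b i j)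
  choose wA hwA using hA
  -- the words inside of the parts
  have hqi : Function.Injective q := by
    intro a a' haa
    have h1 := hq a
    rw [haa, hq a'] at h1
    by_contra hne
    have h2 := congrFun h1 a
    rw [Pi.single_eq_same, Pi.single_eq_of_ne hne] at h2
    exact one_ne_zero h2.symm
  have hI : ∀ r : ℕ, ∃ w : Ins d r → FreeGroup (Fin e), r < 3 →
      ((∀ t c, ((ev (w t) c : ℤ) : ZMod p) = b t.1.1 t.1.2 c) ∧ closure (Set.range w) = ⊤ ∧
        ∀ (hr : r = 0) (a : Fin e), w (hr ▸ q a) = FreeGroup.of a) := by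
    intro r
    rcases Nat.eq_zero_or_pos r with rfl | hr
    · refine ⟨fun t => if h : ∃ a, q a = t then FreeGroup.of h.choose else wA t.1.1 t.1.2, fun _ => ?_⟩
      have hof : ∀ a, (if h : ∃ a', q a' = q a then FreeGroup.of h.choose else wA (q a).1.1 (q a).1.2) = FreeGroup.of a := by
        intro a
        have h : ∃ a', q a' = q a := ⟨a, rfl⟩
        rw [dif_pos h]
        exact congrArg _ (hqi h.choose_spec)
      refine ⟨fun t c => ?_, ?_, fun _ a => hof a⟩
      · beta_reduce
        by_cases h : ∃ a, q a = t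
        · obtain ⟨a, rfl⟩ := h
          rw [hof a, hq a, ev_of, Pi.single_apply]
          by_cases hc : a = c
          · rw [if_pos hc, if_pos hc.symm, Int.cast_one]
          · rw [if_neg hc, if_neg (Ne.symm hc), Int.cast_zero]
        · rw [dif_neg h]
          exact hwA _ _ c
      · rw [eq_top_iff, ← FreeGroup.closure_range_of, closure_le]
        rintro _ ⟨a, rfl⟩
        exact Subgroup.subset_closure ⟨q a, hof a⟩
    · by_cases hr3 : r < 3
      · obtain ⟨w, hw, hw2⟩ := lemmaW e (fun t : Ins d r => b t.1.1 t.1.2)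
          (by have h1 := card_ins (d := d) hr3 hd; have h2 := hB.ins; omega) (hb.spi r hr3)
        exact ⟨w, fun _ => ⟨hw, hw2, fun h => absurd h hr.ne'⟩⟩
      · exact ⟨fun _ => 1, fun h => absurd h hr3⟩
  choose wI hwI using hI
  -- the definition
  let w : Fin d → Fin d → FreeGroup (Fin e) := fun i j =>
    if i.val < 3 then (if h2 : 3 ≤ j.val ∧ part j ≠ i.val then wS i ⟨j, h2⟩ else if part j = i.val then 1 else wA i j)
    else if h3 : 3 ≤ i.val ∧ i < j ∧ part i = part j then wI (part i) ⟨(i, j), h3.1, h3.2.1, rfl, h3.2.2.symm⟩ else wA i j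
  have hw1 : ∀ (a : Fin d) (j : Out d a.val), a.val < 3 → w a j.1 = wS a j := by
    intro a j ha
    show (if a.val < 3 then _ else _) = _
    rw [if_pos ha, dif_pos j.2]
  have hw2 : ∀ (r : ℕ) (t : Ins d r), w t.1.1 t.1.2 = wI r t := by
    rintro r ⟨⟨i, j⟩, h3, hlt, hi, hj⟩
    subst hi
    show (if i.val < 3 then _ else _) = _
    rw [if_neg (not_lt.2 h3), dif_pos ⟨h3, hlt, hj.symm⟩]
  have hp3 : ∀ i : Fin d, part i < 3 := fun i => Nat.mod_lt _ (by omega)
  refine ⟨w, ?_, ?_, ?_, ?_, ?_⟩
  · intro i j hij a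
    by_cases h1 : i.val < 3
    · by_cases h2 : 3 ≤ j.val ∧ part j ≠ i.val
      · have h3 := hw1 i ⟨j, h2⟩ h1
        rw [h3]
        exact (hwS i h1).1 _ a
      · have h3 : w i j = if part j = i.val then 1 else wA i j := by
          show (if i.val < 3 then _ else _) = _
          rw [if_pos h1, dif_neg h2]
        rw [h3]
        by_cases h4 : part j = i.val
        · rw [if_pos h4, ev_one, hb.zer i j h1 h4]
          simp
        · rw [if_neg h4]
          exact hwA i j a
    · by_cases h3 : 3 ≤ i.val ∧ i < j ∧ part i = part j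
      · have h4 := hw2 (part i) ⟨(i, j), h3.1, h3.2.1, rfl, h3.2.2.symm⟩
        have h5 := (hwI (part i) (hp3 i)).1 ⟨(i, j), h3.1, h3.2.1, rfl, h3.2.2.symm⟩ a
        rw [← h4] at h5
        exact h5
      · have h4 : w i j = wA i j := by
          show (if i.val < 3 then _ else _) = _
          rw [if_neg h1, dif_neg h3]
        rw [h4]
        exact hwA i j a
  · intro a j ha hj
    show (if a.val < 3 then _ else _) = _
    rw [if_pos ha, dif_neg (fun h => h.2 hj), if_pos hj]
  · intro a
    rw [hw2 0 (q a)]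
    exact (hwI 0 (by omega)).2.2 rfl a
  · intro a ha
    have h1 : (fun j : Out d a.val => w a j.1) = wS a := funext fun j => hw1 a j ha
    rw [h1]
    exact (hwS a ha).2
  · intro r hr
    have h1 : (fun t : Ins d r => w t.1.1 t.1.2) = wI r := funext fun t => hw2 r t
    rw [h1]
    exact (hwI r hr).2.1

end Pool.Agent.RG
end

section

/-!
# RG A5: most families are good

PROOF of `good_of`.  `g = Gn 3 b`.  `Gd.zer`: `a.val < 3`, `part j = a.val`; if `3 ≤ j.val`: `Gn_zero`; if `j.val < 3` then `j = a` and it is `0` because `act g b` is alternating (`act_alt`).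
`spo`: `Gn_span`.  `spi`: hypothesis.
PROOF of `bad_count`.  The set of the alternating `b` which are not `Good` is contained in the union of the six sets
`S a = {b | Alt b ∧ span (act (Gn a b) b a j, j ∈ Out d a) ≠ ⊤}`, `a < 3` and `R r = {b | Alt b ∧ span (act (Gn 3 b) b i j, (i, j) ∈ Ins d r) ≠ ⊤}`, `r < 3`.
`shift_count` with `r = a`, `g = Gn a`, `T = {(a, j) | 3 ≤ j, part j ≠ a}`, `T.card = card (Out d a) ≥ 2 qq d` (`card_out` in W3), and with `r = 3`, `g = Gn 3`, `T` = the pairs of `Ins d r`,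
`T.card = card (Ins d r) ≥ 2 qq d` (`card_ins`, `5 ≤ qq d`).  So each of the six numbers times `p ^ (2 qq d)` is at most `p ^ e * ncard Al`.
PROOF of `bad_count'`: `ext` is a bijection from `Pr d → (Fin e → ZMod p)` onto the alternating families (inverse: restriction); the number of the functions is `p ^ (e * card (Pr d))`.
-/

set_option autoImplicit false

namespace Pool.Agent.RG

section
variable {p d e : ℕ} [Fact p.Prime]

theorem good_of (hd : 3 ≤ d) {b : Fin d → Fin d → Fin e → ZMod p} (hb : Alt b)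
    (h : ∀ a : Fin d, a.val < 3 → Submodule.span (ZMod p)
      (Set.range fun j : Out d a.val => act (Gn a.val b) b a j.1) = ⊤)
    (h2 : ∀ r < 3, Submodule.span (ZMod p)
      (Set.range fun q : Ins d r => act (Gn 3 b) b q.1.1 q.1.2) = ⊤) : Good p b := by
  refine ⟨Gn 3 b, Gn_unit 3 b, ⟨?_, ?_, ?_⟩⟩
  · intro a j ha hj
    by_cases h3 : 3 ≤ j.val
    · exact Gn_zero le_rfl h a j ha h3 hj
    · have h4 : j = a := by
        unfold part at hj
        apply Fin.ext
        rw [Nat.mod_eq_of_lt (by omega)] at hj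
        exact hj
      subst h4
      exact (act_alt _ hb).1 j
  · intro a ha
    exact Gn_span le_rfl h a ha
  · exact h2

private theorem A5_S (h5 : 5 ≤ qq d) (a : Fin d) (ha : a.val < 3) :
    Set.ncard {b : Fin d → Fin d → Fin e → ZMod p | Alt b ∧ Submodule.span (ZMod p)
      (Set.range fun j : Out d a.val => act (Gn a.val b) b a j.1) ≠ ⊤} * p ^ (2 * qq d) ≤
      p ^ e * Set.ncard {b : Fin d → Fin d → Fin e → ZMod p | Alt b} := by
  classical
  have hd : 3 ≤ d := by
    unfold qq at h5
    omega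
  let T : Finset (Fin d × Fin d) :=
    Finset.univ.filter fun q => q.1 = a ∧ (3 ≤ q.2.val ∧ part q.2 ≠ a.val)
  have hT : ∀ q ∈ T, q.1 < q.2 ∧ a.val ≤ q.1.val ∧ 3 ≤ q.2.val := by
    rintro ⟨i, j⟩ hq
    obtain ⟨h1, h2, -⟩ := (Finset.mem_filter.1 hq).2
    simp only at h1 h2
    subst h1
    exact ⟨Fin.lt_def.2 (by simp only; omega), le_rfl, h2⟩
  have hc : T.card = Fintype.card (Out d a.val) := by
    rw [← Fintype.card_coe]
    refine Fintype.card_congr ⟨fun q => ⟨q.1.2, (Finset.mem_filter.1 q.2).2.2⟩,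
      fun j => ⟨(a, j.1), Finset.mem_filter.2 ⟨Finset.mem_univ _, rfl, j.2⟩⟩, ?_, ?_⟩
    · rintro ⟨⟨i, j⟩, hq⟩
      have h1 : i = a := (Finset.mem_filter.1 hq).2.1
      subst h1
      rfl
    · rintro j
      rfl
  have hr : ∀ b : Fin d → Fin d → Fin e → ZMod p,
      (Set.range fun q : T => act (Gn a.val b) b q.1.1 q.1.2) =
        Set.range fun j : Out d a.val => act (Gn a.val b) b a j.1 := by
    intro b
    ext v
    constructor
    · rintro ⟨⟨⟨i, j⟩, hq⟩, rfl⟩
      have h1 : i = a := (Finset.mem_filter.1 hq).2.1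
      subst h1
      exact ⟨⟨j, (Finset.mem_filter.1 hq).2.2⟩, rfl⟩
    · rintro ⟨j, rfl⟩
      exact ⟨⟨(a, j.1), Finset.mem_filter.2 ⟨Finset.mem_univ _, rfl, j.2⟩⟩, rfl⟩
  have h1 := shift_count (p := p) (e := e) (r := a.val) ha.le T hT (Gn a.val) (Gn_unit _)
    (Gn_fix _) (fun b b' h => Gn_dep ha.le h)
  simp only [hr] at h1
  refine le_trans (Nat.mul_le_mul_left _ (Nat.pow_le_pow_right (Fact.out : p.Prime).pos ?_)) h1
  rw [hc]
  exact card_out ha hd

private theorem A5_R (h5 : 5 ≤ qq d) (r : ℕ) (hr3 : r < 3) :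
    Set.ncard {b : Fin d → Fin d → Fin e → ZMod p | Alt b ∧ Submodule.span (ZMod p)
      (Set.range fun q : Ins d r => act (Gn 3 b) b q.1.1 q.1.2) ≠ ⊤} * p ^ (2 * qq d) ≤
      p ^ e * Set.ncard {b : Fin d → Fin d → Fin e → ZMod p | Alt b} := by
  classical
  have hd : 3 ≤ d := by
    unfold qq at h5
    omega
  let T : Finset (Fin d × Fin d) :=
    Finset.univ.filter fun q => 3 ≤ q.1.val ∧ q.1 < q.2 ∧ part q.1 = r ∧ part q.2 = r
  have hT : ∀ q ∈ T, q.1 < q.2 ∧ 3 ≤ q.1.val ∧ 3 ≤ q.2.val := by
    rintro ⟨i, j⟩ hq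
    obtain ⟨h1, h2, -⟩ := (Finset.mem_filter.1 hq).2
    simp only at h1 h2
    have h3 := Fin.lt_def.1 h2
    exact ⟨h2, h1, by simp only; omega⟩
  have hc : T.card = Fintype.card (Ins d r) := by
    rw [← Fintype.card_coe]
    refine Fintype.card_congr ⟨fun q => ⟨q.1, (Finset.mem_filter.1 q.2).2⟩,
      fun j => ⟨j.1, Finset.mem_filter.2 ⟨Finset.mem_univ _, j.2⟩⟩, ?_, ?_⟩
    · rintro ⟨⟨i, j⟩, hq⟩
      rfl
    · rintro j
      rfl
  have hr : ∀ b : Fin d → Fin d → Fin e → ZMod p,
      (Set.range fun q : T => act (Gn 3 b) b q.1.1 q.1.2) =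
        Set.range fun q : Ins d r => act (Gn 3 b) b q.1.1 q.1.2 := by
    intro b
    ext v
    constructor
    · rintro ⟨⟨q, hq⟩, rfl⟩
      exact ⟨⟨q, (Finset.mem_filter.1 hq).2⟩, rfl⟩
    · rintro ⟨q, rfl⟩
      exact ⟨⟨q.1, Finset.mem_filter.2 ⟨Finset.mem_univ _, q.2⟩⟩, rfl⟩
  have h1 := shift_count (p := p) (e := e) (r := 3) le_rfl T hT (Gn 3) (Gn_unit _)
    (Gn_fix _) (fun b b' h => Gn_dep le_rfl h)
  simp only [hr] at h1
  refine le_trans (Nat.mul_le_mul_left _ (Nat.pow_le_pow_right (Fact.out : p.Prime).pos ?_)) h1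
  rw [hc]
  have h2 := card_ins hr3 hd
  have h3 : qq d * 4 ≤ qq d * (qq d - 1) := Nat.mul_le_mul_left _ (by omega)
  omega

theorem bad_count (h5 : 5 ≤ qq d) :
    Set.ncard {b : Fin d → Fin d → Fin e → ZMod p | Alt b ∧ ¬ Good p b} * p ^ (2 * qq d) ≤
      6 * (p ^ e * Set.ncard {b : Fin d → Fin d → Fin e → ZMod p | Alt b}) := by
  classical
  have hd : 3 ≤ d := by
    unfold qq at h5
    omega
  let S : Fin 3 → Set (Fin d → Fin d → Fin e → ZMod p) := fun a =>
    {b | Alt b ∧ Submodule.span (ZMod p)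
      (Set.range fun j : Out d a.val => act (Gn a.val b) b (Fin.castLE hd a) j.1) ≠ ⊤}
  let R : Fin 3 → Set (Fin d → Fin d → Fin e → ZMod p) := fun r =>
    {b | Alt b ∧ Submodule.span (ZMod p)
      (Set.range fun q : Ins d r.val => act (Gn 3 b) b q.1.1 q.1.2) ≠ ⊤}
  have hsub : {b : Fin d → Fin d → Fin e → ZMod p | Alt b ∧ ¬ Good p b} ⊆
      (⋃ a, S a) ∪ ⋃ r, R r := by
    rintro b ⟨hb, hg⟩
    by_contra h
    apply hg
    simp only [Set.mem_union, Set.mem_iUnion, not_or, not_exists] at h
    refine good_of hd hb ?_ ?_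
    · intro a ha
      by_contra h1
      exact h.1 ⟨a.val, ha⟩ ⟨hb, h1⟩
    · intro r hr
      by_contra h1
      exact h.2 ⟨r, hr⟩ ⟨hb, h1⟩
  have hS : ∀ a, (S a).ncard * p ^ (2 * qq d) ≤
      p ^ e * Set.ncard {b : Fin d → Fin d → Fin e → ZMod p | Alt b} := fun a =>
    A5_S h5 (Fin.castLE hd a) a.2
  have hR : ∀ r, (R r).ncard * p ^ (2 * qq d) ≤
      p ^ e * Set.ncard {b : Fin d → Fin d → Fin e → ZMod p | Alt b} := fun r =>
    A5_R h5 r.val r.2
  have hn : Set.ncard {b : Fin d → Fin d → Fin e → ZMod p | Alt b ∧ ¬ Good p b} ≤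
      ∑ a, (S a).ncard + ∑ r, (R r).ncard := by
    refine (Set.ncard_le_ncard hsub (Set.toFinite _)).trans ?_
    refine (Set.ncard_union_le _ _).trans ?_
    exact Nat.add_le_add (Set.ncard_iUnion_le_of_fintype _) (Set.ncard_iUnion_le_of_fintype _)
  refine (Nat.mul_le_mul_right _ hn).trans ?_
  rw [add_mul, Finset.sum_mul, Finset.sum_mul]
  refine (Nat.add_le_add (Finset.sum_le_sum fun a _ => hS a)
    (Finset.sum_le_sum fun r _ => hR r)).trans ?_
  rw [Finset.sum_const, Finset.card_univ, Fintype.card_fin]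
  simp only [smul_eq_mul]
  omega

theorem ext_alt (c : Pr d → Fin e → ZMod p) : Alt (ext c) := by
  constructor
  · intro i
    simp [ext]
  · intro i j
    rcases lt_trichotomy i j with h | h | h
    · simp only [ext, dif_pos h, dif_neg (lt_asymm h)]
    · subst h
      simp [ext]
    · simp only [ext, dif_pos h, dif_neg (lt_asymm h), neg_neg]

theorem ext_inj : Function.Injective (ext : (Pr d → Fin e → ZMod p) → _) := by
  intro c c' h
  funext q
  have h1 := congrFun (congrFun h q.1.1) q.1.2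
  simp only [ext, dif_pos q.2] at h1
  exact h1

theorem ext_surj {b : Fin d → Fin d → Fin e → ZMod p} (hb : Alt b) :
    ext (fun q : Pr d => b q.1.1 q.1.2) = b := by
  funext i j
  rcases lt_trichotomy i j with h | h | h
  · simp only [ext, dif_pos h]
  · subst h
    simp [ext, hb.1 i]
  · simp only [ext, dif_pos h, dif_neg (lt_asymm h)]
    exact (hb.2 j i).symm

theorem bad_count' (h5 : 5 ≤ qq d) :
    Set.ncard {c : Pr d → Fin e → ZMod p | ¬ Good p (ext c)} * p ^ (2 * qq d) ≤
      6 * (p ^ e * p ^ (e * Fintype.card (Pr d))) := by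
  have h1 : (ext : (Pr d → Fin e → ZMod p) → _) '' {c | ¬ Good p (ext c)} =
      {b : Fin d → Fin d → Fin e → ZMod p | Alt b ∧ ¬ Good p b} := by
    ext b
    constructor
    · rintro ⟨c, hc, rfl⟩
      exact ⟨ext_alt c, hc⟩
    · rintro ⟨hb, hg⟩
      refine ⟨fun q => b q.1.1 q.1.2, ?_, ext_surj hb⟩
      show ¬ Good p _
      rw [ext_surj hb]
      exact hg
  have h2 : (ext : (Pr d → Fin e → ZMod p) → _) '' Set.univ =
      {b : Fin d → Fin d → Fin e → ZMod p | Alt b} := by
    ext b
    constructor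
    · rintro ⟨c, -, rfl⟩
      exact ext_alt c
    · intro hb
      exact ⟨fun q => b q.1.1 q.1.2, Set.mem_univ _, ext_surj hb⟩
  have h3 := bad_count (p := p) (d := d) (e := e) h5
  rw [← h1, ← h2, Set.ncard_image_of_injective _ ext_inj, Set.ncard_image_of_injective _ ext_inj,
    Set.ncard_univ, Nat.card_eq_fintype_card, Fintype.card_fun, Fintype.card_fun, Fintype.card_fin,
    ZMod.card, ← pow_mul] at h3
  exact h3

end

end Pool.Agent.RG
end

section

/-!
# RG L1: the functions `lam`, and the lower bound for the number of relators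

PROOFS.  `lam_mul`: `ev (f g) i = ev f i + ev g i` (`ev_mul`) and for `f ∈ FrF` `(a + b) / p = a / p + b / p` (`Int.add_ediv_of_dvd_left`); `kap_mul` with
`(ev f i : ZMod p) = 0`.  `lam_conj`: `ev_conj`, `kap_conj`.  `lam_pow`: `ev (of j ^ p) i = p` or `0`; `kap p i j (of l ^ p) = 0`
(`chi_of_zpow`).  `lam_cm`: `ev_cm`, `kap_cm`, `ev_of`: `kap p i j (cm (of k) (of l)) = δ_ik δ_jl - δ_il δ_jk`, and for `k < l`, `i < j` the second term is `0`.

PROOF of `lower_bound`.  `R = ψ.ker ≤ FrF` (`hfr`).  For `t : (Fin d → ZMod p) × (Pr d → ZMod p)` let `l t f := lam` with `e = 1`, i.e.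
`l t f = ∑ i, (ev f i / p) * t.1 i + ∑ q, kap q f * t.2 q` (you may use `lam (fun i _ => t.1 i) (fun q _ => t.2 q) f (0 : Fin 1)`), a homomorphism on `FrF`, invariant, and linear in `t`.
`res R (l t) ∈ IL p R` (`res_mem` in B1).  The linear map `t ↦ (res R (l t), fun a => l t (r a))` to `IL p R × (Fin e → ZMod p)` is injective: if `l t` vanishes on `R` and on the
`r a`: let `f ∈ FrF`; `ψ f ∈ closure {ψ (r a)} = ψ (closure {r a})` (`hgen`), so `f = w k` with `w ∈ closure {r a} ≤ FrF`, `k ∈ R`: `l t f = l t w + l t k = 0`.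
So `l t = 0` on `FrF`, and `t.1 i = l t (of i ^ p) = 0` (`lam_pow`), `t.2 q = l t (cm ..) = 0` (`lam_cm`).  Hence `d + card (Pr d) ≤ finrank (IL p R) + e`
(`LinearMap.finrank_le_finrank_of_injective`, `Module.finrank_prod`, `Module.finrank_fintype_fun_eq_card`).
-/

set_option autoImplicit false

namespace Pool.Agent.RG

open Subgroup

section
variable {p d e : ℕ} (pi : Fin d → Fin e → ZMod p) (c : Pr d → Fin e → ZMod p)

private theorem L1_ne {d : ℕ} (q : Pr d) : q.1.1 ≠ q.1.2 := ne_of_lt q.2

theorem lam_mul {f g : FreeGroup (Fin d)} (hf : f ∈ FrF p d) (hg : g ∈ FrF p d) (hp : 1 ≤ p) :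
    lam pi c (f * g) = lam pi c f + lam pi c g := by
  have h1 : ∀ i, ((ev (f * g) i / (p : ℤ) : ℤ) : ZMod p) =
      ((ev f i / (p : ℤ) : ℤ) : ZMod p) + ((ev g i / (p : ℤ) : ℤ) : ZMod p) := by
    intro i
    rw [ev_mul, Int.add_ediv_of_dvd_left (hf i), Int.cast_add]
  have h2 : ∀ q : Pr d, kap p q.1.1 q.1.2 (f * g) = kap p q.1.1 q.1.2 f + kap p q.1.1 q.1.2 g := by
    intro q
    rw [kap_mul (L1_ne q), (ZMod.intCast_zmod_eq_zero_iff_dvd _ _).2 (hf q.1.1), zero_mul, add_zero]
  unfold lam
  simp only [h1, h2, add_smul, Finset.sum_add_distrib]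
  abel

theorem lam_conj (f : FreeGroup (Fin d)) {g : FreeGroup (Fin d)} (hg : g ∈ FrF p d) :
    lam pi c (f * g * f⁻¹) = lam pi c g := by
  have h2 : ∀ q : Pr d, kap p q.1.1 q.1.2 (f * g * f⁻¹) = kap p q.1.1 q.1.2 g := fun q =>
    kap_conj (L1_ne q) f g (hg q.1.1) (hg q.1.2)
  unfold lam
  simp only [h2, ev_conj]

private theorem L1_ev_pow (i k : Fin d) :
    ev ((FreeGroup.of i : FreeGroup (Fin d)) ^ p) k = (p : ℤ) * (if i = k then 1 else 0) := by
  rw [← zpow_natCast, ev_zpow, ev_of]

theorem lam_pow (hp : 1 ≤ p) (i : Fin d) : lam pi c (FreeGroup.of i ^ p) = pi i := by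
  have hp0 : (p : ℤ) ≠ 0 := by exact_mod_cast (by omega : p ≠ 0)
  have h1 : ∀ k, ((ev ((FreeGroup.of i : FreeGroup (Fin d)) ^ p) k / (p : ℤ) : ℤ) : ZMod p) =
      if i = k then 1 else 0 := by
    intro k
    rw [L1_ev_pow]
    by_cases h : i = k
    · rw [if_pos h, if_pos h, mul_one, Int.ediv_self hp0, Int.cast_one]
    · rw [if_neg h, if_neg h, mul_zero, Int.zero_ediv, Int.cast_zero]
  have h2 : ∀ q : Pr d, kap p q.1.1 q.1.2 ((FreeGroup.of i : FreeGroup (Fin d)) ^ p) = 0 := by
    intro q
    unfold kap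
    rw [← zpow_natCast, chi_of_zpow q.1.1 q.1.2 i (dvd_refl (p : ℤ))]
    rfl
  unfold lam
  simp only [h1, h2, zero_smul, Finset.sum_const_zero, add_zero]
  rw [Finset.sum_eq_single i]
  · rw [if_pos rfl, one_smul]
  · intro k _ hk
    rw [if_neg (fun h => hk h.symm), zero_smul]
  · intro h
    exact absurd (Finset.mem_univ i) h

theorem lam_cm (q : Pr d) : lam pi c (cm (FreeGroup.of q.1.1) (FreeGroup.of q.1.2)) = c q := by
  have h2 : ∀ r : Pr d, kap p r.1.1 r.1.2 (cm (FreeGroup.of q.1.1) (FreeGroup.of q.1.2)) =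
      if r = q then 1 else 0 := by
    intro r
    rw [kap_cm (L1_ne r), ev_of, ev_of, ev_of, ev_of]
    have hq := q.2
    have hr := r.2
    have h3 : ¬ (q.1.2 = r.1.1 ∧ q.1.1 = r.1.2) := by
      rintro ⟨h4, h5⟩
      rw [h4, h5] at hq
      exact lt_asymm hq hr
    have h6 : (((if q.1.2 = r.1.1 then (1 : ℤ) else 0) : ℤ) : ZMod p) *
        (((if q.1.1 = r.1.2 then (1 : ℤ) else 0) : ℤ) : ZMod p) = 0 := by
      by_cases h7 : q.1.2 = r.1.1
      · have h8 : ¬ q.1.1 = r.1.2 := fun h => h3 ⟨h7, h⟩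
        rw [if_neg h8, Int.cast_zero, mul_zero]
      · rw [if_neg h7, Int.cast_zero, zero_mul]
    rw [h6, sub_zero]
    by_cases h : r = q
    · rw [h, if_pos rfl, if_pos rfl, if_pos rfl, Int.cast_one, mul_one]
    · rw [if_neg h]
      by_cases h9 : q.1.1 = r.1.1
      · have h10 : ¬ q.1.2 = r.1.2 := fun h10 => h (Subtype.ext (Prod.ext h9.symm h10.symm))
        rw [if_neg h10, Int.cast_zero, mul_zero]
      · rw [if_neg h9, Int.cast_zero, zero_mul]
  unfold lam
  simp only [h2, ev_cm, Int.zero_ediv, Int.cast_zero, zero_smul, Finset.sum_const_zero, zero_add]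
  rw [Finset.sum_eq_single q]
  · rw [if_pos rfl, one_smul]
  · intro k _ hk
    rw [if_neg hk, zero_smul]
  · intro h
    exact absurd (Finset.mem_univ q) h

end

/-- The function `l t`. -/
private def L1_l (p d : ℕ) (t : (Fin d → ZMod p) × (Pr d → ZMod p)) (f : FreeGroup (Fin d)) : ZMod p :=
  ∑ i, ((ev f i / (p : ℤ) : ℤ) : ZMod p) * t.1 i + ∑ q : Pr d, kap p q.1.1 q.1.2 f * t.2 q

private theorem L1_l_eq {p d : ℕ} (t : (Fin d → ZMod p) × (Pr d → ZMod p)) (f : FreeGroup (Fin d)) :
    L1_l p d t f = lam (e := 1) (fun i _ => t.1 i) (fun q _ => t.2 q) f 0 := by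
  unfold L1_l lam
  rw [Pi.add_apply, Finset.sum_apply, Finset.sum_apply]
  rfl

private theorem L1_l_add {p d : ℕ} (s t : (Fin d → ZMod p) × (Pr d → ZMod p)) (f : FreeGroup (Fin d)) :
    L1_l p d (s + t) f = L1_l p d s f + L1_l p d t f := by
  unfold L1_l
  simp only [Prod.fst_add, Prod.snd_add, Pi.add_apply, mul_add, Finset.sum_add_distrib]
  abel

private theorem L1_l_smul {p d : ℕ} (a : ZMod p) (t : (Fin d → ZMod p) × (Pr d → ZMod p))
    (f : FreeGroup (Fin d)) : L1_l p d (a • t) f = a * L1_l p d t f := by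
  unfold L1_l
  simp only [Prod.smul_fst, Prod.smul_snd, Pi.smul_apply, smul_eq_mul, mul_add, Finset.mul_sum]
  congr 1
  · exact Finset.sum_congr rfl fun i _ => by ring
  · exact Finset.sum_congr rfl fun i _ => by ring

private theorem L1_l_mul {p d : ℕ} (hp : 1 ≤ p) (t : (Fin d → ZMod p) × (Pr d → ZMod p))
    {f g : FreeGroup (Fin d)} (hf : f ∈ FrF p d) (hg : g ∈ FrF p d) :
    L1_l p d t (f * g) = L1_l p d t f + L1_l p d t g := by
  rw [L1_l_eq, L1_l_eq, L1_l_eq, lam_mul _ _ hf hg hp, Pi.add_apply]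

private theorem L1_l_conj {p d : ℕ} (t : (Fin d → ZMod p) × (Pr d → ZMod p))
    (f : FreeGroup (Fin d)) {g : FreeGroup (Fin d)} (hg : g ∈ FrF p d) :
    L1_l p d t (f * g * f⁻¹) = L1_l p d t g := by
  rw [L1_l_eq, L1_l_eq, lam_conj _ _ f hg]

theorem lower_bound {p d e : ℕ} [Fact p.Prime] {G : Type} [Group G] (ψ : FreeGroup (Fin d) →* G)
    (hfr : FrK p ψ.ker) [Module.Finite (ZMod p) (IL p ψ.ker)] (r : Fin e → FreeGroup (Fin d))
    (hr : ∀ a, r a ∈ FrF p d)
    (hgen : ∀ f ∈ FrF p d, ψ f ∈ closure (Set.range fun a => ψ (r a))) :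
    d + Fintype.card (Pr d) ≤ Module.finrank (ZMod p) (IL p ψ.ker) + e := by
  have hp : 1 ≤ p := (Fact.out : p.Prime).one_lt.le
  have hR : ∀ f ∈ ψ.ker, f ∈ FrF p d := fun f hf i => hfr f hf i
  have hmem : ∀ t, res ψ.ker (L1_l p d t) ∈ IL p ψ.ker := fun t =>
    res_mem _ (fun r hr s hs => L1_l_mul hp t (hR r hr) (hR s hs)) (fun f r hr => L1_l_conj t f (hR r hr))
  let Φ : ((Fin d → ZMod p) × (Pr d → ZMod p)) →ₗ[ZMod p] (IL p ψ.ker) × (Fin e → ZMod p) :=
    { toFun := fun t => (⟨res ψ.ker (L1_l p d t), hmem t⟩, fun a => L1_l p d t (r a))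
      map_add' := by
        intro s t
        refine Prod.ext (Subtype.ext ?_) ?_
        · funext f
          change res ψ.ker (L1_l p d (s + t)) f = res ψ.ker (L1_l p d s) f + res ψ.ker (L1_l p d t) f
          unfold res
          split_ifs
          · exact L1_l_add s t f
          · rw [add_zero]
        · funext a
          exact L1_l_add s t (r a)
      map_smul' := by
        intro c t
        refine Prod.ext (Subtype.ext ?_) ?_
        · funext f
          change res ψ.ker (L1_l p d (c • t)) f = c * res ψ.ker (L1_l p d t) f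
          unfold res
          split_ifs
          · exact L1_l_smul c t f
          · rw [mul_zero]
        · funext a
          exact L1_l_smul c t (r a) }
  have hinj : Function.Injective Φ := by
    rw [← LinearMap.ker_eq_bot, LinearMap.ker_eq_bot']
    intro t ht
    have h1 : ∀ f ∈ ψ.ker, L1_l p d t f = 0 := by
      intro f hf
      have h2 : res ψ.ker (L1_l p d t) f = 0 := congrFun (congrArg Subtype.val (congrArg Prod.fst ht)) f
      rwa [res_eq _ hf] at h2
    have h2 : ∀ a, L1_l p d t (r a) = 0 := fun a => congrFun (congrArg Prod.snd ht) a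
    have h3 : L1_l p d t 1 = 0 := h1 1 (one_mem _)
    have h4 : ∀ w ∈ closure (Set.range r), w ∈ FrF p d ∧ L1_l p d t w = 0 := by
      intro w hw
      induction hw using Subgroup.closure_induction with
      | mem x hx =>
        obtain ⟨a, rfl⟩ := hx
        exact ⟨hr a, h2 a⟩
      | one => exact ⟨one_mem _, h3⟩
      | mul x y _ _ hx hy =>
        exact ⟨mul_mem hx.1 hy.1, by rw [L1_l_mul hp t hx.1 hy.1, hx.2, hy.2, add_zero]⟩
      | inv x _ hx =>
        refine ⟨inv_mem hx.1, ?_⟩
        have h5 := L1_l_mul hp t hx.1 (inv_mem hx.1)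
        rw [mul_inv_cancel, h3, hx.2, zero_add] at h5
        exact h5.symm
    have h5 : ∀ f ∈ FrF p d, L1_l p d t f = 0 := by
      intro f hf
      have h6 := hgen f hf
      have h7 : (Set.range fun a => ψ (r a)) = ψ '' Set.range r := by
        rw [← Set.range_comp]
        rfl
      rw [h7, ← MonoidHom.map_closure] at h6
      obtain ⟨w, hw, hwf⟩ := h6
      have h8 : w⁻¹ * f ∈ ψ.ker := by
        rw [MonoidHom.mem_ker, map_mul, map_inv, hwf, inv_mul_cancel]
      have h9 := L1_l_mul hp t (h4 w hw).1 (hR _ h8)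
      rw [mul_inv_cancel_left, (h4 w hw).2, h1 _ h8, add_zero] at h9
      exact h9
    have h6 : ∀ i, t.1 i = 0 := by
      intro i
      have h7 := h5 (FreeGroup.of i ^ p) (fun k => by
        rw [L1_ev_pow]
        exact dvd_mul_right _ _)
      rw [L1_l_eq, lam_pow _ _ hp] at h7
      exact h7
    have h7 : ∀ q, t.2 q = 0 := by
      intro q
      have h8 := h5 (cm (FreeGroup.of q.1.1) (FreeGroup.of q.1.2)) (fun k => by
        rw [ev_cm]
        exact dvd_zero _)
      rw [L1_l_eq, lam_cm] at h8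
      exact h8
    exact Prod.ext (funext h6) (funext h7)
  have h := LinearMap.finrank_le_finrank_of_injective hinj
  rw [Module.finrank_prod, Module.finrank_prod, Module.finrank_fintype_fun_eq_card,
    Module.finrank_fintype_fun_eq_card, Module.finrank_fintype_fun_eq_card, Fintype.card_fin,
    Fintype.card_fin] at h
  exact h

end Pool.Agent.RG
end

section

/-!
# RG G1: the kernel of a marking is determined by the data

PROOFS.  `lift_eq`: by `lift_frF` for `f ∈ FrF` there is a vector `l f` with `lift x f = th (l f)`, unique by `inj` (define `l f` by choice, `0` outside of `FrF`).  `l` is additive on `FrF` (`add`, `inj`)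
and invariant under conjugation (`th v` is central: `lift x (f g f⁻¹) = lift x g`), the same holds for `lam pi c` (`lam_mul`, `lam_conj`); values at `of i ^ p`: `pi i` (`pw`, `lam_pow`); at
`cm (of i) (of j)`, `i < j`: `ext c i j = c ⟨(i, j), _⟩` (`map_cm` in AX, `cmm`, `lam_cm`).  `eq_on_frF` (C4).
`ker_eq`: `f ∈ ker` implies `f ∈ FrF` (`frK`), and `th (lam f) = 1 = th 0`, so `lam f = 0`; conversely clear.
`lam_span`: `lam s.1 s.2 f` is a linear combination of the `s.1 i`, `s.2 q`, so in the span.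
`spn`: for a vector `v` let `f` with `lift x f = th v` (`lift x` is surjective: `gen`, `range_lift_eq`).  `f ∈ FrF`: with `θ` of `theta`: `θ (lift x f) = ofAdd (fun i => (ev f i : ZMod p))` and
`θ (th v) = 1`.  So `v = lam f` (`lift_eq`, `inj`) is in the span.
-/

set_option autoImplicit false

namespace Pool.Agent.RG

open Subgroup

theorem lam_one {p d e : ℕ} (pi : Fin d → Fin e → ZMod p) (c : Pr d → Fin e → ZMod p) :
    lam pi c 1 = 0 := by
  unfold lam
  simp only [ev_one, Int.zero_ediv, Int.cast_zero, zero_smul, Finset.sum_const_zero, kap_one, add_zero]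

theorem lam_inv {p d e : ℕ} [Fact p.Prime] (pi : Fin d → Fin e → ZMod p) (c : Pr d → Fin e → ZMod p)
    {f : FreeGroup (Fin d)} (hf : f ∈ FrF p d) : lam pi c f⁻¹ = -lam pi c f := by
  have h := lam_mul pi c hf (inv_mem hf) (Fact.out : p.Prime).one_lt.le
  rw [mul_inv_cancel, lam_one] at h
  exact (neg_eq_of_add_eq_zero_right h.symm).symm

/-- The kernel belonging to the data `s`. -/
def Ns {p d e : ℕ} [Fact p.Prime] (s : Sd p d e) : Subgroup (FreeGroup (Fin d)) where
  carrier := {f | f ∈ FrF p d ∧ lam s.1 s.2 f = 0}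
  mul_mem' := by
    rintro f g ⟨h1, h2⟩ ⟨h3, h4⟩
    refine ⟨mul_mem h1 h3, ?_⟩
    rw [lam_mul s.1 s.2 h1 h3 (Fact.out : p.Prime).one_lt.le, h2, h4, add_zero]
  one_mem' := ⟨one_mem _, lam_one _ _⟩
  inv_mem' := by
    rintro f ⟨h1, h2⟩
    refine ⟨inv_mem h1, ?_⟩
    rw [lam_inv s.1 s.2 h1, h2, neg_zero]

theorem mem_Ns {p d e : ℕ} [Fact p.Prime] {s : Sd p d e} {f : FreeGroup (Fin d)} :
    f ∈ Ns s ↔ f ∈ FrF p d ∧ lam s.1 s.2 f = 0 := Iff.rfl

instance instNormalNs {p d e : ℕ} [Fact p.Prime] (s : Sd p d e) : (Ns s).Normal := by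
  refine ⟨fun f hf g => ?_⟩
  exact ⟨(instNormalFrF p d).conj_mem f hf.1 g, by rw [lam_conj s.1 s.2 g hf.1]; exact hf.2⟩

section
variable {p : ℕ} [Fact p.Prime] {G : Type} [Group G] {d e : ℕ} {x : Fin d → G}
  {th : (Fin e → ZMod p) → G} {s : Sd p d e}

omit [Fact p.Prime] in
private theorem G1_pow_mem (i : Fin d) : (FreeGroup.of i : FreeGroup (Fin d)) ^ p ∈ FrF p d := by
  intro k
  rw [← zpow_natCast, ev_zpow]
  exact dvd_mul_right _ _

omit [Fact p.Prime] in
private theorem G1_cm_mem (q : Pr d) :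
    cm (FreeGroup.of q.1.1 : FreeGroup (Fin d)) (FreeGroup.of q.1.2) ∈ FrF p d := by
  intro k
  rw [ev_cm]
  exact dvd_zero _

theorem Mk.lift_eq (h : Mk p x th s.1 (ext s.2)) {f : FreeGroup (Fin d)} (hf : f ∈ FrF p d) :
    FreeGroup.lift x f = th (lam s.1 s.2 f) := by
  classical
  have hp : 1 ≤ p := (Fact.out : p.Prime).one_lt.le
  have hex : ∀ f : FreeGroup (Fin d), ∃ v : Fin e → ZMod p, f ∈ FrF p d → FreeGroup.lift x f = th v := by
    intro f
    by_cases hf : f ∈ FrF p d
    · obtain ⟨v, hv⟩ := h.lift_frF hf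
      exact ⟨v, fun _ => hv⟩
    · exact ⟨0, fun h => absurd h hf⟩
  choose l hl using hex
  have h1 : ∀ f ∈ FrF p d, ∀ g ∈ FrF p d, l (f * g) = l f + l g := by
    intro f hf g hg
    apply h.inj
    rw [← hl _ (mul_mem hf hg), h.add, ← hl f hf, ← hl g hg, map_mul]
  have h2 : ∀ f, ∀ g ∈ FrF p d, l (f * g * f⁻¹) = l g := by
    intro f g hg
    apply h.inj
    rw [← hl _ ((instNormalFrF p d).conj_mem g hg f), map_mul, map_mul, map_inv, hl g hg, ← h.cen,
      mul_inv_cancel_right]
  have h3 : ∀ i, l (FreeGroup.of i ^ p) = lam s.1 s.2 (FreeGroup.of i ^ p) := by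
    intro i
    apply h.inj
    rw [← hl _ (G1_pow_mem i), lam_pow _ _ hp, map_pow, FreeGroup.lift_apply_of, h.pw]
  have h4 : ∀ q : Pr d, l (cm (FreeGroup.of q.1.1) (FreeGroup.of q.1.2)) =
      lam s.1 s.2 (cm (FreeGroup.of q.1.1) (FreeGroup.of q.1.2)) := by
    intro q
    apply h.inj
    rw [← hl _ (G1_cm_mem q), lam_cm, map_cm, FreeGroup.lift_apply_of, FreeGroup.lift_apply_of, h.cmm]
    congr 1
    unfold ext
    rw [dif_pos q.2]
  have h5 := eq_on_frF l (lam s.1 s.2) h1 h2 (fun f hf g hg => lam_mul _ _ hf hg hp)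
    (fun f g hg => lam_conj _ _ f hg) h3 h4 f hf
  rw [hl f hf, h5]

theorem Mk.ker_eq (h : Mk p x th s.1 (ext s.2)) : (FreeGroup.lift x).ker = Ns s := by
  ext f
  rw [mem_Ns]
  constructor
  · intro hf
    have h1 : f ∈ FrF p d := fun i => h.frK f hf i
    refine ⟨h1, ?_⟩
    apply h.inj
    rw [← h.lift_eq h1, h.zero]
    exact hf
  · rintro ⟨h1, h2⟩
    rw [MonoidHom.mem_ker, h.lift_eq h1, h2, h.zero]

theorem lam_span (s : Sd p d e) (f : FreeGroup (Fin d)) :
    lam s.1 s.2 f ∈ Submodule.span (ZMod p) (Set.range s.1 ∪ Set.range s.2) := by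
  unfold lam
  refine add_mem (sum_mem fun i _ => ?_) (sum_mem fun q _ => ?_)
  · exact Submodule.smul_mem _ _ (Submodule.subset_span (Or.inl ⟨i, rfl⟩))
  · exact Submodule.smul_mem _ _ (Submodule.subset_span (Or.inr ⟨q, rfl⟩))

theorem Mk.spn (h : Mk p x th s.1 (ext s.2)) : Spn s := by
  unfold Spn
  rw [Submodule.eq_top_iff']
  intro v
  have h1 : (FreeGroup.lift x).range = ⊤ := by rw [range_lift_eq, h.gen]
  obtain ⟨f, hf⟩ : th v ∈ (FreeGroup.lift x).range := by
    rw [h1]
    trivial
  obtain ⟨θ, h2, h3⟩ := h.theta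
  have h4 : ∀ f : FreeGroup (Fin d), θ (FreeGroup.lift x f) =
      Multiplicative.ofAdd (fun i => ((ev f i : ℤ) : ZMod p)) := by
    intro f
    induction f using FreeGroup.induction_on with
    | C1 =>
      rw [map_one, map_one]
      simp only [ev_one, Int.cast_zero]
      rfl
    | of k =>
      rw [FreeGroup.lift_apply_of, h2]
      congr 1
      funext i
      rw [ev_of]
      by_cases hk : k = i
      · rw [if_pos hk, hk, Pi.single_eq_same, Int.cast_one]
      · rw [if_neg hk, Int.cast_zero, Pi.single_eq_of_ne (fun h => hk h.symm)]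
    | inv_of k ih =>
      rw [map_inv, map_inv, ih]
      simp only [ev_inv, Int.cast_neg]
      rfl
    | mul a b ha hb =>
      rw [map_mul, map_mul, ha, hb]
      simp only [ev_mul, Int.cast_add]
      rfl
  have h5 : f ∈ FrF p d := by
    have h6 := h4 f
    rw [hf, (h3 _).2 ⟨v, rfl⟩] at h6
    intro i
    have h7 : (0 : Fin d → ZMod p) = fun i => ((ev f i : ℤ) : ZMod p) := congrArg Multiplicative.toAdd h6
    have h8 := congrFun h7 i
    exact (ZMod.intCast_zmod_eq_zero_iff_dvd _ _).1 h8.symm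
  have h6 := h.lift_eq h5
  rw [hf] at h6
  rw [h.inj h6]
  exact lam_span s f

end

end Pool.Agent.RG
end

section

/-!
# RG G2: every spanning datum has a marked group

PROOFS.  `lam_surj`: the set of the values `lam s.1 s.2 f`, `f ∈ FrF`, is closed under sums (`lam_mul`), contains `0`, the `s.1 i` (`lam_pow`; `of i ^ p ∈ FrF`) and the `s.2 q` (`lam_cm`, `ev_cm`), and is closed under scalars
(`c • v = c.val • v`, sums; or `lam (f ^ n) = n • lam f`).  `Submodule.span_induction`.
`frF_index`: the homomorphism `F → Multiplicative (Fin d → ZMod p)`, `f ↦ ofAdd (fun i => (ev f i : ZMod p))` (`FreeGroup.lift` of the unit vectors) is surjective with kernel `FrF` (`ZMod.intCast_zmod_eq_zero_iff_dvd`):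
`Subgroup.index_ker`.
`ns_index`: `Ns.relIndex FrF = p ^ e` (the homomorphism `FrF → Multiplicative (Fin e → ZMod p)`, `f ↦ ofAdd (lam f)` is surjective with kernel `Ns`), `Subgroup.relIndex_mul_index`.
`mk_quot`: `gen`: the images of the free generators generate.  `thq_spec`: by definition.  `add`: `mk f = mk g` if `lam f = lam g`, `f g ∈ FrF` (`f⁻¹ g ∈ Ns`); so `thq (v + w) = thq v * thq w`.
`cen`: `mk f` for `f ∈ FrF` is central: `g f g⁻¹ f⁻¹ ∈ Ns` (`lam_conj`).  `pw`: `lam (of i ^ p) = s.1 i`.  `cmm`: for `i < j` `lam (cm (of i) (of j)) = s.2 _`; for `i = j` `cm = 1`; for `j < i`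
`cm (of i) (of j) = (cm (of j) (of i))⁻¹` (`lam_inv`).  `card`: `Subgroup.index_eq_card`, `ns_index`.
-/

set_option autoImplicit false

namespace Pool.Agent.RG

open Subgroup

section
variable {p d e : ℕ} [Fact p.Prime] {s : Sd p d e}

private theorem G2_one_le (p : ℕ) [Fact p.Prime] : 1 ≤ p := (Fact.out : p.Prime).one_lt.le

private theorem G2_lam_pow (s : Sd p d e) {f : FreeGroup (Fin d)} (hf : f ∈ FrF p d) (n : ℕ) :
    lam s.1 s.2 (f ^ n) = n • lam s.1 s.2 f := by
  induction n with
  | zero => rw [pow_zero, lam_one, zero_smul]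
  | succ n ih => rw [pow_succ, lam_mul s.1 s.2 (pow_mem hf n) hf (G2_one_le p), ih, succ_nsmul]

private theorem G2_pow_mem (i : Fin d) : (FreeGroup.of i : FreeGroup (Fin d)) ^ p ∈ FrF p d := by
  intro j
  have h := ev_zpow (FreeGroup.of i : FreeGroup (Fin d)) (p : ℤ) j
  rw [zpow_natCast] at h
  rw [h]
  exact dvd_mul_right _ _

private theorem G2_cm_mem (i j : Fin d) :
    cm (FreeGroup.of i : FreeGroup (Fin d)) (FreeGroup.of j) ∈ FrF p d := by
  intro k
  rw [ev_cm]
  exact dvd_zero _

theorem lam_surj (hs : Spn s) (v : Fin e → ZMod p) : ∃ f ∈ FrF p d, lam s.1 s.2 f = v := by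
  have hv : v ∈ Submodule.span (ZMod p) (Set.range s.1 ∪ Set.range s.2) := by
    have hs' : Submodule.span (ZMod p) (Set.range s.1 ∪ Set.range s.2) = ⊤ := hs
    rw [hs']
    trivial
  induction hv using Submodule.span_induction with
  | mem x hx =>
    rcases hx with ⟨i, rfl⟩ | ⟨q, rfl⟩
    · exact ⟨FreeGroup.of i ^ p, G2_pow_mem i, lam_pow _ _ (G2_one_le p) i⟩
    · exact ⟨cm (FreeGroup.of q.1.1) (FreeGroup.of q.1.2), G2_cm_mem _ _, lam_cm _ _ q⟩
  | zero => exact ⟨1, one_mem _, lam_one _ _⟩
  | add x y _ _ hx hy =>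
    obtain ⟨f, hf, rfl⟩ := hx
    obtain ⟨g, hg, rfl⟩ := hy
    exact ⟨f * g, mul_mem hf hg, lam_mul _ _ hf hg (G2_one_le p)⟩
  | smul a x _ hx =>
    obtain ⟨f, hf, rfl⟩ := hx
    refine ⟨f ^ a.val, pow_mem hf _, ?_⟩
    rw [G2_lam_pow s hf]
    have h := (Nat.cast_smul_eq_nsmul (ZMod p) a.val (lam s.1 s.2 f)).symm
    rw [ZMod.natCast_zmod_val] at h
    exact h

/-- The exponent sums modulo `p`. -/
private noncomputable def G2_phi (p d : ℕ) : FreeGroup (Fin d) →* Multiplicative (Fin d → ZMod p) where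
  toFun f := Multiplicative.ofAdd fun i => (ev f i : ZMod p)
  map_one' := by
    rw [← ofAdd_zero]
    congr 1
    funext i
    rw [ev_one, Int.cast_zero]
    rfl
  map_mul' f g := by
    rw [← ofAdd_add]
    congr 1
    funext i
    rw [ev_mul, Int.cast_add]
    rfl

private theorem G2_phi_surj (p d : ℕ) [Fact p.Prime] : Function.Surjective (G2_phi p d) := by
  intro w
  have hw : w ∈ (G2_phi p d).range := by
    have e1 : w = ∏ i : Fin d, Multiplicative.ofAdd (Pi.single i (Multiplicative.toAdd w i) : Fin d → ZMod p) := by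
      rw [← ofAdd_sum, Finset.univ_sum_single]
      rfl
    rw [e1]
    refine Subgroup.prod_mem _ fun i _ => ?_
    refine ⟨FreeGroup.of i ^ ((Multiplicative.toAdd w i).val : ℤ), ?_⟩
    change Multiplicative.ofAdd (fun j => (ev (FreeGroup.of i ^ ((Multiplicative.toAdd w i).val : ℤ)) j : ZMod p)) = _
    congr 1
    funext j
    rw [ev_zpow, ev_of]
    by_cases hij : i = j
    · subst hij
      rw [if_pos rfl, mul_one, Pi.single_eq_same, Int.cast_natCast, ZMod.natCast_zmod_val]
    · rw [if_neg hij, mul_zero, Int.cast_zero, Pi.single_eq_of_ne (fun h => hij h.symm)]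
  exact hw

private theorem G2_phi_ker (p d : ℕ) : (G2_phi p d).ker = FrF p d := by
  ext f
  rw [MonoidHom.mem_ker]
  constructor
  · intro h i
    have h1 : (fun i => (ev f i : ZMod p)) = 0 := h
    have h2 := congrFun h1 i
    exact (ZMod.intCast_zmod_eq_zero_iff_dvd _ _).mp h2
  · intro h
    change Multiplicative.ofAdd (fun i => (ev f i : ZMod p)) = 1
    rw [← ofAdd_zero]
    congr 1
    funext i
    exact (ZMod.intCast_zmod_eq_zero_iff_dvd _ _).mpr (h i)

theorem frF_index (p d : ℕ) [Fact p.Prime] : (FrF p d).index = p ^ d := by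
  rw [← G2_phi_ker p d, Subgroup.index_ker, MonoidHom.range_eq_top.mpr (G2_phi_surj p d),
    Nat.card_congr (Subgroup.topEquiv (G := Multiplicative (Fin d → ZMod p))).toEquiv,
    Nat.card_congr (Multiplicative.toAdd (α := Fin d → ZMod p)), Nat.card_fun, Nat.card_zmod, Nat.card_fin]

/-- The function `lam` as a homomorphism. -/
private noncomputable def G2_psi (s : Sd p d e) : FrF p d →* Multiplicative (Fin e → ZMod p) where
  toFun f := Multiplicative.ofAdd (lam s.1 s.2 f.1)
  map_one' := by
    rw [← ofAdd_zero]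
    congr 1
    exact lam_one _ _
  map_mul' f g := by
    rw [← ofAdd_add]
    congr 1
    exact lam_mul _ _ f.2 g.2 (G2_one_le p)

theorem ns_index (hs : Spn s) : (Ns s).index = p ^ (d + e) := by
  have hle : Ns s ≤ FrF p d := fun f hf => hf.1
  have h1 : (Ns s).relIndex (FrF p d) = p ^ e := by
    have hk : (Ns s).subgroupOf (FrF p d) = (G2_psi s).ker := by
      ext f
      rw [Subgroup.mem_subgroupOf, MonoidHom.mem_ker, mem_Ns]
      constructor
      · intro h
        change Multiplicative.ofAdd (lam s.1 s.2 f.1) = 1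
        rw [h.2]
        rfl
      · intro h
        exact ⟨f.2, h⟩
    have hsj : Function.Surjective (G2_psi s) := by
      intro w
      obtain ⟨f, hf, hfw⟩ := lam_surj hs (Multiplicative.toAdd w)
      exact ⟨⟨f, hf⟩, congrArg Multiplicative.ofAdd hfw⟩
    rw [Subgroup.relIndex, hk, Subgroup.index_ker, MonoidHom.range_eq_top.mpr hsj,
      Nat.card_congr (Subgroup.topEquiv (G := Multiplicative (Fin e → ZMod p))).toEquiv,
      Nat.card_congr (Multiplicative.toAdd (α := Fin e → ZMod p)), Nat.card_fun, Nat.card_zmod, Nat.card_fin]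
  rw [← Subgroup.relIndex_mul_index hle, h1, frF_index, pow_add, mul_comm]

/-- The element of the quotient with the value `v`. -/
noncomputable def thq (hs : Spn s) (v : Fin e → ZMod p) : FreeGroup (Fin d) ⧸ Ns s :=
  QuotientGroup.mk (lam_surj hs v).choose

theorem thq_eq (hs : Spn s) {f : FreeGroup (Fin d)} (hf : f ∈ FrF p d) :
    thq hs (lam s.1 s.2 f) = QuotientGroup.mk f := by
  have h := (lam_surj hs (lam s.1 s.2 f)).choose_spec
  unfold thq
  rw [QuotientGroup.eq, mem_Ns]
  refine ⟨mul_mem (inv_mem h.1) hf, ?_⟩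
  rw [lam_mul s.1 s.2 (inv_mem h.1) hf (G2_one_le p), lam_inv s.1 s.2 h.1, h.2, neg_add_cancel]

theorem mk_quot (hs : Spn s) : Mk p
    (fun i => (QuotientGroup.mk (FreeGroup.of i) : FreeGroup (Fin d) ⧸ Ns s)) (thq hs) s.1
    (ext s.2) := by
  refine ⟨?_, ?_, ?_, ?_, ?_, ?_⟩
  · have h1 : (Set.range fun i => (QuotientGroup.mk (FreeGroup.of i) : FreeGroup (Fin d) ⧸ Ns s)) =
        (QuotientGroup.mk' (Ns s)) '' (Set.range (FreeGroup.of : Fin d → FreeGroup (Fin d))) := by
      rw [← Set.range_comp]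
      rfl
    rw [h1, ← MonoidHom.map_closure, FreeGroup.closure_range_of, ← MonoidHom.range_eq_map]
    exact MonoidHom.range_eq_top.mpr (QuotientGroup.mk'_surjective _)
  · intro v w
    obtain ⟨f, hf, rfl⟩ := lam_surj hs v
    obtain ⟨g, hg, rfl⟩ := lam_surj hs w
    rw [← lam_mul s.1 s.2 hf hg (G2_one_le p), thq_eq hs hf, thq_eq hs hg, thq_eq hs (mul_mem hf hg)]
    rfl
  · intro v g
    obtain ⟨f, hf, rfl⟩ := lam_surj hs v
    obtain ⟨h, rfl⟩ := QuotientGroup.mk_surjective g
    rw [thq_eq hs hf]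
    change ((f * h : FreeGroup (Fin d)) : FreeGroup (Fin d) ⧸ Ns s) = ((h * f : FreeGroup (Fin d)) : FreeGroup (Fin d) ⧸ Ns s)
    rw [QuotientGroup.eq, mem_Ns]
    have e1 : (f * h)⁻¹ * (h * f) = (h⁻¹ * f⁻¹ * (h⁻¹)⁻¹) * f := by group
    have hc : h⁻¹ * f⁻¹ * (h⁻¹)⁻¹ ∈ FrF p d := (instNormalFrF p d).conj_mem _ (inv_mem hf) _
    rw [e1]
    refine ⟨mul_mem hc hf, ?_⟩
    rw [lam_mul s.1 s.2 hc hf (G2_one_le p), lam_conj s.1 s.2 h⁻¹ (inv_mem hf), lam_inv s.1 s.2 hf, neg_add_cancel]
  · intro i
    have h1 := thq_eq hs (G2_pow_mem (p := p) i)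
    rw [lam_pow s.1 s.2 (G2_one_le p) i] at h1
    rw [h1]
    rfl
  · intro i j
    have key : ∀ q : Pr d, cm (QuotientGroup.mk (FreeGroup.of q.1.1) : FreeGroup (Fin d) ⧸ Ns s)
        (QuotientGroup.mk (FreeGroup.of q.1.2)) = thq hs (s.2 q) := by
      intro q
      have h1 := thq_eq hs (G2_cm_mem (p := p) q.1.1 q.1.2)
      rw [lam_cm s.1 s.2 q] at h1
      rw [h1]
      rfl
    have hinv : ∀ q : Pr d, cm (QuotientGroup.mk (FreeGroup.of q.1.2) : FreeGroup (Fin d) ⧸ Ns s)
        (QuotientGroup.mk (FreeGroup.of q.1.1)) = thq hs (-s.2 q) := by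
      intro q
      have h0 := G2_cm_mem (p := p) q.1.1 q.1.2
      have h1 := thq_eq hs (inv_mem h0)
      rw [lam_inv s.1 s.2 h0, lam_cm s.1 s.2 q] at h1
      rw [h1]
      have e2 : (cm (FreeGroup.of q.1.1) (FreeGroup.of q.1.2) : FreeGroup (Fin d))⁻¹ =
          cm (FreeGroup.of q.1.2) (FreeGroup.of q.1.1) := by
        unfold cm
        group
      rw [e2]
      rfl
    have h00 : thq hs 0 = 1 := by
      have h1 := thq_eq hs (one_mem (FrF p d))
      rw [lam_one] at h1
      rw [h1]
      rfl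
    unfold ext
    by_cases h : i < j
    · rw [dif_pos h]
      exact key ⟨(i, j), h⟩
    · rw [dif_neg h]
      by_cases h' : j < i
      · rw [dif_pos h']
        exact hinv ⟨(j, i), h'⟩
      · rw [dif_neg h', h00]
        have hij : i = j := le_antisymm (not_lt.mp h') (not_lt.mp h)
        subst hij
        unfold cm
        group
  · change (Ns s).index = _
    exact ns_index hs

end

end Pool.Agent.RG
end

section

/-!
# RG G3: the number of the marked group laws with given data

PROOFS.  `Mk.map`: all fields are preserved by an isomorphism (`map_cm` in AX, `MonoidHom.map_closure`, `Nat.card_congr`).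
`finite_group`: `Group.ext`: a group structure is determined by its multiplication; `Group (Fin N)` embeds into `Fin N → Fin N → Fin N`.
`card_Mset`: `Q = FreeGroup (Fin d) ⧸ Ns s`, `Nat.card Q = p ^ (d + e)` (`ns_index`), so there are `(p ^ (d + e))!` bijections `σ : Q ≃ Fin (p ^ (d + e))` (`Fintype.card_equiv`, `Nat.card_eq_fintype_card`).
The map `Φ σ = (law transported by σ, fun i => σ (mk (of i)), fun v => σ (thq hs v))` (`Equiv.group σ.symm`, `Equiv.mulEquiv`) is a bijection onto `Mset s`: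
well defined by `mk_quot` and `Mk.map`.  INJECTIVE: if `Φ σ = Φ σ'` then `σ`, `σ'` are homomorphisms to the same group which agree on the generators `mk (of i)`
(`QuotientGroup.monoidHom_ext`, `FreeGroup.ext_hom`).  SURJECTIVE: for `(I, x, th) ∈ Mset s` the homomorphism `lift x` is surjective with kernel `Ns s` (`Mk.ker_eq`), so it induces an isomorphism `σ : Q ≃* (Fin .., I)`
(`QuotientGroup.quotientKerEquivOfSurjective`, `QuotientGroup.quotientMulEquivOfEq`) with `σ (mk f) = lift x f`; `Φ σ = (I, x, th)`: the multiplication is that of `I` (`Group.ext`), and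
`σ (thq v) = lift x f = th (lam f) = th v` for `f ∈ FrF` with `lam f = v` (`Mk.lift_eq`, `thq_eq`, `lam_surj`).
`Mset_disj`: `th` is injective (`Mk.inj`), so `s.1 i`, `s.2 q` are determined by `x i ^ p`, `cm (x i) (x j)` (`ext` at `i < j`).
REMARK: in `Mset` the group structure is `letI := t.1`; write `@Mk p (Fin _) t.1 d e ..` if necessary; unfold with `show` or `Set.mem_setOf_eq`.
-/

set_option autoImplicit false

namespace Pool.Agent.RG

open Subgroup

theorem Mk.map {p : ℕ} {G H : Type} [Group G] [Group H] {d e : ℕ} {x : Fin d → G}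
    {th : (Fin e → ZMod p) → G} {pi : Fin d → Fin e → ZMod p} {b : Fin d → Fin d → Fin e → ZMod p}
    (h : Mk p x th pi b) (σ : G ≃* H) : Mk p (fun i => σ (x i)) (fun v => σ (th v)) pi b := by
  refine ⟨?_, ?_, ?_, ?_, ?_, ?_⟩
  · have h1 : (Set.range fun i => σ (x i)) = σ.toMonoidHom '' Set.range x := by
      rw [← Set.range_comp]
      rfl
    rw [h1, ← MonoidHom.map_closure, h.gen]
    exact Subgroup.map_top_of_surjective _ σ.surjective
  · intro v w
    rw [h.add, map_mul]
  · intro v g
    obtain ⟨g', rfl⟩ := σ.surjective g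
    rw [← map_mul, ← map_mul, h.cen]
  · intro i
    rw [← map_pow, h.pw]
  · intro i j
    have h1 := map_cm σ.toMonoidHom (x i) (x j)
    rw [h.cmm] at h1
    exact h1.symm
  · rw [← h.card]
    exact Nat.card_congr σ.toEquiv.symm

instance finite_group (N : ℕ) : Finite (Group (Fin N)) := by
  apply Finite.of_injective (fun I : Group (Fin N) => (I.mul : Fin N → Fin N → Fin N))
  intro I J h
  apply Group.ext
  exact h

section
variable {p d e : ℕ} [Fact p.Prime]

private theorem G3_card (A : Type) (hA : Nat.card A = p ^ (d + e)) {s : Sd p d e} (hs : Spn s) :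
    {t : Group A × (Fin d → A) × ((Fin e → ZMod p) → A) |
      @Mk p A t.1 d e t.2.1 t.2.2 s.1 (ext s.2)}.ncard = (p ^ (d + e)).factorial := by
  have hp0 : 0 < p := (Fact.out : p.Prime).pos
  have hpos : p ^ (d + e) ≠ 0 := (pow_pos hp0 _).ne'
  have hQ : Nat.card (FreeGroup (Fin d) ⧸ Ns s) = p ^ (d + e) := ns_index hs
  have hfQ : Finite (FreeGroup (Fin d) ⧸ Ns s) := Nat.finite_of_card_ne_zero (by rw [hQ]; exact hpos)
  have hfA : Finite A := Nat.finite_of_card_ne_zero (by rw [hA]; exact hpos)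
  have e0 : (FreeGroup (Fin d) ⧸ Ns s) ≃ A :=
    ((Nat.equivFinOfCardPos (by rw [hQ]; exact hpos)).trans (finCongr (hQ.trans hA.symm))).trans
      (Nat.equivFinOfCardPos (by rw [hA]; exact hpos)).symm
  obtain ⟨Φ, hΦ⟩ : ∃ Φ : ((FreeGroup (Fin d) ⧸ Ns s) ≃ A) → Group A × (Fin d → A) × ((Fin e → ZMod p) → A),
      Φ = fun σ => (σ.symm.group, fun i => σ (QuotientGroup.mk (FreeGroup.of i)), fun v => σ (thq hs v)) := ⟨_, rfl⟩
  have hmul : ∀ (σ : (FreeGroup (Fin d) ⧸ Ns s) ≃ A) (a b : A),
      (σ.symm.group).mul a b = σ (σ.symm a * σ.symm b) := fun _ _ _ => rfl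
  have hcard : Nat.card ((FreeGroup (Fin d) ⧸ Ns s) ≃ A) = (p ^ (d + e)).factorial := by
    rw [← hQ, ← Nat.card_perm]
    exact Nat.card_congr (Equiv.equivCongr (Equiv.refl _) e0.symm)
  have hinj : Function.Injective Φ := by
    intro σ σ' h
    rw [hΦ] at h
    simp only [Prod.mk.injEq] at h
    obtain ⟨h1, h2, -⟩ := h
    have h3 : ∀ a b : A, σ (σ.symm a * σ.symm b) = σ' (σ'.symm a * σ'.symm b) := by
      intro a b
      rw [← hmul σ a b, ← hmul σ' a b, h1]
    have h4 : ∀ q q' : FreeGroup (Fin d) ⧸ Ns s, σ'.symm (σ (q * q')) = σ'.symm (σ q) * σ'.symm (σ q') := by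
      intro q q'
      have h5 := h3 (σ q) (σ q')
      rw [Equiv.symm_apply_apply, Equiv.symm_apply_apply] at h5
      rw [h5, Equiv.symm_apply_apply]
    have h5 : MonoidHom.mk' (fun q => σ'.symm (σ q)) h4 = MonoidHom.id _ := by
      apply QuotientGroup.monoidHom_ext
      apply FreeGroup.ext_hom
      intro i
      show σ'.symm (σ (QuotientGroup.mk (FreeGroup.of i))) = QuotientGroup.mk (FreeGroup.of i)
      rw [congrFun h2 i, Equiv.symm_apply_apply]
    ext q
    have h6 : σ'.symm (σ q) = q := DFunLike.congr_fun h5 q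
    rw [← h6, Equiv.apply_symm_apply, h6]
  have himg : {t : Group A × (Fin d → A) × ((Fin e → ZMod p) → A) |
      @Mk p A t.1 d e t.2.1 t.2.2 s.1 (ext s.2)} = Φ '' Set.univ := by
    ext t
    rw [Set.image_univ, Set.mem_range]
    constructor
    · intro ht
      obtain ⟨I, x, th⟩ := t
      have h : Mk p x th s.1 (ext s.2) := ht
      have hsurj : Function.Surjective (FreeGroup.lift x) := by
        rw [← MonoidHom.range_eq_top, range_lift_eq, h.gen]
      have hker : (FreeGroup.lift x).ker = Ns s := h.ker_eq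
      have hle : ∀ a ∈ Ns s, FreeGroup.lift x a = 1 := by
        intro a ha
        rw [← hker] at ha
        exact ha
      obtain ⟨ψ, hψ⟩ : ∃ ψ : (FreeGroup (Fin d) ⧸ Ns s) →* A, ψ = QuotientGroup.lift (Ns s) (FreeGroup.lift x) hle := ⟨_, rfl⟩
      have hψ1 : ∀ f : FreeGroup (Fin d), ψ (QuotientGroup.mk f) = FreeGroup.lift x f := by
        intro f
        rw [hψ]
        exact QuotientGroup.lift_mk' (Ns s) hle f
      have hψs : Function.Surjective ψ := by
        intro a
        obtain ⟨f, hf⟩ := hsurj a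
        exact ⟨QuotientGroup.mk f, by rw [hψ1, hf]⟩
      have hψi : Function.Injective ψ := by
        rw [injective_iff_map_eq_one]
        intro q hq
        obtain ⟨f, rfl⟩ := QuotientGroup.mk_surjective q
        rw [hψ1] at hq
        rw [QuotientGroup.eq_one_iff, ← hker]
        exact hq
      refine ⟨Equiv.ofBijective ψ ⟨hψi, hψs⟩, ?_⟩
      rw [hΦ]
      refine Prod.ext ?_ (Prod.ext ?_ ?_)
      · apply Group.ext
        funext a b
        obtain ⟨qa, rfl⟩ := hψs a
        obtain ⟨qb, rfl⟩ := hψs b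
        show (Equiv.ofBijective ψ ⟨hψi, hψs⟩) ((Equiv.ofBijective ψ ⟨hψi, hψs⟩).symm (ψ qa) *
          (Equiv.ofBijective ψ ⟨hψi, hψs⟩).symm (ψ qb)) = ψ qa * ψ qb
        have h1 : ∀ q, (Equiv.ofBijective ψ ⟨hψi, hψs⟩).symm (ψ q) = q := by
          intro q
          rw [Equiv.symm_apply_eq]
          rfl
        rw [h1, h1]
        exact map_mul ψ qa qb
      · funext i
        show ψ (QuotientGroup.mk (FreeGroup.of i)) = x i
        rw [hψ1, FreeGroup.lift_apply_of]
      · funext v
        show ψ (thq hs v) = th v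
        obtain ⟨f, hf, hv⟩ := lam_surj hs v
        rw [← hv, thq_eq hs hf, hψ1, h.lift_eq hf]
    · rintro ⟨σ, rfl⟩
      rw [hΦ]
      have key : ∀ (I : Group A), (∀ q q' : FreeGroup (Fin d) ⧸ Ns s, σ (q * q') = I.mul (σ q) (σ q')) →
          @Mk p A I d e (fun i => σ (QuotientGroup.mk (FreeGroup.of i))) (fun v => σ (thq hs v)) s.1 (ext s.2) := by
        intro I hI
        exact (mk_quot hs).map (⟨σ, hI⟩ : (FreeGroup (Fin d) ⧸ Ns s) ≃* A)
      refine key _ ?_
      intro q q'
      rw [hmul σ, Equiv.symm_apply_apply, Equiv.symm_apply_apply]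
  rw [himg, Set.ncard_image_of_injective _ hinj, Set.ncard_univ, hcard]

theorem card_Mset {s : Sd p d e} (hs : Spn s) : (Mset s).ncard = (p ^ (d + e)).factorial :=
  G3_card (Fin (p ^ (d + e))) (by simp) hs

theorem Mset_spn {s : Sd p d e} {t} (ht : t ∈ Mset s) : Spn s :=
  @Mk.spn p _ _ t.1 d e t.2.1 t.2.2 s ht

private theorem G3_disj {G : Type} [Group G] {x : Fin d → G} {th : (Fin e → ZMod p) → G} {s s' : Sd p d e}
    (h : Mk p x th s.1 (ext s.2)) (h' : Mk p x th s'.1 (ext s'.2)) : s = s' := by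
  refine Prod.ext ?_ ?_
  · funext i
    apply h.inj
    rw [← h.pw, ← h'.pw]
  · funext q
    have h1 : ext s.2 q.1.1 q.1.2 = ext s'.2 q.1.1 q.1.2 := by
      apply h.inj
      rw [← h.cmm, ← h'.cmm]
    unfold ext at h1
    rw [dif_pos q.2, dif_pos q.2] at h1
    exact h1

theorem Mset_disj {s s' : Sd p d e} {t} (ht : t ∈ Mset s) (ht' : t ∈ Mset s') : s = s' :=
  @G3_disj p d e _ _ t.1 t.2.1 t.2.2 s s' ht ht'

end

end Pool.Agent.RG
end

section

/-!
# RG G5: the number of the generating tuples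

PROOF.  Let `P = Ph p G`, `Q = G ⧸ P`: commutative with `g ^ p = 1`, so `Additive Q` is a vector space over `F_p` (`AddCommGroup.zmodModule`) with `p ^ d` elements: dimension `d`.
(i) `closure (range x) = ⊤ ↔ closure (range (mk ∘ x)) = ⊤`: `→` clear (image).  `←`: let `K = closure (range x)`; every `a ∈ G` is `k z`, `k ∈ K`, `z ∈ P`; `z` is central with `z ^ p = 1`, so
`cm (k z) (k' z') = cm k k' ∈ K`, `(k z) ^ p = k ^ p ∈ K`: `P ≤ K`, so `K = ⊤`.
(ii) for a tuple `y : Fin d → Q`: `closure (range y) = ⊤` iff the vectors span `Additive Q` iff they are linearly independent (`d` vectors in a space of dimension `d`: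
`linearIndependent_iff_card_eq_finrank_span`, `LinearIndependent.span_eq_top_of_card_eq_finrank`, `linearIndependent_of_top_le_span_of_card_eq_finrank`); the number of the linearly independent `d`-tuples is
`∏ i : Fin d, (p ^ d - p ^ i)` (`card_linearIndependent`, in Mathlib.LinearAlgebra.Matrix.GeneralLinearGroup.Card) `= bet p d` (`Finset.prod_range`).  (Subgroups of `Q` are the same as subspaces: closure of a set in an
`F_p`-space is the span: `AddSubgroup.toZModSubmodule`.)
(iii) every tuple `y` has `|P| ^ d = p ^ (e d)` lifts (`x i` in the coset `y i`).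
-/

set_option autoImplicit false

namespace Pool.Agent.RG

open Subgroup

theorem gen_iff_quot {p : ℕ} [Fact p.Prime] {G : Type} [Group G] (h : PC2 p G) {d : ℕ}
    (x : Fin d → G) (K : Subgroup G) (hK : closure (Set.range x) = K)
    (hq : ∀ a : G, ∃ k ∈ K, ∃ z ∈ Ph p G, a = k * z) : K = ⊤ := by
  have hP : Ph p G ≤ K := by
    unfold Ph
    rw [closure_le]
    rintro g (⟨a, rfl⟩ | ⟨a, b, rfl⟩)
    · obtain ⟨k, hk, z, hz, rfl⟩ := hq a
      have hc : Commute k z := (ph_central h hz k).symm
      rw [hc.mul_pow, ph_pow h hz, mul_one]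
      exact K.pow_mem hk p
    · obtain ⟨k, hk, z, hz, rfl⟩ := hq a
      obtain ⟨k', hk', z', hz', rfl⟩ := hq b
      have e : cm (k * z) (k' * z') = cm k k' := by
        unfold cm
        have c1 : ∀ g : G, z⁻¹ * g = g * z⁻¹ := fun g =>
          ph_central h ((Ph p G).inv_mem hz) g
        have c2 : ∀ g : G, z'⁻¹ * g = g * z'⁻¹ := fun g =>
          ph_central h ((Ph p G).inv_mem hz') g
        calc (k * z)⁻¹ * (k' * z')⁻¹ * (k * z) * (k' * z')
            = z⁻¹ * (k⁻¹ * (z'⁻¹ * (k'⁻¹ * k)) * z * k' * z') := by group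
          _ = (k⁻¹ * (z'⁻¹ * (k'⁻¹ * k)) * z * k' * z') * z⁻¹ := c1 _
          _ = (k⁻¹ * ((k'⁻¹ * k) * z'⁻¹) * z * k' * z') * z⁻¹ := by rw [c2 (k'⁻¹ * k)]
          _ = k⁻¹ * k'⁻¹ * k * (z'⁻¹ * (z * k' * z')) * z⁻¹ := by group
          _ = k⁻¹ * k'⁻¹ * k * ((z * k' * z') * z'⁻¹) * z⁻¹ := by rw [c2 (z * k' * z')]
          _ = k⁻¹ * k'⁻¹ * k * (z * k') * z⁻¹ := by group
          _ = k⁻¹ * k'⁻¹ * k * (k' * z) * z⁻¹ := by rw [ph_central h hz k']
          _ = k⁻¹ * k'⁻¹ * k * k' := by group
      rw [e]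
      exact K.mul_mem (K.mul_mem (K.mul_mem (K.inv_mem hk) (K.inv_mem hk')) hk) hk'
  rw [eq_top_iff]
  intro a _
  obtain ⟨k, hk, z, hz, rfl⟩ := hq a
  exact K.mul_mem hk (hP hz)

private theorem G5_span {p : ℕ} [Fact p.Prime] {Q : Type} [CommGroup Q] [Module (ZMod p) (Additive Q)]
    {d : ℕ} (y : Fin d → Q) : closure (Set.range y) = ⊤ ↔
      Submodule.span (ZMod p) (Set.range fun i => Additive.ofMul (y i)) = ⊤ := by
  have hsmul : ∀ (c : ZMod p) (v : Additive Q), c • v = c.val • v := by
    intro c v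
    conv_lhs => rw [← ZMod.natCast_zmod_val c]
    exact Nat.cast_smul_eq_nsmul (ZMod p) _ _
  constructor
  · intro h
    rw [eq_top_iff]
    intro v _
    have h2 : v.toMul ∈ closure (Set.range y) := by rw [h]; trivial
    have h3 : ∀ q ∈ closure (Set.range y),
        Additive.ofMul q ∈ Submodule.span (ZMod p) (Set.range fun i => Additive.ofMul (y i)) := by
      intro q hq
      induction hq using closure_induction with
      | mem a ha =>
        obtain ⟨i, rfl⟩ := ha
        exact Submodule.subset_span ⟨i, rfl⟩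
      | one => exact Submodule.zero_mem _
      | mul a b _ _ ha hb => exact Submodule.add_mem _ ha hb
      | inv a _ ha => exact Submodule.neg_mem _ ha
    exact h3 _ h2
  · intro h
    rw [eq_top_iff]
    intro q _
    have h2 : Additive.ofMul q ∈ Submodule.span (ZMod p) (Set.range fun i => Additive.ofMul (y i)) := by
      rw [h]; trivial
    have h3 : ∀ v ∈ Submodule.span (ZMod p) (Set.range fun i => Additive.ofMul (y i)),
        v.toMul ∈ closure (Set.range y) := by
      intro v hv
      induction hv using Submodule.span_induction with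
      | mem a ha =>
        obtain ⟨i, rfl⟩ := ha
        exact subset_closure ⟨i, rfl⟩
      | zero => exact Subgroup.one_mem _
      | add a b _ _ ha hb => exact Subgroup.mul_mem _ ha hb
      | smul c a _ ha =>
        rw [hsmul]
        exact Subgroup.pow_mem _ ha _
    exact h3 _ h2

private theorem G5_aux0 {p : ℕ} [Fact p.Prime] {Q : Type} [CommGroup Q] [Finite (Additive Q)]
    [Module (ZMod p) (Additive Q)] {d : ℕ} (hc : Nat.card Q = p ^ d) :
    Nat.card {y : Fin d → Q // closure (Set.range y) = ⊤} = bet p d := by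
  have hp1 : 1 < p := (Fact.out : p.Prime).one_lt
  have hfr : Module.finrank (ZMod p) (Additive Q) = d := by
    haveI : Fintype (Additive Q) := Fintype.ofFinite _
    have h1 : Fintype.card (Additive Q) = Fintype.card (ZMod p) ^ Module.finrank (ZMod p) (Additive Q) :=
      Module.card_eq_pow_finrank
    rw [ZMod.card] at h1
    have h2 : Nat.card (Additive Q) = p ^ d := hc
    rw [Nat.card_eq_fintype_card, h1] at h2
    exact Nat.pow_right_injective hp1 h2
  have hiff : ∀ y : Fin d → Q, closure (Set.range y) = ⊤ ↔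
      LinearIndependent (ZMod p) (fun i => Additive.ofMul (y i)) := by
    intro y
    rw [G5_span (p := p) y]
    constructor
    · intro h
      exact linearIndependent_of_top_le_span_of_card_eq_finrank (by rw [h]) (by rw [Fintype.card_fin, hfr])
    · intro h
      exact h.span_eq_top_of_card_eq_finrank' (by rw [Fintype.card_fin, hfr])
  have hcount := card_linearIndependent (K := ZMod p) (V := Additive Q) (k := d) hfr.ge
  rw [hfr, ZMod.card] at hcount
  have heq : {y : Fin d → Q // closure (Set.range y) = ⊤} ≃ {s : Fin d → Additive Q // LinearIndependent (ZMod p) s} :=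
    { toFun := fun y => ⟨fun i => Additive.ofMul (y.1 i), (hiff y.1).1 y.2⟩
      invFun := fun s => ⟨fun i => (s.1 i).toMul, (hiff _).2 s.2⟩
      left_inv := fun y => rfl
      right_inv := fun s => rfl }
  rw [Nat.card_congr heq, hcount]
  unfold bet
  exact Fin.prod_univ_eq_prod_range (fun i => p ^ d - p ^ i) d

private theorem G5_aux {p : ℕ} [Fact p.Prime] {Q : Type} [CommGroup Q] [Finite Q]
    (hQ : ∀ a : Q, a ^ p = 1) {d : ℕ} (hc : Nat.card Q = p ^ d) :
    Nat.card {y : Fin d → Q // closure (Set.range y) = ⊤} = bet p d := by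
  letI : Module (ZMod p) (Additive Q) := AddCommGroup.zmodModule fun a => hQ a.toMul
  haveI : Finite (Additive Q) := ‹Finite Q›
  exact G5_aux0 hc

theorem card_gen {p : ℕ} [Fact p.Prime] {G : Type} [Group G] {d e : ℕ} (h : PC2 p G)
    (hc : Nat.card G = p ^ (d + e)) (hp : Nat.card (Ph p G) = p ^ e) :
    Set.ncard {x : Fin d → G | closure (Set.range x) = ⊤} = p ^ (d * e) * bet p d := by
  have hp0 : 0 < p := (Fact.out : p.Prime).pos
  haveI : Finite G := Nat.finite_of_card_ne_zero (by rw [hc]; positivity)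
  haveI hnorm : (Ph p G).Normal := by
    refine ⟨fun z hz g => ?_⟩
    rw [← ph_central h hz g, mul_assoc, mul_inv_cancel, mul_one]
    exact hz
  have hcomm : ∀ a b : G ⧸ Ph p G, a * b = b * a := by
    intro a b
    obtain ⟨a, rfl⟩ := QuotientGroup.mk_surjective a
    obtain ⟨b, rfl⟩ := QuotientGroup.mk_surjective b
    rw [← QuotientGroup.mk_mul, ← QuotientGroup.mk_mul, QuotientGroup.eq]
    refine subset_closure (Or.inr ⟨b, a, ?_⟩)
    unfold cm
    group
  letI : CommGroup (G ⧸ Ph p G) := { (inferInstance : Group (G ⧸ Ph p G)) with mul_comm := hcomm }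
  have hQ : ∀ a : G ⧸ Ph p G, a ^ p = 1 := by
    intro a
    obtain ⟨a, rfl⟩ := QuotientGroup.mk_surjective a
    rw [← QuotientGroup.mk_pow, QuotientGroup.eq_one_iff]
    exact subset_closure (Or.inl ⟨a, rfl⟩)
  have hcq : Nat.card (G ⧸ Ph p G) = p ^ d := by
    have h1 := Subgroup.card_eq_card_quotient_mul_card_subgroup (Ph p G)
    rw [hc, hp, pow_add] at h1
    exact (Nat.eq_of_mul_eq_mul_right (by positivity) h1).symm
  have hiff : ∀ x : Fin d → G, closure (Set.range x) = ⊤ ↔
      closure (Set.range fun i => (QuotientGroup.mk (x i) : G ⧸ Ph p G)) = ⊤ := by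
    intro x
    have hmap : (closure (Set.range x)).map (QuotientGroup.mk' (Ph p G)) =
        closure (Set.range fun i => (QuotientGroup.mk (x i) : G ⧸ Ph p G)) := by
      rw [MonoidHom.map_closure, ← Set.range_comp]
      rfl
    constructor
    · intro h1
      rw [← hmap, h1]
      exact Subgroup.map_top_of_surjective _ (QuotientGroup.mk'_surjective _)
    · intro h1
      refine gen_iff_quot h x _ rfl fun a => ?_
      have h2 : (QuotientGroup.mk a : G ⧸ Ph p G) ∈ (closure (Set.range x)).map (QuotientGroup.mk' (Ph p G)) := by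
        rw [hmap, h1]
        trivial
      obtain ⟨k, hk, hka⟩ := h2
      refine ⟨k, hk, k⁻¹ * a, ?_, by group⟩
      exact QuotientGroup.eq.1 hka
  have key : {x : Fin d → G // closure (Set.range x) = ⊤} ≃
      {y : Fin d → G ⧸ Ph p G // closure (Set.range y) = ⊤} × (Fin d → Ph p G) :=
    { toFun := fun x => (⟨fun i => QuotientGroup.mk (x.1 i), (hiff x.1).1 x.2⟩,
        fun i => ⟨((QuotientGroup.mk (x.1 i) : G ⧸ Ph p G).out)⁻¹ * x.1 i,
          QuotientGroup.eq.1 (QuotientGroup.out_eq' _)⟩)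
      invFun := fun t => ⟨fun i => (t.1.1 i).out * (t.2 i : G), by
        rw [hiff]
        have h1 : (fun i => (QuotientGroup.mk ((t.1.1 i).out * (t.2 i : G)) : G ⧸ Ph p G)) = t.1.1 := by
          funext i
          rw [QuotientGroup.mk_mul_of_mem _ (t.2 i).2, QuotientGroup.out_eq']
        rw [h1]
        exact t.1.2⟩
      left_inv := by
        intro x
        ext i
        simp
      right_inv := by
        rintro ⟨⟨y, hy⟩, z⟩
        have h1 : ∀ i, (QuotientGroup.mk ((y i).out * (z i : G)) : G ⧸ Ph p G) = y i := by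
          intro i
          rw [QuotientGroup.mk_mul_of_mem _ (z i).2, QuotientGroup.out_eq']
        refine Prod.ext (Subtype.ext (funext h1)) (funext fun i => Subtype.ext ?_)
        show ((QuotientGroup.mk ((y i).out * (z i : G)) : G ⧸ Ph p G).out)⁻¹ * ((y i).out * (z i : G)) = z i
        rw [h1 i]
        group }
  have h1 : Set.ncard {x : Fin d → G | closure (Set.range x) = ⊤} =
      Nat.card {x : Fin d → G // closure (Set.range x) = ⊤} := rfl
  rw [h1, Nat.card_congr key, Nat.card_prod, G5_aux hQ hcq, Nat.card_fun, hp, Nat.card_eq_fintype_card, Fintype.card_fin,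
    ← pow_mul, mul_comm, mul_comm e d]

end Pool.Agent.RG
end

section

/-!
# RG G6: the number of the isomorphisms of `F_p ^ e` onto `Ph`

PROOF of `card_th`.  `P = Ph p G` is commutative with `g ^ p = 1` (`ph_central`, `ph_pow`): `M = Additive P` is a vector space over `F_p` with `p ^ e` elements, of dimension `e`.
The maps `th` correspond to the injective additive maps `F_p ^ e → M`, i.e. the injective linear maps (`AddMonoidHom.toZModLinearMap`), and these to the linearly independent `e`-tuples `a ↦ th (Pi.single a 1)` in `M`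
(`LinearMap.ker_eq_bot`, `Fintype.linearIndependent_iff`; `Pi.basisFun`, `Module.Basis.constr`): their number is `∏ i : Fin e, (p ^ e - p ^ i)` (`card_linearIndependent`) `= bet p e`.

-/

set_option autoImplicit false

namespace Pool.Agent.RG

open Subgroup

private theorem G6_finrank {p e : ℕ} [hpp : Fact p.Prime] {M : Type} [AddCommGroup M]
    [Module (ZMod p) M] [Finite M] (hM : Nat.card M = p ^ e) : Module.finrank (ZMod p) M = e := by
  have h := Module.natCard_eq_pow_finrank (K := ZMod p) (V := M)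
  rw [Nat.card_zmod, hM] at h
  exact (Nat.pow_right_injective hpp.out.two_le h).symm

private theorem G6_indep {p e : ℕ} [Fact p.Prime] {M : Type} [AddCommGroup M]
    [Module (ZMod p) M] (f : (Fin e → ZMod p) → M) (h1 : ∀ v w, f (v + w) = f v + f w)
    (h2 : Function.Injective f) : LinearIndependent (ZMod p) fun i => f (Pi.single i 1) := by
  have h3 : LinearMap.ker (AddMonoidHom.toZModLinearMap p (AddMonoidHom.mk' f h1)) = ⊥ :=
    LinearMap.ker_eq_bot.2 h2
  have h4 := (Pi.basisFun (ZMod p) (Fin e)).linearIndependent.map' _ h3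
  have h5 : (AddMonoidHom.toZModLinearMap p (AddMonoidHom.mk' f h1)) ∘
      (Pi.basisFun (ZMod p) (Fin e)) = fun i => f (Pi.single i 1) := by
    funext i
    simp only [Function.comp_apply, Pi.basisFun_apply]
    rfl
  rw [h5] at h4
  exact h4

private theorem G6_sum {p e : ℕ} [Fact p.Prime] {M : Type} [AddCommGroup M]
    [Module (ZMod p) M] (f : (Fin e → ZMod p) → M) (h1 : ∀ v w, f (v + w) = f v + f w)
    (v : Fin e → ZMod p) : f v = ∑ i, v i • f (Pi.single i 1) := by
  have h := LinearMap.pi_apply_eq_sum_univ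
    (AddMonoidHom.toZModLinearMap p (AddMonoidHom.mk' f h1)) v
  have h' : f v = ∑ i, v i • f (fun j => if i = j then (1 : ZMod p) else 0) := h
  rw [h']
  refine Finset.sum_congr rfl fun i _ => ?_
  congr 2
  funext j
  by_cases hij : i = j
  · subst hij
    simp
  · rw [if_neg hij, Pi.single_eq_of_ne (fun h => hij h.symm)]

private theorem G6_count {p e : ℕ} [hpp : Fact p.Prime] {M : Type} [AddCommGroup M]
    [Module (ZMod p) M] [Finite M] (hM : Nat.card M = p ^ e) :
    Nat.card {f : (Fin e → ZMod p) → M // (∀ v w, f (v + w) = f v + f w) ∧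
      Function.Injective f} = bet p e := by
  have hfr := G6_finrank hM
  have hcard := card_linearIndependent (K := ZMod p) (V := M) (k := e) (le_of_eq hfr.symm)
  rw [hfr, ZMod.card] at hcard
  unfold bet
  rw [Finset.prod_range, ← hcard]
  refine Nat.card_congr
    { toFun := fun f => ⟨fun i => f.1 (Pi.single i 1), G6_indep f.1 f.2.1 f.2.2⟩
      invFun := fun s => ⟨fun v => ∑ i, v i • s.1 i, ?_, ?_⟩
      left_inv := ?_
      right_inv := ?_ }
  · intro v w
    simp only [Pi.add_apply, add_smul, Finset.sum_add_distrib]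
  · intro v w hvw
    have h1 := Fintype.linearIndependent_iff.1 s.2 (fun i => v i - w i) (by
      simp only [sub_smul, Finset.sum_sub_distrib]
      exact sub_eq_zero.2 hvw)
    funext i
    exact sub_eq_zero.1 (h1 i)
  · intro f
    apply Subtype.ext
    funext v
    exact (G6_sum f.1 f.2.1 v).symm
  · intro s
    apply Subtype.ext
    funext i
    show ∑ j, (Pi.single i (1 : ZMod p) : Fin e → ZMod p) j • s.1 j = s.1 i
    rw [Finset.sum_eq_single i]
    · rw [Pi.single_eq_same, one_smul]
    · intro j _ hj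
      rw [Pi.single_eq_of_ne hj, zero_smul]
    · intro hi
      exact absurd (Finset.mem_univ i) hi

theorem card_th {p : ℕ} [Fact p.Prime] {G : Type} [Group G] [Finite G] {e : ℕ} (h : PC2 p G)
    (hp : Nat.card (Ph p G) = p ^ e) :
    Set.ncard {th : (Fin e → ZMod p) → G | (∀ v w, th (v + w) = th v * th w) ∧
      Function.Injective th ∧ ∀ v, th v ∈ Ph p G} = bet p e := by
  let iC : CommGroup (Ph p G) :=
    { (inferInstance : Group (Ph p G)) with
      mul_comm := fun a b => Subtype.ext (ph_central h a.2 b.1) }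
  let iM : Module (ZMod p) (Additive (Ph p G)) := AddCommGroup.zmodModule (n := p) (fun x => by
    apply Additive.toMul.injective
    apply Subtype.ext
    exact ph_pow h (Additive.toMul x).2)
  have hM : Nat.card (Additive (Ph p G)) = p ^ e := hp
  have hcount := G6_count (p := p) (e := e) (M := Additive (Ph p G)) hM
  rw [← hcount, ← Nat.card_coe_set_eq]
  refine Nat.card_congr
    { toFun := fun th => ⟨fun v => Additive.ofMul ⟨th.1 v, th.2.2.2 v⟩, ?_, ?_⟩
      invFun := fun f => ⟨fun v => (Additive.toMul (f.1 v)).1, ?_, ?_, ?_⟩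
      left_inv := ?_
      right_inv := ?_ }
  · intro v w
    apply Additive.toMul.injective
    apply Subtype.ext
    exact th.2.1 v w
  · intro v w hvw
    have h1 := congrArg (fun x => (Additive.toMul x).1) hvw
    exact th.2.2.1 h1
  · intro v w
    beta_reduce
    rw [f.2.1 v w]
    rfl
  · intro v w hvw
    apply f.2.2
    apply Additive.toMul.injective
    exact Subtype.ext hvw
  · intro v
    exact (Additive.toMul (f.1 v)).2
  · intro th
    rfl
  · intro f
    rfl

end Pool.Agent.RG
end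

section

/-!
# RG Q3: change of the basis of `F_p ^ e`

PROOFS.  `change`: all fields by the linearity of `A` and `A.symm` (`A.symm (A v) = v`).  `Gd.change`: `A 0 = 0`; the span of the image of a family which spans is everything
(`Submodule.map_span`, `A` surjective, `Set.range_comp`).
`exists_basis`: the family `fun q : Ins d 0 => b q.1.1 q.1.2` spans `Fin e → ZMod p`; choose from it a basis: `exists_linearIndependent` / `Module.Basis.extend`-type lemma, or
`Submodule.exists_fun_fin_finrank_span_eq`; e.g. a subset `t` of the range which is linearly independent with the same span (`exists_linearIndependent`), it has `e` elements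
(`finrank`), reindex by `Fin e`, choose preimages `q a`.  `A` = the coordinate map of the basis (`Module.Basis.equivFun`), `A (b (q a)) = Pi.single a 1`
(`Module.Basis.equivFun_self` or `repr_self`).
-/

set_option autoImplicit false

namespace Pool.Agent.RG

open Subgroup

variable {p : ℕ} [Fact p.Prime] {d e : ℕ} {b : Fin d → Fin d → Fin e → ZMod p}

theorem Mk.change {G : Type} [Group G] {x : Fin d → G}
    {th : (Fin e → ZMod p) → G} {pi : Fin d → Fin e → ZMod p} (h : Mk p x th pi b)
    (A : (Fin e → ZMod p) ≃ₗ[ZMod p] (Fin e → ZMod p)) :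
    Mk p x (fun v => th (A.symm v)) (fun i => A (pi i)) (fun i j => A (b i j)) := by
  refine ⟨h.gen, ?_, ?_, ?_, ?_, h.card⟩
  · intro v w
    show th (A.symm (v + w)) = th (A.symm v) * th (A.symm w)
    rw [map_add, h.add]
  · intro v g
    exact h.cen _ g
  · intro i
    show x i ^ p = th (A.symm (A (pi i)))
    rw [A.symm_apply_apply]
    exact h.pw i
  · intro i j
    show cm (x i) (x j) = th (A.symm (A (b i j)))
    rw [A.symm_apply_apply]
    exact h.cmm i j

private theorem Q3_span {ι : Type} (A : (Fin e → ZMod p) ≃ₗ[ZMod p] (Fin e → ZMod p))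
    (f : ι → Fin e → ZMod p) (hf : Submodule.span (ZMod p) (Set.range f) = ⊤) :
    Submodule.span (ZMod p) (Set.range fun i => A (f i)) = ⊤ := by
  have h1 : (Set.range fun i => A (f i)) = (A : (Fin e → ZMod p) →ₗ[ZMod p] (Fin e → ZMod p)) '' (Set.range f) := by
    rw [← Set.range_comp]
    rfl
  rw [h1, Submodule.span_image, hf, Submodule.map_top]
  exact LinearMap.range_eq_top.mpr A.surjective

theorem Gd.change (h : Gd p b) (A : (Fin e → ZMod p) ≃ₗ[ZMod p] (Fin e → ZMod p)) :
    Gd p (fun i j => A (b i j)) := by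
  refine ⟨?_, ?_, ?_⟩
  · intro a j ha hj
    show A (b a j) = 0
    rw [h.zer a j ha hj, map_zero]
  · intro a ha
    exact Q3_span A (fun j : Out d a.val => b a j.1) (h.spo a ha)
  · intro r hr
    exact Q3_span A (fun q : Ins d r => b q.1.1 q.1.2) (h.spi r hr)

theorem exists_basis (h : Gd p b) :
    ∃ (A : (Fin e → ZMod p) ≃ₗ[ZMod p] (Fin e → ZMod p)) (q : Fin e → Ins d 0),
      ∀ a, A (b (q a).1.1 (q a).1.2) = Pi.single a 1 := by
  have hs := h.spi 0 (by norm_num)
  obtain ⟨t, htsub, hspan, hli⟩ := exists_linearIndependent (ZMod p)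
    (Set.range fun q : Ins d 0 => b q.1.1 q.1.2)
  rw [hs] at hspan
  have hr : Set.range ((↑) : t → (Fin e → ZMod p)) = t := Subtype.range_coe
  let B : Module.Basis t (ZMod p) (Fin e → ZMod p) :=
    Module.Basis.mk hli (by rw [hr, hspan])
  have hB : ∀ i : t, B i = (i : Fin e → ZMod p) := fun i => Module.Basis.mk_apply hli _ i
  have : Fintype t := Module.Basis.fintypeIndexOfRankLtAleph0 B (Module.rank_lt_aleph0 _ _)
  have hcard : Fintype.card t = e := by
    have h1 := Module.finrank_eq_card_basis B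
    rw [Module.finrank_fin_fun] at h1
    exact h1.symm
  let E : t ≃ Fin e := Fintype.equivFinOfCardEq hcard
  let C : Module.Basis (Fin e) (ZMod p) (Fin e → ZMod p) := B.reindex E
  have hC : ∀ a, C a = ((E.symm a : t) : Fin e → ZMod p) := by
    intro a
    show (B.reindex E) a = _
    rw [Module.Basis.reindex_apply, hB]
  have hq : ∀ a : Fin e, ∃ q : Ins d 0, b q.1.1 q.1.2 = C a := by
    intro a
    obtain ⟨q, hq⟩ := htsub (E.symm a).2
    exact ⟨q, by rw [hC]; exact hq⟩
  choose q hq using hq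
  refine ⟨C.equivFun, q, fun a => ?_⟩
  rw [hq a]
  ext j
  rw [Module.Basis.equivFun_self, Pi.single_apply]
  by_cases hj : a = j
  · rw [if_pos hj, if_pos hj.symm]
  · rw [if_neg hj, if_neg (fun h => hj h.symm)]

end Pool.Agent.RG
end

section

/-!
# RG Q4: change of the generators

PROOF of `cm_mul_left`, `cm_mul_right`: for central commutators `cm (a a') c = cm a c * cm a' c` (direct computation, `cm a b = a⁻¹ b⁻¹ a b`:
`cm (a a') c = a'⁻¹ (cm a c) a' (cm a' c)`; `cm a (c c') = (cm a c') c'⁻¹ (cm a c) c'`).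
PROOF of `act`.  `x' i = (List.ofFn fun k => x k ^ (g k i).val).prod`.  `cmm`: by bilinearity `cm (x' i) (x' j) = ∏_k ∏_l cm (x k) (x l) ^ ((g k i).val (g l j).val)` (all factors in the
range of `th`) `= th (act g b i j)`.  (Suggestion: define `β : G → G → (Fin e → ZMod p)` with `cm a c = th (β a c)` by `cm_mem` and choice; by `inj` `β` is additive in both arguments, so
`β (x k ^ n) c = n • β (x k) c`, and `β` of a product over a list is the sum.)
`pw`: `pow_mem`.  `card`, `add`, `cen`: the same.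
`gen`: let `K = closure (range x')`, `θ` as in `theta`.  `θ (x' i)` is the `i`-th column of `g`: `∑ k, g k i • single k 1`.  The columns span (`g` invertible: `g * h = 1`: the unit vector `m` is
`∑ i, h i m •` column `i`), so `θ K` is everything: every `a ∈ G` is `k * th v` with `k ∈ K`.  So for all `a = k th v`, `a' = k' th v'`: `cm a a' = cm k k' ∈ K` and
`a ^ p = k ^ p (th v) ^ p = k ^ p ∈ K`: `Ph p G ≤ K`.  By `ph` all `th v ∈ K`, so `K = ⊤`.
-/

set_option autoImplicit false

namespace Pool.Agent.RG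

open Subgroup

theorem cm_mul_left {G : Type} [Group G] {a a' c : G} (h : ∀ g, cm a c * g = g * cm a c) :
    cm (a * a') c = cm a c * cm a' c := by
  have h1 : cm (a * a') c = a'⁻¹ * (cm a c * a') * cm a' c := by
    unfold cm
    group
  rw [h1, h a']
  group

theorem cm_mul_right {G : Type} [Group G] {a c c' : G} (h : ∀ g, cm a c * g = g * cm a c) :
    cm a (c * c') = cm a c * cm a c' := by
  have h1 : cm a (c * c') = cm a c' * (c'⁻¹ * (cm a c * c')) := by
    unfold cm
    group
  rw [h1, h c', inv_mul_cancel_left, h]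

/-- the commutator form -/
private theorem Q4_form {p : ℕ} [Fact p.Prime] {G : Type} [Group G] {d e : ℕ} {x : Fin d → G}
    {th : (Fin e → ZMod p) → G} {pi : Fin d → Fin e → ZMod p} {b : Fin d → Fin d → Fin e → ZMod p}
    (h : Mk p x th pi b) : ∃ β : G → G → (Fin e → ZMod p), (∀ a c, cm a c = th (β a c)) ∧
      (∀ a a' c, β (a * a') c = β a c + β a' c) ∧ (∀ a c c', β a (c * c') = β a c + β a c') ∧
      (∀ i j, β (x i) (x j) = b i j) ∧ (∀ v c, β (th v) c = 0) ∧ ∀ v c, β c (th v) = 0 := by
  choose β hβ using h.cm_mem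
  have hcen : ∀ a c g, cm a c * g = g * cm a c := fun a c g => by
    rw [hβ a c]; exact h.cen _ _
  refine ⟨β, hβ, ?_, ?_, ?_, ?_, ?_⟩
  · intro a a' c
    apply h.inj
    rw [h.add, ← hβ, ← hβ, ← hβ, cm_mul_left (hcen a c)]
  · intro a c c'
    apply h.inj
    rw [h.add, ← hβ, ← hβ, ← hβ, cm_mul_right (hcen a c)]
  · intro i j
    apply h.inj
    rw [← hβ, h.cmm]
  · intro v c
    apply h.inj
    rw [← hβ, h.zero]
    unfold cm
    rw [mul_assoc ((th v)⁻¹) c⁻¹, ← h.cen v c⁻¹]
    group
  · intro v c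
    apply h.inj
    rw [← hβ, h.zero]
    unfold cm
    rw [mul_assoc (c⁻¹ * (th v)⁻¹), ← h.cen v c]
    group

private theorem Q4_sum {p : ℕ} [Fact p.Prime] {G : Type} [Group G] {d e : ℕ}
    (f : G → (Fin e → ZMod p)) (hf : ∀ a a', f (a * a') = f a + f a') (x : Fin d → G)
    (c : Fin d → ZMod p) :
    f (List.ofFn fun k => x k ^ (c k).val).prod = ∑ k, c k • f (x k) := by
  let F : G →* Multiplicative (Fin e → ZMod p) :=
    MonoidHom.mk' (fun a => Multiplicative.ofAdd (f a)) (fun a a' => by rw [hf]; rfl)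
  have h1 : F (List.ofFn fun k => x k ^ (c k).val).prod =
      Multiplicative.ofAdd (∑ k, c k • f (x k)) := by
    rw [map_list_prod, List.map_ofFn, List.prod_ofFn, ofAdd_sum]
    refine Finset.prod_congr rfl fun k _ => ?_
    rw [Function.comp_apply, map_pow]
    show (Multiplicative.ofAdd (f (x k))) ^ (c k).val = Multiplicative.ofAdd (c k • f (x k))
    rw [← ofAdd_nsmul]
    congr 1
    conv_rhs => rw [← ZMod.natCast_zmod_val (c k)]
    rw [Nat.cast_smul_eq_nsmul]
  exact congrArg Multiplicative.toAdd h1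

theorem Mk.act {p : ℕ} [Fact p.Prime] {G : Type} [Group G] {d e : ℕ} {x : Fin d → G}
    {th : (Fin e → ZMod p) → G} {pi : Fin d → Fin e → ZMod p} {b : Fin d → Fin d → Fin e → ZMod p}
    (h : Mk p x th pi b) (g : Matrix (Fin d) (Fin d) (ZMod p)) (hg : IsUnit g) :
    ∃ (x' : Fin d → G) (pi' : Fin d → Fin e → ZMod p), Mk p x' th pi' (RG.act g b) := by
  obtain ⟨β, hβ, hβl, hβr, hβx, hβ0, hβ0'⟩ := Q4_form h
  obtain ⟨θ, hθx, hθ1⟩ := h.theta
  set x' : Fin d → G := fun i => (List.ofFn fun k => x k ^ (g k i).val).prod with hx'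
  choose pi' hpi' using fun i => h.pow_mem (x' i)
  refine ⟨x', pi', ?_, h.add, h.cen, hpi', ?_, h.card⟩
  · -- generation
    obtain ⟨gu, hgu⟩ := hg
    have hinv : g * (gu⁻¹ : (Matrix (Fin d) (Fin d) (ZMod p))ˣ) = 1 := by
      rw [← hgu]
      exact gu.mul_inv
    set K := closure (Set.range x') with hK
    set f : G → (Fin d → ZMod p) := fun a => Multiplicative.toAdd (θ a) with hf
    have hfm : ∀ a a', f (a * a') = f a + f a' := fun a a' => by
      rw [hf]
      simp only [map_mul, toAdd_mul]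
    have hfx : ∀ i, f (x i) = Pi.single i 1 := fun i => by
      rw [hf]
      simp only [hθx, toAdd_ofAdd]
    have hfx' : ∀ i, f (x' i) = fun k => g k i := by
      intro i
      rw [hx']
      show f (List.ofFn fun k => x k ^ (g k i).val).prod = _
      rw [Q4_sum f hfm x fun k => g k i]
      funext m
      rw [Finset.sum_apply]
      simp only [hfx, Pi.smul_apply, smul_eq_mul, Pi.single_apply, mul_ite, mul_one, mul_zero]
      rw [Finset.sum_ite_eq Finset.univ m fun k => g k i]
      simp
    have hdec : ∀ a : G, ∃ k ∈ K, ∃ v, a = k * th v := by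
      intro a
      set u : Fin d → ZMod p := Matrix.mulVec (gu⁻¹ : (Matrix (Fin d) (Fin d) (ZMod p))ˣ) (f a) with hu
      set k := (List.ofFn fun i => x' i ^ (u i).val).prod with hk
      have hkK : k ∈ K := by
        rw [hk]
        refine Subgroup.list_prod_mem K fun y hy => ?_
        rw [List.mem_ofFn] at hy
        obtain ⟨i, rfl⟩ := hy
        exact K.pow_mem (subset_closure ⟨i, rfl⟩) _
      have hfk : f k = f a := by
        rw [hk, Q4_sum f hfm x' u]
        have h1 : ∑ i, u i • f (x' i) = Matrix.mulVec g u := by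
          funext m
          rw [Finset.sum_apply, Matrix.mulVec, dotProduct]
          refine Finset.sum_congr rfl fun i _ => ?_
          rw [hfx', Pi.smul_apply, smul_eq_mul, mul_comm]
        rw [h1, hu, Matrix.mulVec_mulVec, hinv, Matrix.one_mulVec]
      have h2 : θ (k⁻¹ * a) = 1 := by
        rw [map_mul, map_inv]
        have h3 : θ k = θ a := hfk
        rw [h3, inv_mul_cancel]
      obtain ⟨v, hv⟩ := (hθ1 _).1 h2
      exact ⟨k, hkK, v, by rw [← hv]; group⟩
    have hPh : Ph p G ≤ K := by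
      unfold Ph
      rw [closure_le]
      rintro y (⟨a, rfl⟩ | ⟨a, a', rfl⟩)
      · obtain ⟨k, hk, v, rfl⟩ := hdec a
        have hc : Commute k (th v) := (h.cen v k).symm
        show (k * th v) ^ p ∈ K
        rw [hc.mul_pow, h.pow_p, mul_one]
        exact K.pow_mem hk _
      · obtain ⟨k, hk, v, rfl⟩ := hdec a
        obtain ⟨k', hk', v', rfl⟩ := hdec a'
        show cm (k * th v) (k' * th v') ∈ K
        rw [hβ, hβl, hβr, hβr, hβ0, hβ0, hβ0', add_zero, add_zero, add_zero, ← hβ]
        unfold cm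
        exact K.mul_mem (K.mul_mem (K.mul_mem (K.inv_mem hk) (K.inv_mem hk')) hk) hk'
    rw [eq_top_iff]
    intro a _
    obtain ⟨k, hk, v, rfl⟩ := hdec a
    exact K.mul_mem hk (hPh ((h.ph _).2 ⟨v, rfl⟩))
  · intro i j
    rw [hβ]
    congr 1
    show β (List.ofFn fun k => x k ^ (g k i).val).prod (x' j) = _
    rw [Q4_sum (fun a => β a (x' j)) (fun a a' => hβl a a' _) x fun k => g k i]
    unfold RG.act
    refine Finset.sum_congr rfl fun k _ => ?_
    show g k i • β (x k) (List.ofFn fun l => x l ^ (g l j).val).prod = _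
    rw [Q4_sum (fun c => β (x k) c) (fun c c' => hβr _ c c') x fun l => g l j, Finset.smul_sum]
    refine Finset.sum_congr rfl fun l _ => ?_
    rw [hβx, smul_smul]

end Pool.Agent.RG
end

section

/-!
# RG C1: the core of Theorem B: the subgroup `Z` is central

`cm a b = a⁻¹ b⁻¹ a b`.  The special generators are `X a`, `a.val < 3`, and `part a = a` for them (`Nat.mod_eq_of_lt`).
PROOF.
(1) `X a` (`a.val < 3`) commutes with every `z ∈ Z`: by `h3` it commutes with `X i`, `X j` if `part i = part j = a.val` (`cm s x = 1` means `s x = x s`), so with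
`cm (X i) (X j)`; use `h5` with `r = a.val` and `Subgroup.closure_induction` (or: the centralizer of `X a` contains the generators).
(2) Let `y = X j` be any generator, `a : Fin d` the special index with value `part j` (`part j < 3 ≤ d`), `s = X a`.  By `h3` `s` and `y` commute.  Let `x = X k` and
`c = cm x y ∈ Z` (`h1`).  `y⁻¹ (cm s x) y = cm s (y⁻¹ x y) = cm s (x c)`, and as `s` commutes with `c` (1), `cm s (x c) = c⁻¹ (cm s x) c`.  So
`y⁻¹ (cm s x) y = c⁻¹ (cm s x) c ∈ Z`.  By `h4` and induction over the closure: `y⁻¹ z y ∈ Z` for all `z ∈ Z`.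
(3) also `y z y⁻¹ ∈ Z`: `y ^ p ∈ Z`, so `z' = y ^ p z y ^ (-p) ∈ Z`, and `y z y⁻¹ = y ^ (-(p-1)) z' y ^ (p-1) ∈ Z` by (2), `p - 1` times (`p ≥ 1`).
So all generators normalise `Z` and `Z` is normal (the set of the `g` with `g z g⁻¹ ∈ Z`, `g⁻¹ z g ∈ Z` for all `z ∈ Z` is a subgroup: `Subgroup.normalizer`).
(4) `Z` is commutative: take `a = 0`, `s = X 0` (here `3 ≤ d`).  `s` commutes with `Z`.  `x⁻¹ s x` commutes with `Z`, because `Z` is normal.  So
`cm s x = s⁻¹ (x⁻¹ s x)` commutes with `Z`; by `h4` for `a = 0` every element of `Z` does.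
(5) by (2) and (4): `y⁻¹ (cm s x) y = c⁻¹ (cm s x) c = cm s x`.  By `h4` `y` commutes with every element of `Z`.  By `hX` everything does.
-/

set_option autoImplicit false

namespace Pool.Agent.RG

open Subgroup

/-- (2) -/
theorem cm_conj {H : Type} [Group H] {s x y : H} (h1 : s * y = y * s)
    (h2 : s * cm x y = cm x y * s) : y⁻¹ * cm s x * y = (cm x y)⁻¹ * cm s x * cm x y := by
  have e1 : y⁻¹ * s * y = s := by
    rw [mul_assoc, h1, inv_mul_cancel_left]
  have e2 : y⁻¹ * x * y = x * cm x y := by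
    unfold cm
    group
  have e3 : s⁻¹ * (cm x y)⁻¹ = (cm x y)⁻¹ * s⁻¹ := by
    rw [← mul_inv_rev, ← mul_inv_rev, h2]
  calc y⁻¹ * cm s x * y = (y⁻¹ * s * y)⁻¹ * (y⁻¹ * x * y)⁻¹ * (y⁻¹ * s * y) * (y⁻¹ * x * y) := by
        unfold cm
        group
    _ = s⁻¹ * (x * cm x y)⁻¹ * s * (x * cm x y) := by rw [e1, e2]
    _ = (s⁻¹ * (cm x y)⁻¹) * x⁻¹ * s * x * cm x y := by
        rw [mul_inv_rev]
        simp only [mul_assoc]
    _ = ((cm x y)⁻¹ * s⁻¹) * x⁻¹ * s * x * cm x y := by rw [e3]
    _ = (cm x y)⁻¹ * cm s x * cm x y := by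
        show _ = (cm x y)⁻¹ * (s⁻¹ * x⁻¹ * s * x) * cm x y
        simp only [mul_assoc]

private theorem C1_comm {H : Type} [Group H] {a b : H} (h : cm a b = 1) : Commute a b := by
  unfold cm at h
  have h1 : a * b = (a⁻¹ * b⁻¹)⁻¹ := by
    rw [eq_inv_iff_mul_eq_one]
    have h2 : a⁻¹ * b⁻¹ * (a * b) = 1 := by rw [← h]; simp only [mul_assoc]
    exact mul_eq_one_comm.1 h2
  rw [mul_inv_rev, inv_inv, inv_inv] at h1
  exact h1

private theorem C1_cm {H : Type} [Group H] {s x y : H} (hx : Commute s x) (hy : Commute s y) : Commute s (cm x y) :=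
  ((hx.inv_right.mul_right hy.inv_right).mul_right hx).mul_right hy

theorem core {H : Type} [Group H] {p d : ℕ} (hp : 1 ≤ p) (hd : 3 ≤ d) (X : Fin d → H)
    (hX : closure (Set.range X) = ⊤) (Z : Subgroup H)
    (h1 : ∀ i j, cm (X i) (X j) ∈ Z) (h2 : ∀ i, X i ^ p ∈ Z)
    (h3 : ∀ a j : Fin d, a.val < 3 → part j = a.val → cm (X a) (X j) = 1)
    (h4 : ∀ a : Fin d, a.val < 3 → Z ≤ closure (Set.range fun j : Out d a.val => cm (X a) (X j.1)))
    (h5 : ∀ r < 3, Z ≤ closure (Set.range fun q : Ins d r => cm (X q.1.1) (X q.1.2))) :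
    Z ≤ center H := by
  -- (1)
  have s1 : ∀ a : Fin d, a.val < 3 → ∀ z ∈ Z, Commute (X a) z := by
    intro a ha z hz
    have h6 : closure (Set.range fun q : Ins d a.val => cm (X q.1.1) (X q.1.2)) ≤ centralizer {X a} := by
      rw [closure_le]
      rintro _ ⟨q, rfl⟩
      show cm (X q.1.1) (X q.1.2) ∈ centralizer {X a}
      rw [mem_centralizer_iff]
      intro g hg
      rw [Set.mem_singleton_iff] at hg
      subst hg
      exact C1_cm (C1_comm (h3 a _ ha q.2.2.2.1)) (C1_comm (h3 a _ ha q.2.2.2.2))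
    have h7 := h6 (h5 a.val ha hz)
    rw [mem_centralizer_iff] at h7
    exact h7 (X a) rfl
  -- the special index of a generator
  have hsp : ∀ j : Fin d, ∃ a : Fin d, a.val < 3 ∧ part j = a.val := by
    intro j
    have h6 : part j < 3 := Nat.mod_lt _ (by norm_num)
    exact ⟨⟨part j, by omega⟩, h6, rfl⟩
  -- (2) for the generators of `Z`
  have s2' : ∀ a j k : Fin d, a.val < 3 → part j = a.val →
      (X j)⁻¹ * cm (X a) (X k) * X j = (cm (X k) (X j))⁻¹ * cm (X a) (X k) * cm (X k) (X j) :=
    fun a j k ha hj => cm_conj (C1_comm (h3 a j ha hj)).eq (s1 a ha _ (h1 k j)).eq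
  have s2 : ∀ j : Fin d, ∀ z ∈ Z, (X j)⁻¹ * z * X j ∈ Z := by
    intro j z hz
    obtain ⟨a, ha, hj⟩ := hsp j
    have h6 : closure (Set.range fun k : Out d a.val => cm (X a) (X k.1)) ≤
        Z.comap (MulAut.conj (X j)⁻¹).toMonoidHom := by
      rw [closure_le]
      rintro _ ⟨k, rfl⟩
      show (MulAut.conj (X j)⁻¹) (cm (X a) (X k.1)) ∈ Z
      rw [MulAut.conj_apply, inv_inv, s2' a j k.1 ha hj]
      exact Z.mul_mem (Z.mul_mem (Z.inv_mem (h1 _ _)) (h1 _ _)) (h1 _ _)
    have h7 : (MulAut.conj (X j)⁻¹) z ∈ Z := h6 (h4 a ha hz)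
    rwa [MulAut.conj_apply, inv_inv] at h7
  have s2n : ∀ (j : Fin d) (n : ℕ), ∀ z ∈ Z, (X j ^ n)⁻¹ * z * X j ^ n ∈ Z := by
    intro j n
    induction n with
    | zero => intro z hz; simpa using hz
    | succ n ih =>
      intro z hz
      have h6 := s2 j _ (ih z hz)
      have h7 : (X j ^ (n + 1))⁻¹ * z * X j ^ (n + 1) = (X j)⁻¹ * ((X j ^ n)⁻¹ * z * X j ^ n) * X j := by
        rw [pow_succ, mul_inv_rev]
        simp only [mul_assoc]
      rw [h7]
      exact h6
  -- (3)
  have s3 : ∀ j : Fin d, ∀ z ∈ Z, X j * z * (X j)⁻¹ ∈ Z := by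
    intro j z hz
    obtain ⟨m, rfl⟩ : ∃ m, p = m + 1 := ⟨p - 1, by omega⟩
    have h6 : X j ^ (m + 1) * z * (X j ^ (m + 1))⁻¹ ∈ Z := Z.mul_mem (Z.mul_mem (h2 j) hz) (Z.inv_mem (h2 j))
    have h7 := s2n j m _ h6
    have h8 : (X j ^ m)⁻¹ * (X j ^ (m + 1) * z * (X j ^ (m + 1))⁻¹) * X j ^ m = X j * z * (X j)⁻¹ := by
      rw [pow_succ, mul_inv_rev]
      simp only [mul_assoc, inv_mul_cancel_left, inv_mul_cancel, mul_one]
    rwa [h8] at h7
  have s3' : ∀ g : H, (∀ z ∈ Z, g * z * g⁻¹ ∈ Z) ∧ (∀ z ∈ Z, g⁻¹ * z * g ∈ Z) := by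
    intro g
    have hg : g ∈ closure (Set.range X) := by rw [hX]; exact mem_top g
    induction hg using closure_induction with
    | mem g hg =>
      obtain ⟨j, rfl⟩ := hg
      exact ⟨s3 j, s2 j⟩
    | one => exact ⟨fun z hz => by simpa using hz, fun z hz => by simpa using hz⟩
    | mul a b _ _ iha ihb =>
      refine ⟨fun z hz => ?_, fun z hz => ?_⟩
      · have h6 := iha.1 _ (ihb.1 z hz)
        have h7 : a * b * z * (a * b)⁻¹ = a * (b * z * b⁻¹) * a⁻¹ := by
          rw [mul_inv_rev]
          simp only [mul_assoc]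
        rwa [h7]
      · have h6 := ihb.2 _ (iha.2 z hz)
        have h7 : (a * b)⁻¹ * z * (a * b) = b⁻¹ * (a⁻¹ * z * a) * b := by
          rw [mul_inv_rev]
          simp only [mul_assoc]
        rwa [h7]
    | inv a _ iha =>
      refine ⟨fun z hz => ?_, fun z hz => ?_⟩
      · have h6 := iha.2 z hz
        rwa [inv_inv]
      · have h6 := iha.1 z hz
        rwa [inv_inv]
  -- (4)
  have s4 : ∀ z ∈ Z, ∀ z' ∈ Z, Commute z z' := by
    intro z hz z' hz'
    have ha : ((⟨0, by omega⟩ : Fin d)).val < 3 := by norm_num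
    set a : Fin d := ⟨0, by omega⟩ with hadef
    have h6 : closure (Set.range fun k : Out d a.val => cm (X a) (X k.1)) ≤ centralizer {z} := by
      rw [closure_le]
      rintro _ ⟨k, rfl⟩
      show cm (X a) (X k.1) ∈ centralizer {z}
      rw [mem_centralizer_iff]
      intro g hg
      rw [Set.mem_singleton_iff] at hg
      subst hg
      have e1 : Commute (X a) g := s1 a ha g hz
      have e2 : Commute ((X k.1)⁻¹ * X a * X k.1) g := by
        have e3 : Commute (X a) (X k.1 * g * (X k.1)⁻¹) := s1 a ha _ ((s3' (X k.1)).1 g hz)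
        show (X k.1)⁻¹ * X a * X k.1 * g = g * ((X k.1)⁻¹ * X a * X k.1)
        have e4 := e3.eq
        calc (X k.1)⁻¹ * X a * X k.1 * g = (X k.1)⁻¹ * (X a * (X k.1 * g * (X k.1)⁻¹)) * X k.1 := by
              simp only [mul_assoc, inv_mul_cancel, mul_one]
          _ = (X k.1)⁻¹ * ((X k.1 * g * (X k.1)⁻¹) * X a) * X k.1 := by rw [e4]
          _ = g * ((X k.1)⁻¹ * X a * X k.1) := by
              simp only [mul_assoc, inv_mul_cancel_left]
      have e5 : cm (X a) (X k.1) = (X a)⁻¹ * ((X k.1)⁻¹ * X a * X k.1) := by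
        unfold cm
        simp only [mul_assoc]
      rw [e5]
      exact ((e1.inv_left.mul_left e2).symm).eq
    have h7 := h6 (h4 a ha hz')
    rw [mem_centralizer_iff] at h7
    exact h7 z rfl
  -- (5)
  have s5 : ∀ j : Fin d, ∀ z ∈ Z, Commute (X j) z := by
    intro j z hz
    obtain ⟨a, ha, hj⟩ := hsp j
    have h6 : closure (Set.range fun k : Out d a.val => cm (X a) (X k.1)) ≤ centralizer {X j} := by
      rw [closure_le]
      rintro _ ⟨k, rfl⟩
      show cm (X a) (X k.1) ∈ centralizer {X j}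
      rw [mem_centralizer_iff]
      intro g hg
      rw [Set.mem_singleton_iff] at hg
      subst hg
      have e1 := s2' a j k.1 ha hj
      have e2 : (cm (X k.1) (X j))⁻¹ * cm (X a) (X k.1) * cm (X k.1) (X j) = cm (X a) (X k.1) := by
        rw [mul_assoc, (s4 _ (h1 a k.1) _ (h1 k.1 j)).eq, inv_mul_cancel_left]
      rw [e2] at e1
      calc X j * cm (X a) (X k.1) = X j * ((X j)⁻¹ * cm (X a) (X k.1) * X j) := by rw [e1]
        _ = cm (X a) (X k.1) * X j := by
            simp only [mul_assoc, mul_inv_cancel_left]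
    have h7 := h6 (h4 a ha hz)
    rw [mem_centralizer_iff] at h7
    exact h7 (X j) rfl
  intro z hz
  rw [mem_center_iff]
  intro g
  have hg : g ∈ closure (Set.range X) := by rw [hX]; exact mem_top g
  have h6 : closure (Set.range X) ≤ centralizer {z} := by
    rw [closure_le]
    rintro _ ⟨j, rfl⟩
    show X j ∈ centralizer {z}
    rw [mem_centralizer_iff]
    intro g hg
    rw [Set.mem_singleton_iff] at hg
    subst hg
    exact (s5 j g hz).symm.eq
  have h7 := h6 hg
  rw [mem_centralizer_iff] at h7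
  exact (h7 z rfl).symm

end Pool.Agent.RG
end

section

/-!
# RG Q5: the group given by the relators has at most `p ^ (d + e)` elements

PROOF.  `L = FreeGroup.lift (fun a => cm (X (q a).1.1) (X (q a).1.2)) : FreeGroup (Fin e) →* H`, `z a = cm (X (q a).1.1) (X (q a).1.2)`, `Z = L.range = closure (range z)` (`range_lift_eq` in AX).
`core` (C1) for `Z`:
 `h1` of `core`: for `i < j` it is `L (w i j)`; `i = j`: `1`; `j < i`: the inverse.  `h2`: hypothesis.
 `h3` of `core`: `a.val < 3`, `part j = a.val`: `j = a` is trivial; `j < a` is impossible (`part j = j.val` then); `a < j`: `hw1`.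
 `h4`, `h5` of `core`: the pairs satisfy `i < j`, so `cm (X i) (X j) = L (w i j)`, and the closure of the `L (w ..)` is the image of the closure of the `w ..`, which is `⊤`
 (`MonoidHom.map_closure`, `Set.range_comp`).
So `Z` is central.  `z a ^ p = cm (X u ^ p) (X v) = 1`: `cm (g ^ n) k = cm g k ^ n` when `cm g k` is central (induction on `n`), and `X u ^ p ∈ Z` is central.
`card_central` (C3).
-/

set_option autoImplicit false

namespace Pool.Agent.RG

open Subgroup

private theorem Q5_pow {H : Type} [Group H] {g k : H} (h : ∀ x, cm g k * x = x * cm g k) (n : ℕ) :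
    cm (g ^ n) k = cm g k ^ n := by
  induction n with
  | zero => simp [cm]
  | succ n ih =>
    have e1 : cm (g ^ (n + 1)) k = g⁻¹ * cm (g ^ n) k * g * cm g k := by
      simp only [cm, pow_succ]
      group
    have e2 : ∀ m : ℕ, cm g k ^ m * g = g * cm g k ^ m := fun m =>
      (Commute.pow_left (h g : Commute (cm g k) g) m).eq
    rw [e1, ih, mul_assoc g⁻¹, e2 n, ← mul_assoc g⁻¹, inv_mul_cancel, one_mul, pow_succ]

theorem card_of_rel {p d e : ℕ} (hp : 1 ≤ p) (hd : 3 ≤ d) {H : Type} [Group H] (X : Fin d → H)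
    (hX : closure (Set.range X) = ⊤) (q : Fin e → Ins d 0) (w : Fin d → Fin d → FreeGroup (Fin e))
    (c : Fin d → FreeGroup (Fin e))
    (hw1 : ∀ a j : Fin d, a.val < 3 → part j = a.val → w a j = 1)
    (hw3 : ∀ a : Fin d, a.val < 3 → closure (Set.range fun j : Out d a.val => w a j.1) = ⊤)
    (hw4 : ∀ r < 3, closure (Set.range fun t : Ins d r => w t.1.1 t.1.2) = ⊤)
    (h1 : ∀ i j, i < j → cm (X i) (X j) =
      FreeGroup.lift (fun a => cm (X (q a).1.1) (X (q a).1.2)) (w i j))
    (h2 : ∀ i, X i ^ p = FreeGroup.lift (fun a => cm (X (q a).1.1) (X (q a).1.2)) (c i)) :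
    Finite H ∧ Nat.card H ≤ p ^ (d + e) := by
  let z : Fin e → H := fun a => cm (X (q a).1.1) (X (q a).1.2)
  let L : FreeGroup (Fin e) →* H := FreeGroup.lift z
  have h1' : ∀ i j, i < j → cm (X i) (X j) = L (w i j) := h1
  have h2' : ∀ i, X i ^ p = L (c i) := h2
  have hrange : L.range = closure (Set.range z) := range_lift_eq z
  have hmem : ∀ i j, cm (X i) (X j) ∈ L.range := by
    intro i j
    rcases lt_trichotomy i j with h | h | h
    · rw [h1' i j h]
      exact ⟨_, rfl⟩
    · subst h
      have e1 : cm (X i) (X i) = 1 := by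
        simp [cm]
      rw [e1]
      exact one_mem _
    · have e1 : cm (X i) (X j) = (cm (X j) (X i))⁻¹ := by
        simp only [cm]
        group
      rw [e1, h1' j i h]
      exact inv_mem ⟨_, rfl⟩
  have hcen : L.range ≤ center H := by
    refine core hp hd X hX L.range hmem ?_ ?_ ?_ ?_
    · intro i
      rw [h2' i]
      exact ⟨_, rfl⟩
    · intro a j ha hj
      rcases lt_trichotomy a j with h | h | h
      · rw [h1' a j h, hw1 a j ha hj, map_one]
      · subst h
        simp [cm]
      · exfalso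
        unfold part at hj
        have h' : j.val < a.val := h
        omega
    · intro a ha
      have e1 : (fun j : Out d a.val => cm (X a) (X j.1)) = L ∘ (fun j : Out d a.val => w a j.1) := by
        funext j
        have hlt : a < j.1 := by
          have := j.2.1
          exact Fin.lt_def.2 (by omega)
        exact h1' a j.1 hlt
      rw [e1, Set.range_comp, ← MonoidHom.map_closure, hw3 a ha, ← MonoidHom.range_eq_map]
    · intro r hr
      have e1 : (fun t : Ins d r => cm (X t.1.1) (X t.1.2)) = L ∘ (fun t : Ins d r => w t.1.1 t.1.2) := by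
        funext t
        exact h1' t.1.1 t.1.2 t.2.2.1
      rw [e1, Set.range_comp, ← MonoidHom.map_closure, hw4 r hr, ← MonoidHom.range_eq_map]
  have hzm : ∀ a, z a ∈ L.range := by
    intro a
    rw [hrange]
    exact subset_closure ⟨a, rfl⟩
  have hzc : ∀ a h, z a * h = h * z a := fun a h =>
    (mem_center_iff.1 (hcen (hzm a)) h).symm
  refine card_central hp X hX z hzc ?_ ?_ ?_
  · intro a
    have e1 : z a ^ p = cm (X (q a).1.1 ^ p) (X (q a).1.2) :=
      (Q5_pow (hzc a) p).symm
    have e2 : X (q a).1.1 ^ p ∈ center H := by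
      rw [h2']
      exact hcen ⟨_, rfl⟩
    have e3 := mem_center_iff.1 e2 (X (q a).1.2)
    rw [e1, cm, mul_assoc, ← e3, mul_assoc, inv_mul_cancel_left, inv_mul_cancel]
  · intro i j
    rw [← hrange]
    exact hmem i j
  · intro i
    rw [← hrange, h2' i]
    exact ⟨_, rfl⟩

end Pool.Agent.RG
end
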