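import Mathlib
import Pool.Agent.Lib.MP_1a39b9_al.Mg.G001

section

/-!
# RG N1: bounds for the number of the bases

PROOF of `bet_le`: every factor is at most `p ^ d`.
PROOF of `le_bet`.  Real numbers, `q = 1 / p ≤ 1 / 2`: `bet p d = ∏_{i < d} p ^ d (1 - q ^ (d - i)) = p ^ (d d) ∏_{k = 1}^{d} (1 - q ^ k)`.  It is enough that
`P_d = ∏_{k=1}^{d} (1 - q ^ k) ≥ 1 / 4`.  For `d ≥ 1` `P_d = (1 - q) R_d`, `R_d = ∏_{k=2}^{d} (1 - q ^ k)`, and `R_d ≥ 1/2 + q ^ d` by induction: `R_1 = 1 ≥ 1/2 + q`;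
`(1/2 + q ^ d) (1 - q ^ (d+1)) ≥ 1/2 + q ^ (d+1)` because, divided by `q ^ d`, `1 ≥ (3/2) q + q ^ (d+1)` (`q ≤ 1/2`, `q ^ (d + 1) ≤ q ^ 2 ≤ 1/4`).
(Reindex with `Finset.prod_range_reflect`; or stay in the natural numbers with `p ^ d - p ^ i`.)
PROOF of `Nmk_le`, `le_Nmk`: `Nmk p d e = p ^ (d e) * bet p d * bet p e`.
-/

set_option autoImplicit false

namespace Pool.Agent.RG

theorem bet_le (p d : ℕ) : bet p d ≤ p ^ (d * d) := by
  unfold bet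
  calc ∏ i ∈ Finset.range d, (p ^ d - p ^ i) ≤ ∏ _i ∈ Finset.range d, p ^ d :=
        Finset.prod_le_prod' fun i _ => Nat.sub_le _ _
    _ = p ^ (d * d) := by rw [Finset.prod_const, Finset.card_range, ← pow_mul]

private theorem N1_R {q : ℝ} (hq0 : 0 ≤ q) (hq : q ≤ 1 / 2) (d : ℕ) :
    1 / 2 + q ^ (d + 1) ≤ ∏ k ∈ Finset.range d, (1 - q ^ (k + 2)) := by
  induction d with
  | zero => simp; linarith
  | succ d ih =>
    rw [Finset.prod_range_succ]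
    have h1 : q ^ (d + 2) ≤ 1 / 4 := by
      calc q ^ (d + 2) = q ^ d * (q * q) := by ring
        _ ≤ 1 * ((1 / 2) * (1 / 2)) := by
            gcongr
            exact pow_le_one₀ hq0 (by linarith)
        _ = 1 / 4 := by norm_num
    have h2 : 0 ≤ q ^ (d + 1) := pow_nonneg hq0 _
    have h3 : (1 / 2 + q ^ (d + 1)) * (1 - q ^ (d + 2)) ≤
        (∏ k ∈ Finset.range d, (1 - q ^ (k + 2))) * (1 - q ^ (d + 2)) := by
      refine mul_le_mul_of_nonneg_right ih ?_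
      linarith
    refine le_trans ?_ h3
    have h4 : (1 / 2 + q ^ (d + 1)) * (1 - q ^ (d + 2)) - (1 / 2 + q ^ (d + 1 + 1)) =
        q ^ (d + 1) * (1 - (3 / 2) * q - q ^ (d + 2)) := by ring
    have h5 : 0 ≤ q ^ (d + 1) * (1 - (3 / 2) * q - q ^ (d + 2)) :=
      mul_nonneg h2 (by linarith)
    linarith

private theorem N1_P {q : ℝ} (hq0 : 0 ≤ q) (hq : q ≤ 1 / 2) (d : ℕ) :
    1 / 4 ≤ ∏ k ∈ Finset.range d, (1 - q ^ (k + 1)) := by
  cases d with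
  | zero => simp; norm_num
  | succ d =>
    rw [Finset.prod_range_succ']
    have h1 := N1_R hq0 hq d
    have h2 : 0 ≤ q ^ (d + 1) := pow_nonneg hq0 _
    have h3 : (1 / 2 : ℝ) ≤ ∏ k ∈ Finset.range d, (1 - q ^ (k + 1 + 1)) := by
      have : ∏ k ∈ Finset.range d, (1 - q ^ (k + 1 + 1)) =
          ∏ k ∈ Finset.range d, (1 - q ^ (k + 2)) := rfl
      rw [this]; linarith
    have h4 : (1 / 2 : ℝ) ≤ 1 - q ^ (0 + 1) := by
      rw [zero_add, pow_one]; linarith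
    calc (1 / 4 : ℝ) = (1 / 2) * (1 / 2) := by norm_num
      _ ≤ _ := mul_le_mul h3 h4 (by norm_num) (by linarith)

private theorem N1_cast {p : ℕ} (hp : 2 ≤ p) (d : ℕ) :
    (bet p d : ℝ) = (p : ℝ) ^ (d * d) * ∏ k ∈ Finset.range d, (1 - (1 / (p : ℝ)) ^ (k + 1)) := by
  have hp0 : (p : ℝ) ≠ 0 := by
    have : 0 < p := by omega
    exact_mod_cast this.ne'
  unfold bet
  rw [Nat.cast_prod]
  have h1 : ∀ i ∈ Finset.range d, ((p ^ d - p ^ i : ℕ) : ℝ) =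
      (p : ℝ) ^ d * (1 - (1 / (p : ℝ)) ^ (d - 1 - i + 1)) := by
    intro i hi
    rw [Finset.mem_range] at hi
    rw [Nat.cast_sub (Nat.pow_le_pow_right (by omega) hi.le)]
    have e : d - 1 - i + 1 = d - i := by omega
    rw [e, Nat.cast_pow, Nat.cast_pow, one_div, inv_pow, mul_sub, mul_one]
    congr 1
    have e2 : (p : ℝ) ^ d = (p : ℝ) ^ i * (p : ℝ) ^ (d - i) := by
      rw [← pow_add]; congr 1; omega
    rw [e2, mul_assoc, mul_inv_cancel₀ (pow_ne_zero _ hp0), mul_one]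
  rw [Finset.prod_congr rfl h1, Finset.prod_mul_distrib, Finset.prod_const, Finset.card_range, ← pow_mul,
    Finset.prod_range_reflect (fun k => 1 - (1 / (p : ℝ)) ^ (k + 1)) d]

theorem le_bet {p : ℕ} (hp : 2 ≤ p) (d : ℕ) : p ^ (d * d) ≤ 4 * bet p d := by
  have hp2 : (2 : ℝ) ≤ p := by exact_mod_cast hp
  have hq0 : (0 : ℝ) ≤ 1 / (p : ℝ) := by positivity
  have hq : 1 / (p : ℝ) ≤ 1 / 2 := by
    rw [one_div, one_div]
    exact inv_anti₀ (by norm_num) hp2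
  have h := N1_P hq0 hq d
  have h1 : ((p ^ (d * d) : ℕ) : ℝ) ≤ ((4 * bet p d : ℕ) : ℝ) := by
    rw [Nat.cast_mul, N1_cast hp d, Nat.cast_pow]
    have h2 : (0 : ℝ) ≤ (p : ℝ) ^ (d * d) := by positivity
    have h3 := mul_le_mul_of_nonneg_left h h2
    push_cast
    linarith
  exact_mod_cast h1

theorem Nmk_le (p d e : ℕ) : Nmk p d e ≤ p ^ (d * e + d * d + e * e) := by
  unfold Nmk
  rw [pow_add, pow_add]
  exact Nat.mul_le_mul (Nat.mul_le_mul le_rfl (bet_le p d)) (bet_le p e)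

theorem le_Nmk {p : ℕ} (hp : 2 ≤ p) (d e : ℕ) :
    p ^ (d * e + d * d + e * e) ≤ 16 * Nmk p d e := by
  unfold Nmk
  rw [pow_add, pow_add]
  calc p ^ (d * e) * p ^ (d * d) * p ^ (e * e) ≤ p ^ (d * e) * (4 * bet p d) * (4 * bet p e) :=
        Nat.mul_le_mul (Nat.mul_le_mul le_rfl (le_bet hp d)) (le_bet hp e)
    _ = 16 * (p ^ (d * e) * bet p d * bet p e) := by ring

end Pool.Agent.RG
end

section

/-!
# RG N3: comparison of the exponents

`3 d < 5 e`, `d + e = n`, i.e. `8 d < 5 n`; `m = n / 3`, `d0 = n - m`, so `m ≥ (n - 2) / 3`, `d0 ≥ 2 m`.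
PROOF (real numbers).  With `t = d / n ∈ [0, 5/8]`: `75/512 - t ^ 2 (1 - t) = (t - 5/8) (t ^ 2 - (3/8) t - 15/64) ≥ 0` (the second factor is convex and negative at `t = 0` and `t = 5/8`).  So
`512 e d ^ 2 ≤ 75 n ^ 3` (state it directly: `512 (n - d) d ^ 2 ≤ 75 n ^ 3` for `0 ≤ 8 d ≤ 5 n`: the difference is `(8 d - 5 n) (64 d ^ 2 - 24 n d - 15 n ^ 2)`).
`m d0 ^ 2 ≥ 4 m ^ 3 ≥ (4 / 27) (n - 2) ^ 3 ≥ (4 / 27) (n ^ 3 - 6 n ^ 2)`, and `4/27 - 75/512 = 23/13824`.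
The claim: `e d ^ 2 + e d + 2 (d0 m + d0 ^ 2 + m ^ 2) + 2 n ≤ 2 d e + 2 (d ^ 2 + e ^ 2) + m d0 ^ 2 + m d0`.  As `e d ≤ 2 d e`, `d0 m + d0 ^ 2 + m ^ 2 ≤ 3 n ^ 2`, it is enough that
`75/512 n ^ 3 + 6 n ^ 2 + 2 n ≤ (4 / 27) (n ^ 3 - 6 n ^ 2)`: true for `n ≥ 10000`.
-/

set_option autoImplicit false

namespace Pool.Agent.RG

theorem exp_ineq {n d e m d0 : ℕ} (hn : 10000 ≤ n) (h : d + e = n) (h2 : 3 * d < 5 * e)
    (hm : m = n / 3) (hd0 : d0 + m = n) :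
    e * (d * (d + 1)) + 2 * (d0 * m + d0 * d0 + m * m) + 2 * n ≤
      2 * (d * e + d * d + e * e) + m * (d0 * (d0 + 1)) := by
  have hm1 : n ≤ 3 * m + 2 := by omega
  have hm2 : 2 * m ≤ d0 := by omega
  clear hm
  zify at *
  have hd : (0 : ℤ) ≤ d := by positivity
  have he : (0 : ℤ) ≤ e := by positivity
  have hmn : (0 : ℤ) ≤ m := by positivity
  have hdn : (0 : ℤ) ≤ d0 := by positivity
  generalize (d : ℤ) = D at *
  generalize (e : ℤ) = E at *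
  generalize (m : ℤ) = M at *
  generalize (d0 : ℤ) = K at *
  generalize (n : ℤ) = N at *
  have hE : E = N - D := by linarith
  have h8 : 8 * D ≤ 5 * N := by linarith
  have hN : (0 : ℤ) ≤ N := by linarith
  have a1 : 64 * D ^ 2 - 24 * N * D - 15 * N ^ 2 ≤ 0 := by
    have b1 : 0 ≤ (5 * N - 8 * D) * (8 * D) := mul_nonneg (by linarith) (by linarith)
    have b2 : 0 ≤ N * (5 * N - 8 * D) := mul_nonneg hN (by linarith)
    nlinarith [b1, b2, mul_nonneg hN hN]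
  have a2 : 0 ≤ (5 * N - 8 * D) * (-(64 * D ^ 2 - 24 * N * D - 15 * N ^ 2)) :=
    mul_nonneg (by linarith) (by linarith)
  have a3 : 512 * (E * D ^ 2) ≤ 75 * N ^ 3 := by
    rw [hE]
    nlinarith [a2]
  have c1 : 4 * M ^ 3 ≤ M * K ^ 2 := by
    have : (2 * M) ^ 2 ≤ K ^ 2 := pow_le_pow_left₀ (by linarith) hm2 2
    have h3 := mul_le_mul_of_nonneg_left this hmn
    nlinarith [h3]
  have c2 : (N - 2) ^ 3 ≤ 27 * M ^ 3 := by
    have : (N - 2) ^ 3 ≤ (3 * M) ^ 3 := pow_le_pow_left₀ (by linarith) (by linarith) 3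
    nlinarith [this]
  have c3 : N ^ 3 - 6 * N ^ 2 ≤ (N - 2) ^ 3 := by
    nlinarith [hn]
  have c4 : 4 * (N ^ 3 - 6 * N ^ 2) ≤ 27 * (M * K ^ 2) := by linarith
  have k1 : K * M + K * K + M * M ≤ N ^ 2 := by
    have : N = K + M := by linarith
    rw [this]
    nlinarith [mul_nonneg hdn hmn]
  have k2 : (0 : ℤ) ≤ D * E := mul_nonneg hd he
  have k3 : (0 : ℤ) ≤ D * D := mul_nonneg hd hd
  have k4 : (0 : ℤ) ≤ E * E := mul_nonneg he he
  have k5 : (0 : ℤ) ≤ M * K := mul_nonneg hmn hdn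
  have g1 : 10000 * N ^ 2 ≤ N ^ 3 := by
    have := mul_le_mul_of_nonneg_right hn (mul_nonneg hN hN)
    nlinarith [this]
  have g2 : 10000 * N ≤ N ^ 2 := by
    have := mul_le_mul_of_nonneg_right hn hN
    nlinarith [this]
  have e1 : E * (D * (D + 1)) = E * D ^ 2 + D * E := by ring
  have e2 : M * (K * (K + 1)) = M * K ^ 2 + M * K := by ring
  rw [e1, e2]
  linarith

end Pool.Agent.RG
end
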