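import Pool.Agent.Lib.MP_1a39b9_al.Mg.G005
import Pool.Agent.Lib.MP_1a39b9_al.Mg.G004

section

/-!
# RG M0: the choice of the final relators

`mo_sig`: `mo I q = rho j` if `j ∉ I`, `sig j = q` (the chosen index has the same `sig`, `D.hsig`); `mo_mem`: `mo I q` is `1` or some
`rho j`, so it is in `(lift x).ker` (`D.hrho`, `Subgroup.subset_normalClosure`).
`T_card`: `Finset.card_union_le`, `Finset.card_image_le`, `Finset.card_univ`.
`T_mem`: every element of `T I` is in `psi.ker`: `D.rel_mem`, `psi_inx`, `mo_mem`.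
`exists_I`: `V = IL p psi.ker` (finite dimensional by `IL_findim` (B2) applied to the family
`Sum.elim D.rel (fun j => inx (rho j))` and `D.claim1`).  `e τ l = l (rel τ)`, `r j l = l (inx (rho j))` (linear), `lam` from
`D.exists_dual`.  `abs_select` gives `I`.  Count: `T_card`.  Separation: let `l ∈ IL`, `l = 0` on `T I`.  Then
`l (inx (rho i)) = 0` for `i ∈ I`, so `l (inx (rho j)) = 0` for all `j`, so `l (inx (mo I q)) = 0` (`IL_one` if it is `1`), so
`l (rel τ) = l (rel' τ) + l (inx (mo ..)) = 0` (`IL_mul`, `IL_inv`).  By `IL_closure` and `D.claim1` `l = 0` on `psi.ker`; outside by definition.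
-/

set_option autoImplicit false

namespace Pool.Agent.RG

open Subgroup

namespace Dat

variable {p : ℕ} {G : Type} [Group G] (D : Dat p G)

theorem rho_mem (j : Fin D.t) : D.rho j ∈ (FreeGroup.lift D.x).ker := by
  rw [← D.hrho]
  exact subset_normalClosure ⟨j, rfl⟩

theorem mo_sig (I : Finset (Fin D.t)) {j : Fin D.t} (hj : j ∉ I) : D.mo I (D.sig j) = D.rho j := by
  classical
  unfold mo
  have h : ∃ j', j' ∉ I ∧ D.sig j' = D.sig j := ⟨j, hj, rfl⟩
  rw [dif_pos h]
  rw [D.hsig h.choose_spec.2]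

theorem mo_cases (I : Finset (Fin D.t)) (q : {q : Fin D.N × Fin D.N // q.1 < q.2}) :
    D.mo I q = 1 ∨ ∃ j, j ∉ I ∧ D.mo I q = D.rho j := by
  classical
  unfold mo
  by_cases h : ∃ j, j ∉ I ∧ D.sig j = q
  · rw [dif_pos h]
    exact Or.inr ⟨h.choose, h.choose_spec.1, rfl⟩
  · rw [dif_neg h]
    exact Or.inl rfl

theorem mo_mem (I : Finset (Fin D.t)) (q : {q : Fin D.N × Fin D.N // q.1 < q.2}) :
    D.mo I q ∈ (FreeGroup.lift D.x).ker := by
  rcases D.mo_cases I q with h | ⟨j, _, h⟩
  · rw [h]
    exact Subgroup.one_mem _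
  · rw [h]
    exact D.rho_mem j

theorem T_card (I : Finset (Fin D.t)) :
    (D.T I).card ≤ Fintype.card (RI D.k D.N D.nb) + I.card := by
  classical
  unfold T
  refine (Finset.card_union_le _ _).trans (add_le_add ?_ Finset.card_image_le)
  refine Finset.card_image_le.trans (le_of_eq ?_)
  rw [Finset.card_univ]

private theorem M0_inx_mem {w : FreeGroup (Fin D.k)} (hw : w ∈ (FreeGroup.lift D.x).ker) :
    inx D.k D.N w ∈ D.psi.ker := by
  rw [MonoidHom.mem_ker, D.psi_inx]
  exact hw

theorem T_mem (I : Finset (Fin D.t)) : ∀ f ∈ D.T I, f ∈ D.psi.ker := by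
  classical
  intro f hf
  unfold T at hf
  rcases Finset.mem_union.1 hf with hf | hf
  · obtain ⟨τ, _, rfl⟩ := Finset.mem_image.1 hf
    rcases τ with ⟨i, j⟩ | q | i
    · exact D.rel_mem (.inl (i, j))
    · exact Subgroup.mul_mem _ (D.rel_mem (.inr (.inl q)))
        (Subgroup.inv_mem _ (D.M0_inx_mem (D.mo_mem I q)))
    · exact D.rel_mem (.inr (.inr i))
  · obtain ⟨j, _, rfl⟩ := Finset.mem_image.1 hf
    exact D.M0_inx_mem (D.rho_mem j)

theorem exists_I [Fact p.Prime] [Finite G] : ∃ I : Finset (Fin D.t),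
    (D.T I).card ≤ Module.finrank (ZMod p) (IL p D.psi.ker) ∧
      ∀ l ∈ IL p D.psi.ker, (∀ f ∈ D.T I, l f = 0) → l = 0 := by
  classical
  have hfin : Module.Finite (ZMod p) (IL p D.psi.ker) := by
    refine IL_findim (τ := RI D.k D.N D.nb ⊕ Fin D.t)
      (Sum.elim D.rel fun j => inx D.k D.N (D.rho j)) ?_
    rw [Set.Sum.elim_range]
    exact D.claim1
  obtain ⟨lam, h1, h2, h3⟩ := D.exists_dual
  let e : RI D.k D.N D.nb → (IL p D.psi.ker) →ₗ[ZMod p] ZMod p := fun τ =>
    (LinearMap.proj (R := ZMod p) (φ := fun _ : FF D.k D.N => ZMod p) (D.rel τ)).comp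
      (Submodule.subtype _)
  let r : Fin D.t → (IL p D.psi.ker) →ₗ[ZMod p] ZMod p := fun j =>
    (LinearMap.proj (R := ZMod p) (φ := fun _ : FF D.k D.N => ZMod p) (inx D.k D.N (D.rho j))).comp
      (Submodule.subtype _)
  obtain ⟨I, hI, hsep⟩ := abs_select e r (fun τ => ⟨lam τ, h1 τ⟩) (fun a b => h2 a b)
    (fun a j => h3 a _ (D.rho_mem j))
  refine ⟨I, (D.T_card I).trans hI, ?_⟩
  intro l hl h
  have hr : ∀ j, l (inx D.k D.N (D.rho j)) = 0 := by
    refine hsep ⟨l, hl⟩ (fun i hi => h _ ?_)
    unfold T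
    exact Finset.mem_union_right _ (Finset.mem_image_of_mem _ hi)
  have hmo : ∀ q, l (inx D.k D.N (D.mo I q)) = 0 := by
    intro q
    rcases D.mo_cases I q with h5 | ⟨j, _, h5⟩
    · rw [h5, map_one]
      exact IL_one hl
    · rw [h5]
      exact hr j
  have hmem : ∀ τ, l (D.rel' I τ) = 0 := by
    intro τ
    refine h _ ?_
    unfold T
    exact Finset.mem_union_left _ (Finset.mem_image_of_mem _ (Finset.mem_univ _))
  have hrel : ∀ τ, l (D.rel τ) = 0 := by
    intro τ
    rcases τ with ⟨i, j⟩ | q | i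
    · exact hmem (.inl (i, j))
    · have h6 : l (D.rel (.inr (.inl q)) * (inx D.k D.N (D.mo I q))⁻¹) = 0 := hmem (.inr (.inl q))
      have h7 := D.M0_inx_mem (D.mo_mem I q)
      rw [IL_mul hl (D.rel_mem _) (Subgroup.inv_mem _ h7), IL_inv hl h7, hmo, neg_zero, add_zero] at h6
      exact h6
    · exact hmem (.inr (.inr i))
  funext f
  by_cases hf : f ∈ D.psi.ker
  · refine IL_closure hl (S := Set.range D.rel ∪ Set.range fun j => inx D.k D.N (D.rho j)) ?_ f ?_
    · rintro s (⟨τ, rfl⟩ | ⟨j, rfl⟩)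
      · exact ⟨D.rel_mem τ, hrel τ⟩
      · exact ⟨D.M0_inx_mem (D.rho_mem j), hr j⟩
    · rw [D.claim1]
      exact hf
  · exact IL_out hl hf

end Dat

end Pool.Agent.RG
end

section

/-!
# RG M1: the group presented by the modified relators

`H = FF ⧸ normalClosure (T I)`, `q : FF →* H`, `Q = ` image of the words in the `X i`, `Dd = ` image of `(lift x).ker`.
`rel_one`: `q` of an element of `T I` is `1`.  So `q (cm (X i) (Y j)) = q (inx (cw i j))` and
`q (cm (Y a) (Y b)) = q (inx (mo I ..)) * q (inx (aw a b))` for `a < b`.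
`q_rho`: if `j ∈ I` then `q (inx (rho j)) = 1` (it is in `T I`).  If `j ∉ I`, `sig j = (a, b)`, `a < b < m` (`D.hsig2`): `mo I (sig j) = rho j`
(`mo_sig`), `aw a b = 1` (`D.hdes2`), so `q (inx (rho j)) = q (cm (Y a) (Y b))` (the relator says
`cm (Y a) (Y b) * 1⁻¹ * (inx (rho j))⁻¹ ∈ T I`); and `cw i a = cw i b = 1` (`D.hdes`), so `q (Y a)`, `q (Y b)` commute with all `q (X i)`, so with
`Q`, and so does their commutator.
`Dd_eq`: `Dd = closure (range fun j => q (inx (rho j)))`: `(lift x).ker = normalClosure (range rho)` (`D.hrho`); the closure on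
the right is central in `Q`, so its preimage in `FreeGroup (Fin k)` is normal and contains the `rho j`.
`theta`: the endomorphism `θ_l` of `FreeGroup (Fin k)`, `x_i ↦ x_i * cw i l`: `q (Y l)⁻¹ * q (inx w) * q (Y l) = q (inx (θ_l w))` (both
sides are homomorphisms in `w`; on generators: `b⁻¹ a b = a * cm a b`), `lift x (θ_l w) = (y l)⁻¹ * lift x w * y l` (`D.hcw2`), and
`w⁻¹ * θ_l w ∈ commutator` (compare the two homomorphisms `w ↦ w`, `w ↦ θ_l w` in the abelianization; `D.hcw`).
`isKD`: `le`, `fg` (closure of a finite set), `cen` (`Dd_eq`, `q_rho`), `idx` (`Dd.relIndex Q` divides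
`(lift x).ker.index = Nat.card (lift x).range`, which divides `Nat.card G = p ^ n`; e.g. the homomorphism
`FreeGroup (Fin k) → Q ⧸ Dd.subgroupOf Q` is surjective and kills `(lift x).ker`), `gen`, `hQ`, `hD`, `hc` by `theta`.
`psi_le`: if `Dd` is normal then `psi.ker ≤ Dd.comap q`: by `D.claim1` it is enough that `q (rel τ) ∈ Dd` (`q (rel τ) = q (rel' τ) * q (inx (mo ..))`,
`mo_mem`) and `q (inx (rho j)) ∈ Dd`.
-/

set_option autoImplicit false

namespace Pool.Agent.RG

open Subgroup

namespace Dat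

variable {p : ℕ} {G : Type} [Group G] (D : Dat p G) (I : Finset (Fin D.t))

/-- The group presented by the modified relators. -/
abbrev HI : Type := FF D.k D.N ⧸ normalClosure (D.T I : Set (FF D.k D.N))

def qI : FF D.k D.N →* D.HI I := QuotientGroup.mk' _

def QI : Subgroup (D.HI I) := ((D.qI I).comp (inx D.k D.N)).range

def DI : Subgroup (D.HI I) := (FreeGroup.lift D.x).ker.map ((D.qI I).comp (inx D.k D.N))

/-- The endomorphism of the words in the `X i` which induces conjugation by `Y l`. -/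
def th (l : Fin D.N) : FreeGroup (Fin D.k) →* FreeGroup (Fin D.k) :=
  FreeGroup.lift fun i => FreeGroup.of i * D.cw i l

theorem M1_q_one {f : FF D.k D.N} (hf : f ∈ D.T I) : D.qI I f = 1 :=
  (QuotientGroup.eq_one_iff f).2 (subset_normalClosure (Finset.mem_coe.2 hf))

theorem M1_q_rel (τ : RI D.k D.N D.nb) : D.qI I (D.rel' I τ) = 1 := by
  classical
  apply D.M1_q_one I
  unfold Dat.T
  exact Finset.mem_union_left _ (Finset.mem_image_of_mem _ (Finset.mem_univ τ))

theorem M1_q_rhoI {j : Fin D.t} (hj : j ∈ I) : D.qI I (inx D.k D.N (D.rho j)) = 1 := by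
  classical
  apply D.M1_q_one I
  unfold Dat.T
  exact Finset.mem_union_right _ (Finset.mem_image_of_mem (fun j => inx D.k D.N (D.rho j)) hj)

theorem M1_q_cm (i : Fin D.k) (j : Fin D.N) :
    cm (D.qI I (X i)) (D.qI I (Y j)) = D.qI I (inx D.k D.N (D.cw i j)) := by
  have h := D.M1_q_rel I (Sum.inl (i, j))
  have h2 : D.rel' I (Sum.inl (i, j)) = cm (X i) (Y j) * (inx D.k D.N (D.cw i j))⁻¹ := rfl
  rw [h2, map_mul, map_inv, mul_inv_eq_one, map_cm] at h
  exact h

theorem th_q (l : Fin D.N) (w : FreeGroup (Fin D.k)) :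
    (D.qI I (Y l))⁻¹ * D.qI I (inx D.k D.N w) * D.qI I (Y l) =
      D.qI I (inx D.k D.N (D.th l w)) := by
  have h : (MulAut.conj (D.qI I (Y l))⁻¹).toMonoidHom.comp ((D.qI I).comp (inx D.k D.N)) =
      ((D.qI I).comp (inx D.k D.N)).comp (D.th l) := by
    ext i
    simp only [MonoidHom.comp_apply, MulEquiv.coe_toMonoidHom, MulAut.conj_apply, inv_inv]
    have h1 : D.th l (FreeGroup.of i) = FreeGroup.of i * D.cw i l := FreeGroup.lift_apply_of
    have h2 : inx D.k D.N (FreeGroup.of i) = X i := rfl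
    rw [h1, map_mul, map_mul, ← D.M1_q_cm I i l, h2]
    unfold cm
    group
  have h3 := DFunLike.congr_fun h w
  simpa only [MonoidHom.comp_apply, MulEquiv.coe_toMonoidHom, MulAut.conj_apply, inv_inv] using h3

theorem th_x (l : Fin D.N) (w : FreeGroup (Fin D.k)) :
    FreeGroup.lift D.x (D.th l w) = (D.y l)⁻¹ * FreeGroup.lift D.x w * D.y l := by
  have h : (FreeGroup.lift D.x).comp (D.th l) =
      (MulAut.conj (D.y l)⁻¹).toMonoidHom.comp (FreeGroup.lift D.x) := by
    ext i
    simp only [MonoidHom.comp_apply, MulEquiv.coe_toMonoidHom, MulAut.conj_apply, inv_inv]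
    have h1 : D.th l (FreeGroup.of i) = FreeGroup.of i * D.cw i l := FreeGroup.lift_apply_of
    rw [h1, map_mul, D.hcw2, FreeGroup.lift_apply_of]
    unfold cm
    group
  have h3 := DFunLike.congr_fun h w
  simpa only [MonoidHom.comp_apply, MulEquiv.coe_toMonoidHom, MulAut.conj_apply, inv_inv] using h3

theorem th_comm (l : Fin D.N) (w : FreeGroup (Fin D.k)) :
    w⁻¹ * D.th l w ∈ commutator (FreeGroup (Fin D.k)) := by
  have h : (Abelianization.of : FreeGroup (Fin D.k) →* _).comp (D.th l) = Abelianization.of := by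
    ext i
    have h1 : D.th l (FreeGroup.of i) = FreeGroup.of i * D.cw i l := FreeGroup.lift_apply_of
    have h2 : D.cw i l ∈ (Abelianization.of : FreeGroup (Fin D.k) →* _).ker := by
      rw [Abelianization.ker_of]
      exact D.hcw i l
    rw [MonoidHom.comp_apply, h1, map_mul, MonoidHom.mem_ker.1 h2, mul_one]
  have h3 := DFunLike.congr_fun h w
  rw [MonoidHom.comp_apply] at h3
  rw [← Abelianization.ker_of, MonoidHom.mem_ker, map_mul, map_inv, h3, inv_mul_cancel]

theorem M1_comm {l : Fin D.N} (hl : l.val < D.m) (w : FreeGroup (Fin D.k)) :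
    D.qI I (Y l) * D.qI I (inx D.k D.N w) = D.qI I (inx D.k D.N w) * D.qI I (Y l) := by
  have h1 : D.th l = MonoidHom.id _ := by
    ext i
    have h2 : D.th l (FreeGroup.of i) = FreeGroup.of i * D.cw i l := FreeGroup.lift_apply_of
    rw [h2, D.hdes i l hl, mul_one]
    rfl
  have h2 := D.th_q I l w
  rw [h1, MonoidHom.id_apply] at h2
  rw [mul_assoc, inv_mul_eq_iff_eq_mul] at h2
  exact h2.symm

open scoped commutatorElement in
theorem q_rho (j : Fin D.t) : D.qI I (inx D.k D.N (D.rho j)) ∈ commutator (D.HI I) ∧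
    ∀ g ∈ D.QI I, D.qI I (inx D.k D.N (D.rho j)) * g = g * D.qI I (inx D.k D.N (D.rho j)) := by
  by_cases hj : j ∈ I
  · rw [D.M1_q_rhoI I hj]
    exact ⟨one_mem _, fun g _ => by rw [one_mul, mul_one]⟩
  · have h2 : (D.sig j).1.2.val < D.m := D.hsig2 j
    have h1 : (D.sig j).1.1.val < D.m := lt_trans (Fin.lt_def.1 (D.sig j).2) h2
    have h := D.M1_q_rel I (Sum.inr (Sum.inl (D.sig j)))
    have h3 : D.rel' I (Sum.inr (Sum.inl (D.sig j))) = cm (Y (D.sig j).1.1) (Y (D.sig j).1.2) *
        (inx D.k D.N (D.aw (D.sig j).1.1 (D.sig j).1.2))⁻¹ * (inx D.k D.N (D.mo I (D.sig j)))⁻¹ := rfl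
    rw [h3, D.mo_sig I hj, D.hdes2 _ _ h1 h2, map_one, inv_one, mul_one, map_mul, map_inv, mul_inv_eq_one,
      map_cm] at h
    rw [← h]
    constructor
    · have h4 : cm (D.qI I (Y (D.sig j).1.1)) (D.qI I (Y (D.sig j).1.2)) =
          ⁅(D.qI I (Y (D.sig j).1.1))⁻¹, (D.qI I (Y (D.sig j).1.2))⁻¹⁆ := by
        rw [commutatorElement_def, inv_inv, inv_inv]
        rfl
      rw [h4]
      exact Subgroup.commutator_mem_commutator (Subgroup.mem_top _) (Subgroup.mem_top _)
    · rintro _ ⟨w, rfl⟩
      have ha : Commute (D.qI I (Y (D.sig j).1.1)) (D.qI I (inx D.k D.N w)) := D.M1_comm I h1 w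
      have hb : Commute (D.qI I (Y (D.sig j).1.2)) (D.qI I (inx D.k D.N w)) := D.M1_comm I h2 w
      exact (((ha.inv_left.mul_left hb.inv_left).mul_left ha).mul_left hb)

theorem M1_cen : ∀ a ∈ closure (Set.range fun j => D.qI I (inx D.k D.N (D.rho j))), ∀ g ∈ D.QI I,
    a * g = g * a := by
  intro a ha g hg
  induction ha using Subgroup.closure_induction with
  | mem x hx =>
    obtain ⟨j, rfl⟩ := hx
    exact (D.q_rho I j).2 g hg
  | one => rw [one_mul, mul_one]
  | mul x y _ _ hx hy => exact (Commute.mul_left (show Commute x g from hx) (show Commute y g from hy))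
  | inv x _ hx => exact (Commute.inv_left (show Commute x g from hx))

theorem DI_eq : D.DI I = closure (Set.range fun j => D.qI I (inx D.k D.N (D.rho j))) := by
  apply le_antisymm
  · unfold DI
    rw [Subgroup.map_le_iff_le_comap, ← D.hrho]
    have hnorm : ((closure (Set.range fun j => D.qI I (inx D.k D.N (D.rho j)))).comap
        ((D.qI I).comp (inx D.k D.N))).Normal := by
      refine ⟨fun n hn g => ?_⟩
      rw [Subgroup.mem_comap] at hn ⊢
      have h1 := D.M1_cen I _ hn ((D.qI I).comp (inx D.k D.N) g) ⟨g, rfl⟩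
      rw [map_mul, map_mul, map_inv, ← h1, mul_inv_cancel_right]
      exact hn
    apply Subgroup.normalClosure_le_normal
    rintro _ ⟨j, rfl⟩
    exact Subgroup.subset_closure ⟨j, rfl⟩
  · rw [Subgroup.closure_le]
    rintro _ ⟨j, rfl⟩
    exact ⟨D.rho j, D.rho_mem j, rfl⟩

theorem isKD [Fact p.Prime] [Finite G] (hG : IsPGroup p G) :
    KD p (D.QI I) (D.DI I) (fun l => D.qI I (Y l)) where
  le := by
    rintro _ ⟨w, _, rfl⟩
    exact ⟨w, rfl⟩
  fg := by
    rw [DI_eq, Subgroup.fg_iff]
    exact ⟨_, rfl, Set.finite_range _⟩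
  cen := by
    rw [DI_eq]
    exact D.M1_cen I
  idx := by
    have h1 : (D.DI I).relIndex (D.QI I) = ((D.DI I).comap ((D.qI I).comp (inx D.k D.N))).index := by
      have h2 := Subgroup.index_comap_of_surjective ((D.DI I).subgroupOf (D.QI I))
        (f := ((D.qI I).comp (inx D.k D.N)).rangeRestrict) (MonoidHom.rangeRestrict_surjective _)
      rw [Subgroup.relIndex, ← h2]
      rfl
    have h2 : ((D.DI I).comap ((D.qI I).comp (inx D.k D.N))).index ∣ (FreeGroup.lift D.x).ker.index :=
      Subgroup.index_dvd_of_le (Subgroup.map_le_iff_le_comap.1 le_rfl)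
    have h3 : (FreeGroup.lift D.x).ker.index ∣ Nat.card G := by
      rw [Subgroup.index_ker]
      exact Subgroup.card_subgroup_dvd_card _
    obtain ⟨n, hn⟩ := IsPGroup.iff_card.1 hG
    rw [hn] at h3
    obtain ⟨m, -, hm⟩ := (Nat.dvd_prime_pow (Fact.out : p.Prime)).1 (h2.trans h3)
    exact ⟨m, h1.trans hm⟩
  gen := by
    have h1 : (closure ((D.QI I : Set (D.HI I)) ∪ Set.range fun l => D.qI I (Y l))).comap (D.qI I) = ⊤ := by
      rw [eq_top_iff, ← FreeGroup.closure_range_of, Subgroup.closure_le]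
      rintro _ ⟨i | j, rfl⟩
      · exact Subgroup.subset_closure (Or.inl ⟨FreeGroup.of i, rfl⟩)
      · exact Subgroup.subset_closure (Or.inr ⟨j, rfl⟩)
    rw [eq_top_iff]
    rintro h -
    obtain ⟨f, rfl⟩ := QuotientGroup.mk'_surjective _ h
    have h2 : f ∈ (closure ((D.QI I : Set (D.HI I)) ∪ Set.range fun l => D.qI I (Y l))).comap (D.qI I) := by
      rw [h1]
      exact Subgroup.mem_top f
    exact h2
  hQ := by
    rintro l _ ⟨w, rfl⟩
    exact ⟨D.th l w, (D.th_q I l w).symm⟩
  hD := by
    rintro l _ ⟨w, hw, rfl⟩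
    refine ⟨D.th l w, ?_, (D.th_q I l w).symm⟩
    have hw' : FreeGroup.lift D.x w = 1 := hw
    show FreeGroup.lift D.x (D.th l w) = 1
    rw [D.th_x, hw', mul_one, inv_mul_cancel]
  hc := by
    rintro l _ ⟨w, rfl⟩
    have h1 : (D.qI I).comp (inx D.k D.N) (w⁻¹ * D.th l w) ∈ ⁅D.QI I, D.QI I⁆ := by
      have h2 := Subgroup.mem_map_of_mem ((D.qI I).comp (inx D.k D.N)) (D.th_comm l w)
      rw [commutator_def, Subgroup.map_commutator, ← MonoidHom.range_eq_map] at h2
      exact h2
    rw [map_mul, map_inv] at h1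
    have h3 := D.th_q I l w
    show ((D.qI I).comp (inx D.k D.N) w)⁻¹ * ((D.qI I (Y l))⁻¹ * D.qI I (inx D.k D.N w) * D.qI I (Y l)) ∈ _
    rw [h3]
    exact h1

theorem DI_comm : D.DI I ≤ commutator (D.HI I) := by
  rw [DI_eq, Subgroup.closure_le]
  rintro _ ⟨j, rfl⟩
  exact (D.q_rho I j).1

theorem psi_le [Finite G] (hN : (D.DI I).Normal) : D.psi.ker ≤ (D.DI I).comap (D.qI I) := by
  rw [← D.claim1]
  have hn : ((D.DI I).comap (D.qI I)).Normal := hN.comap (D.qI I)
  apply Subgroup.normalClosure_le_normal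
  have hx : ∀ w ∈ (FreeGroup.lift D.x).ker, D.qI I (inx D.k D.N w) ∈ D.DI I := fun w hw => ⟨w, hw, rfl⟩
  rintro f (⟨τ, rfl⟩ | ⟨j, rfl⟩)
  · show D.qI I (D.rel τ) ∈ D.DI I
    rcases τ with ⟨i, j⟩ | q | i
    · have h : D.qI I (D.rel (Sum.inl (i, j))) = 1 := D.M1_q_rel I (Sum.inl (i, j))
      rw [h]
      exact one_mem _
    · have h := D.M1_q_rel I (Sum.inr (Sum.inl q))
      have h3 : D.rel' I (Sum.inr (Sum.inl q)) = D.rel (Sum.inr (Sum.inl q)) *
        (inx D.k D.N (D.mo I q))⁻¹ := rfl
      rw [h3, map_mul, map_inv, mul_inv_eq_one] at h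
      rw [h]
      exact hx _ (D.mo_mem I q)
    · have h : D.qI I (D.rel (Sum.inr (Sum.inr i))) = 1 := D.M1_q_rel I (Sum.inr (Sum.inr i))
      rw [h]
      exact one_mem _
  · exact hx _ (D.rho_mem j)

end Dat

end Pool.Agent.RG
end

section

/-!
# RG M2: the modified relators present `G`

PROOF.  `N = normalClosure (T I) ≤ psi.ker` by `T_mem` (M0) (`psi.ker` is normal).  `h := D.isKD I hG`, `h.normal`; by `psi_le`
`psi.ker ≤ DI.comap q`, and `DI.comap q ≤ psi.ker`: an element `f` with `q f = q (inx w)`, `w ∈ (lift x).ker`, is in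
`N * ker`, `psi f = psi (inx w) = lift x w = 1`.  So `DI.comap q = psi.ker`, `DI.index = psi.ker.index = Nat.card G`
(`Subgroup.index_comap_of_surjective`, `Subgroup.index_ker`, `D.psi_surj`), a power of `p`.
Separation: `l ∈ IL p DI`; `l ∘ q ∈ IL p psi.ker` (membership by `DI.comap q = psi.ker`), and it vanishes on `T I` (`q f = 1`,
`IL_one`), so `l ∘ q = 0` by `hsep`, and `l = 0` on `DI` as `q` is surjective.
`h.eq_bot` (D4) with `D.DI_comm`: `DI = ⊥`, so `psi.ker = DI.comap q = q.ker = N`.
-/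

set_option autoImplicit false

namespace Pool.Agent.RG

open Subgroup

theorem Dat.disc {p : ℕ} [Fact p.Prime] {G : Type} [Group G] [Finite G] (hG : IsPGroup p G)
    (D : Dat p G) (I : Finset (Fin D.t))
    (hsep : ∀ l ∈ IL p D.psi.ker, (∀ f ∈ D.T I, l f = 0) → l = 0) : Disc D.psi (D.T I) := by
  have hTm := D.T_mem I
  have hqs : Function.Surjective (D.qI I) := QuotientGroup.mk'_surjective _
  have hqk : (D.qI I).ker = normalClosure (D.T I : Set (FF D.k D.N)) := QuotientGroup.ker_mk' _
  have hNle : normalClosure (D.T I : Set (FF D.k D.N)) ≤ D.psi.ker :=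
    normalClosure_le_normal fun f hf => hTm f hf
  have hKD := D.isKD I hG
  have hDn : (D.DI I).Normal := hKD.normal
  have h1 : D.psi.ker ≤ (D.DI I).comap (D.qI I) := D.psi_le I hDn
  have h2 : (D.DI I).comap (D.qI I) ≤ D.psi.ker := by
    intro f hf
    rw [mem_comap] at hf
    obtain ⟨w, hw, hwf⟩ := hf
    have hwf' : D.qI I (inx D.k D.N w) = D.qI I f := hwf
    have h3 : f * (inx D.k D.N w)⁻¹ ∈ D.psi.ker := by
      apply hNle
      rw [← hqk, MonoidHom.mem_ker, map_mul, map_inv, hwf', mul_inv_cancel]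
    have h4 : D.psi (inx D.k D.N w) = 1 := by
      rw [D.psi_inx]
      exact hw
    rw [MonoidHom.mem_ker] at h3 ⊢
    rw [map_mul, map_inv, h4, inv_one, mul_one] at h3
    exact h3
  have heq : (D.DI I).comap (D.qI I) = D.psi.ker := le_antisymm h2 h1
  obtain ⟨n, hn⟩ := (IsPGroup.iff_card (p := p) (G := G)).mp hG
  have hidx : (D.DI I).index = p ^ n := by
    rw [← index_comap_of_surjective (D.DI I) hqs, heq, index_ker, ← hn,
      MonoidHom.range_eq_top.mpr D.psi_surj]
    exact Nat.card_congr (Subgroup.topEquiv (G := G)).toEquiv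
  have hq : ∀ f, f ∈ D.psi.ker ↔ D.qI I f ∈ D.DI I := by
    intro f
    rw [← heq, mem_comap]
  have hs : ∀ l ∈ IL p (D.DI I), ∀ r ∈ D.DI I, l r = 0 := by
    intro l hl r hr
    have hl' : (fun f => l (D.qI I f)) ∈ IL p D.psi.ker := by
      refine ⟨fun f hf => ?_, fun r hr s hs => ?_, fun f r hr => ?_⟩
      · exact IL_out hl fun h => hf ((hq f).mpr h)
      · show l (D.qI I (r * s)) = l (D.qI I r) + l (D.qI I s)
        rw [map_mul]
        exact IL_mul hl ((hq r).mp hr) ((hq s).mp hs)
      · show l (D.qI I (f * r * f⁻¹)) = l (D.qI I r)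
        rw [map_mul, map_mul, map_inv]
        exact IL_conj hl _ ((hq r).mp hr)
    have h0 := hsep _ hl' (by
      intro f hf
      show l (D.qI I f) = 0
      have : D.qI I f = 1 := by
        rw [← MonoidHom.mem_ker, hqk]
        exact subset_normalClosure hf
      rw [this]
      exact IL_one hl)
    obtain ⟨f, rfl⟩ := hqs r
    exact congrFun h0 f
  have hbot : D.DI I = ⊥ := hKD.eq_bot hidx (D.DI_comm I) hs
  refine ⟨D.psi_surj, ?_⟩
  rw [← heq, hbot]
  exact hqk.symm

end Pool.Agent.RG
end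

section

/-!
# RG P1: lattices; presentations of abelian groups

`exists_lattice`: `Λ = {w | gpow g w ∈ K}` is a subgroup of `Fin N → ℤ`: in the quotient `G ⧸ K`, a commutative group
(`Subgroup.Normal.quotient_commutative_iff_commutator_le`), `gpow g w = ∏ g j ^ w j` (`map_gpow`, `gpow_comm`).  As a
submodule over the principal ideal domain `ℤ` it has a finite basis with at most `N` elements
(`Submodule.basisOfPid`, `Submodule.nonempty_basis_of_pid`, or `Module.Free` of a submodule; `finrank ≤ N` by `Submodule.finrank_le`).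
`pres_abelian`: `Λ`, `v` from `exists_lattice` with `K = ⊥` (`nb ≤ k`).  Relators: `cm (of i) (of j)` for all `i, j` (`k ^ 2`) and
`gpow of (v b)` (`nb ≤ k`); index type `(Fin k × Fin k) ⊕ Fin nb`, `t = k * k + nb` (an equivalence with `Fin t`).  The normal
closure `N` is in the kernel.  Let `f ∈ ker`.  `FreeGroup ⧸ N` is commutative (`commutator_le_of_gen`), so in it
`f = ∏ (of j) ^ ev f j` (`ev_hom`), and in `A`: `gpow x (ev f) = 1`, so `ev f ∈ Λ = span v`, `ev f = ∑ n_b v_b`, and
`f = ∏_b (gpow of (v b)) ^ n_b = 1` in the quotient.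
-/

set_option autoImplicit false

namespace Pool.Agent.RG

open Subgroup

open scoped commutatorElement

private theorem P1_comm {G : Type} [Group G] (K : Subgroup G) [K.Normal]
    (hK : commutator G ≤ K) (a b : G ⧸ K) : a * b = b * a := by
  obtain ⟨a, rfl⟩ := QuotientGroup.mk_surjective a
  obtain ⟨b, rfl⟩ := QuotientGroup.mk_surjective b
  rw [← QuotientGroup.mk_mul, ← QuotientGroup.mk_mul, QuotientGroup.eq]
  have h1 : (a * b)⁻¹ * (b * a) = ⁅b⁻¹, a⁻¹⁆ := by
    rw [commutatorElement_def]
    group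
  rw [h1]
  exact hK (Subgroup.commutator_mem_commutator (Subgroup.mem_top _) (Subgroup.mem_top _))

/-- The commutative group structure of the quotient. -/
@[reducible] private def P1_inst {G : Type} [Group G] (K : Subgroup G) [K.Normal]
    (hK : commutator G ≤ K) : CommGroup (G ⧸ K) :=
  { (inferInstance : Group (G ⧸ K)) with mul_comm := P1_comm K hK }

private theorem P1_mk {G : Type} [Group G] {N : ℕ} (g : Fin N → G) (K : Subgroup G) [K.Normal]
    (hK : commutator G ≤ K) (w : Fin N → ℤ) :
    gpow g w ∈ K ↔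
      (let _ := P1_inst K hK; ∏ j, (QuotientGroup.mk (g j) : G ⧸ K) ^ w j = 1) := by
  let instK := P1_inst K hK
  have h1 := map_gpow (QuotientGroup.mk' K) g w
  have h2 := gpow_comm (fun j => (QuotientGroup.mk (g j) : G ⧸ K)) w
  rw [← QuotientGroup.eq_one_iff]
  change ((QuotientGroup.mk' K) (gpow g w) = 1) ↔ _
  rw [h1]
  exact Eq.congr_left h2

private def P1_L {A : Type} [CommGroup A] {N : ℕ} (g : Fin N → A) :
    Submodule ℤ (Fin N → ℤ) where
  carrier := {w | ∏ j, g j ^ w j = 1}
  add_mem' := by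
    intro a b ha hb
    have ha' : ∏ j, g j ^ a j = 1 := ha
    have hb' : ∏ j, g j ^ b j = 1 := hb
    change ∏ j, g j ^ (a j + b j) = 1
    rw [Finset.prod_congr rfl fun j _ => zpow_add (g j) (a j) (b j), Finset.prod_mul_distrib,
      ha', hb', mul_one]
  zero_mem' := by
    change ∏ j, g j ^ (0 : ℤ) = 1
    simp
  smul_mem' := by
    intro c a ha
    have ha' : ∏ j, g j ^ a j = 1 := ha
    change ∏ j, g j ^ (c * a j) = 1
    have h1 : ∀ j, g j ^ (c * a j) = (g j ^ a j) ^ c := by
      intro j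
      rw [mul_comm, zpow_mul]
    rw [Finset.prod_congr rfl fun j _ => h1 j, Finset.prod_zpow, ha', one_zpow]

theorem exists_lattice {G : Type} [Group G] {N : ℕ} (g : Fin N → G) (K : Subgroup G) [K.Normal]
    (hK : commutator G ≤ K) : ∃ (nb : ℕ) (v : Fin nb → Fin N → ℤ), nb ≤ N ∧
      LinearIndependent ℤ v ∧
      ∀ w : Fin N → ℤ, gpow g w ∈ K ↔ w ∈ Submodule.span ℤ (Set.range v) := by
  let instK := P1_inst K hK
  obtain ⟨n, ⟨b⟩⟩ := Submodule.nonempty_basis_of_pid (Pi.basisFun ℤ (Fin N))
    (P1_L fun j => (QuotientGroup.mk (g j) : G ⧸ K))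
  have hli : LinearIndependent ℤ (fun i => ((b i : P1_L fun j => (QuotientGroup.mk (g j) : G ⧸ K)) :
      Fin N → ℤ)) :=
    b.linearIndependent.map' (Submodule.subtype _) (Submodule.ker_subtype _)
  refine ⟨n, fun i => b i, ?_, hli, fun w => ?_⟩
  · have h1 := hli.fintype_card_le_finrank
    rwa [Fintype.card_fin, Module.finrank_fin_fun] at h1
  · have h2 : Submodule.span ℤ (Set.range fun i => ((b i : P1_L fun j =>
        (QuotientGroup.mk (g j) : G ⧸ K)) : Fin N → ℤ)) =
        P1_L fun j => (QuotientGroup.mk (g j) : G ⧸ K) := by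
      have h3 : (Set.range fun i => ((b i : P1_L fun j =>
          (QuotientGroup.mk (g j) : G ⧸ K)) : Fin N → ℤ)) =
          (Submodule.subtype (P1_L fun j => (QuotientGroup.mk (g j) : G ⧸ K))) '' Set.range b := by
        rw [← Set.range_comp]
        rfl
      rw [h3, ← Submodule.map_span, b.span_eq, Submodule.map_top, Submodule.range_subtype]
    rw [h2]
    exact P1_mk g K hK w

theorem pres_abelian {A : Type} [Group A] (hab : ∀ a b : A, a * b = b * a) {k : ℕ}
    (x : Fin k → A) : ∃ (t : ℕ) (rho : Fin t → FreeGroup (Fin k)), t ≤ k ^ 2 + k ∧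
      normalClosure (Set.range rho) = (FreeGroup.lift x).ker := by
  have hbot : commutator A ≤ (⊥ : Subgroup A) := by
    refine Subgroup.commutator_le.2 fun a _ b _ => ?_
    rw [Subgroup.mem_bot, commutatorElement_def, hab a b]
    group
  obtain ⟨nb, v, hnb, -, hv⟩ := exists_lattice x (⊥ : Subgroup A) hbot
  let rho0 : (Fin k × Fin k) ⊕ Fin nb → FreeGroup (Fin k) :=
    Sum.elim (fun q => cm (FreeGroup.of q.1) (FreeGroup.of q.2)) (fun b => gpow FreeGroup.of (v b))
  have hcard : Fintype.card ((Fin k × Fin k) ⊕ Fin nb) = k * k + nb := by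
    rw [Fintype.card_sum, Fintype.card_prod, Fintype.card_fin, Fintype.card_fin]
  let e : Fin (k * k + nb) ≃ (Fin k × Fin k) ⊕ Fin nb := (Fintype.equivFinOfCardEq hcard).symm
  refine ⟨k * k + nb, rho0 ∘ e, ?_, ?_⟩
  · rw [pow_two]
    omega
  rw [e.surjective.range_comp]
  have hgen : closure (Set.range (FreeGroup.of : Fin k → FreeGroup (Fin k))) = ⊤ :=
    FreeGroup.closure_range_of _
  have hK : commutator (FreeGroup (Fin k)) ≤ normalClosure (Set.range rho0) := by
    refine commutator_le_of_gen hgen ?_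
    rintro a ⟨i, rfl⟩ b ⟨j, rfl⟩
    exact subset_normalClosure ⟨Sum.inl (i, j), rfl⟩
  refine le_antisymm ?_ ?_
  · refine normalClosure_le_normal ?_
    rintro r ⟨τ, rfl⟩
    change FreeGroup.lift x (rho0 τ) = 1
    rcases τ with ⟨i, j⟩ | b
    · change FreeGroup.lift x (cm (FreeGroup.of i) (FreeGroup.of j)) = 1
      rw [map_cm, FreeGroup.lift_apply_of, FreeGroup.lift_apply_of]
      unfold cm
      rw [mul_assoc, hab (x i) (x j)]
      group
    · change FreeGroup.lift x (gpow FreeGroup.of (v b)) = 1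
      rw [map_gpow]
      have h1 : gpow x (v b) ∈ (⊥ : Subgroup A) := (hv (v b)).2 (Submodule.subset_span ⟨b, rfl⟩)
      rw [Subgroup.mem_bot] at h1
      have h2 : (fun j => FreeGroup.lift x (FreeGroup.of j)) = x := by
        funext j
        rw [FreeGroup.lift_apply_of]
      rw [h2, h1]
  · intro f hf
    have hf1 : FreeGroup.lift x f = 1 := hf
    have h1 : gpow x (fun j => ev f j) ∈ (⊥ : Subgroup A) := by
      let instA : CommGroup A := { (inferInstance : Group A) with mul_comm := hab }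
      have h2 := @ev_hom (Fin k) _ _ A instA (FreeGroup.lift x) f
      have h3 := @gpow_comm A instA k x (fun j => ev f j)
      rw [Subgroup.mem_bot]
      refine h3.trans ?_
      rw [← hf1]
      refine Eq.trans ?_ h2.symm
      refine Finset.prod_congr rfl fun j _ => ?_
      rw [FreeGroup.lift_apply_of]
    have h2 := (hv _).1 h1
    obtain ⟨nb', v', -, -, hv'⟩ := exists_lattice (FreeGroup.of : Fin k → FreeGroup (Fin k))
      (normalClosure (Set.range rho0)) hK
    have h3 : Submodule.span ℤ (Set.range v) ≤ Submodule.span ℤ (Set.range v') := by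
      refine Submodule.span_le.2 ?_
      rintro w ⟨b, rfl⟩
      exact (hv' (v b)).1 (subset_normalClosure ⟨Sum.inr b, rfl⟩)
    have h4 : gpow FreeGroup.of (fun j => ev f j) ∈ normalClosure (Set.range rho0) :=
      (hv' _).2 (h3 h2)
    have h5 := (P1_mk _ _ hK _).1 h4
    let instQ := P1_inst _ hK
    have h6 := ev_hom (QuotientGroup.mk' (normalClosure (Set.range rho0))) f
    have h7 : (QuotientGroup.mk' (normalClosure (Set.range rho0))) f = 1 := h6.trans h5
    exact (QuotientGroup.eq_one_iff f).1 h7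

end Pool.Agent.RG
end

section

/-!
# RG P2: presentation of a central extension by a group of order `p`

PROOF.  `w` with `lift x w = z` (`range_lift_eq`, `hx`).  `lift x (rho i) ∈ zpowers z` (its image in the quotient is `1`, by `hrho`),
`= z ^ n_i`.  `rho'` : the elements `rho i * w ^ (-n_i)` (`t`), `cm w (of j)` (`k`), `w ^ p` (`1`); index type `Fin t ⊕ Fin k ⊕ Unit`
transported to `Fin (t + k + 1)`.  `N` = normal closure `≤ ker`: all of them are mapped to `1` (`z` central, `z ^ p = 1`).
Conversely, in `FreeGroup ⧸ N` the element `w` is central (it commutes with the generators), so `M = {r | ∃ n : ℤ, r * w ^ n ∈ N}` is a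
normal subgroup; it contains all `rho i`, so `normalClosure (range rho) ≤ M`.  Let `r ∈ (lift x).ker`; then `r` is in the
kernel of the map to the quotient, so `r * w ^ n ∈ N` for some `n`; apply `lift x`: `z ^ n = 1`, so `p ∣ n` (`orderOf_dvd_iff_zpow_eq_one`),
`w ^ n ∈ N`, `r ∈ N`.
-/

set_option autoImplicit false

namespace Pool.Agent.RG

open Subgroup

theorem pres_step {A : Type} [Group A] {p : ℕ} {k t : ℕ} (x : Fin k → A)
    (hx : closure (Set.range x) = ⊤) (z : A) (hz : z ∈ center A) (hzp : orderOf z = p)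
    [(zpowers z).Normal] (rho : Fin t → FreeGroup (Fin k))
    (hrho : normalClosure (Set.range rho) =
      (FreeGroup.lift fun i => (QuotientGroup.mk (x i) : A ⧸ zpowers z)).ker) :
    ∃ rho' : Fin (t + k + 1) → FreeGroup (Fin k),
      normalClosure (Set.range rho') = (FreeGroup.lift x).ker := by
  classical
  set L : FreeGroup (Fin k) →* A := FreeGroup.lift x with hL
  have hsurj : Function.Surjective L := by
    rw [← MonoidHom.range_eq_top, hL, range_lift_eq, hx]
  have hQ : (FreeGroup.lift fun i => (QuotientGroup.mk (x i) : A ⧸ zpowers z)) =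
      (QuotientGroup.mk' (zpowers z)).comp L := by
    ext i
    simp [hL]
  have hQk : ∀ r, r ∈ (FreeGroup.lift fun i => (QuotientGroup.mk (x i) : A ⧸ zpowers z)).ker ↔
      L r ∈ zpowers z := by
    intro r
    rw [hQ, MonoidHom.mem_ker, MonoidHom.comp_apply, QuotientGroup.mk'_apply,
      QuotientGroup.eq_one_iff]
  obtain ⟨w, hw⟩ := hsurj z
  have hrn : ∀ i, ∃ n : ℤ, z ^ n = L (rho i) := by
    intro i
    have h1 : rho i ∈ (FreeGroup.lift fun i => (QuotientGroup.mk (x i) : A ⧸ zpowers z)).ker := by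
      rw [← hrho]
      exact subset_normalClosure ⟨i, rfl⟩
    exact mem_zpowers_iff.1 ((hQk _).1 h1)
  choose n hn using hrn
  let R : Fin t ⊕ (Fin k ⊕ Unit) → FreeGroup (Fin k) :=
    Sum.elim (fun i => rho i * (w ^ n i)⁻¹) (Sum.elim (fun j => cm w (FreeGroup.of j)) fun _ => w ^ p)
  have hcard : Fintype.card (Fin (t + k + 1)) = Fintype.card (Fin t ⊕ (Fin k ⊕ Unit)) := by
    simp
    ring
  let e : Fin (t + k + 1) ≃ Fin t ⊕ (Fin k ⊕ Unit) := Fintype.equivOfCardEq hcard
  refine ⟨R ∘ e, ?_⟩
  rw [e.surjective.range_comp]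
  have hxz : ∀ a : A, a * z = z * a := fun a => mem_center_iff.1 hz a
  have hle : normalClosure (Set.range R) ≤ L.ker := by
    apply normalClosure_le_normal
    rintro _ ⟨s, rfl⟩
    show R s ∈ L.ker
    rw [MonoidHom.mem_ker]
    rcases s with i | j | u
    · show L (rho i * (w ^ n i)⁻¹) = 1
      rw [map_mul, map_inv, map_zpow, hw, ← hn i, mul_inv_cancel]
    · show L (cm w (FreeGroup.of j)) = 1
      rw [map_cm, hw]
      unfold cm
      rw [mul_assoc, ← hxz, mul_assoc, inv_mul_cancel_left, inv_mul_cancel]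
    · show L (w ^ p) = 1
      rw [map_pow, hw, ← hzp, pow_orderOf_eq_one]
  refine le_antisymm hle ?_
  intro r hr
  set N := normalClosure (Set.range R) with hN
  have hcomm : ∀ g : FreeGroup (Fin k), (QuotientGroup.mk g : FreeGroup (Fin k) ⧸ N) * QuotientGroup.mk w =
      QuotientGroup.mk w * QuotientGroup.mk g := by
    have hgen : ∀ j, (QuotientGroup.mk (FreeGroup.of j) : FreeGroup (Fin k) ⧸ N) * QuotientGroup.mk w =
        QuotientGroup.mk w * QuotientGroup.mk (FreeGroup.of j) := by
      intro j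
      rw [← QuotientGroup.mk_mul, ← QuotientGroup.mk_mul, QuotientGroup.eq]
      have h1 : cm w (FreeGroup.of j) ∈ N := subset_normalClosure ⟨Sum.inr (Sum.inl j), rfl⟩
      have h2 : (FreeGroup.of j * w)⁻¹ * (w * FreeGroup.of j) = cm w (FreeGroup.of j) := by
        unfold cm
        group
      rw [h2]
      exact h1
    intro g
    induction g using FreeGroup.induction_on with
    | C1 => rw [QuotientGroup.mk_one, one_mul, mul_one]
    | of j => exact hgen j
    | inv_of j h =>
      rw [QuotientGroup.mk_inv]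
      exact (Commute.inv_left (show Commute _ _ from h)).eq
    | mul a b ha hb =>
      rw [QuotientGroup.mk_mul]
      exact (Commute.mul_left (show Commute _ _ from ha) (show Commute _ _ from hb)).eq
  have hnorm : (zpowers (QuotientGroup.mk w : FreeGroup (Fin k) ⧸ N)).Normal := by
    refine ⟨fun a ha g => ?_⟩
    obtain ⟨m, rfl⟩ := mem_zpowers_iff.1 ha
    obtain ⟨g, rfl⟩ := QuotientGroup.mk_surjective g
    have h1 : Commute (QuotientGroup.mk g : FreeGroup (Fin k) ⧸ N) (QuotientGroup.mk w) := hcomm g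
    rw [(h1.zpow_right m).eq, mul_inv_cancel_right]
    exact ha
  have hM : ((zpowers (QuotientGroup.mk w : FreeGroup (Fin k) ⧸ N)).comap (QuotientGroup.mk' N)).Normal :=
    hnorm.comap _
  have hrM : normalClosure (Set.range rho) ≤
      (zpowers (QuotientGroup.mk w : FreeGroup (Fin k) ⧸ N)).comap (QuotientGroup.mk' N) := by
    apply normalClosure_le_normal
    rintro _ ⟨i, rfl⟩
    show rho i ∈ (zpowers (QuotientGroup.mk w : FreeGroup (Fin k) ⧸ N)).comap (QuotientGroup.mk' N)
    rw [mem_comap, QuotientGroup.mk'_apply, mem_zpowers_iff]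
    refine ⟨n i, ?_⟩
    rw [← QuotientGroup.mk_zpow, eq_comm, QuotientGroup.eq]
    have h1 : rho i * (w ^ n i)⁻¹ ∈ N := subset_normalClosure ⟨Sum.inl i, rfl⟩
    have hNn : N.Normal := normalClosure_normal
    have h2 := hNn.conj_mem _ (N.inv_mem h1) (w ^ n i)⁻¹
    have h3 : (w ^ n i)⁻¹ * (rho i * (w ^ n i)⁻¹)⁻¹ * ((w ^ n i)⁻¹)⁻¹ = (rho i)⁻¹ * w ^ n i := by
      group
    rw [h3] at h2
    exact h2
  have hr2 : r ∈ normalClosure (Set.range rho) := by
    rw [hrho, hQk, MonoidHom.mem_ker.1 hr]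
    exact one_mem _
  have hr3 := hrM hr2
  rw [mem_comap, QuotientGroup.mk'_apply, mem_zpowers_iff] at hr3
  obtain ⟨m, hm⟩ := hr3
  rw [← QuotientGroup.mk_zpow, QuotientGroup.eq] at hm
  have h1 := hle hm
  rw [MonoidHom.mem_ker, map_mul, map_inv, map_zpow, hw, MonoidHom.mem_ker.1 hr, mul_one,
    inv_eq_one] at h1
  have h2 := orderOf_dvd_iff_zpow_eq_one.2 h1
  rw [hzp] at h2
  obtain ⟨q, rfl⟩ := h2
  have h3 : w ^ p ∈ N := subset_normalClosure ⟨Sum.inr (Sum.inr ()), rfl⟩
  have h4 : w ^ ((p : ℤ) * q) ∈ N := by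
    rw [zpow_mul, zpow_natCast]
    exact N.zpow_mem h3 q
  have h5 := N.mul_mem h4 hm
  rwa [mul_inv_cancel_left] at h5

end Pool.Agent.RG
end

section

/-!
# RG P3: small presentations of `p`-groups with small derived subgroup

PROOF.  Induction on `c`.  `c = 0`: `commutator A = ⊥`, so `A` is commutative: `pres_abelian` (P1).  `c + 1`: the commutator subgroup
is a nontrivial normal subgroup of a finite `p`-group, so it meets the centre nontrivially
(`IsPGroup.bot_lt_center`-like; `commutator A` is normal, nontrivial; the action of `A` by conjugation on it has a number of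
fixed points divisible by `p`: `IsPGroup.card_modEq_card_fixedPoints`; or `Group.nilpotent..`: a nontrivial normal subgroup of a nilpotent
group meets the centre, name to be searched).  Take `z` of order `p` in `commutator A ⊓ center A`
(`exists_prime_orderOf_dvd_card`).  `zpowers z` is normal (central).  `A' = A ⧸ zpowers z` is a finite `p`-group generated by the images
of the `x i`, `commutator A'` = the image of `commutator A`, of order `p ^ (c + 1) / p = p ^ c` (`Subgroup.map_commutator`,
`zpowers z ≤ commutator A`, `Subgroup.card_eq_card_quotient_mul_card_subgroup`, `Nat.card_zpowers`).  Apply the induction hypothesis to `A'`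
and `pres_step` (P2): `t' = t + k + 1 ≤ k ^ 2 + k + c (k + 1) + (k + 1)`.
-/

set_option autoImplicit false

namespace Pool.Agent.RG

open Subgroup

private theorem P3_central {p : ℕ} [Fact p.Prime] {A : Type} [Group A] [Finite A] (hA : IsPGroup p A)
    (H : Subgroup A) [H.Normal] (hH : p ∣ Nat.card H) : ∃ z : A, z ∈ H ∧ z ∈ center A ∧ orderOf z = p := by
  have hp : p.Prime := Fact.out
  have hCA : IsPGroup p (ConjAct A) := hA.of_equiv ConjAct.toConjAct
  have h1 := hCA.card_modEq_card_fixedPoints (α := H)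
  have h2 : p ∣ Nat.card (MulAction.fixedPoints (ConjAct A) H) :=
    (Nat.modEq_zero_iff_dvd).1 (h1.symm.trans ((Nat.modEq_zero_iff_dvd).2 hH))
  have hone : (1 : H) ∈ MulAction.fixedPoints (ConjAct A) H := by
    intro g
    exact smul_one g
  have hfin : Finite (MulAction.fixedPoints (ConjAct A) H) := inferInstance
  have h3 : 0 < Nat.card (MulAction.fixedPoints (ConjAct A) H) := by
    have : Nonempty (MulAction.fixedPoints (ConjAct A) H) := ⟨⟨1, hone⟩⟩
    exact Nat.card_pos
  have h4 : 1 < Nat.card (MulAction.fixedPoints (ConjAct A) H) :=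
    lt_of_lt_of_le hp.one_lt (Nat.le_of_dvd h3 h2)
  have h5 : Nontrivial (MulAction.fixedPoints (ConjAct A) H) := Finite.one_lt_card_iff_nontrivial.1 h4
  obtain ⟨⟨z0, hz0⟩, hne⟩ := exists_ne (⟨1, hone⟩ : MulAction.fixedPoints (ConjAct A) H)
  have hz0c : (z0 : A) ∈ center A := by
    rw [mem_center_iff]
    intro g
    have h6 := hz0 (ConjAct.toConjAct g)
    have h7 : g * (z0 : A) * g⁻¹ = (z0 : A) := by
      have := congrArg (fun h : H => (h : A)) h6
      simpa only [ConjAct.Subgroup.val_conj_smul, ConjAct.toConjAct_smul] using this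
    exact mul_inv_eq_iff_eq_mul.1 h7
  obtain ⟨Z, hZ⟩ : ∃ Z : Subgroup A, Z = H ⊓ center A := ⟨_, rfl⟩
  have hz0Z : (z0 : A) ∈ Z := by
    rw [hZ]
    exact ⟨z0.2, hz0c⟩
  have hZc : Nat.card Z ≠ 1 := by
    intro h8
    rw [Subgroup.card_eq_one] at h8
    rw [h8, mem_bot] at hz0Z
    exact hne (Subtype.ext (Subtype.ext hz0Z))
  have hZp : IsPGroup p Z := hA.to_subgroup Z
  have hdvd : p ∣ Nat.card Z := by
    rcases hZp.card_eq_or_dvd with h9 | h9
    · exact absurd h9 hZc
    · exact h9
  obtain ⟨z, hz⟩ := exists_prime_orderOf_dvd_card' p hdvd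
  have hzm : (z : A) ∈ H ⊓ center A := hZ ▸ z.2
  refine ⟨z, hzm.1, hzm.2, ?_⟩
  rw [Subgroup.orderOf_coe]
  exact hz

theorem pres_small {p : ℕ} [Fact p.Prime] (c : ℕ) : ∀ (A : Type) [Group A] [Finite A],
    IsPGroup p A → Nat.card (commutator A) = p ^ c → ∀ {k : ℕ} (x : Fin k → A),
    closure (Set.range x) = ⊤ → ∃ (t : ℕ) (rho : Fin t → FreeGroup (Fin k)),
      t ≤ k ^ 2 + k + c * (k + 1) ∧
      normalClosure (Set.range rho) = (FreeGroup.lift x).ker := by
  have hp : p.Prime := Fact.out
  induction c with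
  | zero =>
    intro A _ _ _ hc k x _
    rw [pow_zero, Subgroup.card_eq_one] at hc
    have hab : ∀ a b : A, a * b = b * a := by
      intro a b
      have h1 := commutator_mem_commutator (H₁ := (⊤ : Subgroup A)) (H₂ := ⊤) (mem_top a) (mem_top b)
      rw [← _root_.commutator_def, hc, mem_bot, commutatorElement_eq_one_iff_mul_comm] at h1
      exact h1
    obtain ⟨t, rho, ht, hrho⟩ := pres_abelian hab x
    exact ⟨t, rho, by omega, hrho⟩
  | succ c ih =>
    intro A _ _ hA hc k x hx
    obtain ⟨z, hzH, hzc, hzp⟩ := P3_central hA (commutator A) (by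
      rw [hc, pow_succ]
      exact dvd_mul_left _ _)
    have hzle : zpowers z ≤ commutator A := by
      rw [zpowers_le]
      exact hzH
    have hnorm : (zpowers z).Normal := by
      refine ⟨fun n hn g => ?_⟩
      have hn' : n ∈ center A := (zpowers_le.2 hzc) hn
      rw [mem_center_iff] at hn'
      rw [hn' g, mul_inv_cancel_right]
      exact hn
    obtain ⟨f, hf⟩ : ∃ f : A →* A ⧸ zpowers z, f = QuotientGroup.mk' (zpowers z) := ⟨_, rfl⟩
    have hfs : Function.Surjective f := by rw [hf]; exact QuotientGroup.mk'_surjective _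
    have hfk : f.ker = zpowers z := by rw [hf]; exact QuotientGroup.ker_mk' _
    have hcomm : commutator (A ⧸ zpowers z) = (commutator A).map f := by
      rw [_root_.commutator_def, _root_.commutator_def, map_commutator, ← MonoidHom.range_eq_map,
        MonoidHom.range_eq_top.2 hfs]
    have hcard : Nat.card (commutator (A ⧸ zpowers z)) = p ^ c := by
      rw [hcomm]
      have h1 : Nat.card (f.comp (commutator A).subtype).ker = p := by
        have h2 : (f.comp (commutator A).subtype).ker = (zpowers z).subgroupOf (commutator A) := by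
          ext y
          have h5 : f (y : A) = 1 ↔ (y : A) ∈ zpowers z := by rw [← MonoidHom.mem_ker, hfk]
          rw [MonoidHom.mem_ker, mem_subgroupOf]
          exact h5
        rw [h2, Nat.card_congr (subgroupOfEquivOfLe hzle).toEquiv, Nat.card_zpowers, hzp]
      have h2 := (f.comp (commutator A).subtype).ker.card_mul_index
      rw [h1, Subgroup.index_ker, hc] at h2
      have h3 : (f.comp (commutator A).subtype).range = (commutator A).map f := by
        rw [MonoidHom.range_comp, Subgroup.range_subtype]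
      rw [h3, pow_succ, mul_comm] at h2
      exact Nat.eq_of_mul_eq_mul_right hp.pos h2
    have hcl : closure (Set.range fun i => (QuotientGroup.mk (x i) : A ⧸ zpowers z)) = ⊤ := by
      have h4 : (closure (Set.range x)).map f = closure (f '' Set.range x) := MonoidHom.map_closure _ _
      rw [hx, ← MonoidHom.range_eq_map, MonoidHom.range_eq_top.2 hfs, ← Set.range_comp] at h4
      rw [h4, hf]
      rfl
    obtain ⟨t, rho, ht, hrho⟩ := ih (A ⧸ zpowers z) (hA.to_quotient _) hcard
      (fun i => (QuotientGroup.mk (x i) : A ⧸ zpowers z)) hcl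
    obtain ⟨rho', hrho'⟩ := pres_step x hx z hzc hzp rho hrho
    refine ⟨t + k + 1, rho', ?_, hrho'⟩
    have e : (c + 1) * (k + 1) = c * (k + 1) + (k + 1) := by ring
    omega

end Pool.Agent.RG
end

section

/-!
# RG WD: construction of the data

`exists_sig`: the number of pairs `(a, b)`, `a < b < m`, is `m (m - 1) / 2` (`Finset.card` of an `offDiag`-like set, `Sym2`, or
`Fintype.card {q : Fin m × Fin m // q.1 < q.2} = m.choose 2`), so there is an injection of `Fin t` into the pairs of `Fin m`, compose with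
`Fin.castLE hmN`.
`pres_core`: `A = closure (range x)` as a group, generators `x i` in `A`: `closure = ⊤` in `A`; it is a finite `p`-group,
`commutator A` corresponds to `⁅closure (range x), closure (range x)⁆ = commutator G` (`Subgroup.map_subtype_commutator`), of order
`p ^ c`.  `pres_small` (P3); the kernel of `FreeGroup.lift x` (to `G`) is the kernel of the lift to `A` (the inclusion is
injective).
`exists_dat`: `K = closure (range x) ≥ ⁅K, K⁆ = commutator G`, so `K` is normal (`Subgroup.Normal` of a subgroup above the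
commutator: `x⁻¹ g x = g * cm g x`).  `cw i j`: `cm (x i) (y j) ∈ commutator G = ⁅K, K⁆ = image of commutator (FreeGroup (Fin k))` under
`lift x` (`range_lift_eq`, `Subgroup.map_commutator`); choose a preimage in the commutator subgroup, and choose `1` if `j.val < m`
(allowed by `h1`).  `aw j l`: a word for `cm (y j) (y l) ∈ K`, `1` if `j, l < m` (`h2`).  `nb, v`: `exists_lattice` (P1) for `y`, `K`.
`bw i`: a word for `gpow y (v i) ∈ K`.  `rho`: `pres_core`.  `sig`: `exists_sig` (`t ≤ k ^ 2 + k + c (k + 1) ≤ m (m - 1) / 2`).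
`fr`: `frK_of_gen` (V2), the number of generators is `k + N = rank`.  `hv3`: `r = gpow Y (v i) * (inx (bw i))⁻¹` is in the kernel, so
`p ∣ ev r (inr j) = v i j` (`ev_gpow_inr`, `ev_inx_inr`).
-/

set_option autoImplicit false

namespace Pool.Agent.RG

open Subgroup
open scoped commutatorElement

theorem exists_sig {m N t : ℕ} (hmN : m ≤ N) (ht : t ≤ m * (m - 1) / 2) :
    ∃ sig : Fin t → {q : Fin N × Fin N // q.1 < q.2}, Function.Injective sig ∧
      ∀ j, (sig j).1.2.val < m := by
  have hcard : Fintype.card (Σ j : Fin m, Fin j.val) = m * (m - 1) / 2 := by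
    rw [Fintype.card_sigma]
    simp only [Fintype.card_fin]
    rw [Fin.sum_univ_eq_sum_range (fun i => i) m, Finset.sum_range_id]
  have hemb : Nonempty (Fin t ↪ (Σ j : Fin m, Fin j.val)) := by
    apply Function.Embedding.nonempty_of_card_le
    rw [hcard, Fintype.card_fin]
    exact ht
  obtain ⟨e⟩ := hemb
  let F : (Σ j : Fin m, Fin j.val) → {q : Fin N × Fin N // q.1 < q.2} := fun s =>
    ⟨(⟨s.2.val, by have h1 := s.2.2; have h2 := s.1.2; omega⟩,
      ⟨s.1.val, by have h2 := s.1.2; omega⟩), by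
        rw [Fin.lt_def]
        exact s.2.2⟩
  have hF : Function.Injective F := by
    rintro ⟨⟨a, ha⟩, ⟨b, hb⟩⟩ ⟨⟨c, hc⟩, ⟨d, hd⟩⟩ h
    have h' := congrArg Subtype.val h
    have h1 : b = d := congrArg (fun q : Fin N × Fin N => q.1.val) h'
    have h2 : a = c := congrArg (fun q : Fin N × Fin N => q.2.val) h'
    subst h1 h2
    rfl
  refine ⟨F ∘ e, hF.comp e.injective, fun j => ?_⟩
  exact (e j).1.2

theorem pres_core {p : ℕ} [Fact p.Prime] {G : Type} [Group G] [Finite G] (hG : IsPGroup p G)
    {c : ℕ} (hc : Nat.card (commutator G) = p ^ c) {k : ℕ} (x : Fin k → G)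
    (hcore : ⁅closure (Set.range x), closure (Set.range x)⁆ = commutator G) :
    ∃ (t : ℕ) (rho : Fin t → FreeGroup (Fin k)), t ≤ k ^ 2 + k + c * (k + 1) ∧
      normalClosure (Set.range rho) = (FreeGroup.lift x).ker := by
  set K : Subgroup G := closure (Set.range x) with hK
  let y : Fin k → K := fun i => ⟨x i, subset_closure (Set.mem_range_self i)⟩
  have hy : closure (Set.range y) = ⊤ := by
    apply Subgroup.map_injective K.subtype_injective
    rw [MonoidHom.map_closure]
    have h1 : K.subtype '' Set.range y = Set.range x := by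
      rw [← Set.range_comp]
      rfl
    rw [h1, ← hK, ← MonoidHom.range_eq_map, Subgroup.range_subtype]
  have hcA : Nat.card (commutator K) = p ^ c := by
    rw [← hc, ← hcore, ← Subgroup.map_subtype_commutator K]
    exact (Nat.card_congr ((commutator K).equivMapOfInjective K.subtype K.subtype_injective).toEquiv)
  obtain ⟨t, rho, h1, h2⟩ := pres_small c K (hG.to_subgroup K) hcA y hy
  refine ⟨t, rho, h1, ?_⟩
  rw [h2]
  have h3 : FreeGroup.lift x = K.subtype.comp (FreeGroup.lift y) := by
    ext i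
    simp [y]
  ext w
  rw [MonoidHom.mem_ker, MonoidHom.mem_ker, h3, MonoidHom.comp_apply]
  constructor
  · intro h
    rw [h, map_one]
  · intro h
    exact K.subtype_injective (by rw [h, map_one])

theorem exists_dat {p : ℕ} [Fact p.Prime] {G : Type} [Group G] [Finite G] (hG : IsPGroup p G)
    {c : ℕ} (hc : Nat.card (commutator G) = p ^ c) {k N m : ℕ} (x : Fin k → G) (y : Fin N → G)
    (hkN : k + N = Group.rank G) (hmN : m ≤ N) (hgen : closure (Set.range (Sum.elim x y)) = ⊤)
    (hcore : ⁅closure (Set.range x), closure (Set.range x)⁆ = commutator G)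
    (h1 : ∀ i j, j.val < m → cm (x i) (y j) = 1)
    (h2 : ∀ j l, j.val < m → l.val < m → cm (y j) (y l) = 1)
    (hcount : k ^ 2 + k + c * (k + 1) ≤ m * (m - 1) / 2) :
    ∃ D : Dat p G, D.k + D.N = Group.rank G := by
  have hle : commutator G ≤ closure (Set.range x) := by
    rw [← hcore, Subgroup.commutator_le]
    intro a ha b hb
    rw [commutatorElement_def]
    exact mul_mem (mul_mem (mul_mem ha hb) (inv_mem ha)) (inv_mem hb)
  have hcmem : ∀ a b : G, cm a b ∈ commutator G := by
    intro a b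
    have h : cm a b = ⁅a⁻¹, b⁻¹⁆ := by
      rw [commutatorElement_def, cm, inv_inv, inv_inv]
    rw [h]
    exact Subgroup.commutator_mem_commutator (mem_top _) (mem_top _)
  have hnorm : (closure (Set.range x)).Normal := by
    refine ⟨fun n hn g => ?_⟩
    have h : g * n * g⁻¹ = ⁅g, n⁆ * n := by
      rw [commutatorElement_def]
      group
    rw [h]
    exact mul_mem (hle (Subgroup.commutator_mem_commutator (mem_top _) (mem_top _))) hn
  have hw1 : ∀ g ∈ commutator G, ∃ w ∈ commutator (FreeGroup (Fin k)), FreeGroup.lift x w = g := by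
    intro g hg
    rw [← hcore, ← range_lift_eq, MonoidHom.range_eq_map, ← Subgroup.map_commutator] at hg
    obtain ⟨w, hw, hw'⟩ := hg
    exact ⟨w, hw, hw'⟩
  have hw2 : ∀ g ∈ closure (Set.range x), ∃ w, FreeGroup.lift x w = g := by
    intro g hg
    rw [← range_lift_eq] at hg
    exact hg
  have hcw : ∀ (i : Fin k) (j : Fin N), ∃ w ∈ commutator (FreeGroup (Fin k)),
      FreeGroup.lift x w = cm (x i) (y j) ∧ (j.val < m → w = 1) := by
    intro i j
    by_cases hj : j.val < m
    · refine ⟨1, one_mem _, ?_, fun _ => rfl⟩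
      rw [map_one, h1 i j hj]
    · obtain ⟨w, hw, hw'⟩ := hw1 _ (hcmem (x i) (y j))
      exact ⟨w, hw, hw', fun h => absurd h hj⟩
  choose cw hcw1 hcw2 hcw3 using hcw
  have haw : ∀ (j l : Fin N), ∃ w : FreeGroup (Fin k),
      FreeGroup.lift x w = cm (y j) (y l) ∧ (j.val < m → l.val < m → w = 1) := by
    intro j l
    by_cases hj : j.val < m ∧ l.val < m
    · refine ⟨1, ?_, fun _ _ => rfl⟩
      rw [map_one, h2 j l hj.1 hj.2]
    · obtain ⟨w, hw⟩ := hw2 _ (hle (hcmem (y j) (y l)))
      exact ⟨w, hw, fun h h' => absurd ⟨h, h'⟩ hj⟩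
  choose aw haw1 haw2 using haw
  obtain ⟨nb, v, -, hv, hv2⟩ := exists_lattice y (closure (Set.range x)) hle
  have hbw : ∀ i : Fin nb, ∃ w : FreeGroup (Fin k), FreeGroup.lift x w = gpow y (v i) := by
    intro i
    exact hw2 _ ((hv2 (v i)).2 (Submodule.subset_span (Set.mem_range_self i)))
  choose bw hbw using hbw
  obtain ⟨t, rho, ht, hrho⟩ := pres_core hG hc x hcore
  obtain ⟨sig, hsig, hsig2⟩ := exists_sig hmN (ht.trans hcount)
  have hfr : FrK p (FreeGroup.lift (Sum.elim x y)).ker := by
    refine frK_of_gen hG (Sum.elim x y) hgen ?_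
    rw [Fintype.card_sum, Fintype.card_fin, Fintype.card_fin]
    exact hkN
  have hinx : ∀ w : FreeGroup (Fin k),
      FreeGroup.lift (Sum.elim x y) (inx k N w) = FreeGroup.lift x w := by
    have h : (FreeGroup.lift (Sum.elim x y)).comp (inx k N) = FreeGroup.lift x := by
      ext i
      simp [inx]
    intro w
    rw [← h]
    rfl
  have hv3 : ∀ i j, (p : ℤ) ∣ v i j := by
    intro i j
    have hmem : gpow Y (v i) * (inx k N (bw i))⁻¹ ∈ (FreeGroup.lift (Sum.elim x y)).ker := by
      rw [MonoidHom.mem_ker, map_mul, map_inv, hinx, hbw, map_gpow]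
      have h : (fun j : Fin N => FreeGroup.lift (Sum.elim x y) (Y j : FF k N)) = y := by
        funext j
        simp [Y]
      rw [h, mul_inv_cancel]
    have h := hfr _ hmem (Sum.inr j)
    rw [ev_mul, ev_inv, ev_gpow_inr, ev_inx_inr, neg_zero, add_zero] at h
    exact h
  exact ⟨{ k := k, N := N, m := m, nb := nb, t := t, x := x, y := y, cw := cw, aw := aw, v := v,
           bw := bw, rho := rho, sig := sig, gen := hgen, fr := hfr, hcw := hcw1, hcw2 := hcw2,
           haw := haw1, hv := hv, hv2 := hv2, hv3 := hv3, hbw := hbw, hrho := hrho,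
           hsig := hsig, hsig2 := hsig2, hdes := fun i j hj => hcw3 i j hj,
           hdes2 := fun j l hj hl => haw2 j l hj hl }, hkN⟩

end Pool.Agent.RG
end
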