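import Pool.Agent.Lib.MP_1a39b9_al.Mg.G001
import Pool.Agent.Lib.MP_1a39b9_al.RG.M3
import Pool.Agent.Lib.MP_1a39b9_al.Mg.G003

section

/-!
# RG Q6: the presentation

`Wc q`: the words in the commutators of the chosen pairs.  `Trel p q w c`: the relators `[x_i, x_j] = w i j` for all pairs except the chosen ones and `x_i ^ p = c i`.
PROOFS.
`Trel_card`: `card_union_le`, `card_image_le`; the filter has `card (Pr d) - e` elements: the complement is the image of the injective map `a ↦ ⟨(q a).1, _⟩`.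
`lift_Wc`: `lift x (Wc q f) = th (fun a => (ev f a : ZMod p))`: both sides are homomorphisms in `f` (`add`), and agree on `of a`: `cm (x u) (x v) = th (b u v) = th (Pi.single a 1)`
(`FreeGroup.induction_on` with `ev_mul`, `ev_inv`, `neg`, `zero`, `ev_of`).
`Trel_le`: `Subgroup.normalClosure_le_normal`, `map_cm`, `cmm`, `pw`, `lift_Wc`.
`disc_of_words`: `T = Trel p q w c`, where `c i` is a word over `pi i` (`exists_word` in W1).  `N = normalClosure T ≤ R = (lift x).ker`.  `H = F ⧸ N`, `X i = mk (of i)`: `card_of_rel` (relators: for a chosen pair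
`(i, j) = (q a).1` `w i j = of a` (`hw2`) and the relation is trivial; otherwise the relator is in `T`): `Nat.card H ≤ p ^ (d + e) = Nat.card G = R.index` (`Subgroup.index_ker`,
`lift x` is surjective by `gen`).  `N.index = (N.relIndex R) * R.index` (`Subgroup.relIndex_mul_index`), so `N.relIndex R = 1` and `R ≤ N`
(`Subgroup.relIndex_eq_one`).  (`N.index = Nat.card H ≠ 0` because `H` is finite.)
-/

set_option autoImplicit false

namespace Pool.Agent.RG

open Subgroup

/-- The words in the commutators of the chosen pairs. -/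
def Wc {d e : ℕ} (q : Fin e → Ins d 0) : FreeGroup (Fin e) →* FreeGroup (Fin d) :=
  FreeGroup.lift fun a => cm (FreeGroup.of (q a).1.1) (FreeGroup.of (q a).1.2)

open Classical in
/-- The relators. -/
noncomputable def Trel (p : ℕ) {d e : ℕ} (q : Fin e → Ins d 0) (w : Fin d → Fin d → FreeGroup (Fin e))
    (c : Fin d → FreeGroup (Fin e)) : Finset (FreeGroup (Fin d)) :=
  ((Finset.univ.filter fun t : Pr d => ∀ a, (q a).1 ≠ t.1).image fun t =>
      cm (FreeGroup.of t.1.1) (FreeGroup.of t.1.2) * (Wc q (w t.1.1 t.1.2))⁻¹) ∪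
    Finset.univ.image fun i => FreeGroup.of i ^ p * (Wc q (c i))⁻¹

theorem Trel_card (p : ℕ) {d e : ℕ} (q : Fin e → Ins d 0) (hq : Function.Injective q)
    (w : Fin d → Fin d → FreeGroup (Fin e)) (c : Fin d → FreeGroup (Fin e)) :
    (Trel p q w c).card + e ≤ d + Fintype.card (Pr d) := by
  classical
  have h1 : (Trel p q w c).card ≤ (Finset.univ.filter fun t : Pr d => ∀ a, (q a).1 ≠ t.1).card + d := by
    unfold Trel
    refine (Finset.card_union_le _ _).trans (Nat.add_le_add Finset.card_image_le ?_)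
    refine Finset.card_image_le.trans ?_
    rw [Finset.card_univ, Fintype.card_fin]
  have h2 : (Finset.univ.filter fun t : Pr d => ∀ a, (q a).1 ≠ t.1).card +
      (Finset.univ.filter fun t : Pr d => ¬ ∀ a, (q a).1 ≠ t.1).card = Fintype.card (Pr d) := by
    rw [Finset.card_filter_add_card_filter_not, Finset.card_univ]
  have h3 : e ≤ (Finset.univ.filter fun t : Pr d => ¬ ∀ a, (q a).1 ≠ t.1).card := by
    have h4 : (Finset.univ.image fun a : Fin e => (⟨(q a).1, (q a).2.2.1⟩ : Pr d)) ⊆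
        Finset.univ.filter fun t : Pr d => ¬ ∀ a, (q a).1 ≠ t.1 := by
      intro t ht
      obtain ⟨a, -, ha⟩ := Finset.mem_image.1 ht
      refine Finset.mem_filter.2 ⟨Finset.mem_univ _, fun h => h a ?_⟩
      rw [← ha]
    have h5 := Finset.card_le_card h4
    rw [Finset.card_image_of_injective, Finset.card_univ, Fintype.card_fin] at h5
    · exact h5
    · intro a a' haa
      apply hq
      apply Subtype.ext
      have h6 := congrArg (fun t : Pr d => t.1) haa
      exact h6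
  omega

section
variable {p : ℕ} [Fact p.Prime] {G : Type} [Group G] {d e : ℕ} {x : Fin d → G}
  {th : (Fin e → ZMod p) → G} {pi : Fin d → Fin e → ZMod p} {b : Fin d → Fin d → Fin e → ZMod p}

theorem lift_Wc (h : Mk p x th pi b) (q : Fin e → Ins d 0)
    (hq : ∀ a, b (q a).1.1 (q a).1.2 = Pi.single a 1) (f : FreeGroup (Fin e)) :
    FreeGroup.lift x (Wc q f) = th (fun a => ((ev f a : ℤ) : ZMod p)) := by
  have hof : ∀ a, FreeGroup.lift x (Wc q (FreeGroup.of a)) =
      th (fun a' => ((ev (FreeGroup.of a) a' : ℤ) : ZMod p)) := by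
    intro a
    unfold Wc
    rw [FreeGroup.lift_apply_of, map_cm, FreeGroup.lift_apply_of, FreeGroup.lift_apply_of, h.cmm, hq a]
    congr 1
    funext a'
    rw [ev_of, Pi.single_apply]
    by_cases h1 : a = a'
    · rw [if_pos h1, if_pos h1.symm, Int.cast_one]
    · rw [if_neg h1, if_neg (Ne.symm h1), Int.cast_zero]
  induction f using FreeGroup.induction_on with
  | C1 =>
    rw [map_one, map_one]
    have h1 : (fun a : Fin e => ((ev (1 : FreeGroup (Fin e)) a : ℤ) : ZMod p)) = 0 := by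
      funext a
      rw [ev_one, Int.cast_zero]
      rfl
    rw [h1, h.zero]
  | of a => exact hof a
  | inv_of a ha =>
    rw [map_inv, map_inv]
    have h1 : (fun a' : Fin e => ((ev (FreeGroup.of a)⁻¹ a' : ℤ) : ZMod p)) =
        -(fun a' : Fin e => ((ev (FreeGroup.of a) a' : ℤ) : ZMod p)) := by
      funext a'
      rw [ev_inv, Int.cast_neg]
      rfl
    rw [h1, h.neg, ← hof a]
  | mul f g hf hg =>
    rw [map_mul, map_mul, hf, hg, ← h.add]
    congr 1
    funext a
    rw [ev_mul, Int.cast_add]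
    rfl

private theorem Q6_cm_eq (h : Mk p x th pi b) (q : Fin e → Ins d 0)
    (hq : ∀ a, b (q a).1.1 (q a).1.2 = Pi.single a 1) {f : FreeGroup (Fin e)} {v : Fin e → ZMod p}
    (hf : ∀ a, ((ev f a : ℤ) : ZMod p) = v a) : FreeGroup.lift x (Wc q f) = th v := by
  rw [lift_Wc h q hq f]
  congr 1
  funext a
  exact hf a

theorem Trel_le (h : Mk p x th pi b) (q : Fin e → Ins d 0)
    (hq : ∀ a, b (q a).1.1 (q a).1.2 = Pi.single a 1) (w : Fin d → Fin d → FreeGroup (Fin e))
    (c : Fin d → FreeGroup (Fin e))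
    (hw : ∀ i j, i < j → ∀ a, ((ev (w i j) a : ℤ) : ZMod p) = b i j a)
    (hc : ∀ i a, ((ev (c i) a : ℤ) : ZMod p) = pi i a) :
    normalClosure (Trel p q w c : Set (FreeGroup (Fin d))) ≤ (FreeGroup.lift x).ker := by
  classical
  refine normalClosure_le_normal ?_
  intro r hr
  have hr' : r ∈ Trel p q w c := hr
  unfold Trel at hr'
  show r ∈ (FreeGroup.lift x).ker
  rw [MonoidHom.mem_ker]
  rcases Finset.mem_union.1 hr' with h1 | h1
  · obtain ⟨t, -, ht⟩ := Finset.mem_image.1 h1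
    rw [← ht, map_mul, map_inv, map_cm, FreeGroup.lift_apply_of, FreeGroup.lift_apply_of, h.cmm,
      Q6_cm_eq h q hq (hw t.1.1 t.1.2 t.2), mul_inv_cancel]
  · obtain ⟨i, -, hi⟩ := Finset.mem_image.1 h1
    rw [← hi, map_mul, map_inv, map_pow, FreeGroup.lift_apply_of, h.pw, Q6_cm_eq h q hq (hc i),
      mul_inv_cancel]

theorem disc_of_words (h : Mk p x th pi b) (hd : 3 ≤ d) (q : Fin e → Ins d 0)
    (hq : ∀ a, b (q a).1.1 (q a).1.2 = Pi.single a 1) (w : Fin d → Fin d → FreeGroup (Fin e))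
    (hw : ∀ i j, i < j → ∀ a, ((ev (w i j) a : ℤ) : ZMod p) = b i j a)
    (hw1 : ∀ a j : Fin d, a.val < 3 → part j = a.val → w a j = 1)
    (hw2 : ∀ a, w (q a).1.1 (q a).1.2 = FreeGroup.of a)
    (hw3 : ∀ a : Fin d, a.val < 3 → closure (Set.range fun j : Out d a.val => w a j.1) = ⊤)
    (hw4 : ∀ r < 3, closure (Set.range fun t : Ins d r => w t.1.1 t.1.2) = ⊤) :
    ∃ T : Finset (FreeGroup (Fin d)), Disc (FreeGroup.lift x) T ∧
      T.card + e ≤ d + Fintype.card (Pr d) := by
  classical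
  have hp : p.Prime := Fact.out
  have hp1 : 1 ≤ p := hp.one_lt.le
  have hne : NeZero p := ⟨hp.ne_zero⟩
  have hqi : Function.Injective q := by
    intro a a' haa
    have h1 := hq a
    rw [haa, hq a'] at h1
    by_contra hne
    have h2 := congrFun h1 a
    rw [Pi.single_apply, Pi.single_apply, if_neg hne, if_pos rfl] at h2
    exact zero_ne_one h2
  choose c hc using fun i => exists_word (pi i)
  let T := Trel p q w c
  let N : Subgroup (FreeGroup (Fin d)) := normalClosure (T : Set (FreeGroup (Fin d)))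
  have hNR : N ≤ (FreeGroup.lift x).ker := Trel_le h q hq w c hw hc
  have hmem : ∀ r ∈ T, r ∈ N := fun r hr => subset_normalClosure hr
  have hrange : (FreeGroup.lift x).range = ⊤ := by rw [range_lift_eq, h.gen]
  have hsurj : Function.Surjective (FreeGroup.lift x) := MonoidHom.range_eq_top.1 hrange
  let mk : FreeGroup (Fin d) →* FreeGroup (Fin d) ⧸ N := QuotientGroup.mk' N
  let X : Fin d → FreeGroup (Fin d) ⧸ N := fun i => mk (FreeGroup.of i)
  have hX : closure (Set.range X) = ⊤ := by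
    have h1 : FreeGroup.lift X = mk := by
      ext i
      rw [FreeGroup.lift_apply_of]
    rw [← range_lift_eq, h1]
    exact MonoidHom.range_eq_top.2 (QuotientGroup.mk'_surjective N)
  have hL : ∀ f : FreeGroup (Fin e),
      FreeGroup.lift (fun a => cm (X (q a).1.1) (X (q a).1.2)) f = mk (Wc q f) := by
    intro f
    have h1 : FreeGroup.lift (fun a => cm (X (q a).1.1) (X (q a).1.2)) = mk.comp (Wc q) := by
      ext a
      rw [FreeGroup.lift_apply_of, MonoidHom.comp_apply]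
      unfold Wc
      rw [FreeGroup.lift_apply_of, map_cm]
    rw [h1, MonoidHom.comp_apply]
  have hmk : ∀ f g : FreeGroup (Fin d), f * g⁻¹ ∈ T → mk f = mk g := by
    intro f g hfg
    have h1 : mk (f * g⁻¹) = 1 := (QuotientGroup.eq_one_iff _).2 (hmem _ hfg)
    rw [map_mul, map_inv] at h1
    exact mul_inv_eq_one.1 h1
  have h1 : ∀ i j, i < j → cm (X i) (X j) =
      FreeGroup.lift (fun a => cm (X (q a).1.1) (X (q a).1.2)) (w i j) := by
    intro i j hij
    rw [hL, ← map_cm]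
    by_cases hch : ∀ a, (q a).1 ≠ (i, j)
    · refine hmk _ _ ?_
      refine Finset.mem_union_left _ (Finset.mem_image.2 ⟨⟨(i, j), hij⟩, ?_, rfl⟩)
      exact Finset.mem_filter.2 ⟨Finset.mem_univ _, hch⟩
    · push Not at hch
      obtain ⟨a, ha⟩ := hch
      have h2 := hw2 a
      rw [ha] at h2
      have h3 : w i j = FreeGroup.of a := h2
      rw [h3]
      unfold Wc
      rw [FreeGroup.lift_apply_of, ha]
  have h2 : ∀ i, X i ^ p = FreeGroup.lift (fun a => cm (X (q a).1.1) (X (q a).1.2)) (c i) := by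
    intro i
    rw [hL, ← map_pow]
    refine hmk _ _ ?_
    exact Finset.mem_union_right _ (Finset.mem_image.2 ⟨i, Finset.mem_univ _, rfl⟩)
  obtain ⟨hfin, hcard⟩ := card_of_rel hp1 hd X hX q w c hw1 hw3 hw4 h1 h2
  have hR : (FreeGroup.lift x).ker.index = p ^ (d + e) := by
    rw [Subgroup.index_ker, hrange, Subgroup.card_top, h.card]
  have hN : N.index ≤ p ^ (d + e) := hcard
  have hN0 : N.index ≠ 0 := by
    have : N.index = Nat.card (FreeGroup (Fin d) ⧸ N) := rfl
    rw [this]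
    exact Nat.card_pos.ne'
  have hmul := Subgroup.relIndex_mul_index hNR
  rw [hR] at hmul
  have hpp : 0 < p ^ (d + e) := pow_pos hp.pos _
  have hrel : N.relIndex (FreeGroup.lift x).ker = 1 := by
    have h3 : N.relIndex (FreeGroup.lift x).ker * p ^ (d + e) ≤ 1 * p ^ (d + e) := by
      rw [hmul, one_mul]
      exact hN
    have h4 := Nat.le_of_mul_le_mul_right h3 hpp
    have h5 : N.relIndex (FreeGroup.lift x).ker ≠ 0 := by
      intro h6
      rw [h6, zero_mul] at hmul
      exact hN0 hmul.symm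
    omega
  refine ⟨T, ⟨hsurj, le_antisymm hNR (Subgroup.relIndex_eq_one.1 hrel)⟩, Trel_card p q hqi w c⟩

end

end Pool.Agent.RG
end

section

/-!
# RG Q7: groups with good commutators have no gap

PROOF of `nogap_norm`.  `exists_words` (W3), `disc_of_words` (Q6): `T` with `Disc (lift x) T`, `T.card + e ≤ d + card (Pr d)`.  `lower_bound` (L1) with `ψ = lift x`, `frK`,
`r a = cm (of (q a).1.1) (of (q a).1.2)` (`ev_cm`), `hgen`: `lift_frF` and `mem_closure` (`lift x (r a) = th (b ..) = th (Pi.single a 1)`, `map_cm`, `cmm`); `Module.Finite`: `(Disc.proP h).findim` (M3, B2):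
`T.card ≤ finrank (IL p ψ.ker)`.  For a pro-`p` presentation `φ`, `S`: `finrank_IL_le` (B3), `ProP.finrank_le` (B2) (`Mk.finite` for `Finite G`, `Mk.pgroup`).
`NoGap`: `d`, the map `lift x` is surjective (`gen`, `range_lift_eq`), `Mk.rank`.
PROOF of `nogap_of_good`: `Mk.act`, `exists_basis`, `Mk.change`, `Gd.change`, `nogap_norm`.
-/

set_option autoImplicit false

namespace Pool.Agent.RG

open Subgroup

variable {p : ℕ} [Fact p.Prime] {G : Type} [Group G] {d e : ℕ} {x : Fin d → G}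
  {th : (Fin e → ZMod p) → G} {pi : Fin d → Fin e → ZMod p} {b : Fin d → Fin d → Fin e → ZMod p}

theorem nogap_norm (h : Mk p x th pi b) (hB : Big d e) (hb : Gd p b) (q : Fin e → Ins d 0)
    (hq : ∀ a, b (q a).1.1 (q a).1.2 = Pi.single a 1) : NoGap p G := by
  obtain ⟨w, hw, hw1, hw2, hw3, hw4⟩ := exists_words hB hb q hq
  obtain ⟨T, hT, hTc⟩ := disc_of_words h hB.three_le q hq w hw hw1 hw2 hw3 hw4
  have hfin : Finite G := h.finite
  have hpg := h.pgroup
  have hsurj : Function.Surjective (FreeGroup.lift x) := hT.surj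
  have hpp : ProP p (FreeGroup.lift x) T := hT.proP
  have hfd : Module.Finite (ZMod p) (IL p (FreeGroup.lift x).ker) := hpp.findim hpg
  have hval : ∀ a, FreeGroup.lift x (cm (FreeGroup.of (q a).1.1) (FreeGroup.of (q a).1.2)) =
      th (Pi.single a 1) := by
    intro a
    rw [map_cm, FreeGroup.lift_apply_of, FreeGroup.lift_apply_of, h.cmm, hq]
  have hle : T.card ≤ Module.finrank (ZMod p) (IL p (FreeGroup.lift x).ker) := by
    have hlb := lower_bound (FreeGroup.lift x) h.frK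
      (fun a => cm (FreeGroup.of (q a).1.1) (FreeGroup.of (q a).1.2))
      (fun a i => by
        rw [ev_cm]
        exact dvd_zero _)
      (fun f hf => by
        obtain ⟨v, hv⟩ := h.lift_frF hf
        rw [hv]
        have hm := h.mem_closure v
        have he : (fun a => FreeGroup.lift x (cm (FreeGroup.of (q a).1.1) (FreeGroup.of (q a).1.2))) =
            fun a : Fin e => th (Pi.single a 1) := funext hval
        rw [he]
        exact hm)
    omega
  refine ⟨d, ⟨FreeGroup.lift x, hsurj⟩, fun m hm φ => h.rank hm φ, FreeGroup.lift x, T, hT,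
    fun φ S hS => ?_⟩
  have hfd' : Module.Finite (ZMod p) (IL p φ.ker) := hS.findim hpg
  exact hle.trans ((finrank_IL_le hsurj h.frK hS.surj).trans (hS.finrank_le hpg))

theorem nogap_of_good (h : Mk p x th pi b) (hB : Big d e) (hb : Good p b) : NoGap p G := by
  obtain ⟨g, hg, hgd⟩ := hb
  obtain ⟨x', pi', h'⟩ := h.act g hg
  obtain ⟨A, q, hq⟩ := exists_basis hgd
  exact nogap_norm (h'.change A) hB (hgd.change A) q hq

end Pool.Agent.RG
end

section

/-!
# RG G7: double counting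

`Ω = Fin (p ^ (d + e))`.
PROOF of `card_mk`.  `mk_iff`: the set is the product of the set of the generating tuples `x` and the set of the `th`: `Set.ncard_prod` (or `Set.ncard_image_of_injective`, `Nat.card_prod`), `card_gen` (G5), `card_th` (G6).
PROOF of `count_marked`.  The set on the left is the disjoint union over `I ∈ A` of `{I} × {(x, th) | ..}`, each of cardinality `Nmk p d e` by `card_mk`
(finite types: `finite_group`; use `Finset.card_eq_sum_card_fiberwise` with `t ↦ t.1`, or `Nat.card_sigma`).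
PROOF of `count_data`.  The set on the left is the disjoint union (`Mset_disj`) of the `Mset s`, `s ∈ B`; `card_Mset`.
PROOF of `laws_total`.  `A = Laws p (p ^ (d+e)) e`, `B = {s | Spn s}`: the two sets of marked laws are the same: `t ∈ Mset s` implies `t.1 ∈ Laws` (`Mk.pc2`; `Mk.ph`, `Mk.inj`: `|Ph| = |range th| = p ^ e`)
and `Spn s` (`Mset_spn`).
PROOF of `laws_bad`.  `A` = the laws with a gap.  If `t ∈ Mset s`, `t.1 ∈ A`, then `¬ Good p (ext s.2)` by `nogap_of_good` (Q7).  So the set of the marked laws over `A` is contained in the union of the `Mset s`,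
`Spn s ∧ ¬ Good`.
-/

set_option autoImplicit false

namespace Pool.Agent.RG

open Subgroup

private theorem G7_fib {α β : Type*} [Finite α] [Finite β] (A : Set α) (P : α → β → Prop) (n : ℕ)
    (h : ∀ a ∈ A, Set.ncard {b | P a b} = n) :
    Set.ncard {q : α × β | q.1 ∈ A ∧ P q.1 q.2} = A.ncard * n := by
  classical
  have := Fintype.ofFinite α
  have := Fintype.ofFinite β
  have e1 : Nat.card {q : α × β // q.1 ∈ A ∧ P q.1 q.2} = Nat.card (Σ a : A, {b // P a.1 b}) := by
    refine Nat.card_congr ⟨fun q => ⟨⟨q.1.1, q.2.1⟩, ⟨q.1.2, q.2.2⟩⟩,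
      fun q => ⟨(q.1.1, q.2.1), q.1.2, q.2.2⟩, fun q => rfl, fun q => rfl⟩
  have e2 : ∀ a : A, Nat.card {b // P a.1 b} = n := fun a => h a.1 a.2
  change Nat.card {q : α × β // q.1 ∈ A ∧ P q.1 q.2} = Nat.card A * n
  rw [e1, Nat.card_sigma, Finset.sum_congr rfl fun a _ => e2 a, Finset.sum_const, Finset.card_univ, smul_eq_mul,
    Nat.card_eq_fintype_card]

private theorem G7_union {α β : Type*} [Finite α] [Finite β] (B : Set α) (M : α → Set β) (n : ℕ)
    (hd : ∀ s s' t, t ∈ M s → t ∈ M s' → s = s') (h : ∀ s ∈ B, (M s).ncard = n) :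
    Set.ncard {t | ∃ s ∈ B, t ∈ M s} = B.ncard * n := by
  rw [← G7_fib B (fun s t => t ∈ M s) n h]
  have e1 : {t | ∃ s ∈ B, t ∈ M s} = Prod.snd '' {q : α × β | q.1 ∈ B ∧ q.2 ∈ M q.1} := by
    ext t
    constructor
    · rintro ⟨s, hs, ht⟩
      exact ⟨(s, t), ⟨hs, ht⟩, rfl⟩
    · rintro ⟨⟨s, t'⟩, ⟨hs, ht⟩, rfl⟩
      exact ⟨s, hs, ht⟩
  rw [e1]
  apply Set.InjOn.ncard_image
  rintro ⟨s, t⟩ ⟨_, ht⟩ ⟨s', t'⟩ ⟨_, ht'⟩ he
  change t = t' at he
  subst he
  rw [hd s s' t ht ht']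

private theorem G7_card_ph {p : ℕ} [Fact p.Prime] {G : Type} [Group G] {d e : ℕ} {x : Fin d → G}
    {th : (Fin e → ZMod p) → G} {pi : Fin d → Fin e → ZMod p} {b : Fin d → Fin d → Fin e → ZMod p}
    (h : Mk p x th pi b) : Nat.card (Ph p G) = p ^ e := by
  have e1 : ((Ph p G : Subgroup G) : Set G) = Set.range th := by
    ext g
    change g ∈ Ph p G ↔ _
    rw [h.ph g, Set.mem_range]
    exact ⟨fun ⟨v, hv⟩ => ⟨v, hv.symm⟩, fun ⟨v, hv⟩ => ⟨v, hv.symm⟩⟩
  have e2 : Nat.card (Ph p G) = Nat.card (Set.range th) := Nat.card_congr (Equiv.setCongr e1)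
  rw [e2, ← Nat.card_congr (Equiv.ofInjective th h.inj), Nat.card_fun, Nat.card_eq_fintype_card,
    Nat.card_eq_fintype_card, Fintype.card_fin, ZMod.card]

section
variable {p d e : ℕ} [Fact p.Prime]

theorem card_mk {G : Type} [Group G] (h : PC2 p G) (hc : Nat.card G = p ^ (d + e))
    (hp : Nat.card (Ph p G) = p ^ e) :
    Set.ncard {t : (Fin d → G) × ((Fin e → ZMod p) → G) | ∃ s : Sd p d e,
      Mk p t.1 t.2 s.1 (ext s.2)} = Nmk p d e := by
  have hfin : Finite G := Nat.finite_of_card_ne_zero (by rw [hc]; exact pow_ne_zero _ (Fact.out : p.Prime).ne_zero)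
  have e1 : {t : (Fin d → G) × ((Fin e → ZMod p) → G) | ∃ s : Sd p d e, Mk p t.1 t.2 s.1 (ext s.2)} =
      {x : Fin d → G | closure (Set.range x) = ⊤} ×ˢ
      {th : (Fin e → ZMod p) → G | (∀ v w, th (v + w) = th v * th w) ∧
        Function.Injective th ∧ ∀ v, th v ∈ Ph p G} := by
    ext t
    rw [Set.mem_prod]
    exact mk_iff h hc hp t.1 t.2
  rw [e1, Set.ncard_prod, card_gen h hc hp, card_th h hp, Nmk]

theorem count_marked {A : Set (Group (Fin (p ^ (d + e))))} (hA : A ⊆ Laws p (p ^ (d + e)) e) :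
    Set.ncard {t | t.1 ∈ A ∧ ∃ s : Sd p d e, t ∈ Mset s} = A.ncard * Nmk p d e := by
  refine G7_fib A (fun I (q : (Fin d → Fin (p ^ (d + e))) × ((Fin e → ZMod p) → Fin (p ^ (d + e)))) =>
    ∃ s : Sd p d e, (I, q) ∈ Mset s) _ fun I hI => ?_
  have h := hA hI
  exact @card_mk p d e _ (Fin (p ^ (d + e))) I h.1 (by rw [Nat.card_eq_fintype_card, Fintype.card_fin]) h.2

theorem count_data {B : Set (Sd p d e)} (hB : ∀ s ∈ B, Spn s) :
    Set.ncard {t | ∃ s ∈ B, t ∈ Mset s} = B.ncard * (p ^ (d + e)).factorial := by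
  exact G7_union B (fun s => Mset s) _ (fun s s' t ht ht' => Mset_disj ht ht') fun s hs => card_Mset (hB s hs)

theorem laws_of_mem {s : Sd p d e} {t} (ht : t ∈ Mset s) : t.1 ∈ Laws p (p ^ (d + e)) e := by
  obtain ⟨I, x, th⟩ := t
  exact ⟨@Mk.pc2 p _ (Fin (p ^ (d + e))) I d e x th s.1 (ext s.2) ht,
    @G7_card_ph p _ (Fin (p ^ (d + e))) I d e x th s.1 (ext s.2) ht⟩

theorem laws_total : (Laws p (p ^ (d + e)) e).ncard * Nmk p d e =
    Set.ncard {s : Sd p d e | Spn s} * (p ^ (d + e)).factorial := by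
  rw [← count_marked (p := p) (d := d) (e := e) (A := Laws p (p ^ (d + e)) e) (fun _ h => h),
    ← count_data (p := p) (d := d) (e := e) (B := {s : Sd p d e | Spn s}) (fun _ h => h)]
  congr 1
  ext t
  constructor
  · rintro ⟨_, s, hs⟩
    exact ⟨s, Mset_spn hs, hs⟩
  · rintro ⟨s, _, hs⟩
    exact ⟨laws_of_mem hs, s, hs⟩

/-- The laws with a gap. -/
def BadL (p N e : ℕ) : Set (Group (Fin N)) := {I | I ∈ Laws p N e ∧ ¬ @NoGap p (Fin N) I}

theorem laws_bad (hB : Big d e) : (BadL p (p ^ (d + e)) e).ncard * Nmk p d e ≤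
    Set.ncard {s : Sd p d e | Spn s ∧ ¬ Good p (ext s.2)} * (p ^ (d + e)).factorial := by
  rw [← count_marked (p := p) (d := d) (e := e) (A := BadL p (p ^ (d + e)) e) (fun _ h => h.1),
    ← count_data (p := p) (d := d) (e := e) (B := {s : Sd p d e | Spn s ∧ ¬ Good p (ext s.2)}) (fun _ h => h.1)]
  apply Set.ncard_le_ncard ?_ (Set.toFinite _)
  rintro ⟨I, x, th⟩ ⟨hI, s, hs⟩
  refine ⟨s, ⟨Mset_spn hs, fun hg => hI.2 ?_⟩, hs⟩
  exact @nogap_of_good p _ (Fin (p ^ (d + e))) I d e x th s.1 (ext s.2) hs hB hg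

end

end Pool.Agent.RG
end

section

/-!
# RG G8: the numbers of the data

`D = d + card (Pr d)`; a datum is a function from the `D` indices to `F_p ^ e`.
PROOF of `nonspan_count` (for any finite index type `κ`).  If the vectors `v k` do not span, there is a linear functional `f ≠ 0` of `F_p ^ e` vanishing on them (`Submodule.exists_le_ker_of_lt_top`).
There are at most `p ^ e` functionals, and for every `f ≠ 0` exactly `(p ^ (e - 1)) ^ κ` functions `v` with values in the kernel, i.e. `#{v} * p ^ card κ = (p ^ e) ^ card κ`.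
(Or the injection `(v, τ) ↦ (f_v, v + τ • y)`, `τ : κ → ZMod p`, `f_v (y) = 1`: from `f` and `v' = v + τ • y` one has `τ k = f (v' k)`.)
PROOF of `card_spn`.  A datum is a function `Fin d ⊕ Pr d → (Fin e → ZMod p)` (`Sum.elim s.1 s.2`, `Set.Sum.elim_range`): `nonspan_count`, the total number is `(p ^ e) ^ D`; `e + 1 ≤ D`, so the number of the nonspanning data is at most
`p ^ e * p ^ (e D) / p ^ D ≤ p ^ (e D) / p ≤ p ^ (e D) / 2`.
PROOF of `ratio`.  `laws_bad`, `laws_total`, and `#{s | Spn s ∧ ¬ Good} ≤ #{s.1} * #{c | ¬ Good p (ext c)}` `= p ^ (d e) * ..`, `bad_count'` (A5), `card_spn`: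
with `L = ncard Laws`, `Bd = ncard BadL`, `f` = factorial, `N = Nmk`: `Bd N p ^ (2 qq) ≤ p ^ (d e) 6 p ^ e p ^ (e card Pr) f = 6 p ^ e p ^ (e D) f ≤ 12 p ^ e #Spn f = 12 p ^ e L N`; cancel `N > 0`
(`Nmk_pos`: `bet p d > 0`, all factors `p ^ d - p ^ i > 0` for `i < d`).  `e + 1 ≤ D` follows from `Big d e` (`e + 1 ≤ 2 qq d ≤ d`).
`card_Pr`: `2 * card (Pr d) = d (d - 1)`: the number of pairs `i < j`.
-/

set_option autoImplicit false

namespace Pool.Agent.RG

open Subgroup

private theorem G8_exists_w {p e : ℕ} [Fact p.Prime] {κ : Type} {v : κ → Fin e → ZMod p}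
    (h : Submodule.span (ZMod p) (Set.range v) ≠ ⊤) :
    ∃ w : Fin e → ZMod p, w ≠ 0 ∧ ∀ k, w ⬝ᵥ v k = 0 := by
  obtain ⟨f, hf, hle⟩ := Submodule.exists_le_ker_of_lt_top _ (lt_top_iff_ne_top.2 h)
  have key : ∀ x : Fin e → ZMod p, (fun i => f (Pi.single i 1)) ⬝ᵥ x = f x := by
    intro x
    conv_rhs => rw [← Finset.univ_sum_single x]
    rw [map_sum]
    unfold dotProduct
    refine Finset.sum_congr rfl fun i _ => ?_
    have h1 : (Pi.single i (x i) : Fin e → ZMod p) = x i • Pi.single i 1 := by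
      rw [← Pi.single_smul', smul_eq_mul, mul_one]
    rw [h1, map_smul, smul_eq_mul, mul_comm]
  refine ⟨fun i => f (Pi.single i 1), ?_, fun k => ?_⟩
  · intro h0
    apply hf
    ext i
    have := congrFun h0 i
    simpa using this
  · rw [key]
    exact LinearMap.mem_ker.1 (hle (Submodule.subset_span ⟨k, rfl⟩))

private theorem G8_exists_y {p e : ℕ} [Fact p.Prime] (w : Fin e → ZMod p) :
    ∃ y : Fin e → ZMod p, w ≠ 0 → w ⬝ᵥ y = 1 := by
  by_cases h : w = 0
  · exact ⟨0, fun h' => absurd h h'⟩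
  · obtain ⟨i, hi⟩ := Function.ne_iff.1 h
    refine ⟨Pi.single i (w i)⁻¹, fun _ => ?_⟩
    rw [dotProduct_single]
    exact mul_inv_cancel₀ hi

theorem nonspan_count {p e : ℕ} [Fact p.Prime] {κ : Type} [Fintype κ] :
    Set.ncard {v : κ → Fin e → ZMod p | Submodule.span (ZMod p) (Set.range v) ≠ ⊤} *
      p ^ Fintype.card κ ≤ p ^ e * p ^ (e * Fintype.card κ) := by
  classical
  set S : Set (κ → Fin e → ZMod p) := {v | Submodule.span (ZMod p) (Set.range v) ≠ ⊤} with hS
  choose y hy using (G8_exists_y (p := p) (e := e))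
  have hw : ∀ v : κ → Fin e → ZMod p, ∃ w : Fin e → ZMod p, v ∈ S → (w ≠ 0 ∧ ∀ k, w ⬝ᵥ v k = 0) := by
    intro v
    by_cases hv : v ∈ S
    · obtain ⟨w, h1, h2⟩ := G8_exists_w hv
      exact ⟨w, fun _ => ⟨h1, h2⟩⟩
    · exact ⟨0, fun h => absurd h hv⟩
  choose w hw using hw
  have h1 : (S ×ˢ (Set.univ : Set (κ → ZMod p))).ncard = S.ncard * p ^ Fintype.card κ := by
    rw [Set.ncard_prod, Set.ncard_univ, Nat.card_eq_fintype_card, Fintype.card_fun, ZMod.card]
  have h2 : (Set.univ : Set ((Fin e → ZMod p) × (κ → Fin e → ZMod p))).ncard =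
      p ^ e * p ^ (e * Fintype.card κ) := by
    rw [Set.ncard_univ, Nat.card_eq_fintype_card, Fintype.card_prod, Fintype.card_fun, Fintype.card_fun,
      Fintype.card_fun, ZMod.card, Fintype.card_fin, ← pow_mul]
  rw [← h1, ← h2]
  refine Set.ncard_le_ncard_of_injOn
    (fun z : (κ → Fin e → ZMod p) × (κ → ZMod p) => (w z.1, fun k => z.1 k + z.2 k • y (w z.1)))
    (fun _ _ => Set.mem_univ _) ?_ Set.finite_univ
  rintro ⟨v, τ⟩ hv ⟨v', τ'⟩ hv' heq
  have e1 : w v = w v' := congrArg Prod.fst heq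
  have e2 : ∀ k, v k + τ k • y (w v) = v' k + τ' k • y (w v') := fun k => congrFun (congrArg Prod.snd heq) k
  obtain ⟨a1, a2⟩ := hw v hv.1
  obtain ⟨b1, b2⟩ := hw v' hv'.1
  have e3 : τ = τ' := by
    funext k
    have h3 := congrArg (fun u => w v ⬝ᵥ u) (e2 k)
    simp only [dotProduct_add, dotProduct_smul, smul_eq_mul] at h3
    rw [a2 k, hy _ a1, e1, b2 k, hy _ b1] at h3
    simpa using h3
  have e4 : v = v' := by
    funext k
    have h3 := e2 k
    rw [e1, e3] at h3
    exact add_right_cancel h3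
  rw [e3, e4]

theorem card_Pr (d : ℕ) : 2 * Fintype.card (Pr d) = d * (d - 1) := by
  classical
  have h1 : Fintype.card (Pr d) =
      (Finset.univ.filter (fun q : Fin d × Fin d => q.1 < q.2)).card := Fintype.card_subtype _
  have h2 : (Finset.univ.filter (fun q : Fin d × Fin d => q.2 < q.1)).card =
      (Finset.univ.filter (fun q : Fin d × Fin d => q.1 < q.2)).card := by
    refine Finset.card_bij (fun q _ => (q.2, q.1)) ?_ ?_ ?_
    · intro q hq
      simpa using hq
    · intro q _ q' _ h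
      simp only [Prod.mk.injEq] at h
      exact Prod.ext h.2 h.1
    · intro q hq
      exact ⟨(q.2, q.1), by simpa using hq, rfl⟩
  have h3 : (Finset.univ : Finset (Fin d)).offDiag =
      (Finset.univ.filter (fun q : Fin d × Fin d => q.1 < q.2)) ∪
        (Finset.univ.filter (fun q : Fin d × Fin d => q.2 < q.1)) := by
    ext q
    simp only [Finset.mem_offDiag, Finset.mem_univ, true_and, Finset.mem_union, Finset.mem_filter]
    exact ne_iff_lt_or_gt
  have h4 : Disjoint (Finset.univ.filter (fun q : Fin d × Fin d => q.1 < q.2))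
      (Finset.univ.filter (fun q : Fin d × Fin d => q.2 < q.1)) := by
    rw [Finset.disjoint_filter]
    intro q _ h h'
    exact absurd h' (not_lt.2 h.le)
  have h5 := Finset.offDiag_card (Finset.univ : Finset (Fin d))
  rw [h3, Finset.card_union_of_disjoint h4, h2, Finset.card_univ, Fintype.card_fin] at h5
  rw [h1, two_mul, h5, Nat.mul_sub, mul_one]

theorem bet_pos {p : ℕ} [Fact p.Prime] (d : ℕ) : 0 < bet p d := by
  unfold bet
  refine Finset.prod_pos fun i hi => ?_
  exact Nat.sub_pos_of_lt (Nat.pow_lt_pow_right (Fact.out : p.Prime).one_lt (Finset.mem_range.1 hi))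

section
variable {p d e : ℕ} [Fact p.Prime]

private theorem G8_total : Fintype.card (Sd p d e) = p ^ (e * (d + Fintype.card (Pr d))) := by
  rw [Fintype.card_prod, Fintype.card_fun, Fintype.card_fun (α := Pr d), Fintype.card_fun, ZMod.card,
    Fintype.card_fin, Fintype.card_fin, ← pow_add, ← pow_mul]

private theorem G8_nonspn : Set.ncard {s : Sd p d e | ¬ Spn s} * p ^ (d + Fintype.card (Pr d)) ≤
    p ^ e * p ^ (e * (d + Fintype.card (Pr d))) := by
  have h1 := nonspan_count (p := p) (e := e) (κ := Fin d ⊕ Pr d)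
  rw [Fintype.card_sum, Fintype.card_fin] at h1
  refine le_trans (Nat.mul_le_mul_right _ ?_) h1
  refine Set.ncard_le_ncard_of_injOn (fun s : Sd p d e => Sum.elim s.1 s.2) ?_ ?_ (Set.toFinite _)
  · intro s hs
    show Submodule.span (ZMod p) (Set.range (Sum.elim s.1 s.2)) ≠ ⊤
    rw [Set.Sum.elim_range]
    exact hs
  · intro s _ s' _ h
    have h2 : ∀ z, Sum.elim s.1 s.2 z = Sum.elim s'.1 s'.2 z := fun z => congrFun h z
    refine Prod.ext (funext fun i => h2 (Sum.inl i)) (funext fun q => h2 (Sum.inr q))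

private theorem G8_add : Set.ncard {s : Sd p d e | Spn s} + Set.ncard {s : Sd p d e | ¬ Spn s} =
    p ^ (e * (d + Fintype.card (Pr d))) := by
  have h1 := Set.ncard_add_ncard_compl {s : Sd p d e | Spn s}
  rw [Nat.card_eq_fintype_card, G8_total] at h1
  exact h1

theorem card_spn (h : e + 1 ≤ d + Fintype.card (Pr d)) :
    p ^ (e * (d + Fintype.card (Pr d))) ≤ 2 * Set.ncard {s : Sd p d e | Spn s} := by
  have h1 := G8_nonspn (p := p) (d := d) (e := e)
  have h2 := G8_add (p := p) (d := d) (e := e)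
  set T := p ^ (e * (d + Fintype.card (Pr d))) with hT
  set B := Set.ncard {s : Sd p d e | ¬ Spn s} with hB
  have hp : p.Prime := Fact.out
  have h3 : p ^ (e + 1) ≤ p ^ (d + Fintype.card (Pr d)) := Nat.pow_le_pow_right hp.pos h
  have h4 : p ^ e * (B * p) ≤ p ^ e * T := by
    calc p ^ e * (B * p) = B * p ^ (e + 1) := by rw [pow_succ]; ring
      _ ≤ B * p ^ (d + Fintype.card (Pr d)) := Nat.mul_le_mul_left _ h3
      _ ≤ p ^ e * T := h1
  have h5 : B * p ≤ T := Nat.le_of_mul_le_mul_left h4 (pow_pos hp.pos _)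
  have h6 : B * 2 ≤ T := le_trans (Nat.mul_le_mul_left _ hp.two_le) h5
  omega

theorem card_spn_le :
    Set.ncard {s : Sd p d e | Spn s} ≤ p ^ (e * (d + Fintype.card (Pr d))) := by
  have h2 := G8_add (p := p) (d := d) (e := e)
  omega

private theorem G8_X : Set.ncard {s : Sd p d e | Spn s ∧ ¬ Good p (ext s.2)} ≤
    p ^ (d * e) * Set.ncard {c : Pr d → Fin e → ZMod p | ¬ Good p (ext c)} := by
  have h1 : Set.ncard {s : Sd p d e | Spn s ∧ ¬ Good p (ext s.2)} ≤
      Set.ncard ((Set.univ : Set (Fin d → Fin e → ZMod p)) ×ˢ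
        {c : Pr d → Fin e → ZMod p | ¬ Good p (ext c)}) := by
    refine Set.ncard_le_ncard ?_ (Set.toFinite _)
    intro s hs
    exact ⟨Set.mem_univ _, hs.2⟩
  rw [Set.ncard_prod, Set.ncard_univ, Nat.card_eq_fintype_card, Fintype.card_fun, Fintype.card_fun,
    ZMod.card, Fintype.card_fin, Fintype.card_fin, ← pow_mul, mul_comm e d] at h1
  exact h1

theorem ratio (hB : Big d e) : (BadL p (p ^ (d + e)) e).ncard * p ^ (2 * qq d) ≤
    12 * p ^ e * (Laws p (p ^ (d + e)) e).ncard := by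
  have hp : p.Prime := Fact.out
  have hN : 0 < Nmk p d e := by
    unfold Nmk
    exact Nat.mul_pos (Nat.mul_pos (pow_pos hp.pos _) (bet_pos d)) (bet_pos e)
  have hle : e + 1 ≤ d + Fintype.card (Pr d) := by
    have h1 := hB.out
    unfold qq at h1
    omega
  have h1 := laws_bad (p := p) hB
  have h2 := laws_total (p := p) (d := d) (e := e)
  have h3 := card_spn (p := p) hle
  have h4 := bad_count' (p := p) (e := e) hB.five
  have h5 := G8_X (p := p) (d := d) (e := e)
  set Bd := (BadL p (p ^ (d + e)) e).ncard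
  set L := (Laws p (p ^ (d + e)) e).ncard
  set N := Nmk p d e
  set f := (p ^ (d + e)).factorial
  set X := Set.ncard {s : Sd p d e | Spn s ∧ ¬ Good p (ext s.2)}
  set Y := Set.ncard {c : Pr d → Fin e → ZMod p | ¬ Good p (ext c)}
  set Sp := Set.ncard {s : Sd p d e | Spn s}
  have h6 : p ^ (d * e) * p ^ (e * Fintype.card (Pr d)) = p ^ (e * (d + Fintype.card (Pr d))) := by
    rw [← pow_add]
    ring_nf
  refine Nat.le_of_mul_le_mul_right ?_ hN
  calc Bd * p ^ (2 * qq d) * N = Bd * N * p ^ (2 * qq d) := by ring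
    _ ≤ X * f * p ^ (2 * qq d) := Nat.mul_le_mul_right _ h1
    _ ≤ (p ^ (d * e) * Y) * f * p ^ (2 * qq d) :=
        Nat.mul_le_mul_right _ (Nat.mul_le_mul_right _ h5)
    _ = p ^ (d * e) * (Y * p ^ (2 * qq d)) * f := by ring
    _ ≤ p ^ (d * e) * (6 * (p ^ e * p ^ (e * Fintype.card (Pr d)))) * f :=
        Nat.mul_le_mul_right _ (Nat.mul_le_mul_left _ h4)
    _ = 6 * p ^ e * (p ^ (d * e) * p ^ (e * Fintype.card (Pr d))) * f := by ring
    _ = 6 * p ^ e * p ^ (e * (d + Fintype.card (Pr d))) * f := by rw [h6]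
    _ ≤ 6 * p ^ e * (2 * Sp) * f := Nat.mul_le_mul_right _ (Nat.mul_le_mul_left _ h3)
    _ = 12 * p ^ e * (Sp * f) := by ring
    _ = 12 * p ^ e * (L * N) := by rw [h2]
    _ = 12 * p ^ e * L * N := by ring

end

end Pool.Agent.RG
end

section

/-!
# RG N2: types with `5 e ≤ 3 d`

PROOF of `big_num`.  `n0 = 400 K + 400` (or anything larger).  `d + e ≥ n0`, `5 e ≤ 3 d` give `d ≥ 5 n0 / 8`.  `qq d = d / 3 - 1 ≥ (d - 2) / 3 - 1`, so
`15 (2 qq d - e) ≥ 10 (d - 5) - 9 d = d - 50 ≥ 180 K + ..`, i.e. `e + 12 K + 1 ≤ 2 qq d`, and `p ^ (2 qq d) ≥ p ^ e * 2 ^ (12 K) ≥ 12 K p ^ e` (`Nat.lt_two_pow_self`).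
`Big`: `e + 1 ≤ 2 qq d`; `5 ≤ qq d`; `2 (e + 1) ≤ 4 qq d ≤ qq d (qq d - 1)`.
PROOF of `good_types`.  `ratio` (G8): `K * ncard BadL * p ^ (2 qq) ≤ 12 K p ^ e * ncard Laws ≤ p ^ (2 qq) * ncard Laws`; cancel.
-/

set_option autoImplicit false

namespace Pool.Agent.RG

theorem big_num {p : ℕ} (hp : 2 ≤ p) (K : ℕ) : ∃ n0 : ℕ, ∀ d e : ℕ, n0 ≤ d + e → 5 * e ≤ 3 * d →
    Big d e ∧ 12 * K * p ^ e ≤ p ^ (2 * qq d) := by
  refine ⟨400 * K + 400, fun d e hn h53 => ?_⟩
  have hq : e + 12 * K + 1 ≤ 2 * qq d ∧ 5 ≤ qq d := by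
    unfold qq
    omega
  obtain ⟨h1, h2⟩ := hq
  refine ⟨⟨by omega, ?_, h2⟩, ?_⟩
  · have h3 : 4 ≤ qq d - 1 := by omega
    calc 2 * (e + 1) ≤ qq d * 4 := by omega
      _ ≤ qq d * (qq d - 1) := Nat.mul_le_mul_left _ h3
  · have h3 : 12 * K ≤ 2 ^ (12 * K) := (Nat.lt_two_pow_self (n := 12 * K)).le
    have h4 : 2 ^ (12 * K) ≤ p ^ (12 * K) := Nat.pow_le_pow_left hp _
    calc 12 * K * p ^ e ≤ p ^ (12 * K) * p ^ e := Nat.mul_le_mul_right _ (h3.trans h4)
      _ = p ^ (12 * K + e) := (pow_add _ _ _).symm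
      _ ≤ p ^ (2 * qq d) := Nat.pow_le_pow_right (by omega) (by omega)

theorem good_types (p : ℕ) [Fact p.Prime] (K : ℕ) : ∃ n0 : ℕ, ∀ d e : ℕ, n0 ≤ d + e →
    5 * e ≤ 3 * d → K * (BadL p (p ^ (d + e)) e).ncard ≤ (Laws p (p ^ (d + e)) e).ncard := by
  have hp : 2 ≤ p := (Fact.out : p.Prime).two_le
  obtain ⟨n0, hn0⟩ := big_num hp K
  refine ⟨n0, fun d e hn h53 => ?_⟩
  obtain ⟨hB, hK⟩ := hn0 d e hn h53
  have hr := ratio (p := p) hB
  have hP : 0 < p ^ (2 * qq d) := pow_pos (by omega) _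
  refine Nat.le_of_mul_le_mul_right ?_ hP
  calc K * (BadL p (p ^ (d + e)) e).ncard * p ^ (2 * qq d)
      = K * ((BadL p (p ^ (d + e)) e).ncard * p ^ (2 * qq d)) := by rw [Nat.mul_assoc]
    _ ≤ K * (12 * p ^ e * (Laws p (p ^ (d + e)) e).ncard) := Nat.mul_le_mul_left _ hr
    _ = 12 * K * p ^ e * (Laws p (p ^ (d + e)) e).ncard := by ring
    _ ≤ p ^ (2 * qq d) * (Laws p (p ^ (d + e)) e).ncard := Nat.mul_le_mul_right _ hK
    _ = (Laws p (p ^ (d + e)) e).ncard * p ^ (2 * qq d) := Nat.mul_comm _ _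

end Pool.Agent.RG
end

section

/-!
# RG N4: the types with `3 d < 5 e` are negligible

`D d = d + card (Pr d)`, `2 D d = d (d + 1)` (`card_Pr`).  `f = (p ^ n)!`, `L`, `L0` = the numbers of the laws of the types `(d, e)`, `(d0, m)`, `m = n / 3`, `d0 + m = n`.
`upper`: `laws_total`, `card_spn_le`, `le_Nmk`: `L * p ^ (de + d² + e²) ≤ 16 L Nmk = 16 #Spn f ≤ 16 p ^ (e D) f`.
`lower`: `card_spn` (`e + 1 ≤ D`), `laws_total`, `Nmk_le`: `p ^ (e D) f ≤ 2 #Spn f = 2 L Nmk ≤ 2 L p ^ (de + d² + e²)`.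
PROOF of `neg_types`.  `K (n+1) L p ^ (de+d²+e²) p ^ (m D0) ≤ 16 K (n+1) p ^ (e D) (f p ^ (m D0)) ≤ 32 K (n+1) p ^ (e D) L0 p ^ (d0 m + d0² + m²)`, and by `exp_ineq`
`e D + (d0 m + d0² + m²) + n ≤ (de + d² + e²) + m D0`, `32 K (n+1) ≤ 2 ^ n ≤ p ^ n` for `n ≥ n0(K)`.  Cancel.  (`f` is the same, `d0 + m = d + e`: `subst` carefully: state `upper`, `lower` for `N = p ^ n`, `n = d + e`.)
-/

set_option autoImplicit false

namespace Pool.Agent.RG

theorem upper {p : ℕ} [Fact p.Prime] {d e n : ℕ} (hn : d + e = n) :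
    (Laws p (p ^ n) e).ncard * p ^ (d * e + d * d + e * e) ≤
      16 * p ^ (e * (d + Fintype.card (Pr d))) * (p ^ n).factorial := by
  subst hn
  have hp : 2 ≤ p := (Fact.out : p.Prime).two_le
  calc (Laws p (p ^ (d + e)) e).ncard * p ^ (d * e + d * d + e * e)
      ≤ (Laws p (p ^ (d + e)) e).ncard * (16 * Nmk p d e) := Nat.mul_le_mul_left _ (le_Nmk hp d e)
    _ = 16 * ((Laws p (p ^ (d + e)) e).ncard * Nmk p d e) := by ring
    _ = 16 * (Set.ncard {s : Sd p d e | Spn s} * (p ^ (d + e)).factorial) := by rw [laws_total]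
    _ ≤ 16 * (p ^ (e * (d + Fintype.card (Pr d))) * (p ^ (d + e)).factorial) :=
        Nat.mul_le_mul_left _ (Nat.mul_le_mul_right _ card_spn_le)
    _ = _ := by ring

theorem lower {p : ℕ} [Fact p.Prime] {d e n : ℕ} (hn : d + e = n)
    (h : e + 1 ≤ d + Fintype.card (Pr d)) :
    p ^ (e * (d + Fintype.card (Pr d))) * (p ^ n).factorial ≤
      2 * (Laws p (p ^ n) e).ncard * p ^ (d * e + d * d + e * e) := by
  subst hn
  calc p ^ (e * (d + Fintype.card (Pr d))) * (p ^ (d + e)).factorial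
      ≤ (2 * Set.ncard {s : Sd p d e | Spn s}) * (p ^ (d + e)).factorial :=
        Nat.mul_le_mul_right _ (card_spn h)
    _ = 2 * ((Laws p (p ^ (d + e)) e).ncard * Nmk p d e) := by rw [laws_total]; ring
    _ ≤ 2 * ((Laws p (p ^ (d + e)) e).ncard * p ^ (d * e + d * d + e * e)) :=
        Nat.mul_le_mul_left _ (Nat.mul_le_mul_left _ (Nmk_le p d e))
    _ = _ := by ring

private theorem N4_sq (n : ℕ) (hn : 4 ≤ n) : n * n ≤ 2 ^ n := by
  induction n, hn using Nat.le_induction with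
  | base => norm_num
  | succ n hn ih =>
    rw [pow_succ]
    nlinarith

theorem lin_le_two_pow (K : ℕ) : ∃ n0 : ℕ, ∀ n, n0 ≤ n → 32 * K * (n + 1) ≤ 2 ^ n := by
  refine ⟨64 * K + 4, fun n hn => ?_⟩
  refine le_trans ?_ (N4_sq n (by omega))
  have h1 : 64 * K ≤ n := by omega
  have h2 : n + 1 ≤ 2 * n := by omega
  calc 32 * K * (n + 1) ≤ 32 * K * (2 * n) := Nat.mul_le_mul_left _ h2
    _ = (64 * K) * n := by ring
    _ ≤ n * n := Nat.mul_le_mul_right _ h1

private theorem N4_two (d : ℕ) : 2 * (d + Fintype.card (Pr d)) = d * (d + 1) := by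
  have h := card_Pr d
  rcases d with _ | d
  · simp at h ⊢
  · have h1 : d + 1 - 1 = d := by omega
    rw [h1] at h
    rw [mul_add, h]
    ring

theorem neg_types (p : ℕ) [Fact p.Prime] (K : ℕ) : ∃ n0 : ℕ, ∀ n d e : ℕ, n0 ≤ n → d + e = n →
    3 * d < 5 * e → K * (n + 1) * (Laws p (p ^ n) e).ncard ≤ (Laws p (p ^ n) (n / 3)).ncard := by
  have hp : 2 ≤ p := (Fact.out : p.Prime).two_le
  obtain ⟨n1, hn1⟩ := lin_le_two_pow K
  refine ⟨max 10000 n1, fun n d e hn hde h35 => ?_⟩
  have hn10 : 10000 ≤ n := (le_max_left _ _).trans hn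
  have hn2 : n1 ≤ n := (le_max_right _ _).trans hn
  obtain ⟨m, hm⟩ : ∃ m, m = n / 3 := ⟨_, rfl⟩
  obtain ⟨d0, hd0⟩ : ∃ d0, d0 + m = n := ⟨n - m, by omega⟩
  rw [← hm]
  have hex := exp_ineq hn10 hde h35 hm hd0
  have hup := upper (p := p) hde
  have hlo := lower (p := p) (d := d0) (e := m) hd0 (by
    have : m + 1 ≤ d0 := by omega
    omega)
  have hD := N4_two d
  have hD0 := N4_two d0
  set D := d + Fintype.card (Pr d) with hDdef
  set D0 := d0 + Fintype.card (Pr d0) with hD0def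
  set X := d * e + d * d + e * e with hX
  set X0 := d0 * m + d0 * d0 + m * m with hX0
  rw [← hD, ← hD0] at hex
  have hex2 : n + (X0 + e * D) ≤ X + m * D0 := by
    have e1 : e * (2 * D) = 2 * (e * D) := by ring
    have e2 : m * (2 * D0) = 2 * (m * D0) := by ring
    rw [e1, e2] at hex
    omega
  have hlin := hn1 n hn2
  have hpn : 2 ^ n ≤ p ^ n := Nat.pow_le_pow_left hp n
  set f := (p ^ n).factorial with hf
  set L := (Laws p (p ^ n) e).ncard with hL
  set L0 := (Laws p (p ^ n) m).ncard with hL0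
  have hp0 : 0 < p := by omega
  have hpos : 0 < 2 * p ^ X0 * p ^ X := by positivity
  refine Nat.le_of_mul_le_mul_right ?_ hpos
  calc K * (n + 1) * L * (2 * p ^ X0 * p ^ X) = 2 * K * (n + 1) * p ^ X0 * (L * p ^ X) := by ring
    _ ≤ 2 * K * (n + 1) * p ^ X0 * (16 * p ^ (e * D) * f) := Nat.mul_le_mul_left _ hup
    _ = (32 * K * (n + 1)) * (p ^ X0 * p ^ (e * D)) * f := by ring
    _ ≤ p ^ n * (p ^ X0 * p ^ (e * D)) * f :=
        Nat.mul_le_mul_right _ (Nat.mul_le_mul_right _ (hlin.trans hpn))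
    _ = p ^ (n + (X0 + e * D)) * f := by
        rw [pow_add p n (X0 + e * D), pow_add p X0 (e * D)]
    _ ≤ p ^ (X + m * D0) * f := Nat.mul_le_mul_right _ (Nat.pow_le_pow_right hp0 hex2)
    _ = p ^ X * (p ^ (m * D0) * f) := by rw [pow_add]; ring
    _ ≤ p ^ X * (2 * L0 * p ^ X0) := Nat.mul_le_mul_left _ hlo
    _ = L0 * (2 * p ^ X0 * p ^ X) := by ring

end Pool.Agent.RG
end
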