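import Pool.Agent.Lib.MP_1a39b9_al.Mg.G004
import Pool.Agent.Lib.MP_1a39b9_al.Mg.G005

section

/-!
# PR B: elementary operations on a family of words

A finite family of words can be changed, without changing the subgroup it generates, such that all but at most `d` of the
words have all exponent sums `0` (`d` the number of the generators).
-/

set_option autoImplicit false

namespace Pool.Agent.RG.PR

open Subgroup

section
variable {F : Type} [Group F] {ι : Type} [DecidableEq ι]

theorem closure_update (t : ι → F) (A : Set ι) {i j : ι} (hi : i ∈ A) (hj : j ∈ A) (hij : i ≠ j) (e : ℤ) :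
    closure (Function.update t i (t i * t j ^ e) '' A) = closure (t '' A) := by
  have hj1 : Function.update t i (t i * t j ^ e) j = t j := Function.update_of_ne hij.symm _ _
  have hi1 : Function.update t i (t i * t j ^ e) i = t i * t j ^ e := Function.update_self _ _ _
  apply le_antisymm
  · rw [closure_le]
    rintro _ ⟨k, hk, rfl⟩
    by_cases h : k = i
    · subst h
      rw [hi1]
      have h1 : t k ∈ closure (t '' A) := subset_closure ⟨k, hi, rfl⟩
      have h2 : t j ∈ closure (t '' A) := subset_closure ⟨j, hj, rfl⟩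
      exact mul_mem h1 (zpow_mem h2 e)
    · rw [Function.update_of_ne h]
      exact subset_closure ⟨k, hk, rfl⟩
  · rw [closure_le]
    rintro _ ⟨k, hk, rfl⟩
    by_cases h : k = i
    · subst h
      have h1 : Function.update t k (t k * t j ^ e) k ∈
          closure (Function.update t k (t k * t j ^ e) '' A) := subset_closure ⟨k, hk, rfl⟩
      have h2 : Function.update t k (t k * t j ^ e) j ∈
          closure (Function.update t k (t k * t j ^ e) '' A) := subset_closure ⟨j, hj, rfl⟩
      rw [hi1] at h1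
      rw [hj1] at h2
      have h3 := mul_mem h1 (zpow_mem h2 (-e))
      rwa [mul_assoc, ← zpow_add, add_neg_cancel, zpow_zero, mul_one] at h3
    · exact subset_closure ⟨k, hk, Function.update_of_ne h _ _⟩

theorem red_one [Fintype ι] (f : F → ℤ) (hf : ∀ a b, f (a * b) = f a + f b) (hfz : ∀ a (n : ℤ), f (a ^ n) = n * f a)
    (J : Finset ι) : ∀ (N : ℕ) (t : ι → F), ∑ i ∈ Finset.univ.filter (· ∉ J), (f (t i)).natAbs ≤ N →
    ∃ t' : ι → F, (∀ i ∈ J, t' i = t i) ∧ closure (t' '' {i | i ∉ J}) = closure (t '' {i | i ∉ J}) ∧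
      ∀ i ∉ J, ∀ j ∉ J, i ≠ j → f (t' i) = 0 ∨ f (t' j) = 0 := by
  intro N
  induction N with
  | zero =>
    intro t ht
    refine ⟨t, fun _ _ => rfl, rfl, fun i hi j hj _ => Or.inl ?_⟩
    have h1 := Finset.sum_eq_zero_iff.1 (Nat.le_zero.1 ht) i (by simp [hi])
    exact Int.natAbs_eq_zero.1 h1
  | succ N ih =>
    intro t ht
    by_cases hcon : ∀ i ∉ J, ∀ j ∉ J, i ≠ j → f (t i) = 0 ∨ f (t j) = 0
    · exact ⟨t, fun _ _ => rfl, rfl, hcon⟩
    · push Not at hcon
      have key : ∀ i ∉ J, ∀ j ∉ J, i ≠ j → f (t i) ≠ 0 → f (t j) ≠ 0 → (f (t j)).natAbs ≤ (f (t i)).natAbs →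
          ∃ t' : ι → F, (∀ i ∈ J, t' i = t i) ∧ closure (t' '' {i | i ∉ J}) = closure (t '' {i | i ∉ J}) ∧
            ∀ i ∉ J, ∀ j ∉ J, i ≠ j → f (t' i) = 0 ∨ f (t' j) = 0 := by
        intro i hi j hj hij h1 h2 hle
        obtain ⟨e, he⟩ : ∃ e : ℤ, (f (t i) + e * f (t j)).natAbs < (f (t i)).natAbs := by
          by_cases hs : 0 < f (t i) * f (t j)
          · refine ⟨-1, ?_⟩
            rcases lt_or_gt_of_ne h1 with h3 | h3
            · have h4 : f (t j) < 0 := by
                by_contra h5
                nlinarith [lt_of_le_of_ne (not_lt.1 h5) (Ne.symm h2)]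
              omega
            · have h4 : 0 < f (t j) := by
                by_contra h5
                nlinarith [lt_of_le_of_ne (not_lt.1 h5) h2]
              omega
          · refine ⟨1, ?_⟩
            rcases lt_or_gt_of_ne h1 with h3 | h3
            · have h4 : 0 < f (t j) := by
                by_contra h5
                apply hs
                nlinarith [lt_of_le_of_ne (not_lt.1 h5) h2]
              omega
            · have h4 : f (t j) < 0 := by
                by_contra h5
                apply hs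
                nlinarith [lt_of_le_of_ne (not_lt.1 h5) (Ne.symm h2)]
              omega
        have hlt : ∑ k ∈ Finset.univ.filter (· ∉ J),
            (f (Function.update t i (t i * t j ^ e) k)).natAbs <
            ∑ k ∈ Finset.univ.filter (· ∉ J), (f (t k)).natAbs := by
          refine Finset.sum_lt_sum (fun k _ => ?_) ⟨i, by simp [hi], ?_⟩
          · by_cases h : k = i
            · subst h
              rw [Function.update_self, hf, hfz]
              exact he.le
            · rw [Function.update_of_ne h]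
          · rw [Function.update_self, hf, hfz]
            exact he
        obtain ⟨t', h3, h4, h5⟩ := ih (Function.update t i (t i * t j ^ e)) (by omega)
        refine ⟨t', fun k hk => ?_, ?_, h5⟩
        · rw [h3 k hk, Function.update_of_ne]
          rintro rfl
          exact hi hk
        · rw [h4, closure_update t {i | i ∉ J} hi hj hij]
      obtain ⟨i, hi, j, hj, hij, h1, h2⟩ := hcon
      rcases le_total (f (t j)).natAbs (f (t i)).natAbs with h | h
      · exact key i hi j hj hij h1 h2 h
      · exact key j hj i hi (Ne.symm hij) h2 h1 h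

end

theorem red_all {d : ℕ} {ι : Type} [DecidableEq ι] [Fintype ι] (t : ι → FreeGroup (Fin d)) (D : Finset (Fin d)) :
    ∃ (t' : ι → FreeGroup (Fin d)) (J : Finset ι), closure (Set.range t') = closure (Set.range t) ∧
      J.card ≤ D.card ∧ ∀ i ∉ J, ∀ a ∈ D, ev (t' i) a = 0 := by
  induction D using Finset.induction_on with
  | empty => exact ⟨t, ∅, rfl, le_rfl, fun _ _ a ha => absurd ha (Finset.notMem_empty a)⟩
  | insert a D ha ih =>
    obtain ⟨t₁, J, h1, h2, h3⟩ := ih
    obtain ⟨t₂, h4, h5, h6⟩ := red_one (fun g => ev g a) (fun x y => ev_mul x y a)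
      (fun x n => ev_zpow x n a) J _ t₁ le_rfl
    have hcl : closure (Set.range t₂) = closure (Set.range t) := by
      have e1 : ∀ s : ι → FreeGroup (Fin d), Set.range s = s '' {i | i ∈ J} ∪ s '' {i | i ∉ J} := by
        intro s
        rw [← Set.image_union, ← Set.image_univ]
        congr 1
        ext i
        simp [em]
      have e2 : t₂ '' {i | i ∈ J} = t₁ '' {i | i ∈ J} := Set.image_congr fun i hi => h4 i hi
      rw [← h1, e1 t₂, e1 t₁, Subgroup.closure_union, Subgroup.closure_union, h5, e2]
    have hz : ∀ i ∉ J, ∀ b ∈ D, ev (t₂ i) b = 0 := by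
      intro i hi b hb
      have h7 : t₂ i ∈ closure (t₁ '' {i | i ∉ J}) := by
        rw [← h5]
        exact subset_closure ⟨i, hi, rfl⟩
      generalize t₂ i = g at h7
      induction h7 using closure_induction with
      | mem x hx =>
        obtain ⟨k, hk, rfl⟩ := hx
        exact h3 k hk b hb
      | one => exact ev_one b
      | mul x y _ _ hx hy => rw [ev_mul, hx, hy, add_zero]
      | inv x _ hx => rw [ev_inv, hx, neg_zero]
    by_cases hex : ∃ i ∉ J, ev (t₂ i) a ≠ 0
    · obtain ⟨i, hi, hi2⟩ := hex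
      refine ⟨t₂, insert i J, hcl, ?_, ?_⟩
      · rw [Finset.card_insert_of_notMem hi, Finset.card_insert_of_notMem ha]
        omega
      · intro k hk b hb
        rw [Finset.mem_insert, not_or] at hk
        rcases Finset.mem_insert.1 hb with rfl | hb
        · rcases h6 k hk.2 i hi hk.1 with h | h
          · exact h
          · exact absurd h hi2
        · exact hz k hk.2 b hb
    · push Not at hex
      refine ⟨t₂, J, hcl, h2.trans (Finset.card_le_card (Finset.subset_insert a D)), ?_⟩
      intro k hk b hb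
      rcases Finset.mem_insert.1 hb with rfl | hb
      · exact hex k hk
      · exact hz k hk b hb

/-- A word with all exponent sums `0` is in the commutator subgroup. -/
theorem mem_commutator_of_ev {d : ℕ} {w : FreeGroup (Fin d)} (h : ∀ a, ev w a = 0) :
    w ∈ commutator (FreeGroup (Fin d)) := by
  have h1 := ev_hom (Abelianization.of (G := FreeGroup (Fin d))) w
  rw [← Abelianization.ker_of, MonoidHom.mem_ker, h1]
  exact Finset.prod_eq_one fun i _ => by rw [h i, zpow_zero]

end Pool.Agent.RG.PR
end

section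

/-!
# PR C: dual functionals for the relators with nonzero exponent sums

`t` a family of words with normal closure `R = ker ψ`, `ψ` onto a finite `p`-group; all but the words of a set `J` of at
most `d` indices have exponent sums `0`. Then the exponent vectors of the words `t j`, `j ∈ J`, are a basis of the lattice of the
exponent vectors of `R`, so there are `l ∈ IL p R` dual to these words and zero on the others.
-/

set_option autoImplicit false

namespace Pool.Agent.RG.PR

open Subgroup

variable {d : ℕ} {ι : Type}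

/-- The exponent vector. -/
def evv (w : FreeGroup (Fin d)) : Fin d → ℤ := fun a => ev w a

theorem evv_mul (u w : FreeGroup (Fin d)) : evv (u * w) = evv u + evv w := funext fun a => ev_mul u w a

theorem evv_one : evv (1 : FreeGroup (Fin d)) = 0 := funext fun a => ev_one a

theorem evv_inv (u : FreeGroup (Fin d)) : evv u⁻¹ = -evv u := funext fun a => ev_inv u a

theorem evv_conj (u w : FreeGroup (Fin d)) : evv (u * w * u⁻¹) = evv w := funext fun a => ev_conj u w a

/-- The words whose exponent vector is in the submodule. -/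
def evvK (M : Submodule ℤ (Fin d → ℤ)) : Subgroup (FreeGroup (Fin d)) where
  carrier := {w | evv w ∈ M}
  mul_mem' := by
    intro a b ha hb
    show evv (a * b) ∈ M
    rw [evv_mul]
    exact M.add_mem ha hb
  one_mem' := by
    show evv 1 ∈ M
    rw [evv_one]
    exact M.zero_mem
  inv_mem' := by
    intro a ha
    show evv a⁻¹ ∈ M
    rw [evv_inv]
    exact M.neg_mem ha

instance instNormalEvvK (M : Submodule ℤ (Fin d → ℤ)) : (evvK M).Normal :=
  ⟨fun w hw u => by
    show evv (u * w * u⁻¹) ∈ M
    rw [evv_conj]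
    exact hw⟩

theorem evv_mem {t : ι → FreeGroup (Fin d)} {J : Finset ι} (hJ : ∀ i ∉ J, ∀ a, ev (t i) a = 0)
    {r : FreeGroup (Fin d)} (hr : r ∈ normalClosure (Set.range t)) :
    evv r ∈ Submodule.span ℤ (Set.range fun j : J => evv (t j)) := by
  have h : normalClosure (Set.range t) ≤ evvK (Submodule.span ℤ (Set.range fun j : J => evv (t j))) := by
    refine normalClosure_le_normal ?_
    rintro _ ⟨i, rfl⟩
    by_cases hi : i ∈ J
    · exact Submodule.subset_span ⟨⟨i, hi⟩, rfl⟩
    · have h1 : evv (t i) = 0 := funext fun a => hJ i hi a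
      show evv (t i) ∈ Submodule.span ℤ (Set.range fun j : J => evv (t j))
      rw [h1]
      exact Submodule.zero_mem _
  exact h hr

theorem evv_indep {G : Type} [Group G] [Finite G] {ψ : FreeGroup (Fin d) →* G}
    {t : ι → FreeGroup (Fin d)} (ht : normalClosure (Set.range t) = ψ.ker)
    {J : Finset ι} (hJ : ∀ i ∉ J, ∀ a, ev (t i) a = 0) (hc : J.card ≤ d) :
    LinearIndependent ℤ fun j : J => evv (t j) := by
  classical
  let c : (Fin d → ℤ) →ₗ[ℤ] (Fin d → ℚ) :=
    { toFun := fun v a => (v a : ℚ)
      map_add' := fun v w => funext fun a => by push_cast [Pi.add_apply]; rfl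
      map_smul' := fun m v => funext fun a => by simp }
  have hsp : ∀ v ∈ Submodule.span ℤ (Set.range fun j : J => evv (t j)),
      c v ∈ Submodule.span ℚ (Set.range fun j : J => c (evv (t j))) := by
    intro v hv
    induction hv using Submodule.span_induction with
    | mem x hx =>
      obtain ⟨j, rfl⟩ := hx
      exact Submodule.subset_span ⟨j, rfl⟩
    | zero => rw [map_zero]; exact Submodule.zero_mem _
    | add x y _ _ hx hy => rw [map_add]; exact Submodule.add_mem _ hx hy
    | smul m x _ hx =>
      rw [map_smul, ← Int.cast_smul_eq_zsmul ℚ]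
      exact Submodule.smul_mem _ _ hx
  have hN : (Nat.card G : ℚ) ≠ 0 := by
    exact_mod_cast Nat.card_pos.ne'
  have htop : ⊤ ≤ Submodule.span ℚ (Set.range fun j : J => c (evv (t j))) := by
    intro v _
    have h1 : v = ∑ a, v a • (Pi.single a (1 : ℚ) : Fin d → ℚ) := by
      funext b
      simp [Finset.sum_apply, Pi.single_apply]
    rw [h1]
    refine Submodule.sum_mem _ fun a _ => Submodule.smul_mem _ _ ?_
    have h2 : FreeGroup.of a ^ Nat.card G ∈ normalClosure (Set.range t) := by
      rw [ht, MonoidHom.mem_ker, map_pow, pow_card_eq_one']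
    have h3 := hsp _ (evv_mem hJ h2)
    have h4 : c (evv (FreeGroup.of a ^ Nat.card G)) = (Nat.card G : ℚ) • (Pi.single a (1 : ℚ) : Fin d → ℚ) := by
      funext b
      show ((ev (FreeGroup.of a ^ Nat.card G) b : ℤ) : ℚ) = _
      rw [← zpow_natCast, ev_zpow, ev_of]
      by_cases h : a = b
      · subst h
        simp
      · simp [h, Ne.symm h]
    rw [h4] at h3
    have h5 := Submodule.smul_mem _ (Nat.card G : ℚ)⁻¹ h3
    rwa [smul_smul, inv_mul_cancel₀ hN, one_smul] at h5
  have hli : LinearIndependent ℚ fun j : J => c (evv (t j)) := by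
    refine linearIndependent_of_top_le_span_of_card_le_finrank htop ?_
    rw [Module.finrank_fintype_fun_eq_card, Fintype.card_coe, Fintype.card_fin]
    exact hc
  rw [Fintype.linearIndependent_iff] at hli ⊢
  intro g hg i
  have h1 := congrArg c hg
  rw [map_sum, map_zero] at h1
  have h2 : ∑ j : J, (g j : ℚ) • c (evv (t j)) = 0 := by
    rw [← h1]
    refine Finset.sum_congr rfl fun j _ => ?_
    rw [map_smul, Int.cast_smul_eq_zsmul]
  exact_mod_cast hli (fun j => (g j : ℚ)) h2 i

open Classical in
/-- the coordinate of a vector of the span -/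
noncomputable def co {κ : Type} {v : κ → Fin d → ℤ} (hv : LinearIndependent ℤ v)
    (i : κ) (w : Fin d → ℤ) : ℤ :=
  if h : w ∈ Submodule.span ℤ (Set.range v) then (Module.Basis.span hv).repr ⟨w, h⟩ i else 0

theorem co_add {κ : Type} {v : κ → Fin d → ℤ} (hv : LinearIndependent ℤ v)
    (i : κ) {w w' : Fin d → ℤ} (hw : w ∈ Submodule.span ℤ (Set.range v))
    (hw' : w' ∈ Submodule.span ℤ (Set.range v)) :
    co hv i (w + w') = co hv i w + co hv i w' := by
  unfold co
  rw [dif_pos hw, dif_pos hw', dif_pos (Submodule.add_mem _ hw hw'), ← Finsupp.add_apply, ← map_add]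
  rfl

theorem co_zero {κ : Type} {v : κ → Fin d → ℤ} (hv : LinearIndependent ℤ v)
    (i : κ) : co hv i 0 = 0 := by
  have h := co_add hv i (Submodule.zero_mem (Submodule.span ℤ (Set.range v)))
    (Submodule.zero_mem (Submodule.span ℤ (Set.range v)))
  rw [add_zero] at h
  linarith

theorem co_self {κ : Type} [DecidableEq κ] {v : κ → Fin d → ℤ} (hv : LinearIndependent ℤ v)
    (i i' : κ) : co hv i (v i') = if i = i' then 1 else 0 := by
  have hm : v i' ∈ Submodule.span ℤ (Set.range v) := Submodule.subset_span ⟨i', rfl⟩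
  unfold co
  rw [dif_pos hm]
  have h2 : (⟨v i', hm⟩ : Submodule.span ℤ (Set.range v)) = Module.Basis.span hv i' :=
    (Module.Basis.span_apply hv i').symm
  rw [h2, Module.Basis.repr_self, Finsupp.single_apply]
  simp only [eq_comm]

theorem exists_lam {p : ℕ} {G : Type} [Group G] [Finite G] {ψ : FreeGroup (Fin d) →* G} [DecidableEq ι]
    {t : ι → FreeGroup (Fin d)} (ht : normalClosure (Set.range t) = ψ.ker)
    {J : Finset ι} (hJ : ∀ i ∉ J, ∀ a, ev (t i) a = 0) (hc : J.card ≤ d) :
    ∃ lam : J → FreeGroup (Fin d) → ZMod p, (∀ j, lam j ∈ IL p ψ.ker) ∧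
      (∀ j j' : J, lam j (t j') = if j = j' then 1 else 0) ∧ ∀ j : J, ∀ i ∉ J, lam j (t i) = 0 := by
  have hv := evv_indep ht hJ hc
  have hmem : ∀ {r}, r ∈ ψ.ker → evv r ∈ Submodule.span ℤ (Set.range fun j : J => evv (t j)) := by
    intro r hr
    rw [← ht] at hr
    exact evv_mem hJ hr
  have htm : ∀ i, t i ∈ ψ.ker := by
    intro i
    rw [← ht]
    exact subset_normalClosure ⟨i, rfl⟩
  refine ⟨fun j => res ψ.ker fun r => ((co hv j (evv r) : ℤ) : ZMod p), ?_, ?_, ?_⟩
  · intro j
    refine res_mem _ ?_ ?_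
    · intro r hr s hs
      show ((co hv j (evv (r * s)) : ℤ) : ZMod p) = _
      rw [evv_mul, co_add hv j (hmem hr) (hmem hs), Int.cast_add]
    · intro f r hr
      show ((co hv j (evv (f * r * f⁻¹)) : ℤ) : ZMod p) = _
      rw [evv_conj]
  · intro j j'
    show res ψ.ker (fun r => ((co hv j (evv r) : ℤ) : ZMod p)) (t j') = _
    rw [res_eq _ (htm _)]
    show ((co hv j (evv (t j')) : ℤ) : ZMod p) = _
    rw [co_self hv j j']
    by_cases h : j = j' <;> simp [h]
  · intro j i hi
    show res ψ.ker (fun r => ((co hv j (evv r) : ℤ) : ZMod p)) (t i) = _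
    rw [res_eq _ (htm _)]
    have h1 : evv (t i) = 0 := funext fun a => hJ i hi a
    show ((co hv j (evv (t i)) : ℤ) : ZMod p) = _
    rw [h1, co_zero, Int.cast_zero]

end Pool.Agent.RG.PR
end

section

/-!
# PR S: normal form of a presentation

A discrete presentation of a finite `p`-group `G` with `d = d(G)` generators can be changed, with the same number of
relators, such that the relators are `s i`, at most `dim IL` of them, and `e i` in the commutator subgroup of the free group
on which all invariant homomorphisms `R → F_p` vanish.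
-/

set_option autoImplicit false

namespace Pool.Agent.RG.PR

open Subgroup

theorem exists_select {p : ℕ} [Fact p.Prime] {d : ℕ} {ι : Type} [DecidableEq ι] [Fintype ι] {G : Type} [Group G]
    [Finite G] {ψ : FreeGroup (Fin d) →* G}
    {t : ι → FreeGroup (Fin d)} (ht : normalClosure (Set.range t) = ψ.ker)
    {J : Finset ι} (hJ : ∀ i ∉ J, ∀ a, ev (t i) a = 0) (hc : J.card ≤ d) :
    ∃ S : Finset ι, Disjoint J S ∧ J.card + S.card ≤ Module.finrank (ZMod p) (IL p ψ.ker) ∧
      ∀ l ∈ IL p ψ.ker, (∀ i ∈ S, l (t i) = 0) → ∀ i ∉ J, l (t i) = 0 := by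
  classical
  have hfin : Module.Finite (ZMod p) (IL p ψ.ker) := IL_findim t ht
  obtain ⟨lam, h1, h2, h3⟩ := exists_lam (p := p) ht hJ hc
  let Jc := {i : ι // i ∉ J}
  let E : Fin (Fintype.card Jc) ≃ Jc := (Fintype.equivFin Jc).symm
  let evl : FreeGroup (Fin d) → (IL p ψ.ker →ₗ[ZMod p] ZMod p) := fun w =>
    { toFun := fun l => l.1 w
      map_add' := fun _ _ => rfl
      map_smul' := fun _ _ => rfl }
  obtain ⟨I, hI1, hI2⟩ := abs_select (K := ZMod p) (V := IL p ψ.ker) (T := J)
    (fun j => evl (t j)) (fun i : Fin (Fintype.card Jc) => evl (t (E i)))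
    (fun j => ⟨lam j, h1 j⟩) (fun a b => by
      show lam a (t b) = _
      rw [h2]) (fun a j => h3 a _ (E j).2)
  refine ⟨I.image fun i => (E i).1, ?_, ?_, ?_⟩
  · rw [Finset.disjoint_left]
    intro i hi hi2
    obtain ⟨j, _, rfl⟩ := Finset.mem_image.1 hi2
    exact (E j).2 hi
  · have h7 : Function.Injective fun i => (E i).1 := Subtype.val_injective.comp E.injective
    rw [Finset.card_image_of_injective _ h7]
    rwa [Fintype.card_coe] at hI1
  · intro l hl h4 i hi
    have h5 := hI2 ⟨l, hl⟩ (fun j hj => h4 _ (Finset.mem_image_of_mem _ hj)) (E.symm ⟨i, hi⟩)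
    have h6 : l (t (E (E.symm ⟨i, hi⟩))) = 0 := h5
    rwa [E.apply_symm_apply] at h6

theorem exists_corr {p : ℕ} [Fact p.Prime] {d : ℕ} {ι : Type} [DecidableEq ι] [Fintype ι] {G : Type} [Group G]
    {ψ : FreeGroup (Fin d) →* G} {t : ι → FreeGroup (Fin d)} (ht : normalClosure (Set.range t) = ψ.ker)
    {S : Finset ι} {i : ι}
    (hS : ∀ l ∈ IL p ψ.ker, (∀ i ∈ S, l (t i) = 0) → l (t i) = 0) :
    ∃ c : ι → ℤ, ∀ l ∈ IL p ψ.ker, l (t i * (S.toList.map fun s => t s ^ c s).prod) = 0 := by
  classical
  have htm : ∀ i, t i ∈ ψ.ker := by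
    intro i
    rw [← ht]
    exact subset_normalClosure ⟨i, rfl⟩
  let evl : FreeGroup (Fin d) → (IL p ψ.ker →ₗ[ZMod p] ZMod p) := fun w =>
    { toFun := fun l => l.1 w
      map_add' := fun _ _ => rfl
      map_smul' := fun _ _ => rfl }
  have h1 : evl (t i) ∈ Submodule.span (ZMod p) (Set.range fun s : S => evl (t s)) := by
    refine mem_span_of_iInf_ker_le_ker ?_
    intro l hl
    rw [LinearMap.mem_ker]
    refine hS l.1 l.2 fun s hs => ?_
    have h2 := (Submodule.mem_iInf _).1 hl ⟨s, hs⟩
    rw [LinearMap.mem_ker] at h2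
    exact h2
  obtain ⟨c, hc⟩ := (Submodule.mem_span_range_iff_exists_fun (ZMod p)).1 h1
  refine ⟨fun s => if h : s ∈ S then -((c ⟨s, h⟩).val : ℤ) else 0, fun l hl => ?_⟩
  have hL : ∀ r ∈ (S.toList.map fun s => t s ^ (if h : s ∈ S then -((c ⟨s, h⟩).val : ℤ) else 0)),
      r ∈ ψ.ker := by
    intro r hr
    obtain ⟨s, _, rfl⟩ := List.mem_map.1 hr
    exact Subgroup.zpow_mem _ (htm s) _
  rw [IL_mul hl (htm i) (list_prod_mem hL), IL_prod hl _ hL, List.map_map, Finset.sum_map_toList]
  have h2 := LinearMap.congr_fun hc ⟨l, hl⟩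
  rw [LinearMap.sum_apply] at h2
  have h3 : l (t i) = ∑ s : S, c s * l (t s) := by
    have h4 : evl (t i) ⟨l, hl⟩ = l (t i) := rfl
    rw [← h4, ← h2]
    rfl
  rw [h3, ← Finset.sum_coe_sort S, ← Finset.sum_add_distrib]
  refine Finset.sum_eq_zero fun s _ => ?_
  have h5 : ((l ∘ fun s => t s ^ (if h : s ∈ S then -((c ⟨s, h⟩).val : ℤ) else 0)) (s : ι)) =
      -(c s * l (t s)) := by
    show l (t s ^ (if h : (s : ι) ∈ S then -((c ⟨s, h⟩).val : ℤ) else 0)) = _
    rw [dif_pos s.2, IL_zpow hl (htm _)]
    push_cast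
    rw [ZMod.natCast_zmod_val, neg_mul]
  rw [h5, add_neg_cancel]

/-- The normal form. -/
structure NF (p : ℕ) {d : ℕ} {G : Type} [Group G] (ψ : FreeGroup (Fin d) →* G) (ρ m : ℕ)
    (s : Fin ρ → FreeGroup (Fin d)) (e : Fin m → FreeGroup (Fin d)) : Prop where
  ncl : normalClosure (Set.range s ∪ Set.range e) = ψ.ker
  comm : ∀ i, e i ∈ commutator (FreeGroup (Fin d))
  null : ∀ l ∈ IL p ψ.ker, ∀ i, l (e i) = 0
  rank : ρ ≤ Module.finrank (ZMod p) (IL p ψ.ker)

theorem exists_nf {p : ℕ} [Fact p.Prime] {d : ℕ} {G : Type} [Group G] [Finite G]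
    {ψ : FreeGroup (Fin d) →* G} {T : Finset (FreeGroup (Fin d))}
    (hT : normalClosure (T : Set (FreeGroup (Fin d))) = ψ.ker) :
    ∃ (ρ m : ℕ) (s : Fin ρ → FreeGroup (Fin d)) (e : Fin m → FreeGroup (Fin d)),
      ρ + m = T.card ∧ NF p ψ ρ m s e := by
  classical
  obtain ⟨t, J, h1, h2, h3⟩ := red_all (fun i : T => (i : FreeGroup (Fin d))) Finset.univ
  rw [Finset.card_univ, Fintype.card_fin] at h2
  have hJ : ∀ i ∉ J, ∀ a, ev (t i) a = 0 := fun i hi a => h3 i hi a (Finset.mem_univ a)
  have hr : Set.range (fun i : T => (i : FreeGroup (Fin d))) = (T : Set (FreeGroup (Fin d))) := by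
    ext x
    simp
  have ht : normalClosure (Set.range t) = ψ.ker := by
    rw [← normalClosure_closure_eq_normalClosure, h1, hr, normalClosure_closure_eq_normalClosure, hT]
  have hcm : ∀ i ∉ J, t i ∈ commutator (FreeGroup (Fin d)) := fun i hi => mem_commutator_of_ev (hJ i hi)
  obtain ⟨S, h4, h5, h6⟩ := exists_select (p := p) ht hJ h2
  choose! c hc using fun (i : T) (hi : i ∉ J) =>
    exists_corr (p := p) ht (i := i) fun l hl h7 => h6 l hl h7 i hi
  let A : Finset T := J ∪ S
  have hA : A.card = J.card + S.card := Finset.card_union_of_disjoint h4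
  let EA : Fin A.card ≃ A := (A.equivFin).symm
  let B : Finset T := Aᶜ
  let EB : Fin B.card ≃ B := (B.equivFin).symm
  have hBJ : ∀ x : B, (x : T) ∉ J := fun x hx =>
    Finset.mem_compl.1 x.2 (Finset.mem_union_left _ hx)
  have hSJ : ∀ x ∈ S, x ∉ J := fun x hx hx2 => Finset.disjoint_left.1 h4 hx2 hx
  refine ⟨A.card, B.card, fun i => t (EA i),
    fun i => t (EB i) * (S.toList.map fun s => t s ^ c (EB i) s).prod, ?_, ?_, ?_, ?_, ?_⟩
  · have h7 : A.card + B.card = Fintype.card T := Finset.card_add_card_compl A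
    rw [h7, Fintype.card_coe]
  · rw [← ht]
    have hs : ∀ x ∈ S, ∀ M : Subgroup (FreeGroup (Fin d)),
        (Set.range fun i => t (EA i)) ⊆ M → t x ∈ M := by
      intro x hx M hM
      refine hM ⟨EA.symm ⟨x, Finset.mem_union_right _ hx⟩, ?_⟩
      show t (EA (EA.symm _)) = t x
      rw [EA.apply_symm_apply]
    have htN : ∀ x, t x ∈ normalClosure (Set.range t) := fun x => subset_normalClosure ⟨x, rfl⟩
    apply le_antisymm
    · refine normalClosure_le_normal ?_
      rintro _ (⟨i, rfl⟩ | ⟨i, rfl⟩)
      · exact htN _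
      · refine mul_mem (htN _) (list_prod_mem ?_)
        intro r hr
        obtain ⟨x, _, rfl⟩ := List.mem_map.1 hr
        exact zpow_mem (htN _) _
    · refine normalClosure_le_normal ?_
      rintro _ ⟨x, rfl⟩
      have hsub : (Set.range fun i => t (EA i)) ⊆ (normalClosure ((Set.range fun i => t (EA i)) ∪
          Set.range fun i => t (EB i) * (S.toList.map fun s => t s ^ c (EB i) s).prod) :
            Set (FreeGroup (Fin d))) := fun y hy => subset_normalClosure (Or.inl hy)
      by_cases hx : x ∈ A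
      · refine hsub ⟨EA.symm ⟨x, hx⟩, ?_⟩
        show t (EA (EA.symm _)) = t x
        rw [EA.apply_symm_apply]
      · have hxB : x ∈ B := Finset.mem_compl.2 hx
        have h8 : t x * (S.toList.map fun s => t s ^ c x s).prod ∈
            normalClosure ((Set.range fun i => t (EA i)) ∪
              Set.range fun i => t (EB i) * (S.toList.map fun s => t s ^ c (EB i) s).prod) := by
          refine subset_normalClosure (Or.inr ⟨EB.symm ⟨x, hxB⟩, ?_⟩)
          show t (EB (EB.symm _)) * (S.toList.map fun s => t s ^ c (EB (EB.symm _)) s).prod = _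
          rw [EB.apply_symm_apply]
        have h9 : (S.toList.map fun s => t s ^ c x s).prod ∈
            normalClosure ((Set.range fun i => t (EA i)) ∪
              Set.range fun i => t (EB i) * (S.toList.map fun s => t s ^ c (EB i) s).prod) := by
          refine list_prod_mem ?_
          intro r hr
          obtain ⟨y, hy, rfl⟩ := List.mem_map.1 hr
          exact zpow_mem (hs y (Finset.mem_toList.1 hy) _ hsub) _
        have h10 := mul_mem h8 (inv_mem h9)
        rwa [mul_inv_cancel_right] at h10
  · intro i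
    refine mul_mem (hcm _ (hBJ (EB i))) (list_prod_mem ?_)
    intro r hr
    obtain ⟨y, hy, rfl⟩ := List.mem_map.1 hr
    exact zpow_mem (hcm _ (hSJ y (Finset.mem_toList.1 hy))) _
  · intro l hl i
    exact hc _ (hBJ (EB i)) l hl
  · rw [hA]
    exact h5

theorem NF.sep {p : ℕ} [Fact p.Prime] {d : ℕ} {G : Type} [Group G] {ψ : FreeGroup (Fin d) →* G} {ρ m : ℕ}
    {s : Fin ρ → FreeGroup (Fin d)} {e : Fin m → FreeGroup (Fin d)} (h : NF p ψ ρ m s e)
    {l : FreeGroup (Fin d) → ZMod p} (hl : l ∈ IL p ψ.ker) (h0 : ∀ i, l (s i) = 0) : l = 0 := by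
  funext r
  by_cases hr : r ∈ ψ.ker
  · refine IL_closure hl (S := Set.range s ∪ Set.range e) ?_ r ?_
    · rintro _ (⟨i, rfl⟩ | ⟨i, rfl⟩)
      · refine ⟨?_, h0 i⟩
        rw [← h.ncl]
        exact subset_normalClosure (Or.inl ⟨i, rfl⟩)
      · refine ⟨?_, h.null l hl i⟩
        rw [← h.ncl]
        exact subset_normalClosure (Or.inr ⟨i, rfl⟩)
    · rw [h.ncl]
      exact hr
  · exact IL_out hl hr

end Pool.Agent.RG.PR
end

section

/-!
# PR A: a normal subgroup which is central modulo a central subgroup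

`K` normal of index `p ^ n`, finitely generated, contained in the commutator subgroup, central modulo a central
subgroup `D ≤ K`, without invariant homomorphisms to `F_p`: then `K = ⊥`.
-/

set_option autoImplicit false

namespace Pool.Agent.RG.PR

open Subgroup

variable {H : Type} [Group H] {p : ℕ} [Fact p.Prime]

theorem one_of_coprime {g : H} {a b : ℕ} (h : a.Coprime b) (ha : g ^ a = 1) (hb : g ^ b = 1) : g = 1 := by
  have h1 := orderOf_dvd_of_pow_eq_one ha
  have h2 := orderOf_dvd_of_pow_eq_one hb
  have h3 : orderOf g = 1 := Nat.eq_one_of_dvd_coprimes h h1 h2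
  exact orderOf_eq_one_iff.1 h3

/-- The homomorphism `h ↦ [k, h]`, if these elements are central. -/
def phi (k : H) (hk : ∀ h : H, cm k h ∈ center H) : H →* center H :=
  MonoidHom.mk' (fun h => ⟨cm k h, hk h⟩) (by
    intro a b
    apply Subtype.ext
    show cm k (a * b) = cm k a * cm k b
    have h1 := mem_center_iff.1 (hk a) (k⁻¹ * b⁻¹ * k)
    have h2 : cm k (a * b) = (k⁻¹ * b⁻¹ * k) * cm k a * b := by
      simp only [cm, mul_inv_rev, mul_assoc, mul_inv_cancel_left, inv_mul_cancel_left]
    rw [h2, h1]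
    simp only [cm, mul_assoc])

theorem phi_apply (k : H) (hk : ∀ h : H, cm k h ∈ center H) (h : H) :
    ((phi k hk h : center H) : H) = cm k h := rfl

theorem phi_ker (k : H) (hk : ∀ h : H, cm k h ∈ center H) : commutator H ≤ (phi k hk).ker := by
  rw [_root_.commutator_def, Subgroup.commutator_le]
  intro a _ b _
  rw [MonoidHom.mem_ker, map_commutatorElement, commutatorElement_eq_one_iff_mul_comm]
  exact Subtype.ext (mem_center_iff.1 (phi k hk b).2 _)

theorem eq_bot_of (K D : Subgroup H) [K.Normal] (hD : D ≤ center H) (hDK : D ≤ K)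
    (hK : K ≤ commutator H) (hKD : ∀ k ∈ K, ∀ h : H, cm k h ∈ D) (hfg : K.FG) {n : ℕ}
    (hidx : K.index = p ^ n) (hsep : ∀ l ∈ IL p K, ∀ r ∈ K, l r = 0) : K = ⊥ := by
  have hc : ∀ k ∈ K, ∀ h : H, cm k h ∈ center H := fun k hk h => hD (hKD k hk h)
  have hcomm : ∀ a ∈ K, ∀ b ∈ K, a * b = b * a := by
    intro a ha b hb
    have h1 : b ∈ (phi a (hc a ha)).ker := phi_ker a (hc a ha) (hK hb)
    rw [MonoidHom.mem_ker] at h1
    have h2 : cm a b = 1 := by
      rw [← phi_apply a (hc a ha), h1]
      rfl
    exact cm_eq_one.1 h2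
  obtain ⟨s, hs, hs1⟩ := exists_coprime K hcomm hfg hidx hsep
  have hcen : K ≤ center H := by
    intro k hk
    rw [mem_center_iff]
    intro h
    have h1 : cm k h ^ p ^ n = 1 := by
      have h2 : h ^ p ^ n ∈ K := by
        rw [← hidx]
        exact K.pow_index_mem h
      have h3 : (phi k (hc k hk) h) ^ p ^ n = 1 := by
        rw [← map_pow]
        apply Subtype.ext
        rw [phi_apply]
        exact cm_eq_one.2 (hcomm k hk _ h2)
      have h4 := congrArg Subtype.val h3
      rw [SubmonoidClass.coe_pow, phi_apply] at h4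
      exact h4
    have h5 : cm k h ^ s = 1 := hs1 _ (hDK (hKD k hk h))
    have h6 : cm k h = 1 := one_of_coprime (hs.pow_right n) h5 h1
    exact (cm_eq_one.1 h6).symm
  obtain ⟨m, hm⟩ := pow_comm_of_central K hcen hidx
  rw [eq_bot_iff]
  intro g hg
  rw [mem_bot]
  exact one_of_coprime (hs.pow_right m) (hs1 g hg) (hm g (hK hg))

end Pool.Agent.RG.PR
end
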