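import Pool.Agent.Lib.MP_1a39b9_al.Mg.G007
import Pool.Agent.Lib.MP_1a39b9_al.Mg.G005
import Pool.Agent.Lib.MP_1a39b9_al.Mg.G004

section

/-!
# PR D: the direct product and its generators

`inj i`, `pr i`: the inclusion of the `i`-th free factor and the projection onto it; `Psi ψ`: the presentation map of the
direct product. `CP d`: the pairs of generators of different factors.
-/

set_option autoImplicit false

namespace Pool.Agent.RG.PR

open Subgroup

/-- The generators of the direct product. -/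
abbrev KK {k : ℕ} (d : Fin k → ℕ) : Type := Σ i, Fin (d i)

section
variable {k : ℕ} {d : Fin k → ℕ} {G : Fin k → Type} [∀ i, Group (G i)]

/-- The inclusion of the `i`-th free factor. -/
def inj (i : Fin k) : FreeGroup (Fin (d i)) →* FreeGroup (KK d) := FreeGroup.map fun a => (⟨i, a⟩ : KK d)

/-- The projection onto the `i`-th free factor. -/
def pr (i : Fin k) : FreeGroup (KK d) →* FreeGroup (Fin (d i)) :=
  FreeGroup.lift fun x => if h : x.1 = i then FreeGroup.of (h ▸ x.2) else 1

/-- The presentation map of the direct product. -/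
def Psi (ψ : ∀ i, FreeGroup (Fin (d i)) →* G i) : FreeGroup (KK d) →* (∀ i, G i) :=
  MonoidHom.pi fun i => (ψ i).comp (pr i)

/-- The pairs of generators of different factors. -/
abbrev CP (d : Fin k → ℕ) : Type := {q : KK d × KK d // q.1.1 < q.2.1}

theorem Psi_apply (ψ : ∀ i, FreeGroup (Fin (d i)) →* G i) (f : FreeGroup (KK d)) (i : Fin k) :
    Psi ψ f i = ψ i (pr i f) := rfl

theorem inj_of (i : Fin k) (a : Fin (d i)) :
    inj i (FreeGroup.of a) = (FreeGroup.of ⟨i, a⟩ : FreeGroup (KK d)) := by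
  unfold inj
  rw [FreeGroup.map.of]

theorem pr_of_same (i : Fin k) (a : Fin (d i)) :
    pr i (FreeGroup.of (⟨i, a⟩ : KK d)) = FreeGroup.of a := by
  unfold pr
  rw [FreeGroup.lift_apply_of, dif_pos rfl]

theorem pr_of_ne {i : Fin k} {x : KK d} (h : x.1 ≠ i) : pr i (FreeGroup.of x) = 1 := by
  unfold pr
  rw [FreeGroup.lift_apply_of, dif_neg h]

theorem pr_inj (i : Fin k) (w : FreeGroup (Fin (d i))) : pr i (inj i w) = w := by
  have h : (pr i).comp (inj i) = MonoidHom.id (FreeGroup (Fin (d i))) := by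
    refine FreeGroup.ext_hom _ _ fun a => ?_
    rw [MonoidHom.comp_apply, inj_of, pr_of_same]
    rfl
  exact DFunLike.congr_fun h w

theorem pr_inj_ne {i j : Fin k} (hij : i ≠ j) (w : FreeGroup (Fin (d i))) : pr j (inj i w) = 1 := by
  have h : (pr j).comp (inj i) = (1 : FreeGroup (Fin (d i)) →* FreeGroup (Fin (d j))) := by
    refine FreeGroup.ext_hom _ _ fun a => ?_
    rw [MonoidHom.comp_apply, inj_of, pr_of_ne (x := ⟨i, a⟩) hij]
    rfl
  exact DFunLike.congr_fun h w

theorem ev_pr (i : Fin k) (a : Fin (d i)) (f : FreeGroup (KK d)) : ev (pr i f) a = ev f ⟨i, a⟩ := by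
  induction f using FreeGroup.induction_on with
  | C1 => rw [map_one, ev_one, ev_one]
  | of x =>
    by_cases h : x.1 = i
    · obtain ⟨j, b⟩ := x
      obtain rfl : j = i := h
      rw [pr_of_same, ev_of, ev_of]
      by_cases hb : b = a
      · subst hb
        rw [if_pos rfl, if_pos rfl]
      · rw [if_neg hb, if_neg]
        intro h2
        exact hb (eq_of_heq (Sigma.mk.inj h2).2)
    · rw [pr_of_ne h, ev_one, ev_of, if_neg]
      rintro rfl
      exact h rfl
  | inv_of x h => rw [map_inv, ev_inv, h, ev_inv]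
  | mul x y hx hy => rw [map_mul, ev_mul, ev_mul, hx, hy]

theorem mem_ker_Psi {ψ : ∀ i, FreeGroup (Fin (d i)) →* G i} {f : FreeGroup (KK d)} :
    f ∈ (Psi ψ).ker ↔ ∀ i, pr i f ∈ (ψ i).ker := by
  rw [MonoidHom.mem_ker]
  constructor
  · intro h i
    rw [MonoidHom.mem_ker, ← Psi_apply, h]
    rfl
  · intro h
    funext i
    exact h i

theorem inj_mem {ψ : ∀ i, FreeGroup (Fin (d i)) →* G i} {i : Fin k} {w : FreeGroup (Fin (d i))} :
    inj i w ∈ (Psi ψ).ker ↔ w ∈ (ψ i).ker := by
  rw [mem_ker_Psi]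
  constructor
  · intro h
    have := h i
    rwa [pr_inj] at this
  · intro h j
    by_cases hij : i = j
    · subst hij
      rwa [pr_inj]
    · rw [pr_inj_ne hij]
      exact one_mem _

theorem frK_Psi {p : ℕ} {ψ : ∀ i, FreeGroup (Fin (d i)) →* G i} (h : ∀ i, FrK p (ψ i).ker) :
    FrK p (Psi ψ).ker := by
  intro r hr x
  obtain ⟨i, a⟩ := x
  rw [← ev_pr]
  exact h i _ (mem_ker_Psi.1 hr i) a

theorem Psi_of (ψ : ∀ i, FreeGroup (Fin (d i)) →* G i) (x : KK d) :
    Psi ψ (FreeGroup.of x) = Pi.mulSingle x.1 (ψ x.1 (FreeGroup.of x.2)) := by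
  obtain ⟨i, a⟩ := x
  funext j
  rw [Psi_apply]
  by_cases h : i = j
  · subst h
    rw [pr_of_same, Pi.mulSingle_eq_same]
  · rw [pr_of_ne (x := ⟨i, a⟩) h, map_one, Pi.mulSingle_eq_of_ne (Ne.symm h)]

theorem Psi_inj (ψ : ∀ i, FreeGroup (Fin (d i)) →* G i) (i : Fin k) (w : FreeGroup (Fin (d i))) :
    Psi ψ (inj i w) = Pi.mulSingle i (ψ i w) := by
  funext j
  rw [Psi_apply]
  by_cases h : i = j
  · subst h
    rw [pr_inj, Pi.mulSingle_eq_same]
  · rw [pr_inj_ne h, map_one, Pi.mulSingle_eq_of_ne (Ne.symm h)]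

theorem cm_mem (ψ : ∀ i, FreeGroup (Fin (d i)) →* G i) {x y : KK d} (h : x.1 ≠ y.1) :
    cm (FreeGroup.of x) (FreeGroup.of y) ∈ (Psi ψ).ker := by
  rw [MonoidHom.mem_ker, map_cm, cm_eq_one, Psi_of, Psi_of]
  exact Pi.mulSingle_commute h _ _

theorem Psi_surj {ψ : ∀ i, FreeGroup (Fin (d i)) →* G i} (h : ∀ i, Function.Surjective (ψ i)) :
    Function.Surjective (Psi ψ) := by
  rw [← MonoidHom.range_eq_top, eq_top_iff]
  intro g _
  rw [← Finset.noncommProd_mulSingle g]
  refine Subgroup.noncommProd_mem _ _ fun i _ => ?_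
  obtain ⟨w, hw⟩ := h i (g i)
  exact ⟨inj i w, by rw [Psi_inj, hw]⟩

/-- Homomorphisms of free groups whose values at the generators commute. -/
theorem commute_of_gens {α β H : Type} [Group H] (f : FreeGroup α →* H) (g : FreeGroup β →* H)
    (h : ∀ a b, Commute (f (FreeGroup.of a)) (g (FreeGroup.of b))) (v : FreeGroup α) (w : FreeGroup β) :
    Commute (f v) (g w) := by
  have h1 : ∀ a, Commute (f (FreeGroup.of a)) (g w) := by
    intro a
    induction w using FreeGroup.induction_on with
    | C1 => rw [map_one]; exact Commute.one_right _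
    | of x => exact h a x
    | inv_of x hx => rw [map_inv]; exact hx.inv_right
    | mul x y hx hy => rw [map_mul]; exact hx.mul_right hy
  induction v using FreeGroup.induction_on with
  | C1 => rw [map_one]; exact Commute.one_left _
  | of x => exact h1 x
  | inv_of x hx => rw [map_inv]; exact hx.inv_left
  | mul x y hx hy => rw [map_mul]; exact hx.mul_left hy

/-- A normal subgroup which contains the kernels of the factors and the commutators contains the kernel. -/
theorem ker_Psi_le {ψ : ∀ i, FreeGroup (Fin (d i)) →* G i} (hψ : ∀ i, Function.Surjective (ψ i))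
    (M : Subgroup (FreeGroup (KK d))) [M.Normal] (h1 : ∀ i, ∀ w ∈ (ψ i).ker, inj i w ∈ M)
    (h2 : ∀ q : CP d, cm (FreeGroup.of q.1.1) (FreeGroup.of q.1.2) ∈ M) : (Psi ψ).ker ≤ M := by
  classical
  let π : FreeGroup (KK d) →* FreeGroup (KK d) ⧸ M := QuotientGroup.mk' M
  have hk : ∀ i, (ψ i).ker ≤ (π.comp (inj i)).ker := by
    intro i w hw
    rw [MonoidHom.mem_ker, MonoidHom.comp_apply]
    exact (QuotientGroup.eq_one_iff _).2 (h1 i w hw)
  let f : ∀ i, G i →* FreeGroup (KK d) ⧸ M := fun i =>
    (ψ i).liftOfRightInverse _ (Function.rightInverse_surjInv (hψ i)) ⟨π.comp (inj i), hk i⟩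
  have hf : ∀ i w, f i (ψ i w) = π (inj i w) := fun i w =>
    (ψ i).liftOfRightInverse_comp_apply _ (Function.rightInverse_surjInv (hψ i)) ⟨π.comp (inj i), hk i⟩ w
  have hgen : ∀ x y : KK d, x.1 ≠ y.1 → Commute (π (FreeGroup.of x)) (π (FreeGroup.of y)) := by
    intro x y hxy
    rcases lt_or_gt_of_ne hxy with h | h
    · have h3 : π (cm (FreeGroup.of x) (FreeGroup.of y)) = 1 := (QuotientGroup.eq_one_iff _).2 (h2 ⟨(x, y), h⟩)
      rw [map_cm] at h3
      exact cm_eq_one.1 h3
    · have h3 : π (cm (FreeGroup.of y) (FreeGroup.of x)) = 1 := (QuotientGroup.eq_one_iff _).2 (h2 ⟨(y, x), h⟩)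
      rw [map_cm] at h3
      exact (cm_eq_one.1 h3).symm
  have hcomm : Pairwise fun i j => ∀ x y, Commute (f i x) (f j y) := by
    intro i j hij x y
    obtain ⟨v, rfl⟩ := hψ i x
    obtain ⟨w, rfl⟩ := hψ j y
    rw [hf, hf]
    refine commute_of_gens (π.comp (inj i)) (π.comp (inj j)) (fun a b => ?_) v w
    rw [MonoidHom.comp_apply, MonoidHom.comp_apply, inj_of, inj_of]
    exact hgen _ _ hij
  have hΘ : (MonoidHom.noncommPiCoprod f hcomm).comp (Psi ψ) = π := by
    refine FreeGroup.ext_hom _ _ fun x => ?_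
    rw [MonoidHom.comp_apply, Psi_of, MonoidHom.noncommPiCoprod_mulSingle, hf, inj_of]
  intro r hr
  have h3 : π r = 1 := by
    rw [← hΘ, MonoidHom.comp_apply, MonoidHom.mem_ker.1 hr, map_one]
  exact (QuotientGroup.eq_one_iff _).1 h3

end

end Pool.Agent.RG.PR
end

section

/-!
# PR L: invariant homomorphisms for the direct product

`dim IL (ker Ψ) ≥ ∑ dim IL (ker ψ_j) + card (CP d)`: the homomorphisms `l ∘ pr j` and the third coordinates of the maps onto
the Heisenberg group.
-/

set_option autoImplicit false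

namespace Pool.Agent.RG.PR

open Subgroup

variable {p : ℕ} {k : ℕ} {d : Fin k → ℕ} {G : Fin k → Type} [∀ i, Group (G i)]
    {ψ : ∀ i, FreeGroup (Fin (d i)) →* G i}

theorem ev_inj_ne {i : Fin k} {x : KK d} (h : x.1 ≠ i) (w : FreeGroup (Fin (d i))) :
    ev (inj i w : FreeGroup (KK d)) x = 0 := by
  obtain ⟨j, a⟩ := x
  rw [← ev_pr, pr_inj_ne (Ne.symm h), ev_one]

theorem kap_inj {x y : KK d} (hxy : x.1 ≠ y.1) (i : Fin k) (w : FreeGroup (Fin (d i))) :
    kap p x y (inj i w : FreeGroup (KK d)) = 0 := by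
  have hne : x ≠ y := fun h => hxy (by rw [h])
  have key : ∀ u v : FreeGroup (Fin (d i)),
      (ev (inj i u : FreeGroup (KK d)) x : ZMod p) * (ev (inj i v : FreeGroup (KK d)) y : ZMod p) = 0 := by
    intro u v
    by_cases h : x.1 = i
    · have h2 : y.1 ≠ i := fun h3 => hxy (h.trans h3.symm)
      rw [ev_inj_ne h2, Int.cast_zero, mul_zero]
    · rw [ev_inj_ne h, Int.cast_zero, zero_mul]
  induction w using FreeGroup.induction_on with
  | C1 => rw [map_one, kap_one]
  | of a => rw [inj_of, kap_of]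
  | inv_of a ha =>
    have h1 := kap_mul (p := p) hne (inj i (FreeGroup.of a) : FreeGroup (KK d)) (inj i (FreeGroup.of a)⁻¹)
    rw [← map_mul, mul_inv_cancel, map_one, kap_one, ha, key, add_zero, zero_add] at h1
    exact h1.symm
  | mul u v hu hv => rw [map_mul, kap_mul hne, hu, hv, key, add_zero, add_zero]

/-- Composition with the projection. -/
noncomputable def pull (p : ℕ) (ψ : ∀ i, FreeGroup (Fin (d i)) →* G i) (j : Fin k) :
    IL p (ψ j).ker →ₗ[ZMod p] IL p (Psi ψ).ker where
  toFun l := ⟨res (Psi ψ).ker fun r => l.1 (pr j r), by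
    refine res_mem _ (fun r hr t ht => ?_) (fun f r hr => ?_)
    · rw [map_mul]
      exact IL_mul l.2 (mem_ker_Psi.1 hr j) (mem_ker_Psi.1 ht j)
    · rw [map_mul, map_mul, map_inv]
      exact IL_conj l.2 _ (mem_ker_Psi.1 hr j)⟩
  map_add' l l' := by
    apply Subtype.ext
    funext r
    show res (Psi ψ).ker (fun r => l.1 (pr j r) + l'.1 (pr j r)) r =
      res (Psi ψ).ker (fun r => l.1 (pr j r)) r + res (Psi ψ).ker (fun r => l'.1 (pr j r)) r
    unfold res
    split_ifs
    · rfl
    · rw [add_zero]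
  map_smul' c l := by
    apply Subtype.ext
    funext r
    show res (Psi ψ).ker (fun r => c • l.1 (pr j r)) r = c • res (Psi ψ).ker (fun r => l.1 (pr j r)) r
    unfold res
    split_ifs
    · rfl
    · rw [smul_zero]

theorem pull_apply (j : Fin k) (l : IL p (ψ j).ker) {r : FreeGroup (KK d)} (hr : r ∈ (Psi ψ).ker) :
    (pull p ψ j l).1 r = l.1 (pr j r) := res_eq (fun r => l.1 (pr j r)) hr

theorem finrank_ge [Fact p.Prime] (hfr : ∀ i, FrK p (ψ i).ker)
    [∀ i, Module.Finite (ZMod p) (IL p (ψ i).ker)] [Module.Finite (ZMod p) (IL p (Psi ψ).ker)] :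
    ∑ i, Module.finrank (ZMod p) (IL p (ψ i).ker) + Fintype.card (CP d) ≤
      Module.finrank (ZMod p) (IL p (Psi ψ).ker) := by
  classical
  have hF := frK_Psi hfr
  have hq : ∀ q : CP d, q.1.1 ≠ q.1.2 := fun q h => ne_of_lt q.2 (by rw [h])
  let Φ : ((∀ j, IL p (ψ j).ker) × (CP d → ZMod p)) →ₗ[ZMod p] IL p (Psi ψ).ker :=
    LinearMap.coprod (∑ j, (pull p ψ j).comp (LinearMap.proj j))
      (∑ q : CP d, (LinearMap.toSpanSingleton (ZMod p) (IL p (Psi ψ).ker)
        ⟨res (Psi ψ).ker (kap p q.1.1 q.1.2), kap_mem hF (hq q)⟩).comp (LinearMap.proj q))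
  have hΦ : ∀ (l : ∀ j, IL p (ψ j).ker) (c : CP d → ZMod p) (r : FreeGroup (KK d)), r ∈ (Psi ψ).ker →
      (Φ (l, c)).1 r = ∑ j, (l j).1 (pr j r) + ∑ q : CP d, c q * kap p q.1.1 q.1.2 r := by
    intro l c r hr
    have h1 : Φ (l, c) = ∑ j, pull p ψ j (l j) +
        ∑ q : CP d, c q • (⟨res (Psi ψ).ker (kap p q.1.1 q.1.2), kap_mem hF (hq q)⟩ :
          IL p (Psi ψ).ker) := by
      simp only [Φ, LinearMap.coprod_apply, LinearMap.sum_apply, LinearMap.comp_apply,
        LinearMap.proj_apply, LinearMap.toSpanSingleton_apply]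
    rw [h1]
    have h2 : ∀ (A B : IL p (Psi ψ).ker), (A + B).1 r = A.1 r + B.1 r := fun _ _ => rfl
    have h3 : ∀ {α : Type} [Fintype α] (A : α → IL p (Psi ψ).ker), (∑ a, A a).1 r = ∑ a, (A a).1 r := by
      intro α _ A
      rw [AddSubmonoidClass.coe_finsetSum, Finset.sum_apply]
    rw [h2, h3, h3]
    congr 1
    · exact Finset.sum_congr rfl fun j _ => pull_apply j (l j) hr
    · refine Finset.sum_congr rfl fun q _ => ?_
      show c q • res (Psi ψ).ker (kap p q.1.1 q.1.2) r = _
      rw [res_eq _ hr, smul_eq_mul]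
  have hinj : Function.Injective Φ := by
    rw [injective_iff_map_eq_zero]
    rintro ⟨l, c⟩ h0
    have h1 : ∀ r ∈ (Psi ψ).ker, ∑ j, (l j).1 (pr j r) + ∑ q : CP d, c q * kap p q.1.1 q.1.2 r = 0 := by
      intro r hr
      rw [← hΦ l c r hr, h0]
      rfl
    have hl : l = 0 := by
      funext j
      apply Subtype.ext
      funext w
      show (l j).1 w = 0
      by_cases hw : w ∈ (ψ j).ker
      · have h2 := h1 _ (inj_mem.2 hw)
        rw [Finset.sum_eq_single j, pr_inj] at h2
        · rwa [Finset.sum_eq_zero, add_zero] at h2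
          intro q _
          rw [kap_inj (ne_of_lt q.2), mul_zero]
        · intro i _ hi
          rw [pr_inj_ne (Ne.symm hi)]
          exact IL_one (l i).2
        · intro h; exact absurd (Finset.mem_univ j) h
      · exact IL_out (l j).2 hw
    have hc : c = 0 := by
      funext q
      show c q = 0
      have h2 := h1 _ (cm_mem ψ (ne_of_lt q.2))
      rw [Finset.sum_eq_zero, zero_add, Finset.sum_eq_single q] at h2
      · rw [kap_cm (hq q), ev_of, ev_of, ev_of, ev_of, if_pos rfl, if_pos rfl, if_neg (hq q).symm,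
          Int.cast_zero, zero_mul, sub_zero, Int.cast_one, mul_one, mul_one] at h2
        exact h2
      · intro q' _ hq'
        rw [kap_cm (hq q'), ev_of, ev_of, ev_of, ev_of]
        have h3 : ¬ (q.1.1 = q'.1.1 ∧ q.1.2 = q'.1.2) := by
          rintro ⟨h4, h5⟩
          exact hq' (Subtype.ext (Prod.ext h4.symm h5.symm))
        have h4 : ¬ (q.1.2 = q'.1.1 ∧ q.1.1 = q'.1.2) := by
          rintro ⟨h5, h6⟩
          have h7 := q'.2
          rw [← h5, ← h6] at h7
          exact absurd q.2 (not_lt.2 h7.le)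
        have e1 : ((if q.1.1 = q'.1.1 then (1 : ℤ) else 0 : ℤ) : ZMod p) *
            ((if q.1.2 = q'.1.2 then (1 : ℤ) else 0 : ℤ) : ZMod p) = 0 := by
          by_cases a : q.1.1 = q'.1.1
          · rw [if_neg (fun b => h3 ⟨a, b⟩), Int.cast_zero, mul_zero]
          · rw [if_neg a, Int.cast_zero, zero_mul]
        have e2 : ((if q.1.2 = q'.1.1 then (1 : ℤ) else 0 : ℤ) : ZMod p) *
            ((if q.1.1 = q'.1.2 then (1 : ℤ) else 0 : ℤ) : ZMod p) = 0 := by
          by_cases a : q.1.2 = q'.1.1
          · rw [if_neg (fun b => h4 ⟨a, b⟩), Int.cast_zero, mul_zero]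
          · rw [if_neg a, Int.cast_zero, zero_mul]
        rw [e1, e2, sub_zero, mul_zero]
      · intro h; exact absurd (Finset.mem_univ q) h
      · intro j _
        rw [hl]
        rfl
    rw [hl, hc]
    rfl
  have h1 := LinearMap.finrank_le_finrank_of_injective hinj
  rw [Module.finrank_prod, Module.finrank_pi_fintype, Module.finrank_fintype_fun_eq_card] at h1
  exact h1

end Pool.Agent.RG.PR
end

section

/-!
# PR M: the relators of the direct product

`Slot`: the indices of the relators: the words `s j i` of the factors, the commutators of generators of different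
factors, and `g` further ones. `base`: the relators before the modification. `h c τ`: the word of the factor `c`
which is absorbed in the relator `τ`. `rel τ = base τ * (∏ c, h c τ)⁻¹`.
-/

set_option autoImplicit false

namespace Pool.Agent.RG.PR

open Subgroup
open scoped commutatorElement

/-- The indices of the relators. -/
abbrev Slot {k : ℕ} (d ρ : Fin k → ℕ) (g : ℕ) : Type := (Σ j, Fin (ρ j)) ⊕ (CP d ⊕ Fin g)

/-- The ordered product of a family. -/
def pro {k : ℕ} {H : Type} [Group H] (a : Fin k → H) : H := ((List.finRange k).map a).prod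

section
variable {k : ℕ} {d ρ : Fin k → ℕ} {g : ℕ}

/-- The relators before the modification. -/
def base (s : ∀ j, Fin (ρ j) → FreeGroup (Fin (d j))) : Slot d ρ g → FreeGroup (KK d)
  | .inl x => inj x.1 (s x.1 x.2)
  | .inr (.inl q) => cm (FreeGroup.of q.1.1) (FreeGroup.of q.1.2)
  | .inr (.inr _) => 1

/-- A word of the factor `c` may be absorbed in the relator. -/
def Al (δ : Fin k → Fin k → ℕ) (c : Fin k) : Slot d ρ g → Prop
  | .inl x => x.1 ≠ c
  | .inr (.inl q) => δ q.1.1.1 q.1.2.1 < δ q.1.1.1 c ∧ δ q.1.1.1 q.1.2.1 < δ q.1.2.1 c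
  | .inr (.inr _) => True

/-- The modified relators. -/
def rel (s : ∀ j, Fin (ρ j) → FreeGroup (Fin (d j))) (h : ∀ c, Slot d ρ g → FreeGroup (Fin (d c)))
    (τ : Slot d ρ g) : FreeGroup (KK d) := base s τ * (pro fun c => inj c (h c τ))⁻¹

theorem map_pro {A B : Type} [Group A] [Group B] (f : A →* B) (a : Fin k → A) :
    f (pro a) = pro fun c => f (a c) := by
  unfold pro
  rw [map_list_prod, List.map_map]
  rfl

theorem pro_mem {A : Type} [Group A] {a : Fin k → A} {M : Subgroup A} (h : ∀ c, a c ∈ M) : pro a ∈ M := by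
  unfold pro
  refine list_prod_mem fun x hx => ?_
  obtain ⟨c, _, rfl⟩ := List.mem_map.1 hx
  exact h c

theorem pro_one {A : Type} [Group A] {a : Fin k → A} (h : ∀ c, a c = 1) : pro a = 1 := by
  have := pro_mem (M := ⊥) fun c => (mem_bot.2 (h c))
  exact mem_bot.1 this

/-- If the product and all factors but one are in a subgroup then this factor is in it as well. -/
theorem mem_of_pro {A : Type} [Group A] {a : Fin k → A} {M : Subgroup A} (h : pro a ∈ M) {c : Fin k}
    (hc : ∀ c', c' ≠ c → a c' ∈ M) : a c ∈ M := by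
  have key : ∀ L : List (Fin k), L.Nodup → c ∈ L → (L.map a).prod ∈ M → a c ∈ M := by
    intro L
    induction L with
    | nil => intro _ h; exact absurd h (List.not_mem_nil)
    | cons x L ih =>
      intro hL hcL hp
      rw [List.map_cons, List.prod_cons] at hp
      rw [List.nodup_cons] at hL
      by_cases hx : x = c
      · subst hx
        have h1 : (L.map a).prod ∈ M := list_prod_mem fun y hy => by
          obtain ⟨z, hz, rfl⟩ := List.mem_map.1 hy
          refine hc z ?_
          rintro rfl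
          exact hL.1 hz
        exact (M.mul_mem_cancel_right h1).1 hp
      · have h1 : (L.map a).prod ∈ M := (M.mul_mem_cancel_left (hc x hx)).1 hp
        refine ih hL.2 ?_ h1
        rcases List.mem_cons.1 hcL with h2 | h2
        · exact absurd h2.symm hx
        · exact h2
  exact key _ (List.nodup_finRange k) (List.mem_finRange c) h

theorem mem_center_of_gens {α H : Type} [Group H] {f : FreeGroup α →* H} (hf : Function.Surjective f) {x : H}
    (h : ∀ z, Commute (f (FreeGroup.of z)) x) : x ∈ center H := by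
  rw [mem_center_iff]
  intro y
  obtain ⟨w, rfl⟩ := hf y
  have h1 : Commute (f w) x := by
    induction w using FreeGroup.induction_on with
    | C1 => rw [map_one]; exact Commute.one_left _
    | of z => exact h z
    | inv_of z hz => rw [map_inv]; exact hz.inv_left
    | mul u v hu hv => rw [map_mul]; exact hu.mul_left hv
  exact h1

theorem map_mem_commutator {A B : Type} [Group A] [Group B] (f : A →* B) {x : A} (hx : x ∈ commutator A) :
    f x ∈ commutator B := by
  have h : commutator A ≤ (commutator B).comap f := by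
    rw [_root_.commutator_def, Subgroup.commutator_le]
    intro a _ b _
    rw [mem_comap, map_commutatorElement]
    exact Subgroup.commutator_mem_commutator (mem_top _) (mem_top _)
  exact h hx

theorem cm_mem_commutator {A : Type} [Group A] (a b : A) : cm a b ∈ commutator A := by
  have h : cm a b = ⁅a⁻¹, b⁻¹⁆ := by
    unfold cm
    rw [commutatorElement_def, inv_inv, inv_inv]
  rw [h]
  exact Subgroup.commutator_mem_commutator (mem_top _) (mem_top _)

end

/-- The data. -/
structure Host (p : ℕ) {k : ℕ} {d : Fin k → ℕ} {G : Fin k → Type} [∀ i, Group (G i)]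
    (ψ : ∀ i, FreeGroup (Fin (d i)) →* G i) (ρ m : Fin k → ℕ) (g : ℕ) (δ : Fin k → Fin k → ℕ)
    (s : ∀ j, Fin (ρ j) → FreeGroup (Fin (d j))) (e : ∀ j, Fin (m j) → FreeGroup (Fin (d j)))
    (h : ∀ c, Slot d ρ g → FreeGroup (Fin (d c))) : Prop where
  surj : ∀ i, Function.Surjective (ψ i)
  ultra : ∀ i j l, δ i l ≤ max (δ i j) (δ j l)
  symm : ∀ i j, δ i j = δ j i
  nf : ∀ i, NF p (ψ i) (ρ i) (m i) (s i) (e i)
  h1 : ∀ c τ, h c τ = 1 ∨ (Al δ c τ ∧ ∃ i, h c τ = e c i)
  h2 : ∀ c i, ∃ τ, h c τ = e c i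

namespace Host

variable {p : ℕ} {k : ℕ} {d : Fin k → ℕ} {G : Fin k → Type} [∀ i, Group (G i)]
    {ψ : ∀ i, FreeGroup (Fin (d i)) →* G i} {ρ m : Fin k → ℕ} {g : ℕ} {δ : Fin k → Fin k → ℕ}
    {s : ∀ j, Fin (ρ j) → FreeGroup (Fin (d j))} {e : ∀ j, Fin (m j) → FreeGroup (Fin (d j))}
    {h : ∀ c, Slot d ρ g → FreeGroup (Fin (d c))}

theorem h_comm (H : Host p ψ ρ m g δ s e h) (c : Fin k) (τ : Slot d ρ g) :
    h c τ ∈ commutator (FreeGroup (Fin (d c))) := by
  rcases H.h1 c τ with h1 | ⟨_, i, h1⟩
  · rw [h1]; exact one_mem _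
  · rw [h1]; exact (H.nf c).comm i

theorem e_mem (H : Host p ψ ρ m g δ s e h) (c : Fin k) (i : Fin (m c)) : e c i ∈ (ψ c).ker := by
  rw [← (H.nf c).ncl]
  exact subset_normalClosure (Or.inr ⟨i, rfl⟩)

theorem s_mem (H : Host p ψ ρ m g δ s e h) (c : Fin k) (i : Fin (ρ c)) : s c i ∈ (ψ c).ker := by
  rw [← (H.nf c).ncl]
  exact subset_normalClosure (Or.inl ⟨i, rfl⟩)

theorem h_mem (H : Host p ψ ρ m g δ s e h) (c : Fin k) (τ : Slot d ρ g) : h c τ ∈ (ψ c).ker := by
  rcases H.h1 c τ with h1 | ⟨_, i, h1⟩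
  · rw [h1]; exact one_mem _
  · rw [h1]; exact H.e_mem c i

theorem base_mem (H : Host p ψ ρ m g δ s e h) (τ : Slot d ρ g) : base s τ ∈ (Psi ψ).ker := by
  rcases τ with x | q | i
  · exact inj_mem.2 (H.s_mem x.1 x.2)
  · exact cm_mem ψ (ne_of_lt q.2)
  · exact one_mem _

theorem rel_mem (H : Host p ψ ρ m g δ s e h) (τ : Slot d ρ g) : rel s h τ ∈ (Psi ψ).ker :=
  mul_mem (H.base_mem τ) (inv_mem (pro_mem fun c => inj_mem.2 (H.h_mem c τ)))

/-- The elimination principle. -/
theorem ker_le (H : Host p ψ ρ m g δ s e h) (M : Subgroup (FreeGroup (KK d))) [M.Normal]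
    (h1 : ∀ i j, inj i (s i j) ∈ M) (h2 : ∀ i j, inj i (e i j) ∈ M)
    (h3 : ∀ q : CP d, cm (FreeGroup.of q.1.1) (FreeGroup.of q.1.2) ∈ M) : (Psi ψ).ker ≤ M := by
  refine ker_Psi_le H.surj M (fun i w hw => ?_) h3
  have h4 : (ψ i).ker ≤ M.comap (inj i) := by
    rw [← (H.nf i).ncl]
    refine normalClosure_le_normal ?_
    rintro _ (⟨j, rfl⟩ | ⟨j, rfl⟩)
    · exact h1 i j
    · exact h2 i j
  exact h4 hw

end Host

end Pool.Agent.RG.PR
end

section

/-!
# PR N: the modified relators present the direct product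

Let `N` be the normal closure of the modified relators, `K` the image of `R = ker Ψ` in `F / N`, `D` the subgroup generated by
the commutators of generators of different factors. `D` is central (`Host.cm_central`, induction on the ultrametric,
the large distances first): a commutator `[x, y]` commutes with a generator `z` which is farther from `x`, `y` than these
from each other since `[x, z]`, `[y, z]` are central; otherwise `z` commutes with the absorbed words since these are in
commutator subgroups. Modulo `D` the factors commute, and so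
the absorbed words and `K` are central (`Host.central`). `K` is in the commutator subgroup and has no
invariant homomorphisms to `F_p`. So `K = 1` by `eq_bot_of`.
-/

set_option autoImplicit false

namespace Pool.Agent.RG.PR

open Subgroup
open scoped commutatorElement

namespace Host

variable {p : ℕ} {k : ℕ} {d : Fin k → ℕ} {G : Fin k → Type} [∀ i, Group (G i)]
    {ψ : ∀ i, FreeGroup (Fin (d i)) →* G i} {ρ m : Fin k → ℕ} {g : ℕ} {δ : Fin k → Fin k → ℕ}
    {s : ∀ j, Fin (ρ j) → FreeGroup (Fin (d j))} {e : ∀ j, Fin (m j) → FreeGroup (Fin (d j))}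
    {h : ∀ c, Slot d ρ g → FreeGroup (Fin (d c))}

theorem central (H : Host p ψ ρ m g δ s e h) {Q : Type} [Group Q] {π : FreeGroup (KK d) →* Q}
    (hπ : Function.Surjective π)
    (hcl : ∀ x y : KK d, x.1 ≠ y.1 → Commute (π (FreeGroup.of x)) (π (FreeGroup.of y)))
    (hrel : ∀ τ, π (base s τ) = π (pro fun c => inj c (h c τ))) :
    ∀ r ∈ (Psi ψ).ker, π r ∈ center Q := by
  have hc1 : ∀ (z : KK d) (j : Fin k) (w : FreeGroup (Fin (d j))), z.1 ≠ j →
      Commute (π (FreeGroup.of z)) (π (inj j w)) := by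
    intro z j w hz
    have h1 := commute_of_gens (π.comp (inj z.1)) (π.comp (inj j)) (fun a b => by
      rw [MonoidHom.comp_apply, MonoidHom.comp_apply, inj_of, inj_of]
      exact hcl _ _ hz) (FreeGroup.of z.2) w
    rw [MonoidHom.comp_apply, MonoidHom.comp_apply, inj_of] at h1
    exact h1
  have hcm : ∀ q : CP d, π (cm (FreeGroup.of q.1.1) (FreeGroup.of q.1.2)) = 1 := by
    intro q
    rw [map_cm]
    exact cm_eq_one.2 (hcl _ _ (ne_of_lt q.2))
  have hX : ∀ τ : Slot d ρ g, π (pro fun c => inj c (h c τ)) ∈ center Q := by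
    intro τ
    refine mem_center_of_gens hπ fun z => ?_
    rcases τ with x | q | i
    · by_cases hz : z.1 = x.1
      · rw [map_pro]
        have h1 : (pro fun c => π (inj c (h c (Sum.inl x)))) ∈ centralizer {π (FreeGroup.of z)} := by
          refine pro_mem fun c => ?_
          rw [mem_centralizer_singleton_iff]
          rcases H.h1 c (Sum.inl x) with h2 | ⟨h2, _⟩
          · rw [h2, map_one, map_one, mul_one, one_mul]
          · have h3 : x.1 ≠ c := h2
            exact (hc1 z c _ (by rw [hz]; exact h3)).symm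
        rw [mem_centralizer_singleton_iff] at h1
        exact (show Commute _ _ from h1).symm
      · rw [← hrel]
        exact hc1 z x.1 _ hz
    · rw [← hrel]
      show Commute _ (π (cm (FreeGroup.of q.1.1) (FreeGroup.of q.1.2)))
      rw [hcm]
      exact Commute.one_right _
    · rw [← hrel]
      show Commute _ (π 1)
      rw [map_one]
      exact Commute.one_right _
  have hh : ∀ c (τ : Slot d ρ g), π (inj c (h c τ)) ∈ center Q := by
    intro c τ
    refine mem_center_of_gens hπ fun z => ?_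
    by_cases hz : z.1 = c
    · have h1 := hX τ
      rw [map_pro] at h1
      have h2 : (pro fun c => π (inj c (h c τ))) ∈ centralizer {π (FreeGroup.of z)} := by
        rw [mem_centralizer_singleton_iff]
        exact (mem_center_iff.1 h1 _).symm
      have h3 := mem_of_pro h2 (c := c) fun c' hc' => by
        rw [mem_centralizer_singleton_iff]
        exact (hc1 z c' _ (by rw [hz]; exact Ne.symm hc')).symm
      rw [mem_centralizer_singleton_iff] at h3
      exact (show Commute _ _ from h3).symm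
    · exact hc1 z c _ hz
  have hle : (Psi ψ).ker ≤ (center Q).comap π := by
    refine H.ker_le _ (fun i j => ?_) (fun i j => ?_) (fun q => ?_)
    · have h1 := hX (Sum.inl ⟨i, j⟩)
      rw [← hrel] at h1
      exact h1
    · obtain ⟨τ, h1⟩ := H.h2 i j
      rw [← h1]
      exact hh i τ
    · rw [mem_comap, hcm]
      exact one_mem _
  exact hle

/-- If the commutators with the generators are central, then `z` commutes with the words in the commutator subgroup. -/
theorem _root_.Pool.Agent.RG.PR.commute_of_central {α Q : Type} [Group Q] (f : FreeGroup α →* Q) (z : Q)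
    (hz : ∀ a, cm z (f (FreeGroup.of a)) ∈ center Q) {w : FreeGroup α}
    (hw : w ∈ commutator (FreeGroup α)) : Commute z (f w) := by
  have hmul : ∀ u v, cm z u ∈ center Q → cm z (u * v) = cm z v * cm z u := by
    intro u v hu
    have h1 := mem_center_iff.1 hu (z⁻¹ * v⁻¹ * z)
    have h2 : cm z (u * v) = (z⁻¹ * v⁻¹ * z) * cm z u * v := by
      simp only [cm, mul_inv_rev, mul_assoc, mul_inv_cancel_left]
    have h3 := mem_center_iff.1 hu v
    rw [h2, mul_assoc, ← h3]
    simp only [cm, mul_assoc]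
  have hall : ∀ v : FreeGroup α, cm z (f v) ∈ center Q := by
    intro v
    induction v using FreeGroup.induction_on with
    | C1 =>
      have h1 : cm z (f 1) = 1 := cm_eq_one.2 (by rw [map_one, mul_one, one_mul])
      rw [h1]
      exact one_mem _
    | of a => exact hz a
    | inv_of a ha =>
      have h1 := hmul (f (FreeGroup.of a)) (f (FreeGroup.of a))⁻¹ ha
      have h2 : cm z (f (FreeGroup.of a) * (f (FreeGroup.of a))⁻¹) = 1 :=
        cm_eq_one.2 (by rw [mul_inv_cancel, mul_one, one_mul])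
      rw [h2] at h1
      rw [map_inv, eq_inv_of_mul_eq_one_left h1.symm]
      exact inv_mem ha
    | mul u v hu hv =>
      rw [map_mul, hmul _ _ hu]
      exact mul_mem hv hu
  let φ : FreeGroup α →* center Q := MonoidHom.mk' (fun v => ⟨cm z (f v), hall v⟩) (by
    intro u v
    apply Subtype.ext
    show cm z (f (u * v)) = cm z (f u) * cm z (f v)
    rw [map_mul, hmul _ _ (hall u), mem_center_iff.1 (hall u) _])
  have hk : commutator (FreeGroup α) ≤ φ.ker := by
    rw [_root_.commutator_def, Subgroup.commutator_le]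
    intro a _ b _
    rw [MonoidHom.mem_ker, map_commutatorElement, commutatorElement_eq_one_iff_mul_comm]
    exact Subtype.ext (mem_center_iff.1 (φ b).2 _)
  have h1 : φ w = 1 := hk hw
  have h2 : cm z (f w) = 1 := congrArg Subtype.val h1
  exact cm_eq_one.1 h2

theorem _root_.Pool.Agent.RG.PR.commute_cm {Q : Type} [Group Q] {x y z : Q} (hx : cm x z ∈ center Q)
    (hy : cm y z ∈ center Q) : Commute z (cm x y) := by
  have e1 : z⁻¹ * x * z = x * cm x z := by simp only [cm, mul_assoc, mul_inv_cancel_left]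
  have e2 : z⁻¹ * y * z = y * cm y z := by simp only [cm, mul_assoc, mul_inv_cancel_left]
  have cx : ∀ g, Commute (cm x z) g := fun g => (mem_center_iff.1 hx g).symm
  have cy : ∀ g, Commute (cm y z) g := fun g => (mem_center_iff.1 hy g).symm
  have h1 : z⁻¹ * cm x y * z = cm (z⁻¹ * x * z) (z⁻¹ * y * z) := by
    simp only [cm, mul_inv_rev, inv_inv, mul_assoc, mul_inv_cancel_left]
  have h2 : cm (x * cm x z) (y * cm y z) = cm x y := by
    generalize cm x z = a at cx
    generalize cm y z = b at cy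
    have f1 : (x * a)⁻¹ = a⁻¹ * x⁻¹ := mul_inv_rev _ _
    have f2 : (y * b)⁻¹ = b⁻¹ * y⁻¹ := mul_inv_rev _ _
    unfold cm
    rw [f1, f2]
    have g1 : a⁻¹ * x⁻¹ * (b⁻¹ * y⁻¹) * (x * a) * (y * b) =
        a⁻¹ * (x⁻¹ * (b⁻¹ * (y⁻¹ * (x * (a * (y * b)))))) := by
      simp only [mul_assoc]
    rw [g1, (cx (y * b)).eq, ← mul_assoc x (y * b) a, ← mul_assoc y⁻¹ (x * (y * b)) a,
      ← mul_assoc b⁻¹ _ a, ← mul_assoc x⁻¹ _ a, ← (cx _).eq, inv_mul_cancel_left,
      ← mul_assoc x y b, ← mul_assoc y⁻¹ (x * y) b, ← (cy _).eq, inv_mul_cancel_left]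
    simp only [mul_assoc]
  have h3 : z⁻¹ * cm x y * z = cm x y := by rw [h1, e1, e2, h2]
  have h4 : cm x y * z = z * cm x y := by
    rw [mul_assoc, inv_mul_eq_iff_eq_mul] at h3
    exact h3
  exact h4.symm

theorem cm_central (H : Host p ψ ρ m g δ s e h) {Q : Type} [Group Q] {π : FreeGroup (KK d) →* Q}
    (hπ : Function.Surjective π)
    (hrel : ∀ τ, π (base s τ) = π (pro fun c => inj c (h c τ))) :
    ∀ x y : KK d, x.1 ≠ y.1 → cm (π (FreeGroup.of x)) (π (FreeGroup.of y)) ∈ center Q := by
  set M : ℕ := ∑ i, ∑ j, δ i j with hM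
  have hMle : ∀ i j, δ i j ≤ M := fun i j =>
    (Finset.single_le_sum (f := fun j => δ i j) (fun _ _ => Nat.zero_le _) (Finset.mem_univ j)).trans
      (Finset.single_le_sum (f := fun i => ∑ j, δ i j) (fun _ _ => Nat.zero_le _) (Finset.mem_univ i))
  have key : ∀ n : ℕ, ∀ x y : KK d, x.1 ≠ y.1 → M - δ x.1 y.1 = n →
      cm (π (FreeGroup.of x)) (π (FreeGroup.of y)) ∈ center Q := by
    intro n
    induction n using Nat.strong_induction_on with
    | _ n ih =>
      have ih' : ∀ x y : KK d, x.1 ≠ y.1 → M - δ x.1 y.1 < n →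
          cm (π (FreeGroup.of x)) (π (FreeGroup.of y)) ∈ center Q := fun x y h1 h2 => ih _ h2 x y h1 rfl
      have main : ∀ x y : KK d, x.1 < y.1 → M - δ x.1 y.1 = n →
          cm (π (FreeGroup.of x)) (π (FreeGroup.of y)) ∈ center Q := by
        intro x y hxy hn
        have hlt : ∀ i j, δ x.1 y.1 < δ i j → M - δ i j < n := by
          intro i j hij
          have := hMle i j
          omega
        refine mem_center_of_gens hπ fun z => ?_
        by_cases hz : δ x.1 y.1 < δ z.1 x.1
        · have h1 := H.ultra z.1 y.1 x.1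
          rw [H.symm y.1 x.1] at h1
          have h2 : δ x.1 y.1 < δ z.1 y.1 := by
            rcases le_max_iff.1 h1 with h3 | h3
            · exact lt_of_lt_of_le hz h3
            · exact absurd hz (not_lt.2 h3)
          have h3 := H.ultra x.1 y.1 x.1
          rw [H.symm y.1 x.1, max_self] at h3
          have h4 := H.ultra y.1 x.1 y.1
          rw [H.symm y.1 x.1, max_self] at h4
          have hzx : x.1 ≠ z.1 := fun h5 => by
            rw [← h5] at hz
            exact absurd hz (not_lt.2 h3)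
          have hzy : y.1 ≠ z.1 := fun h5 => by
            rw [← h5] at h2
            exact absurd h2 (not_lt.2 h4)
          refine commute_cm (ih' x z hzx (hlt _ _ ?_)) (ih' y z hzy (hlt _ _ ?_))
          · rw [H.symm x.1 z.1]; exact hz
          · rw [H.symm y.1 z.1]; exact h2
        · have h1 := hrel (Sum.inr (Sum.inl ⟨(x, y), hxy⟩))
          have h2 : cm (π (FreeGroup.of x)) (π (FreeGroup.of y)) =
              pro fun c => π (inj c (h c (Sum.inr (Sum.inl ⟨(x, y), hxy⟩)))) := by
            rw [← map_pro, ← map_cm]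
            exact h1
          rw [h2]
          have h3 : (pro fun c => π (inj c (h c (Sum.inr (Sum.inl ⟨(x, y), hxy⟩))))) ∈
              centralizer {π (FreeGroup.of z)} := by
            refine pro_mem fun c => ?_
            rw [mem_centralizer_singleton_iff]
            rcases H.h1 c (Sum.inr (Sum.inl ⟨(x, y), hxy⟩)) with h4 | ⟨h4, _⟩
            · rw [h4, map_one, map_one, mul_one, one_mul]
            · have h5 : δ x.1 y.1 < δ x.1 c := h4.1
              have h6 := H.ultra x.1 z.1 c
              have h7 : δ x.1 y.1 < δ z.1 c := by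
                rcases le_max_iff.1 h6 with h8 | h8
                · rw [H.symm x.1 z.1] at h8
                  exact absurd (lt_of_lt_of_le h5 h8) hz
                · exact lt_of_lt_of_le h5 h8
              have hzc : z.1 ≠ c := by
                rintro rfl
                rw [H.symm x.1 z.1] at h5
                exact hz h5
              have h8 : Commute (π (FreeGroup.of z)) ((π.comp (inj c)) (h c (Sum.inr (Sum.inl ⟨(x, y), hxy⟩)))) :=
                commute_of_central (π.comp (inj c)) _ (fun a => by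
                  rw [MonoidHom.comp_apply, inj_of]
                  exact ih' z ⟨c, a⟩ hzc (hlt _ _ h7)) (H.h_comm c _)
              exact h8.symm
          rw [mem_centralizer_singleton_iff] at h3
          exact (show Commute _ _ from h3).symm
      intro x y hxy hn
      rcases lt_or_gt_of_ne hxy with h1 | h1
      · exact main x y h1 hn
      · have h2 := main y x h1 (by rw [H.symm]; exact hn)
        have h3 : cm (π (FreeGroup.of x)) (π (FreeGroup.of y)) =
            (cm (π (FreeGroup.of y)) (π (FreeGroup.of x)))⁻¹ := by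
          simp only [cm, mul_inv_rev, inv_inv, mul_assoc]
        rw [h3]
        exact inv_mem h2
  exact fun x y hxy => key _ x y hxy rfl

theorem ker_le_ncl [Fact p.Prime] [∀ i, Finite (G i)] (hG : ∀ i, IsPGroup p (G i))
    (H : Host p ψ ρ m g δ s e h) : (Psi ψ).ker ≤ normalClosure (Set.range (rel s h)) := by
  set N := normalClosure (Set.range (rel s h)) with hN
  have hNle : N ≤ (Psi ψ).ker := by
    refine normalClosure_le_normal ?_
    rintro _ ⟨τ, rfl⟩
    exact H.rel_mem τ
  let π : FreeGroup (KK d) →* FreeGroup (KK d) ⧸ N := QuotientGroup.mk' N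
  have hπ : Function.Surjective π := QuotientGroup.mk'_surjective N
  have hπk : ∀ r, π r = 1 ↔ r ∈ N := fun r => QuotientGroup.eq_one_iff r
  have hrel : ∀ τ : Slot d ρ g, π (base s τ) = π (pro fun c => inj c (h c τ)) := by
    intro τ
    have h1 : π (rel s h τ) = 1 := (hπk _).2 (subset_normalClosure ⟨τ, rfl⟩)
    unfold rel at h1
    rwa [map_mul, map_inv, mul_inv_eq_one] at h1
  have hcm : ∀ q : CP d, π (cm (FreeGroup.of q.1.1) (FreeGroup.of q.1.2)) ∈
      center (FreeGroup (KK d) ⧸ N) := by
    intro q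
    rw [map_cm]
    exact H.cm_central hπ hrel _ _ (ne_of_lt q.2)
  set D : Subgroup (FreeGroup (KK d) ⧸ N) := closure (Set.range fun q : CP d =>
    π (cm (FreeGroup.of q.1.1) (FreeGroup.of q.1.2))) with hDdef
  have hD : D ≤ center (FreeGroup (KK d) ⧸ N) := by
    rw [hDdef, closure_le]
    rintro _ ⟨q, rfl⟩
    exact hcm q
  have hDn : D.Normal := ⟨fun n hn y => by
    rw [mem_center_iff.1 (hD hn) y, mul_inv_cancel_right]
    exact hn⟩
  have hqD : ∀ q : CP d, π (cm (FreeGroup.of q.1.1) (FreeGroup.of q.1.2)) ∈ D :=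
    fun q => subset_closure ⟨q, rfl⟩
  let ε : FreeGroup (KK d) ⧸ N →* (FreeGroup (KK d) ⧸ N) ⧸ D := QuotientGroup.mk' D
  have hεk : ∀ r, ε r = 1 ↔ r ∈ D := fun r => QuotientGroup.eq_one_iff r
  have hcen := H.central (π := ε.comp π) ((QuotientGroup.mk'_surjective D).comp hπ)
    (by
      intro x y hne
      rw [MonoidHom.comp_apply, MonoidHom.comp_apply]
      rcases lt_or_gt_of_ne hne with hlt | hlt
      · have h3 := (hεk _).2 (hqD ⟨(x, y), hlt⟩)
        rw [map_cm, map_cm] at h3
        exact cm_eq_one.1 h3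
      · have h3 := (hεk _).2 (hqD ⟨(y, x), hlt⟩)
        rw [map_cm, map_cm] at h3
        exact (cm_eq_one.1 h3).symm)
    (fun τ => by rw [MonoidHom.comp_apply, MonoidHom.comp_apply, hrel])
  set K : Subgroup (FreeGroup (KK d) ⧸ N) := (Psi ψ).ker.map π with hKdef
  have hKn : K.Normal := Subgroup.Normal.map inferInstance π hπ
  have hKmem : ∀ r, π r ∈ K → r ∈ (Psi ψ).ker := by
    rintro r ⟨r', hr', h1⟩
    have h2 : r'⁻¹ * r ∈ N := by
      rw [← hπk, map_mul, map_inv, h1, inv_mul_cancel]
    have h3 := mul_mem (show r' ∈ (Psi ψ).ker from hr') (hNle h2)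
    rwa [mul_inv_cancel_left] at h3
  have hidx : ∃ n : ℕ, K.index = p ^ n := by
    have h1 : K.index = (Psi ψ).ker.index := by
      rw [hKdef, Subgroup.index_map, QuotientGroup.ker_mk', sup_eq_left.2 hNle,
        MonoidHom.range_eq_top.2 hπ, Subgroup.index_top, mul_one]
    have h2 : (Psi ψ).ker.index = ∏ i, Nat.card (G i) := by
      rw [Subgroup.index_ker, MonoidHom.range_eq_top.2 (Psi_surj H.surj), Subgroup.card_top, Nat.card_pi]
    choose n hn using fun i => IsPGroup.iff_card.1 (hG i)
    refine ⟨∑ i, n i, ?_⟩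
    rw [h1, h2, ← Finset.prod_pow_eq_pow_sum]
    exact Finset.prod_congr rfl fun i _ => hn i
  obtain ⟨n, hn⟩ := hidx
  have hfg : K.FG := by
    have h1 : K.FiniteIndex := ⟨by
      rw [hn]
      exact pow_ne_zero _ (Fact.out : p.Prime).ne_zero⟩
    have h2 : Group.FG (FreeGroup (KK d) ⧸ N) := QuotientGroup.fg N
    exact (Group.fg_iff_subgroup_fg K).1 (Subgroup.fg_of_index_ne_zero K)
  have hbot : K = ⊥ := by
    refine eq_bot_of K D hD ?_ ?_ ?_ hfg hn ?_
    · rw [hDdef, closure_le]
      rintro _ ⟨q, rfl⟩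
      exact ⟨_, cm_mem ψ (ne_of_lt q.2), rfl⟩
    · rw [hKdef, map_le_iff_le_comap]
      refine H.ker_le _ (fun i j => ?_) (fun i j => ?_) (fun q => ?_)
      · have h1 := hrel (Sum.inl ⟨i, j⟩)
        rw [map_pro] at h1
        show π (base s (Sum.inl ⟨i, j⟩ : Slot d ρ g)) ∈ commutator (FreeGroup (KK d) ⧸ N)
        rw [h1]
        exact pro_mem fun c => map_mem_commutator (π.comp (inj c)) (H.h_comm c _)
      · exact map_mem_commutator (π.comp (inj i)) ((H.nf i).comm j)
      · rw [mem_comap, map_cm]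
        exact cm_mem_commutator _ _
    · rintro _ ⟨r, hr, rfl⟩ y
      have h1 := hcen r hr
      rw [← hεk, map_cm]
      exact cm_eq_one.2 (mem_center_iff.1 h1 _).symm
    · intro l hl
      have hpull : ∀ {r}, r ∈ (Psi ψ).ker → π r ∈ K := fun {r} hr => ⟨r, hr, rfl⟩
      have hL : (fun r => l (π r)) ∈ IL p (Psi ψ).ker := by
        refine ⟨fun r hr => IL_out hl fun h1 => hr (hKmem r h1), fun r hr t ht => ?_, fun f r hr => ?_⟩
        · show l (π (r * t)) = _
          rw [map_mul, IL_mul hl (hpull hr) (hpull ht)]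
        · show l (π (f * r * f⁻¹)) = _
          rw [map_mul, map_mul, map_inv, IL_conj hl _ (hpull hr)]
      have hLj : ∀ j, (fun w => l (π (inj j w))) ∈ IL p (ψ j).ker := by
        intro j
        refine ⟨fun w hw => ?_, fun v hv w hw => ?_, fun f w hw => ?_⟩
        · exact IL_out hL (f := inj j w) fun h1 => hw (inj_mem.1 h1)
        · show l (π (inj j (v * w))) = _
          rw [map_mul]
          exact IL_mul hL (inj_mem.2 hv) (inj_mem.2 hw)
        · have h1 : inj j (f * w * f⁻¹) = (inj j f * inj j w * (inj j f)⁻¹ : FreeGroup (KK d)) := by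
            rw [map_mul, map_mul, map_inv]
          show l (π (inj j (f * w * f⁻¹))) = _
          rw [h1]
          exact IL_conj hL (inj j f) (inj_mem.2 hw)
      have hpro : ∀ τ : Slot d ρ g, l (π (pro fun c => inj c (h c τ))) = 0 := by
        intro τ
        have h1 : ∀ r ∈ (List.finRange k).map fun c => inj c (h c τ), r ∈ (Psi ψ).ker := by
          intro r hr
          obtain ⟨c, _, rfl⟩ := List.mem_map.1 hr
          exact inj_mem.2 (H.h_mem c τ)
        have h2 := IL_prod hL _ h1
        refine h2.trans ?_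
        rw [List.map_map]
        apply List.sum_eq_zero
        intro x hx
        obtain ⟨c, _, rfl⟩ := List.mem_map.1 hx
        show l (π (inj c (h c τ))) = 0
        rcases H.h1 c τ with h3 | ⟨_, i, h3⟩
        · rw [h3, map_one, map_one]
          exact IL_one hl
        · rw [h3]
          exact (H.nf c).null _ (hLj c) i
      have hbase : ∀ τ : Slot d ρ g, l (π (base s τ)) = 0 := fun τ => by rw [hrel, hpro]
      have hj0 : ∀ j w, l (π (inj j w)) = 0 := fun j w =>
        congrFun ((H.nf j).sep (hLj j) fun i => hbase (Sum.inl ⟨j, i⟩ : Slot d ρ g)) w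
      rintro _ ⟨r, hr, rfl⟩
      have hmem : r ∈ normalClosure ({w | ∃ i, ∃ v ∈ (ψ i).ker, w = inj i v} ∪
          Set.range fun q : CP d => (cm (FreeGroup.of q.1.1) (FreeGroup.of q.1.2) : FreeGroup (KK d))) := by
        refine ker_Psi_le H.surj _ (fun i w hw => ?_) (fun q => ?_) hr
        · exact subset_normalClosure (Or.inl ⟨i, w, hw, rfl⟩)
        · exact subset_normalClosure (Or.inr ⟨q, rfl⟩)
      refine IL_closure hL ?_ r hmem
      rintro _ (⟨i, w, hw, rfl⟩ | ⟨q, rfl⟩)
      · exact ⟨inj_mem.2 hw, hj0 i w⟩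
      · exact ⟨cm_mem ψ (ne_of_lt q.2), hbase (Sum.inr (Sum.inl q))⟩
  intro r hr
  have h1 : π r ∈ K := ⟨r, hr, rfl⟩
  rw [hbot, mem_bot] at h1
  exact (hπk r).1 h1

theorem ncl_eq [Fact p.Prime] [∀ i, Finite (G i)] (hG : ∀ i, IsPGroup p (G i))
    (H : Host p ψ ρ m g δ s e h) : normalClosure (Set.range (rel s h)) = (Psi ψ).ker := by
  refine le_antisymm (normalClosure_le_normal ?_) (H.ker_le_ncl hG)
  rintro _ ⟨τ, rfl⟩
  exact H.rel_mem τ

end Host

end Pool.Agent.RG.PR
end
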