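import Pool.Agent.Lib.MP_1a39b9_al.Mg.G004

section

/-!
# WR A: the presentation map of the regular wreath product

`iX`, `iY`: the inclusions of the free groups for the base group and the top group, `pY` the projection onto the second. `Om`: the map
onto the wreath product of the free group by `Q`, `Ps`: the map onto `P ≀ Q`.
-/

set_option autoImplicit false

namespace Pool.Agent.RG.WR

open Subgroup

/-- The free group on the generators of the two factors. -/
abbrev GX (a b : ℕ) : Type := FreeGroup (Fin a ⊕ Fin b)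

section
variable {a b : ℕ}

def iX : FreeGroup (Fin a) →* GX a b := FreeGroup.map Sum.inl

def iY : FreeGroup (Fin b) →* GX a b := FreeGroup.map Sum.inr

def pY : GX a b →* FreeGroup (Fin b) := FreeGroup.lift (Sum.elim (fun _ => 1) FreeGroup.of)

theorem iX_of (i : Fin a) : iX (FreeGroup.of i) = (FreeGroup.of (Sum.inl i) : GX a b) := by
  unfold iX
  rw [FreeGroup.map.of]

theorem iY_of (j : Fin b) : iY (FreeGroup.of j) = (FreeGroup.of (Sum.inr j) : GX a b) := by
  unfold iY
  rw [FreeGroup.map.of]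

theorem pY_inl (i : Fin a) : pY (FreeGroup.of (Sum.inl i) : GX a b) = 1 := by
  unfold pY
  rw [FreeGroup.lift_apply_of]
  rfl

theorem pY_inr (j : Fin b) : pY (FreeGroup.of (Sum.inr j) : GX a b) = FreeGroup.of j := by
  unfold pY
  rw [FreeGroup.lift_apply_of]
  rfl

theorem pY_iX (w : FreeGroup (Fin a)) : pY (iX w : GX a b) = 1 := by
  have h : (pY (a := a) (b := b)).comp iX = 1 := by
    refine FreeGroup.ext_hom _ _ fun i => ?_
    rw [MonoidHom.comp_apply, iX_of, pY_inl]
    rfl
  exact DFunLike.congr_fun h w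

theorem pY_iY (w : FreeGroup (Fin b)) : pY (iY w : GX a b) = w := by
  have h : (pY (a := a) (b := b)).comp iY = MonoidHom.id _ := by
    refine FreeGroup.ext_hom _ _ fun i => ?_
    rw [MonoidHom.comp_apply, iY_of, pY_inr]
    rfl
  exact DFunLike.congr_fun h w

end

section
variable {D D' Q : Type} [Group D] [Group D'] [Group Q]

/-- Conjugation of an element of the base group. -/
theorem conj_left (w r : D ≀ᵣ Q) (hr : r.right = 1) (q : Q) :
    (w * r * w⁻¹).left q = w.left q * r.left (w.right⁻¹ * q) * (w.left q)⁻¹ := by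
  simp [RegularWreathProduct.mul_left, hr, mul_assoc]

theorem conj_right (w r : D ≀ᵣ Q) (hr : r.right = 1) : (w * r * w⁻¹).right = 1 := by
  simp [hr]

theorem mul_left' (w r : D ≀ᵣ Q) (hw : w.right = 1) (q : Q) :
    (w * r).left q = w.left q * r.left q := by
  simp [RegularWreathProduct.mul_left, hw]

/-- The embedding of `D` at the place `1`. -/
def emb [DecidableEq Q] : D →* D ≀ᵣ Q where
  toFun u := ⟨Pi.mulSingle 1 u, 1⟩
  map_one' := by
    rw [Pi.mulSingle_one]
    rfl
  map_mul' u v := by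
    ext q
    · show (Pi.mulSingle 1 (u * v) : Q → D) q = (Pi.mulSingle 1 u : Q → D) q * (Pi.mulSingle 1 v : Q → D) (1⁻¹ * q)
      rw [Pi.mulSingle_mul, Pi.mul_apply, inv_one, one_mul]
    · exact (one_mul 1).symm

/-- The homomorphism of the wreath products induced by a homomorphism of the base groups. -/
def mapW (f : D →* D') : D ≀ᵣ Q →* D' ≀ᵣ Q where
  toFun w := ⟨fun q => f (w.left q), w.right⟩
  map_one' := by
    ext q
    · show f 1 = 1
      exact map_one f
    · rfl
  map_mul' u v := by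
    ext q
    · show f (u.left q * v.left (u.right⁻¹ * q)) = f (u.left q) * f (v.left (u.right⁻¹ * q))
      exact map_mul f _ _
    · rfl

theorem mapW_left (f : D →* D') (w : D ≀ᵣ Q) (q : Q) : (mapW f w).left q = f (w.left q) := rfl

theorem mapW_right (f : D →* D') (w : D ≀ᵣ Q) : (mapW f w).right = w.right := rfl

end

section
variable {a b : ℕ} {P Q : Type} [Group P] [Group Q] [DecidableEq Q]

/-- The map onto the wreath product of the free group by `Q`. -/
def Om (φ : FreeGroup (Fin b) →* Q) : GX a b →* FreeGroup (Fin a) ≀ᵣ Q :=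
  FreeGroup.lift (Sum.elim (fun i => emb (FreeGroup.of i)) fun j => RegularWreathProduct.inl (φ (FreeGroup.of j)))

/-- The presentation map of `P ≀ Q`. -/
def Ps (ψ : FreeGroup (Fin a) →* P) (φ : FreeGroup (Fin b) →* Q) : GX a b →* P ≀ᵣ Q :=
  (mapW ψ).comp (Om φ)

variable (ψ : FreeGroup (Fin a) →* P) (φ : FreeGroup (Fin b) →* Q)

theorem Om_inl (i : Fin a) : Om φ (FreeGroup.of (Sum.inl i) : GX a b) = emb (FreeGroup.of i) := by
  unfold Om
  rw [FreeGroup.lift_apply_of]
  rfl

theorem Om_inr (j : Fin b) : Om φ (FreeGroup.of (Sum.inr j) : GX a b) =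
    RegularWreathProduct.inl (φ (FreeGroup.of j)) := by
  unfold Om
  rw [FreeGroup.lift_apply_of]
  rfl

theorem Om_iX (w : FreeGroup (Fin a)) : Om φ (iX w : GX a b) = emb w := by
  have h : (Om (a := a) φ).comp iX = emb := by
    refine FreeGroup.ext_hom _ _ fun i => ?_
    rw [MonoidHom.comp_apply, iX_of, Om_inl]
  exact DFunLike.congr_fun h w

theorem Om_iY (w : FreeGroup (Fin b)) : Om φ (iY w : GX a b) = RegularWreathProduct.inl (φ w) := by
  have h : (Om (a := a) φ).comp iY = RegularWreathProduct.inl.comp φ := by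
    refine FreeGroup.ext_hom _ _ fun i => ?_
    rw [MonoidHom.comp_apply, iY_of, Om_inr]
    rfl
  exact DFunLike.congr_fun h w

theorem Om_right (f : GX a b) : (Om φ f).right = φ (pY f) := by
  have h : RegularWreathProduct.rightHom.comp (Om φ) = φ.comp (pY (a := a)) := by
    refine FreeGroup.ext_hom _ _ fun x => ?_
    rcases x with i | j
    · rw [MonoidHom.comp_apply, MonoidHom.comp_apply, Om_inl, pY_inl, map_one]
      rfl
    · rw [MonoidHom.comp_apply, MonoidHom.comp_apply, Om_inr, pY_inr]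
      rfl
  exact DFunLike.congr_fun h f

theorem mem_ker_Ps {f : GX a b} :
    f ∈ (Ps ψ φ).ker ↔ φ (pY f) = 1 ∧ ∀ q, (Om φ f).left q ∈ ψ.ker := by
  rw [MonoidHom.mem_ker]
  constructor
  · intro h
    refine ⟨?_, fun q => ?_⟩
    · rw [← Om_right]
      exact congrArg RegularWreathProduct.right h
    · rw [MonoidHom.mem_ker]
      exact congrFun (congrArg RegularWreathProduct.left h) q
  · rintro ⟨h1, h2⟩
    ext q
    · exact h2 q
    · show (Om φ f).right = 1
      rw [Om_right, h1]

theorem iX_mem {w : FreeGroup (Fin a)} : iX w ∈ (Ps ψ φ).ker ↔ w ∈ ψ.ker := by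
  rw [mem_ker_Ps, pY_iX, map_one, Om_iX]
  constructor
  · intro h
    have := h.2 1
    have e : ((emb w : FreeGroup (Fin a) ≀ᵣ Q)).left 1 = w := by
      show (Pi.mulSingle 1 w : Q → FreeGroup (Fin a)) 1 = w
      rw [Pi.mulSingle_eq_same]
    rwa [e] at this
  · intro h
    refine ⟨rfl, fun q => ?_⟩
    show (Pi.mulSingle 1 w : Q → FreeGroup (Fin a)) q ∈ ψ.ker
    by_cases hq : q = 1
    · subst hq
      rw [Pi.mulSingle_eq_same]
      exact h
    · rw [Pi.mulSingle_eq_of_ne hq]
      exact one_mem _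

theorem iY_mem {w : FreeGroup (Fin b)} : iY w ∈ (Ps ψ φ).ker ↔ w ∈ φ.ker := by
  rw [mem_ker_Ps, pY_iY, Om_iY, MonoidHom.mem_ker]
  constructor
  · intro h
    exact h.1
  · intro h
    exact ⟨h, fun q => one_mem _⟩

theorem pY_mem {f : GX a b} (h : f ∈ (Ps ψ φ).ker) : pY f ∈ φ.ker := (mem_ker_Ps ψ φ).1 h |>.1

theorem Ps_iX (w : FreeGroup (Fin a)) : Ps ψ φ (iX w) = emb (ψ w) := by
  ext q
  · show ψ ((Om φ (iX w)).left q) = _
    rw [Om_iX]
    show ψ ((Pi.mulSingle 1 w : Q → FreeGroup (Fin a)) q) = (Pi.mulSingle 1 (ψ w) : Q → P) q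
    by_cases hq : q = 1
    · subst hq
      rw [Pi.mulSingle_eq_same, Pi.mulSingle_eq_same]
    · rw [Pi.mulSingle_eq_of_ne hq, Pi.mulSingle_eq_of_ne hq, map_one]
  · show (Om φ (iX w)).right = 1
    rw [Om_right, pY_iX, map_one]

theorem Ps_iY (w : FreeGroup (Fin b)) : Ps ψ φ (iY w) = RegularWreathProduct.inl (φ w) := by
  ext q
  · show ψ ((Om φ (iY w)).left q) = _
    rw [Om_iY]
    exact map_one ψ
  · show (Om φ (iY w)).right = _
    rw [Om_iY]
    rfl

/-- An element of the base group at the place `q`. -/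
theorem conj_emb (u : P) (q : Q) :
    (RegularWreathProduct.inl q * emb u * (RegularWreathProduct.inl q)⁻¹ : P ≀ᵣ Q) =
      ⟨Pi.mulSingle q u, 1⟩ := by
  ext x
  · rw [conj_left _ _ rfl]
    show 1 * (Pi.mulSingle 1 u : Q → P) (q⁻¹ * x) * 1⁻¹ = (Pi.mulSingle q u : Q → P) x
    rw [inv_one, mul_one, one_mul]
    by_cases h : x = q
    · subst h
      rw [inv_mul_cancel, Pi.mulSingle_eq_same, Pi.mulSingle_eq_same]
    · rw [Pi.mulSingle_eq_of_ne h, Pi.mulSingle_eq_of_ne]
      intro h2
      exact h (inv_mul_eq_one.1 h2).symm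
  · exact conj_right _ _ rfl

end

end Pool.Agent.RG.WR
end

section

/-!
# WR B: extensions of the Heisenberg type

`EE p g`, `g` in `Q`: the group of the quadruples `(u, v, c, q)`, `u`, `v`, `c` functions on `Q`, with the product
`(u + qu', v + qv', c + qc' + u * w, q q')`, `w h = (qv') (h g)`. `kapW`: the sum of the third coordinate over a subset `R` of `Q`
for the homomorphism onto it which maps `x_i`, `x_j` to the delta functions at the place `1`.
-/

set_option autoImplicit false
set_option linter.unusedSectionVars false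

namespace Pool.Agent.RG.WR

open Subgroup

/-- The underlying set of the group. -/
@[ext] structure EE (p : ℕ) {Q : Type} (g : Q) where
  u : Q → ZMod p
  v : Q → ZMod p
  c : Q → ZMod p
  q : Q

namespace EE

variable {p : ℕ} {Q : Type} [Group Q] {g : Q}

instance : Mul (EE p g) := ⟨fun x y => ⟨fun h => x.u h + y.u (x.q⁻¹ * h), fun h => x.v h + y.v (x.q⁻¹ * h),
  fun h => x.c h + y.c (x.q⁻¹ * h) + x.u h * y.v (x.q⁻¹ * (h * g)), x.q * y.q⟩⟩

instance : One (EE p g) := ⟨⟨fun _ => 0, fun _ => 0, fun _ => 0, 1⟩⟩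

instance : Inv (EE p g) := ⟨fun x => ⟨fun h => -x.u (x.q * h), fun h => -x.v (x.q * h),
  fun h => -x.c (x.q * h) + x.u (x.q * h) * x.v (x.q * (h * g)), x.q⁻¹⟩⟩

theorem mul_u (x y : EE p g) (h : Q) : (x * y).u h = x.u h + y.u (x.q⁻¹ * h) := rfl
theorem mul_v (x y : EE p g) (h : Q) : (x * y).v h = x.v h + y.v (x.q⁻¹ * h) := rfl
theorem mul_c (x y : EE p g) (h : Q) :
    (x * y).c h = x.c h + y.c (x.q⁻¹ * h) + x.u h * y.v (x.q⁻¹ * (h * g)) := rfl
theorem mul_q (x y : EE p g) : (x * y).q = x.q * y.q := rfl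
theorem one_u (h : Q) : (1 : EE p g).u h = 0 := rfl
theorem one_v (h : Q) : (1 : EE p g).v h = 0 := rfl
theorem one_c (h : Q) : (1 : EE p g).c h = 0 := rfl
theorem one_q : (1 : EE p g).q = 1 := rfl
theorem inv_u (x : EE p g) (h : Q) : (x⁻¹).u h = -x.u (x.q * h) := rfl
theorem inv_v (x : EE p g) (h : Q) : (x⁻¹).v h = -x.v (x.q * h) := rfl
theorem inv_c (x : EE p g) (h : Q) :
    (x⁻¹).c h = -x.c (x.q * h) + x.u (x.q * h) * x.v (x.q * (h * g)) := rfl
theorem inv_q (x : EE p g) : (x⁻¹).q = x.q⁻¹ := rfl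

instance : Group (EE p g) := Group.ofLeftAxioms
  (by
    intro x y z
    ext h
    · simp only [mul_u, mul_q, mul_inv_rev, mul_assoc, add_assoc]
    · simp only [mul_v, mul_q, mul_inv_rev, mul_assoc, add_assoc]
    · simp only [mul_c, mul_u, mul_v, mul_q, mul_inv_rev, mul_assoc]
      ring
    · exact mul_assoc _ _ _)
  (by
    intro x
    ext h
    · simp only [mul_u, one_u, one_q, inv_one, one_mul, zero_add]
    · simp only [mul_v, one_v, one_q, inv_one, one_mul, zero_add]
    · simp only [mul_c, one_u, one_c, one_q, inv_one, one_mul, zero_mul, zero_add, add_zero]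
    · exact one_mul _)
  (by
    intro x
    ext h
    · simp only [mul_u, inv_u, inv_q, inv_inv, one_u, neg_add_cancel]
    · simp only [mul_v, inv_v, inv_q, inv_inv, one_v, neg_add_cancel]
    · simp only [mul_c, inv_c, inv_u, inv_q, inv_inv, one_c]
      ring
    · exact inv_mul_cancel _)

/-- The conjugates of the elements of the abelian normal subgroup. -/
theorem conj_c {z : EE p g} (hu : ∀ h, z.u h = 0) (hv : ∀ h, z.v h = 0) (hq : z.q = 1) (x : EE p g) (h : Q) :
    (x * z * x⁻¹).c h = z.c (x.q⁻¹ * h) := by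
  have hq' : (x * z).q = x.q := by rw [mul_q, hq, mul_one]
  rw [mul_c (x * z) x⁻¹, hq', mul_c, mul_u, inv_c, inv_v, hu, hv, mul_assoc, mul_inv_cancel_left,
    mul_inv_cancel_left]
  ring

/-- The projection on the first coordinate. -/
def toU : EE p g →* Multiplicative (ZMod p) ≀ᵣ Q where
  toFun x := ⟨fun h => Multiplicative.ofAdd (x.u h), x.q⟩
  map_one' := by
    ext h
    · rfl
    · rfl
  map_mul' x y := by
    ext h
    · rfl
    · rfl

/-- The projection on the second coordinate. -/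
def toV : EE p g →* Multiplicative (ZMod p) ≀ᵣ Q where
  toFun x := ⟨fun h => Multiplicative.ofAdd (x.v h), x.q⟩
  map_one' := by
    ext h
    · rfl
    · rfl
  map_mul' x y := by
    ext h
    · rfl
    · rfl

end EE

section
variable {a : ℕ}

/-- The exponent sum modulo `p`. -/
def evh (p : ℕ) (i : Fin a) : FreeGroup (Fin a) →* Multiplicative (ZMod p) :=
  MonoidHom.mk' (fun f => Multiplicative.ofAdd ((ev f i : ℤ) : ZMod p)) (by
    intro f f'
    rw [ev_mul, Int.cast_add]
    rfl)

theorem evh_apply (p : ℕ) (i : Fin a) (f : FreeGroup (Fin a)) :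
    evh p i f = Multiplicative.ofAdd ((ev f i : ℤ) : ZMod p) := rfl

end

section
variable {p : ℕ} {a b : ℕ} {Q : Type} [Group Q] [DecidableEq Q]

/-- The homomorphism. -/
def chiW (p : ℕ) (φ : FreeGroup (Fin b) →* Q) (i j : Fin a) (g : Q) : GX a b →* EE p g :=
  FreeGroup.lift (Sum.elim
    (fun l => ⟨fun q => if l = i then (if q = 1 then 1 else 0) else 0,
      fun q => if l = j then (if q = 1 then 1 else 0) else 0, fun _ => 0, 1⟩)
    fun k => ⟨fun _ => 0, fun _ => 0, fun _ => 0, φ (FreeGroup.of k)⟩)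

variable {φ : FreeGroup (Fin b) →* Q} {i j : Fin a} {g : Q}

theorem chiW_inl (l : Fin a) : chiW p φ i j g (FreeGroup.of (Sum.inl l)) =
    ⟨fun q => if l = i then (if q = 1 then 1 else 0) else 0,
      fun q => if l = j then (if q = 1 then 1 else 0) else 0, fun _ => 0, 1⟩ := by
  unfold chiW
  rw [FreeGroup.lift_apply_of]
  rfl

theorem chiW_inr (k : Fin b) : chiW p φ i j g (FreeGroup.of (Sum.inr k)) =
    ⟨fun _ => 0, fun _ => 0, fun _ => 0, φ (FreeGroup.of k)⟩ := by
  unfold chiW
  rw [FreeGroup.lift_apply_of]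
  rfl

theorem evh_emb (l i : Fin a) (q : Q) : evh p i (((emb (FreeGroup.of l) : FreeGroup (Fin a) ≀ᵣ Q)).left q) =
    Multiplicative.ofAdd (if l = i then (if q = 1 then 1 else 0) else 0 : ZMod p) := by
  show evh p i ((Pi.mulSingle 1 (FreeGroup.of l) : Q → FreeGroup (Fin a)) q) = _
  by_cases hq : q = 1
  · subst hq
    rw [Pi.mulSingle_eq_same, evh_apply, ev_of, if_pos rfl]
    by_cases hl : l = i
    · rw [if_pos hl, if_pos hl, Int.cast_one]
    · rw [if_neg hl, if_neg hl, Int.cast_zero]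
  · rw [Pi.mulSingle_eq_of_ne hq, map_one, if_neg hq, ite_self]
    rfl

theorem toU_chiW : (EE.toU).comp (chiW p φ i j g) = (mapW (evh p i)).comp (Om φ) := by
  refine FreeGroup.ext_hom _ _ fun x => ?_
  rcases x with l | k
  · rw [MonoidHom.comp_apply, MonoidHom.comp_apply, chiW_inl, Om_inl]
    ext q
    · exact (evh_emb l i q).symm
    · rfl
  · rw [MonoidHom.comp_apply, MonoidHom.comp_apply, chiW_inr, Om_inr]
    ext q
    · show _ = evh p i 1
      rw [map_one]
      rfl
    · rfl

theorem toV_chiW : (EE.toV).comp (chiW p φ i j g) = (mapW (evh p j)).comp (Om φ) := by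
  refine FreeGroup.ext_hom _ _ fun x => ?_
  rcases x with l | k
  · rw [MonoidHom.comp_apply, MonoidHom.comp_apply, chiW_inl, Om_inl]
    ext q
    · exact (evh_emb l j q).symm
    · rfl
  · rw [MonoidHom.comp_apply, MonoidHom.comp_apply, chiW_inr, Om_inr]
    ext q
    · show _ = evh p j 1
      rw [map_one]
      rfl
    · rfl

theorem chiW_u (f : GX a b) (q : Q) : (chiW p φ i j g f).u q = ((ev ((Om φ f).left q) i : ℤ) : ZMod p) := by
  have h := DFunLike.congr_fun (toU_chiW (p := p) (φ := φ) (i := i) (j := j) (g := g)) f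
  exact congrArg Multiplicative.toAdd (congrFun (congrArg RegularWreathProduct.left h) q)

theorem chiW_v (f : GX a b) (q : Q) : (chiW p φ i j g f).v q = ((ev ((Om φ f).left q) j : ℤ) : ZMod p) := by
  have h := DFunLike.congr_fun (toV_chiW (p := p) (φ := φ) (i := i) (j := j) (g := g)) f
  exact congrArg Multiplicative.toAdd (congrFun (congrArg RegularWreathProduct.left h) q)

theorem chiW_q (f : GX a b) : (chiW p φ i j g f).q = φ (pY f) := by
  have h := DFunLike.congr_fun (toU_chiW (p := p) (φ := φ) (i := i) (j := j) (g := g)) f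
  rw [← Om_right φ f]
  exact congrArg RegularWreathProduct.right h

/-- The shuffle relation for an involution. -/
theorem shuffle (hg : g * g = 1) (hg1 : g ≠ 1) (f : GX a b) (k : Q) : (chiW p φ i i g f).c k + (chiW p φ i i g f).c (k * g) =
    (chiW p φ i i g f).u k * (chiW p φ i i g f).u (k * g) := by
  have huv : ∀ (f : GX a b) (k : Q), (chiW p φ i i g f).v k = (chiW p φ i i g f).u k := by
    intro f k
    rw [chiW_u, chiW_v]
  have hm : ∀ (f f' : GX a b) (k : Q),
      (chiW p φ i i g (f * f')).c k + (chiW p φ i i g (f * f')).c (k * g) -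
        (chiW p φ i i g (f * f')).u k * (chiW p φ i i g (f * f')).u (k * g) =
      ((chiW p φ i i g f).c k + (chiW p φ i i g f).c (k * g) -
        (chiW p φ i i g f).u k * (chiW p φ i i g f).u (k * g)) +
      ((chiW p φ i i g f').c ((chiW p φ i i g f).q⁻¹ * k) +
        (chiW p φ i i g f').c ((chiW p φ i i g f).q⁻¹ * k * g) -
        (chiW p φ i i g f').u ((chiW p φ i i g f).q⁻¹ * k) *
          (chiW p φ i i g f').u ((chiW p φ i i g f).q⁻¹ * k * g)) := by
    intro f f' k
    simp only [map_mul, EE.mul_c, EE.mul_u, huv, mul_assoc, hg, mul_one]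
    ring
  have h1 : ∀ k : Q, (chiW p φ i i g 1).c k + (chiW p φ i i g 1).c (k * g) -
        (chiW p φ i i g 1).u k * (chiW p φ i i g 1).u (k * g) = 0 := by
    intro k
    rw [map_one, EE.one_c, EE.one_c, EE.one_u, EE.one_u, add_zero, mul_zero, sub_zero]
  have key : ∀ (f : GX a b) (k : Q), (chiW p φ i i g f).c k + (chiW p φ i i g f).c (k * g) -
        (chiW p φ i i g f).u k * (chiW p φ i i g f).u (k * g) = 0 := by
    intro f
    induction f using FreeGroup.induction_on with
    | C1 => exact h1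
    | of x =>
      intro k
      rcases x with l | l
      · rw [chiW_inl]
        show (0 : ZMod p) + 0 - (if l = i then (if k = 1 then 1 else 0) else 0) *
          (if l = i then (if k * g = 1 then 1 else 0) else 0) = 0
        by_cases h1 : k = 1
        · have h2 : ¬ k * g = 1 := by
            rw [h1, one_mul]
            exact hg1
          rw [if_neg h2, ite_self, mul_zero, add_zero, sub_zero]
        · rw [if_neg h1, ite_self, zero_mul, add_zero, sub_zero]
      · rw [chiW_inr]
        show (0 : ZMod p) + 0 - 0 * 0 = 0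
        rw [add_zero, mul_zero, sub_zero]
    | inv_of x hx =>
      intro k
      have h2 := hm (FreeGroup.of x) (FreeGroup.of x)⁻¹ ((chiW p φ i i g (FreeGroup.of x)).q * k)
      rw [mul_inv_cancel, h1, hx, zero_add, inv_mul_cancel_left] at h2
      exact h2.symm
    | mul x y hx hy =>
      intro k
      rw [hm, hx, hy, add_zero]
  exact sub_eq_zero.1 (key f k)

/-- The functional. -/
def kapW (p : ℕ) (φ : FreeGroup (Fin b) →* Q) (i j : Fin a) (g : Q) (R : Finset Q) (f : GX a b) : ZMod p :=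
  ∑ k ∈ R, (chiW p φ i j g f).c k

variable {R : Finset Q}

section
variable {P : Type} [Group P] {ψ : FreeGroup (Fin a) →* P}

theorem chiW_ker (hfr : FrK p ψ.ker) {r : GX a b} (hr : r ∈ (Ps ψ φ).ker) :
    (∀ q, (chiW p φ i j g r).u q = 0) ∧ (∀ q, (chiW p φ i j g r).v q = 0) ∧ (chiW p φ i j g r).q = 1 := by
  obtain ⟨h1, h2⟩ := (mem_ker_Ps ψ φ).1 hr
  refine ⟨fun q => ?_, fun q => ?_, ?_⟩
  · rw [chiW_u]
    exact (ZMod.intCast_zmod_eq_zero_iff_dvd _ _).2 (hfr _ (h2 q) i)
  · rw [chiW_v]
    exact (ZMod.intCast_zmod_eq_zero_iff_dvd _ _).2 (hfr _ (h2 q) j)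
  · rw [chiW_q, h1]

theorem kapW_mul (hfr : FrK p ψ.ker) {r s : GX a b} (hr : r ∈ (Ps ψ φ).ker) :
    kapW p φ i j g R (r * s) = kapW p φ i j g R r + kapW p φ i j g R s := by
  unfold kapW
  rw [← Finset.sum_add_distrib]
  refine Finset.sum_congr rfl fun k _ => ?_
  obtain ⟨h1, _, h3⟩ := chiW_ker (i := i) (j := j) (g := g) hfr hr
  rw [map_mul, EE.mul_c, h1, h3, inv_one, one_mul, zero_mul, add_zero]

theorem chiW_conj (hfr : FrK p ψ.ker) (f : GX a b) {r : GX a b} (hr : r ∈ (Ps ψ φ).ker) (k : Q) :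
    (chiW p φ i j g (f * r * f⁻¹)).c k = (chiW p φ i j g r).c ((chiW p φ i j g f).q⁻¹ * k) := by
  obtain ⟨h1, h2, h3⟩ := chiW_ker (i := i) (j := j) (g := g) hfr hr
  rw [map_mul, map_mul, map_inv, EE.conj_c h1 h2 h3]

theorem kapW_mem [Fintype Q] (hfr : FrK p ψ.ker) :
    res (Ps ψ φ).ker (kapW p φ i j g Finset.univ) ∈ IL p (Ps ψ φ).ker := by
  refine res_mem _ (fun r hr s hs => kapW_mul hfr hr) (fun f r hr => ?_)
  unfold kapW
  refine Fintype.sum_equiv (Equiv.mulLeft (chiW p φ i j g f).q⁻¹) _ _ fun k => ?_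
  exact chiW_conj hfr f hr k

theorem kapW_mem_two [Fintype Q] (hp : p = 2) (hg : g * g = 1) (hg1 : g ≠ 1) (hR : ∀ k, k ∈ R ↔ k * g ∉ R)
    (hfr : FrK p ψ.ker) : res (Ps ψ φ).ker (kapW p φ i i g R) ∈ IL p (Ps ψ φ).ker := by
  refine res_mem _ (fun r hr s hs => kapW_mul hfr hr) (fun f r hr => ?_)
  subst hp
  obtain ⟨h1, h2, h3⟩ := chiW_ker (p := 2) (i := i) (j := i) (g := g) hfr hr
  have hsw : ∀ k, (chiW 2 φ i i g r).c (k * g) = (chiW 2 φ i i g r).c k := by
    intro k
    have h4 := shuffle (p := 2) (φ := φ) (i := i) hg hg1 r k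
    rw [h1, zero_mul] at h4
    have h5 := (eq_neg_of_add_eq_zero_right h4)
    rwa [ZMod.neg_eq_self_mod_two] at h5
  set x := (chiW 2 φ i i g f).q⁻¹ with hx
  have h4 : kapW 2 φ i i g R (f * r * f⁻¹) = ∑ k ∈ R.image (fun k => x * k), (chiW 2 φ i i g r).c k := by
    unfold kapW
    rw [Finset.sum_image (fun _ _ _ _ h => mul_left_cancel h)]
    exact Finset.sum_congr rfl fun k _ => chiW_conj hfr f hr k
  rw [h4]
  unfold kapW
  -- both are sets of representatives
  have hR2 : ∀ k, k ∈ R.image (fun k => x * k) ↔ k * g ∉ R.image (fun k => x * k) := by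
    have hm : ∀ k, k ∈ R.image (fun k => x * k) ↔ x⁻¹ * k ∈ R := by
      intro k
      rw [Finset.mem_image]
      constructor
      · rintro ⟨y, hy, rfl⟩
        rwa [inv_mul_cancel_left]
      · intro h
        exact ⟨_, h, mul_inv_cancel_left _ _⟩
    intro k
    rw [hm, hm, hR, mul_assoc]
  have key : ∀ R : Finset Q, (∀ k, k ∈ R ↔ k * g ∉ R) → ∀ R' : Finset Q, (∀ k, k ∈ R' ↔ k * g ∉ R') →
      ∑ k ∈ R, (chiW 2 φ i i g r).c k = ∑ k ∈ R', (chiW 2 φ i i g r).c k := by
    intro R hR R' hR'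
    refine Finset.sum_bij' (fun k _ => if k ∈ R' then k else k * g) (fun k _ => if k ∈ R then k else k * g)
      ?_ ?_ ?_ ?_ ?_
    · intro k hk
      by_cases h : k ∈ R'
      · rw [if_pos h]
        exact h
      · rw [if_neg h]
        by_contra h5
        exact h ((hR' k).2 h5)
    · intro k hk
      by_cases h : k ∈ R
      · rw [if_pos h]
        exact h
      · rw [if_neg h]
        by_contra h5
        exact h ((hR k).2 h5)
    · intro k hk
      by_cases h : k ∈ R'
      · simp only [if_pos h, if_pos hk]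
      · have h5 := (hR k).1 hk
        simp only [if_neg h, if_neg h5, mul_assoc, hg, mul_one]
    · intro k hk
      by_cases h : k ∈ R
      · simp only [if_pos h, if_pos hk]
      · have h5 := (hR' k).1 hk
        simp only [if_neg h, if_neg h5, mul_assoc, hg, mul_one]
    · intro k hk
      by_cases h : k ∈ R'
      · rw [if_pos h]
      · rw [if_neg h, hsw]
  exact key _ hR2 _ hR

end

theorem kapW_iX (hg : g ≠ 1) (w : FreeGroup (Fin a)) : kapW p φ i j g R (iX w) = 0 := by
  have hu : ∀ (w : FreeGroup (Fin a)) (q : Q), q ≠ 1 → (chiW p φ i j g (iX w)).u q = 0 := by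
    intro w q hq
    rw [chiW_u, Om_iX]
    show ((ev ((Pi.mulSingle 1 w : Q → FreeGroup (Fin a)) q) i : ℤ) : ZMod p) = 0
    rw [Pi.mulSingle_eq_of_ne hq, ev_one, Int.cast_zero]
  have hv : ∀ (w : FreeGroup (Fin a)) (q : Q), q ≠ 1 → (chiW p φ i j g (iX w)).v q = 0 := by
    intro w q hq
    rw [chiW_v, Om_iX]
    show ((ev ((Pi.mulSingle 1 w : Q → FreeGroup (Fin a)) q) j : ℤ) : ZMod p) = 0
    rw [Pi.mulSingle_eq_of_ne hq, ev_one, Int.cast_zero]
  have hq : ∀ (w : FreeGroup (Fin a)), (chiW p φ i j g (iX w)).q = 1 := by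
    intro w
    rw [chiW_q, pY_iX, map_one]
  have hm : ∀ (w w' : FreeGroup (Fin a)) (k : Q), (chiW p φ i j g (iX (w * w'))).c k =
      (chiW p φ i j g (iX w)).c k + (chiW p φ i j g (iX w')).c k := by
    intro w w' k
    rw [map_mul, map_mul, EE.mul_c, hq, inv_one, one_mul, one_mul]
    by_cases hk : k = 1
    · rw [hk, one_mul, hv _ _ hg, mul_zero, add_zero]
    · rw [hu _ _ hk, zero_mul, add_zero]
  have h1 : ∀ k : Q, (chiW p φ i j g (iX (1 : FreeGroup (Fin a)))).c k = 0 := by
    intro k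
    rw [map_one, map_one]
    rfl
  have h0 : ∀ l (k : Q), (chiW p φ i j g (iX (FreeGroup.of l : FreeGroup (Fin a)))).c k = 0 := by
    intro l k
    rw [iX_of, chiW_inl]
  have key : ∀ k : Q, (chiW p φ i j g (iX w)).c k = 0 := by
    induction w using FreeGroup.induction_on with
    | C1 => exact h1
    | of l => exact h0 l
    | inv_of l ih =>
      intro k
      have h2 := hm (FreeGroup.of l) (FreeGroup.of l)⁻¹ k
      rw [mul_inv_cancel, h1, h0, zero_add] at h2
      exact h2.symm
    | mul x y hx hy =>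
      intro k
      rw [hm, hx, hy, add_zero]
  exact Finset.sum_eq_zero fun k _ => key k

theorem chiW_iY (w : FreeGroup (Fin b)) :
    chiW p φ i j g (iY w) = ⟨fun _ => 0, fun _ => 0, fun _ => 0, φ w⟩ := by
  let T : Q →* EE p g :=
    { toFun := fun q => ⟨fun _ => 0, fun _ => 0, fun _ => 0, q⟩
      map_one' := rfl
      map_mul' := by
        intro x y
        ext h
        · show (0 : ZMod p) = 0 + 0
          rw [add_zero]
        · show (0 : ZMod p) = 0 + 0
          rw [add_zero]
        · show (0 : ZMod p) = 0 + 0 + (0 : ZMod p) * 0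
          simp
        · rfl }
  have h : (chiW p φ i j g).comp iY = T.comp φ := by
    refine FreeGroup.ext_hom _ _ fun k => ?_
    rw [MonoidHom.comp_apply, iY_of, chiW_inr]
    rfl
  exact DFunLike.congr_fun h w

theorem kapW_iY (w : FreeGroup (Fin b)) : kapW p φ i j g R (iY w) = 0 := by
  unfold kapW
  rw [chiW_iY]
  exact Finset.sum_const_zero

theorem kapW_cm (l m : Fin a) (v : FreeGroup (Fin b)) :
    kapW p φ i j g R (cm (FreeGroup.of (Sum.inl l)) (iY v * FreeGroup.of (Sum.inl m) * (iY v)⁻¹)) =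
      (if 1 ∈ R ∧ l = i ∧ m = j ∧ φ v = g then 1 else 0) -
        (if φ v ∈ R ∧ m = i ∧ l = j ∧ φ v * g = 1 then 1 else 0) := by
  unfold kapW cm
  rw [map_mul, map_mul, map_mul, map_inv, map_inv, map_mul, map_mul, map_inv, chiW_iY, chiW_inl, chiW_inl]
  set X : EE p g := ⟨fun q => if l = i then (if q = 1 then 1 else 0) else 0,
      fun q => if l = j then (if q = 1 then 1 else 0) else 0, fun _ => 0, 1⟩ with hX
  set Y : EE p g := ⟨fun _ => 0, fun _ => 0, fun _ => 0, φ v⟩ *
      ⟨fun q => if m = i then (if q = 1 then 1 else 0) else 0,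
      fun q => if m = j then (if q = 1 then 1 else 0) else 0, fun _ => 0, 1⟩ *
      (⟨fun _ => 0, fun _ => 0, fun _ => 0, φ v⟩ : EE p g)⁻¹ with hY
  have hYq : Y.q = 1 := by
    rw [hY]
    simp only [EE.mul_q, EE.inv_q, mul_one, mul_inv_cancel]
  have hYu : ∀ q, Y.u q = if m = i then (if q = φ v then 1 else 0) else 0 := by
    intro q
    rw [hY]
    simp only [EE.mul_u, EE.mul_q, EE.inv_u, mul_one, neg_zero, add_zero, zero_add, inv_mul_eq_one]
    simp only [eq_comm]
  have hYv : ∀ q, Y.v q = if m = j then (if q = φ v then 1 else 0) else 0 := by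
    intro q
    rw [hY]
    simp only [EE.mul_v, EE.mul_q, EE.inv_v, mul_one, neg_zero, add_zero, zero_add, inv_mul_eq_one]
    simp only [eq_comm]
  have hXq : X.q = 1 := rfl
  have hXu : ∀ q, X.u q = if l = i then (if q = 1 then 1 else 0) else 0 := fun q => rfl
  have hXv : ∀ q, X.v q = if l = j then (if q = 1 then 1 else 0) else 0 := fun q => rfl
  have h1 : ∀ h, (X⁻¹ * Y⁻¹ * X * Y).c h = X.u h * Y.v (h * g) - Y.u h * X.v (h * g) := by
    intro h
    simp only [EE.mul_c, EE.mul_u, EE.mul_q, EE.inv_c, EE.inv_u, EE.inv_v, EE.inv_q, hXq, hYq, inv_one,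
      one_mul, mul_one]
    ring
  simp only [h1]
  rw [Finset.sum_sub_distrib]
  congr 1
  · by_cases hR : (1 : Q) ∈ R
    · rw [Finset.sum_eq_single_of_mem 1 hR]
      · rw [hXu, hYv, if_pos rfl, one_mul]
        by_cases a1 : l = i
        · by_cases a2 : m = j
          · by_cases a3 : φ v = g
            · rw [if_pos a1, if_pos a2, if_pos a3.symm, if_pos ⟨hR, a1, a2, a3⟩, mul_one]
            · simp [a3, Ne.symm a3]
          · simp [a2]
        · simp [a1]
      · intro h _ hh
        rw [hXu, if_neg hh, ite_self, zero_mul]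
    · rw [Finset.sum_eq_zero, if_neg (fun h => hR h.1)]
      intro h hh
      have hne : ¬ h = 1 := fun h2 => hR (by rw [← h2]; exact hh)
      rw [hXu, if_neg hne, ite_self, zero_mul]
  · by_cases hR : φ v ∈ R
    · rw [Finset.sum_eq_single_of_mem (φ v) hR]
      · rw [hYu, hXv, if_pos rfl]
        by_cases a1 : m = i
        · by_cases a2 : l = j
          · by_cases a3 : φ v * g = 1
            · rw [if_pos a1, if_pos a2, if_pos a3, if_pos ⟨hR, a1, a2, a3⟩, mul_one]
            · simp [a3]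
          · simp [a2]
        · simp [a1]
      · intro h _ hh
        rw [hYu, if_neg hh, ite_self, zero_mul]
    · rw [Finset.sum_eq_zero, if_neg (fun h => hR h.1)]
      intro h hh
      have hne : ¬ h = φ v := fun h2 => hR (by rw [← h2]; exact hh)
      rw [hYu, if_neg hne, ite_self, zero_mul]

end

end Pool.Agent.RG.WR
end
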