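import Pool.Agent.Lib.MP_1a39b9_al.Mg.G009
import Pool.Agent.Lib.MP_1a39b9_al.Mg.G008
import Pool.Agent.Lib.MP_1a39b9_al.Mg.G007

section

/-!
# WR C: the kernel of the presentation map of the wreath product

`Dt`: a homomorphism `π` of the free group which kills the relators of the top group and the commutators `[x_i, ^h x_j]`,
`(i, j, h)` in a set which contains `(i, j, h)` or `(j, i, h⁻¹)` for all `h ≠ 1`. The images of the conjugates of the base
commute (`Dt.comm`). `Dt.ker_le`: generators of the kernel of `Ps`.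
-/

set_option autoImplicit false
set_option linter.unusedSectionVars false

namespace Pool.Agent.RG.WR

open Subgroup

variable {a b : ℕ} {P Q H : Type} [Group P] [Group Q] [Group H]

/-- The `q`-th conjugate of the base. -/
def Bh (π : GX a b →* H) (σ : Q → FreeGroup (Fin b)) (q : Q) : FreeGroup (Fin a) →* H :=
  (MulAut.conj (π (iY (σ q)))).toMonoidHom.comp (π.comp iX)

theorem Bh_apply (π : GX a b →* H) (σ : Q → FreeGroup (Fin b)) (q : Q) (w : FreeGroup (Fin a)) :
    Bh π σ q w = π (iY (σ q)) * π (iX w) * (π (iY (σ q)))⁻¹ := rfl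

/-- The data. -/
structure Dt (π : GX a b →* H) (φ : FreeGroup (Fin b) →* Q) (σ : Q → FreeGroup (Fin b)) (HS : Set (Fin a × Fin a × Q)) : Prop where
  hσ : ∀ q, φ (σ q) = q
  hY : ∀ v ∈ φ.ker, π (iY v) = 1
  hc : ∀ i j h, (i, j, h) ∈ HS → cm (π (FreeGroup.of (Sum.inl i)))
    (π (iY (σ h) * FreeGroup.of (Sum.inl j) * (iY (σ h))⁻¹)) = 1
  hH : ∀ i j h, h ≠ 1 → (i, j, h) ∈ HS ∨ (j, i, h⁻¹) ∈ HS

namespace Dt

variable {π : GX a b →* H} {φ : FreeGroup (Fin b) →* Q} {σ : Q → FreeGroup (Fin b)} {HS : Set (Fin a × Fin a × Q)}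

theorem congrY (D : Dt π φ σ HS) {v v' : FreeGroup (Fin b)} (h : φ v = φ v') : π (iY v) = π (iY v') := by
  have h1 : v'⁻¹ * v ∈ φ.ker := by
    rw [MonoidHom.mem_ker, map_mul, map_inv, h, inv_mul_cancel]
  have h2 := D.hY _ h1
  rw [map_mul, map_inv, map_mul, map_inv, inv_mul_eq_one] at h2
  exact h2.symm

theorem Bh_one (D : Dt π φ σ HS) (w : FreeGroup (Fin a)) : Bh π σ 1 w = π (iX w) := by
  have h1 : π (iY (σ 1)) = 1 := D.hY _ (by rw [MonoidHom.mem_ker, D.hσ])
  rw [Bh_apply, h1, inv_one, one_mul, mul_one]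

theorem conj_Bh (D : Dt π φ σ HS) (v : FreeGroup (Fin b)) (q : Q) (w : FreeGroup (Fin a)) :
    π (iY v) * Bh π σ q w * (π (iY v))⁻¹ = Bh π σ (φ v * q) w := by
  have h1 : π (iY (σ (φ v * q))) = π (iY v) * π (iY (σ q)) := by
    rw [← map_mul, ← map_mul]
    exact D.congrY (by rw [map_mul, D.hσ, D.hσ])
  rw [Bh_apply, Bh_apply, h1, mul_inv_rev]
  simp only [mul_assoc]

theorem comm_gen (D : Dt π φ σ HS) {i j : Fin a} {h : Q} (hh : (i, j, h) ∈ HS) :
    Commute (Bh π σ 1 (FreeGroup.of i)) (Bh π σ h (FreeGroup.of j)) := by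
  have h1 := cm_eq_one.1 (D.hc i j h hh)
  rw [map_mul, map_mul, map_inv] at h1
  rw [D.Bh_one, Bh_apply, iX_of, iX_of]
  exact h1

theorem conj_comm (D : Dt π φ σ HS) (r : Q) {q q' : Q} {w w' : FreeGroup (Fin a)}
    (h : Commute (Bh π σ q w) (Bh π σ q' w')) : Commute (Bh π σ (r * q) w) (Bh π σ (r * q') w') := by
  have h2 := D.conj_Bh (σ r) q w
  have h3 := D.conj_Bh (σ r) q' w'
  rw [D.hσ] at h2 h3
  rw [← h2, ← h3]
  exact h.map (MulAut.conj (π (iY (σ r))))

theorem comm_one (D : Dt π φ σ HS) {h : Q} (hh : h ≠ 1) (w w' : FreeGroup (Fin a)) :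
    Commute (Bh π σ 1 w) (Bh π σ h w') := by
  refine Pool.Agent.RG.PR.commute_of_gens (Bh π σ 1) (Bh π σ h) (fun i j => ?_) w w'
  rcases D.hH i j h hh with h1 | h1
  · exact D.comm_gen h1
  · have h2 := D.conj_comm h (D.comm_gen h1)
    rw [mul_one, mul_inv_cancel] at h2
    exact h2.symm

theorem comm (D : Dt π φ σ HS) {q q' : Q} (hq : q ≠ q') (w w' : FreeGroup (Fin a)) :
    Commute (Bh π σ q w) (Bh π σ q' w') := by
  have h1 := D.conj_comm q (D.comm_one (h := q⁻¹ * q') (fun h => hq (inv_mul_eq_one.1 h)) w w')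
  rwa [mul_one, mul_inv_cancel_left] at h1

/-- The homomorphism of the top group. -/
noncomputable def top (D : Dt π φ σ HS) (hφ : Function.Surjective φ) : Q →* H :=
  φ.liftOfSurjective hφ ⟨π.comp iY, fun v hv => D.hY v hv⟩

theorem top_apply (D : Dt π φ σ HS) (hφ : Function.Surjective φ) (v : FreeGroup (Fin b)) :
    D.top hφ (φ v) = π (iY v) :=
  φ.liftOfRightInverse_comp_apply _ _ ⟨π.comp iY, fun v hv => D.hY v hv⟩ v

/-- The homomorphism of the `q`-th factor of the base group. -/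
noncomputable def fac {ψ : FreeGroup (Fin a) →* P} (hψ : Function.Surjective ψ)
    (hX : ∀ w ∈ ψ.ker, π (iX w) = 1) (q : Q) : P →* H :=
  ψ.liftOfSurjective hψ ⟨Bh π σ q, fun w hw => by
    rw [MonoidHom.mem_ker, Bh_apply, hX w hw, mul_one, mul_inv_cancel]⟩

theorem fac_apply {ψ : FreeGroup (Fin a) →* P} (hψ : Function.Surjective ψ)
    (hX : ∀ w ∈ ψ.ker, π (iX w) = 1) (q : Q) (w : FreeGroup (Fin a)) :
    fac (σ := σ) hψ hX q (ψ w) = Bh π σ q w :=
  ψ.liftOfRightInverse_comp_apply _ _ ⟨Bh π σ q, fun w hw => by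
    rw [MonoidHom.mem_ker, Bh_apply, hX w hw, mul_one, mul_inv_cancel]⟩ w

theorem ker_le [Fintype Q] [DecidableEq Q] (D : Dt π φ σ HS) (hφ : Function.Surjective φ)
    {ψ : FreeGroup (Fin a) →* P} (hψ : Function.Surjective ψ)
    (hX : ∀ w ∈ ψ.ker, π (iX w) = 1) : (Ps ψ φ).ker ≤ π.ker := by
  classical
  have hcomm : Pairwise fun q q' => ∀ u v, Commute (fac (σ := σ) hψ hX q u) (fac (σ := σ) hψ hX q' v) := by
    intro q q' hq u v
    obtain ⟨u, rfl⟩ := hψ u
    obtain ⟨v, rfl⟩ := hψ v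
    rw [fac_apply, fac_apply]
    exact D.comm hq u v
  let N : (Q → P) →* H := MonoidHom.noncommPiCoprod (fun q => fac (σ := σ) hψ hX q) hcomm
  have hN : ∀ q u, N (Pi.mulSingle q u) = fac (σ := σ) hψ hX q u := fun q u =>
    MonoidHom.noncommPiCoprod_mulSingle _ _ _
  have hact : ∀ (k : Q) (f : Q → P), N (fun q => f (k⁻¹ * q)) = D.top hφ k * N f * (D.top hφ k)⁻¹ := by
    intro k f
    let sh : (Q → P) →* (Q → P) :=
      { toFun := fun f q => f (k⁻¹ * q)
        map_one' := rfl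
        map_mul' := fun _ _ => rfl }
    have h1 : N.comp sh = (MulAut.conj (D.top hφ k)).toMonoidHom.comp N := by
      refine MonoidHom.pi_ext fun q u => ?_
      have h2 : sh (Pi.mulSingle q u) = Pi.mulSingle (k * q) u := by
        funext x
        show (Pi.mulSingle q u : Q → P) (k⁻¹ * x) = (Pi.mulSingle (k * q) u : Q → P) x
        by_cases h : x = k * q
        · subst h
          rw [inv_mul_cancel_left, Pi.mulSingle_eq_same, Pi.mulSingle_eq_same]
        · rw [Pi.mulSingle_eq_of_ne h, Pi.mulSingle_eq_of_ne]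
          intro h3
          exact h (inv_mul_eq_iff_eq_mul.1 h3)
      rw [MonoidHom.comp_apply, h2, hN]
      show _ = D.top hφ k * N (Pi.mulSingle q u) * (D.top hφ k)⁻¹
      rw [hN]
      obtain ⟨u, rfl⟩ := hψ u
      obtain ⟨v, rfl⟩ := hφ k
      rw [fac_apply, fac_apply, D.top_apply, D.conj_Bh]
    exact DFunLike.congr_fun h1 f
  let Θ : P ≀ᵣ Q →* H := MonoidHom.mk' (fun w => N w.left * D.top hφ w.right) (by
    intro x y
    show N (x.left * fun q => y.left (x.right⁻¹ * q)) * D.top hφ (x.right * y.right) =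
      N x.left * D.top hφ x.right * (N y.left * D.top hφ y.right)
    rw [map_mul, map_mul, hact]
    simp only [mul_assoc, inv_mul_cancel_left])
  have hΘ : Θ.comp (Ps ψ φ) = π := by
    refine FreeGroup.ext_hom _ _ fun x => ?_
    rcases x with i | j
    · rw [MonoidHom.comp_apply, ← iX_of, Ps_iX]
      show N (Pi.mulSingle 1 (ψ (FreeGroup.of i))) * D.top hφ 1 = _
      rw [map_one, mul_one, hN, fac_apply, D.Bh_one]
    · rw [MonoidHom.comp_apply, ← iY_of, Ps_iY]
      show N 1 * D.top hφ (φ (FreeGroup.of j)) = _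
      rw [map_one, one_mul, D.top_apply]
  intro f hf
  rw [MonoidHom.mem_ker] at hf ⊢
  rw [← hΘ, MonoidHom.comp_apply, hf, map_one]

end Dt

theorem Ps_surj [Fintype Q] [DecidableEq Q] {φ : FreeGroup (Fin b) →* Q} (hφ : Function.Surjective φ)
    {ψ : FreeGroup (Fin a) →* P} (hψ : Function.Surjective ψ) : Function.Surjective (Ps ψ φ) := by
  have h1 : ∀ q : Q, RegularWreathProduct.inl q ∈ (Ps ψ φ).range := by
    intro q
    obtain ⟨v, rfl⟩ := hφ q
    exact ⟨iY v, Ps_iY ψ φ v⟩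
  have h2 : ∀ (q : Q) (u : P), (⟨Pi.mulSingle q u, 1⟩ : P ≀ᵣ Q) ∈ (Ps ψ φ).range := by
    intro q u
    rw [← conj_emb]
    obtain ⟨w, rfl⟩ := hψ u
    exact mul_mem (mul_mem (h1 q) ⟨iX w, Ps_iX ψ φ w⟩) (inv_mem (h1 q))
  let J : (Q → P) →* P ≀ᵣ Q :=
    { toFun := fun f => ⟨f, 1⟩
      map_one' := rfl
      map_mul' := fun f f' => by
        ext q
        · show f q * f' q = f q * f' (1⁻¹ * q)
          rw [inv_one, one_mul]
        · exact (one_mul _).symm }
  have h3 : ∀ f : Q → P, J f ∈ (Ps ψ φ).range := by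
    intro f
    exact Subgroup.pi_mem_of_mulSingle_mem (H := (Ps ψ φ).range.comap J) f fun q => h2 q (f q)
  intro w
  have h5 : w = J w.left * RegularWreathProduct.inl w.right := by
    ext q
    · show w.left q = w.left q * 1
      rw [mul_one]
    · exact (one_mul _).symm
  have h6 : w ∈ (Ps ψ φ).range := by
    rw [h5]
    exact mul_mem (h3 _) (h1 _)
  exact h6

end Pool.Agent.RG.WR
end

section

/-!
# WR D: invariant homomorphisms for the wreath product

`dim IL (ker Ps) ≥ dim IL (ker ψ) + dim IL (ker φ) + |CS|`, `CS` a set of triples `(i, j, h)` which represents the classes of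
`(i, j, h) ~ (j, i, h⁻¹)`, `h ≠ 1`.
-/

set_option autoImplicit false
set_option linter.unusedSectionVars false

namespace Pool.Agent.RG.WR

open Subgroup

section
variable {a b : ℕ} {Q : Type} [Group Q] [Fintype Q] [DecidableEq Q] (φ : FreeGroup (Fin b) →* Q)

theorem ev_inl (f : GX a b) (i : Fin a) : ev f (Sum.inl i) = ∑ q, ev ((Om φ f).left q) i := by
  let A : GX a b →* Multiplicative ℤ := MonoidHom.mk'
    (fun f => Multiplicative.ofAdd (∑ q, ev ((Om φ f).left q) i)) (by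
      intro x y
      have h1 : ∑ q, ev ((Om φ (x * y)).left q) i = ∑ q, ev ((Om φ x).left q) i + ∑ q, ev ((Om φ y).left q) i := by
        have h2 : ∑ q, ev ((Om φ y).left q) i = ∑ q, ev ((Om φ y).left ((Om φ x).right⁻¹ * q)) i :=
          (Fintype.sum_equiv (Equiv.mulLeft (Om φ x).right⁻¹) _ _ fun q => rfl).symm
        rw [h2, ← Finset.sum_add_distrib]
        refine Finset.sum_congr rfl fun q _ => ?_
        rw [map_mul, RegularWreathProduct.mul_left]
        exact ev_mul _ _ _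
      rw [h1]
      rfl)
  let B : GX a b →* Multiplicative ℤ := MonoidHom.mk'
    (fun f => Multiplicative.ofAdd (ev f (Sum.inl i))) (by
      intro x y
      rw [ev_mul]
      rfl)
  have h : B = A := by
    refine FreeGroup.ext_hom _ _ fun x => ?_
    show Multiplicative.ofAdd (ev (FreeGroup.of x) (Sum.inl i)) =
      Multiplicative.ofAdd (∑ q, ev ((Om φ (FreeGroup.of x)).left q) i)
    congr 1
    rcases x with l | k
    · rw [Om_inl, ev_of, Finset.sum_eq_single 1]
      · show _ = ev ((Pi.mulSingle 1 (FreeGroup.of l) : Q → FreeGroup (Fin a)) 1) i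
        rw [Pi.mulSingle_eq_same, ev_of]
        by_cases hl : l = i
        · rw [if_pos hl, if_pos (by rw [hl])]
        · rw [if_neg hl, if_neg fun h => hl (Sum.inl_injective h)]
      · intro q _ hq
        show ev ((Pi.mulSingle 1 (FreeGroup.of l) : Q → FreeGroup (Fin a)) q) i = 0
        rw [Pi.mulSingle_eq_of_ne hq, ev_one]
      · intro h
        exact absurd (Finset.mem_univ _) h
    · rw [Om_inr, ev_of, if_neg Sum.inr_ne_inl]
      refine (Finset.sum_eq_zero fun q _ => ?_).symm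
      exact ev_one i
  exact congrArg Multiplicative.toAdd (DFunLike.congr_fun h f)

theorem ev_inr (f : GX a b) (j : Fin b) : ev f (Sum.inr j) = ev (pY f) j := by
  let A : GX a b →* Multiplicative ℤ := MonoidHom.mk'
    (fun f => Multiplicative.ofAdd (ev (pY f) j)) (by
      intro x y
      rw [map_mul, ev_mul]
      rfl)
  let B : GX a b →* Multiplicative ℤ := MonoidHom.mk'
    (fun f => Multiplicative.ofAdd (ev f (Sum.inr j))) (by
      intro x y
      rw [ev_mul]
      rfl)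
  have h : B = A := by
    refine FreeGroup.ext_hom _ _ fun x => ?_
    show Multiplicative.ofAdd (ev (FreeGroup.of x) (Sum.inr j)) = Multiplicative.ofAdd (ev (pY (FreeGroup.of x)) j)
    congr 1
    rcases x with l | k
    · rw [pY_inl, ev_of, ev_one, if_neg Sum.inl_ne_inr]
    · rw [pY_inr, ev_of, ev_of]
      by_cases hl : k = j
      · rw [if_pos hl, if_pos (by rw [hl])]
      · rw [if_neg hl, if_neg fun h => hl (Sum.inr_injective h)]
  exact congrArg Multiplicative.toAdd (DFunLike.congr_fun h f)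

end

section
variable {p : ℕ} {a b : ℕ} {P Q : Type} [Group P] [Group Q] [Fintype Q] [DecidableEq Q]
    {ψ : FreeGroup (Fin a) →* P} {φ : FreeGroup (Fin b) →* Q}

theorem frK_Ps (h1 : FrK p ψ.ker) (h2 : FrK p φ.ker) : FrK p (Ps ψ φ).ker := by
  intro r hr x
  obtain ⟨h3, h4⟩ := (mem_ker_Ps ψ φ).1 hr
  rcases x with i | j
  · rw [ev_inl φ]
    exact Finset.dvd_sum fun q _ => h1 _ (h4 q) i
  · rw [ev_inr]
    exact h2 _ h3 j

theorem right_eq {r : GX a b} (hr : r ∈ (Ps ψ φ).ker) : (Om φ r).right = 1 := by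
  rw [Om_right]
  exact ((mem_ker_Ps ψ φ).1 hr).1

/-- The functionals from the base. -/
noncomputable def pullX (p : ℕ) (ψ : FreeGroup (Fin a) →* P) (φ : FreeGroup (Fin b) →* Q) :
    IL p ψ.ker →ₗ[ZMod p] IL p (Ps ψ φ).ker where
  toFun l := ⟨res (Ps ψ φ).ker fun r => ∑ q, l.1 ((Om φ r).left q), by
    refine res_mem _ (fun r hr t ht => ?_) (fun f r hr => ?_)
    · rw [← Finset.sum_add_distrib]
      refine Finset.sum_congr rfl fun q _ => ?_
      rw [map_mul, mul_left' _ _ (right_eq hr)]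
      exact IL_mul l.2 (((mem_ker_Ps ψ φ).1 hr).2 q) (((mem_ker_Ps ψ φ).1 ht).2 q)
    · rw [map_mul, map_mul, map_inv]
      refine Fintype.sum_equiv (Equiv.mulLeft (Om φ f).right⁻¹) _ _ fun q => ?_
      rw [conj_left _ _ (right_eq hr)]
      exact IL_conj l.2 _ (((mem_ker_Ps ψ φ).1 hr).2 _)⟩
  map_add' l l' := by
    apply Subtype.ext
    funext r
    show res (Ps ψ φ).ker (fun r => ∑ q, (l.1 ((Om φ r).left q) + l'.1 ((Om φ r).left q))) r =
      res (Ps ψ φ).ker (fun r => ∑ q, l.1 ((Om φ r).left q)) r +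
        res (Ps ψ φ).ker (fun r => ∑ q, l'.1 ((Om φ r).left q)) r
    unfold res
    split_ifs
    · exact Finset.sum_add_distrib
    · rw [add_zero]
  map_smul' c l := by
    apply Subtype.ext
    funext r
    show res (Ps ψ φ).ker (fun r => ∑ q, c • l.1 ((Om φ r).left q)) r =
      c • res (Ps ψ φ).ker (fun r => ∑ q, l.1 ((Om φ r).left q)) r
    unfold res
    split_ifs
    · exact Finset.smul_sum.symm
    · rw [smul_zero]

theorem pullX_apply (l : IL p ψ.ker) {r : GX a b} (hr : r ∈ (Ps ψ φ).ker) :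
    (pullX p ψ φ l).1 r = ∑ q, l.1 ((Om φ r).left q) := res_eq (fun r => ∑ q, l.1 ((Om φ r).left q)) hr

/-- The functionals from the top group. -/
noncomputable def pullY (p : ℕ) (ψ : FreeGroup (Fin a) →* P) (φ : FreeGroup (Fin b) →* Q) :
    IL p φ.ker →ₗ[ZMod p] IL p (Ps ψ φ).ker where
  toFun l := ⟨res (Ps ψ φ).ker fun r => l.1 (pY r), by
    refine res_mem _ (fun r hr t ht => ?_) (fun f r hr => ?_)
    · rw [map_mul]
      exact IL_mul l.2 (pY_mem ψ φ hr) (pY_mem ψ φ ht)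
    · rw [map_mul, map_mul, map_inv]
      exact IL_conj l.2 _ (pY_mem ψ φ hr)⟩
  map_add' l l' := by
    apply Subtype.ext
    funext r
    show res (Ps ψ φ).ker (fun r => l.1 (pY r) + l'.1 (pY r)) r =
      res (Ps ψ φ).ker (fun r => l.1 (pY r)) r + res (Ps ψ φ).ker (fun r => l'.1 (pY r)) r
    unfold res
    split_ifs
    · rfl
    · rw [add_zero]
  map_smul' c l := by
    apply Subtype.ext
    funext r
    show res (Ps ψ φ).ker (fun r => c • l.1 (pY r)) r = c • res (Ps ψ φ).ker (fun r => l.1 (pY r)) r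
    unfold res
    split_ifs
    · rfl
    · rw [smul_zero]

theorem pullY_apply (l : IL p φ.ker) {r : GX a b} (hr : r ∈ (Ps ψ φ).ker) :
    (pullY p ψ φ l).1 r = l.1 (pY r) := res_eq (fun r => l.1 (pY r)) hr

theorem cmW_mem (i j : Fin a) {v : FreeGroup (Fin b)} (hv : φ v ≠ 1) :
    cm (FreeGroup.of (Sum.inl i)) (iY v * FreeGroup.of (Sum.inl j) * (iY v)⁻¹) ∈ (Ps ψ φ).ker := by
  rw [MonoidHom.mem_ker]
  have e : ∀ x y : GX a b, Ps ψ φ (cm x y) = cm (Ps ψ φ x) (Ps ψ φ y) := by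
    intro x y
    unfold cm
    rw [map_mul, map_mul, map_mul, map_inv, map_inv]
  rw [e, cm_eq_one, map_mul, map_mul, map_inv, ← iX_of, ← iX_of, Ps_iX, Ps_iX, Ps_iY, conj_emb]
  ext q
  · rw [mul_left' _ _ rfl, mul_left' _ _ rfl]
    show (Pi.mulSingle 1 (ψ (FreeGroup.of i)) : Q → P) q * (Pi.mulSingle (φ v) (ψ (FreeGroup.of j)) : Q → P) q =
      (Pi.mulSingle (φ v) (ψ (FreeGroup.of j)) : Q → P) q * (Pi.mulSingle 1 (ψ (FreeGroup.of i)) : Q → P) q
    by_cases h : q = 1
    · subst h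
      rw [Pi.mulSingle_eq_of_ne (Ne.symm hv), mul_one, one_mul]
    · rw [Pi.mulSingle_eq_of_ne h, mul_one, one_mul]
  · rfl

theorem exists_half {g : Q} (hg : g * g = 1) (hg1 : g ≠ 1) :
    ∃ R : Finset Q, (1 : Q) ∈ R ∧ ∀ k, k ∈ R ↔ k * g ∉ R := by
  classical
  let en := Fintype.equivFin Q
  let R₀ : Finset Q := Finset.univ.filter fun k => en k < en (k * g)
  have hm : ∀ k, k ∈ R₀ ↔ en k < en (k * g) := fun k => by
    simp only [R₀, Finset.mem_filter, Finset.mem_univ, true_and]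
  have hR : ∀ k, k ∈ R₀ ↔ k * g ∉ R₀ := by
    intro k
    rw [hm, hm, mul_assoc, hg, mul_one, not_lt]
    constructor
    · exact fun h => h.le
    · intro h
      refine lt_of_le_of_ne h fun h2 => hg1 ?_
      exact (mul_eq_left.1 (en.injective h2).symm)
  by_cases h1 : (1 : Q) ∈ R₀
  · exact ⟨R₀, h1, hR⟩
  · refine ⟨R₀ᶜ, Finset.mem_compl.2 h1, fun k => ?_⟩
    rw [Finset.mem_compl, Finset.mem_compl, not_not, hR k, not_not]

theorem finrank_ge [Fact p.Prime] (h1 : FrK p ψ.ker) (CS : Finset (Fin a × Fin a × Q))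
    (hone : ∀ x ∈ CS, x.2.2 ≠ 1) (hinv : ∀ i j h, (i, j, h) ∈ CS → (j, i, h⁻¹) ∈ CS → i = j ∧ h * h = 1)
    (htwo : ∀ h : Q, h ≠ 1 → h * h = 1 → p = 2) {σ : Q → FreeGroup (Fin b)} (hσ : ∀ q, φ (σ q) = q)
    [Module.Finite (ZMod p) (IL p ψ.ker)] [Module.Finite (ZMod p) (IL p φ.ker)]
    [Module.Finite (ZMod p) (IL p (Ps ψ φ).ker)] :
    Module.finrank (ZMod p) (IL p ψ.ker) + (Module.finrank (ZMod p) (IL p φ.ker) + CS.card) ≤
      Module.finrank (ZMod p) (IL p (Ps ψ φ).ker) := by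
  classical
  have hne : ∀ x : CS, x.1.2.2 ≠ 1 := fun x => hone _ x.2
  have hRex : ∀ x : CS, ∃ R : Finset Q, (1 : Q) ∈ R ∧
      res (Ps ψ φ).ker (kapW p φ x.1.1 x.1.2.1 x.1.2.2 R) ∈ IL p (Ps ψ φ).ker ∧
      (x.1.1 = x.1.2.1 → x.1.2.2 * x.1.2.2 = 1 → x.1.2.2 ∉ R) := by
    rintro ⟨⟨i, j, g⟩, hx⟩
    by_cases h : i = j ∧ g * g = 1
    · obtain ⟨rfl, hg⟩ := h
      have hg1 : g ≠ 1 := hone _ hx
      obtain ⟨R, hR1, hR2⟩ := exists_half hg hg1
      refine ⟨R, hR1, kapW_mem_two (htwo g hg1 hg) hg hg1 hR2 h1, fun _ _ => ?_⟩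
      have h3 := (hR2 1).1 hR1
      rwa [one_mul] at h3
    · exact ⟨Finset.univ, Finset.mem_univ _, kapW_mem h1, fun h3 h4 => absurd ⟨h3, h4⟩ h⟩
  choose R hR1 hR2 hR3 using hRex
  let kk : CS → IL p (Ps ψ φ).ker := fun x =>
    ⟨res (Ps ψ φ).ker (kapW p φ x.1.1 x.1.2.1 x.1.2.2 (R x)), hR2 x⟩
  let Φ : (IL p ψ.ker × (IL p φ.ker × (CS → ZMod p))) →ₗ[ZMod p] IL p (Ps ψ φ).ker :=
    LinearMap.coprod (pullX p ψ φ) (LinearMap.coprod (pullY p ψ φ)
      (∑ x : CS, (LinearMap.toSpanSingleton (ZMod p) (IL p (Ps ψ φ).ker)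
        (kk x)).comp (LinearMap.proj x)))
  have hΦ : ∀ (l : IL p ψ.ker) (l' : IL p φ.ker) (c : CS → ZMod p) (r : GX a b),
      r ∈ (Ps ψ φ).ker → (Φ (l, l', c)).1 r = ∑ q, l.1 ((Om φ r).left q) + (l'.1 (pY r) +
        ∑ x : CS, c x * kapW p φ x.1.1 x.1.2.1 x.1.2.2 (R x) r) := by
    intro l l' c r hr
    have h3 : Φ (l, l', c) = pullX p ψ φ l + (pullY p ψ φ l' + ∑ x : CS, c x • kk x) := by
      simp only [Φ, LinearMap.coprod_apply, LinearMap.sum_apply, LinearMap.comp_apply,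
        LinearMap.proj_apply, LinearMap.toSpanSingleton_apply]
    rw [h3]
    have h4 : ∀ (A B : IL p (Ps ψ φ).ker), (A + B).1 r = A.1 r + B.1 r := fun _ _ => rfl
    have h5 : ∀ {α : Type} [Fintype α] (A : α → IL p (Ps ψ φ).ker), (∑ a, A a).1 r = ∑ a, (A a).1 r := by
      intro α _ A
      rw [AddSubmonoidClass.coe_finsetSum, Finset.sum_apply]
    rw [h4, h4, h5, pullX_apply l hr, pullY_apply l' hr]
    congr 2
    refine Finset.sum_congr rfl fun x _ => ?_
    show c x • res (Ps ψ φ).ker (kapW p φ x.1.1 x.1.2.1 x.1.2.2 (R x)) r = _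
    rw [res_eq _ hr, smul_eq_mul]
  have hinj : Function.Injective Φ := by
    rw [injective_iff_map_eq_zero]
    rintro ⟨l, l', c⟩ h0
    have h3 : ∀ r ∈ (Ps ψ φ).ker, ∑ q, l.1 ((Om φ r).left q) + (l'.1 (pY r) +
        ∑ x : CS, c x * kapW p φ x.1.1 x.1.2.1 x.1.2.2 (R x) r) = 0 := by
      intro r hr
      rw [← hΦ l l' c r hr, h0]
      rfl
    have hl : l = 0 := by
      apply Subtype.ext
      funext w
      show l.1 w = 0
      by_cases hw : w ∈ ψ.ker
      · have h4 := h3 _ ((iX_mem ψ φ).2 hw)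
        have h5 : ∑ q, l.1 ((Om φ (iX w : GX a b)).left q) = l.1 w := by
          rw [Om_iX, Finset.sum_eq_single 1]
          · show l.1 ((Pi.mulSingle 1 w : Q → FreeGroup (Fin a)) 1) = _
            rw [Pi.mulSingle_eq_same]
          · intro q _ hq
            show l.1 ((Pi.mulSingle 1 w : Q → FreeGroup (Fin a)) q) = _
            rw [Pi.mulSingle_eq_of_ne hq]
            exact IL_one l.2
          · intro h
            exact absurd (Finset.mem_univ _) h
        rw [h5, pY_iX, IL_one l'.2, Finset.sum_eq_zero, add_zero, add_zero] at h4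
        · exact h4
        · intro x _
          rw [kapW_iX (hne x), mul_zero]
      · exact IL_out l.2 hw
    have hl' : l' = 0 := by
      apply Subtype.ext
      funext w
      show l'.1 w = 0
      by_cases hw : w ∈ φ.ker
      · have h4 := h3 _ ((iY_mem ψ φ).2 hw)
        rw [pY_iY, Finset.sum_eq_zero, zero_add, Finset.sum_eq_zero, add_zero] at h4
        · exact h4
        · intro x _
          rw [kapW_iY, mul_zero]
        · intro q _
          rw [Om_iY]
          exact IL_one l.2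
      · exact IL_out l'.2 hw
    have hc : c = 0 := by
      funext x
      obtain ⟨⟨i, j, h⟩, hx⟩ := x
      show c ⟨(i, j, h), hx⟩ = 0
      have h4 := h3 _ (cmW_mem i j (v := σ h) (by rw [hσ]; exact hone _ hx))
      rw [Finset.sum_eq_zero, zero_add, hl', Finset.sum_eq_single ⟨(i, j, h), hx⟩] at h4
      · rw [kapW_cm, hσ, if_pos ⟨hR1 _, rfl, rfl, rfl⟩] at h4
        have h5 : ¬ (h ∈ R ⟨(i, j, h), hx⟩ ∧ j = i ∧ i = j ∧ h * h = 1) := by
          rintro ⟨h6, _, h7, h8⟩
          exact hR3 ⟨(i, j, h), hx⟩ h7 h8 h6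
        rw [if_neg h5, sub_zero, mul_one] at h4
        have h6 : (0 : IL p φ.ker).1 (pY (cm (FreeGroup.of (Sum.inl i))
          (iY (σ h) * FreeGroup.of (Sum.inl j) * (iY (σ h))⁻¹) : GX a b)) = 0 := rfl
        rw [h6, zero_add] at h4
        exact h4
      · rintro ⟨⟨i', j', h'⟩, hx'⟩ _ hxx
        rw [kapW_cm, hσ]
        have h5 : ¬ ((1 : Q) ∈ R ⟨(i', j', h'), hx'⟩ ∧ i = i' ∧ j = j' ∧ h = h') := by
          rintro ⟨_, e1, e2, e3⟩
          subst e1 e2 e3
          exact hxx rfl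
        have h6 : ¬ (h ∈ R ⟨(i', j', h'), hx'⟩ ∧ j = i' ∧ i = j' ∧ h * h' = 1) := by
          rintro ⟨_, e1, e2, e3⟩
          have h8 : h⁻¹ = h' := inv_eq_of_mul_eq_one_right e3
          subst e1 e2 h8
          obtain ⟨h9, h10⟩ := hinv _ _ _ hx hx'
          subst h9
          apply hxx
          have h11 : h⁻¹ = h := inv_eq_of_mul_eq_one_left h10
          refine Subtype.ext ?_
          show (i, i, h⁻¹) = (i, i, h)
          rw [h11]
        rw [if_neg h5, if_neg h6, sub_zero, mul_zero]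
      · intro h; exact absurd (Finset.mem_univ _) h
      · intro q _
        rw [hl]
        rfl
    rw [hl, hl', hc]
    rfl
  have h3 := LinearMap.finrank_le_finrank_of_injective hinj
  rw [Module.finrank_prod, Module.finrank_prod, Module.finrank_fintype_fun_eq_card, Fintype.card_coe] at h3
  exact h3

end

end Pool.Agent.RG.WR
end

section

/-!
# WR E: the base group of the group presented

`BB`: the subgroup generated by the conjugates of the base. Elements of one conjugate which are products of elements of the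
others are central in it.
-/

set_option autoImplicit false
set_option linter.unusedSectionVars false

namespace Pool.Agent.RG.WR

open Subgroup Pool.Agent.RG.PR

section
variable {a b : ℕ} {P Q H : Type} [Group P] [Group Q] [Group H]

/-- The base group. -/
def BB (π : GX a b →* H) (σ : Q → FreeGroup (Fin b)) : Subgroup H :=
  closure (Set.range fun x : Q × FreeGroup (Fin a) => Bh π σ x.1 x.2)

variable {π : GX a b →* H} {φ : FreeGroup (Fin b) →* Q} {σ : Q → FreeGroup (Fin b)} {HS : Set (Fin a × Fin a × Q)}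

theorem Bh_mem (q : Q) (w : FreeGroup (Fin a)) : Bh π σ q w ∈ BB π σ := subset_closure ⟨(q, w), rfl⟩

theorem Dt.conj_BB (D : Dt π φ σ HS) (v : FreeGroup (Fin b)) {x : H} (hx : x ∈ BB π σ) :
    π (iY v) * x * (π (iY v))⁻¹ ∈ BB π σ := by
  have h : BB π σ ≤ (BB π σ).comap (MulAut.conj (π (iY v))).toMonoidHom := by
    unfold BB
    rw [closure_le]
    rintro _ ⟨⟨q, w⟩, rfl⟩
    show π (iY v) * Bh π σ q w * (π (iY v))⁻¹ ∈ BB π σ
    rw [D.conj_Bh]
    exact Bh_mem _ _
  exact h hx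

theorem Dt.BB_normal (D : Dt π φ σ HS) (hπ : Function.Surjective π) : (BB π σ).Normal := by
  have hB : ∀ {y : H}, y ∈ BB π σ → ∀ x ∈ BB π σ, y * x * y⁻¹ ∈ BB π σ := fun hy x hx =>
    mul_mem (mul_mem hy hx) (inv_mem hy)
  refine ⟨fun x hx y => ?_⟩
  obtain ⟨f, rfl⟩ := hπ y
  have key : ∀ x ∈ BB π σ, π f * x * (π f)⁻¹ ∈ BB π σ := by
    induction f using FreeGroup.induction_on with
    | C1 =>
      intro x hx
      rw [map_one, one_mul, inv_one, mul_one]
      exact hx
    | of z =>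
      rcases z with i | j
      · rw [← iX_of, ← D.Bh_one]
        exact hB (Bh_mem _ _)
      · rw [← iY_of]
        exact fun x hx => D.conj_BB _ hx
    | inv_of z _ =>
      rcases z with i | j
      · rw [← iX_of, ← map_inv, ← D.Bh_one]
        exact hB (Bh_mem _ _)
      · rw [← iY_of, ← map_inv]
        exact fun x hx => D.conj_BB _ hx
    | mul u v hu hv =>
      intro x hx
      have h1 := hu _ (hv x hx)
      rw [map_mul, mul_inv_rev]
      simp only [mul_assoc] at h1 ⊢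
      exact h1
  exact key x hx

theorem mem_cent {x : H} (h : ∀ (q : Q) (w : FreeGroup (Fin a)), Commute (Bh π σ q w) x) :
    x ∈ centralizer (BB π σ : Set H) := by
  have h1 : BB π σ ≤ centralizer {x} := by
    unfold BB
    rw [closure_le]
    rintro _ ⟨⟨q, w⟩, rfl⟩
    rw [SetLike.mem_coe, mem_centralizer_singleton_iff]
    exact (h q w).eq
  rw [mem_centralizer_iff]
  intro y hy
  exact mem_centralizer_singleton_iff.1 (h1 hy)

theorem Bh_comm_mem (q : Q) {w : FreeGroup (Fin a)} (hw : w ∈ commutator (FreeGroup (Fin a))) :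
    Bh π σ q w ∈ ⁅BB π σ, BB π σ⁆ := by
  have h : commutator (FreeGroup (Fin a)) ≤ (⁅BB π σ, BB π σ⁆).comap (Bh π σ q) := by
    rw [_root_.commutator_def, Subgroup.commutator_le]
    intro x _ y _
    rw [mem_comap, map_commutatorElement]
    exact Subgroup.commutator_mem_commutator (Bh_mem _ _) (Bh_mem _ _)
  exact h hw

/-- The absorption: `z` in the conjugates of the base commuting with the conjugates other than the first, a product
of elements of the conjugates. -/
theorem Dt.absorb (D : Dt π φ σ HS) {n : ℕ} (en : Fin n ≃ Q) {z : H} {hh : Fin n → FreeGroup (Fin a)}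
    (hz : z = pro fun c => Bh π σ (en c) (hh c))
    (h1 : (∀ q w, Commute (Bh π σ q w) z) ∨ ((∀ q w, q ≠ 1 → Commute (Bh π σ q w) z) ∧ ∀ c, en c = 1 → hh c = 1)) :
    (∀ c q w, Commute (Bh π σ q w) (Bh π σ (en c) (hh c))) ∧ ∀ q w, Commute (Bh π σ q w) z := by
  have key : ∀ c q w, Commute (Bh π σ q w) (Bh π σ (en c) (hh c)) := by
    intro c q w
    by_cases hq : q = en c
    · have hrest : ∀ c', c' ≠ c → Bh π σ (en c') (hh c') ∈ centralizer {Bh π σ q w} := by
        intro c' hc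
        rw [mem_centralizer_singleton_iff]
        refine (D.comm ?_ _ _).eq
        intro h
        rw [hq] at h
        exact hc (en.injective h)
      have hfin : z ∈ centralizer {Bh π σ q w} → Commute (Bh π σ q w) (Bh π σ (en c) (hh c)) := by
        intro h
        rw [hz] at h
        have h2 := mem_of_pro h hrest
        rw [mem_centralizer_singleton_iff] at h2
        exact Eq.symm h2
      rcases h1 with h2 | ⟨h2, h3⟩
      · refine hfin ?_
        rw [mem_centralizer_singleton_iff]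
        exact (h2 q w).eq.symm
      · by_cases he : en c = 1
        · rw [h3 c he, map_one]
          exact Commute.one_right _
        · refine hfin ?_
          rw [mem_centralizer_singleton_iff]
          exact (h2 q w (by rw [hq]; exact he)).eq.symm
    · exact D.comm hq _ _
  refine ⟨key, fun q w => ?_⟩
  have h2 : z ∈ centralizer {Bh π σ q w} := by
    rw [hz]
    refine pro_mem fun c => ?_
    rw [mem_centralizer_singleton_iff]
    exact (key c q w).eq.symm
  rw [mem_centralizer_singleton_iff] at h2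
  exact Eq.symm h2

/-- The elimination principle. -/
theorem ker_Ps_le [Fintype Q] [DecidableEq Q] {ψ : FreeGroup (Fin a) →* P} (hψ : Function.Surjective ψ)
    (hφ : Function.Surjective φ) (hσ : ∀ q, φ (σ q) = q) (hH : ∀ i j h, h ≠ 1 → (i, j, h) ∈ HS ∨ (j, i, h⁻¹) ∈ HS)
    (M : Subgroup (GX a b)) [M.Normal] (hX : ∀ w ∈ ψ.ker, iX w ∈ M) (hY : ∀ v ∈ φ.ker, iY v ∈ M)
    (hc : ∀ i j h, (i, j, h) ∈ HS → cm (FreeGroup.of (Sum.inl i)) (iY (σ h) * FreeGroup.of (Sum.inl j) * (iY (σ h))⁻¹) ∈ M) :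
    (Ps ψ φ).ker ≤ M := by
  have hk : ∀ r, QuotientGroup.mk' M r = 1 ↔ r ∈ M := fun r => QuotientGroup.eq_one_iff r
  have D : Dt (QuotientGroup.mk' M) φ σ HS := by
    refine ⟨hσ, fun v hv => (hk _).2 (hY v hv), fun i j h hh => ?_, hH⟩
    have h1 := (hk _).2 (hc i j h hh)
    unfold cm at h1 ⊢
    rw [map_mul, map_mul, map_mul, map_inv, map_inv] at h1
    exact h1
  have h1 := D.ker_le hφ hψ fun w hw => (hk _).2 (hX w hw)
  rwa [QuotientGroup.ker_mk'] at h1

end

end Pool.Agent.RG.WR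
end

section

/-!
# WR G: the relators of the wreath product

`relW`: the relators: `iX (s i)` times a product of inverses of conjugates of the words `e l`; `g` further such products; the
relators of the top group; the commutators `[x_i, ^h x_j]`.
-/

set_option autoImplicit false
set_option linter.unusedSectionVars false

namespace Pool.Agent.RG.WR

open Subgroup Pool.Agent.RG.PR

section
variable {p a b ρ m g n t : ℕ} {P Q : Type} [Group P] [Group Q]

/-- The relators before the modification. -/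
def baseW (s : Fin ρ → FreeGroup (Fin a)) : Fin ρ ⊕ Fin g → GX a b
  | .inl i => iX (s i)
  | .inr _ => 1

/-- The modified relators. -/
def relW (σ : Q → FreeGroup (Fin b)) (en : Fin n ≃ Q) (s : Fin ρ → FreeGroup (Fin a))
    (hh : Fin n → Fin ρ ⊕ Fin g → FreeGroup (Fin a)) (T : Fin t → FreeGroup (Fin b)) (CS : Finset (Fin a × Fin a × Q)) :
    (Fin ρ ⊕ Fin g) ⊕ (Fin t ⊕ CS) → GX a b
  | .inl τ => baseW s τ * (pro fun c => iY (σ (en c)) * iX (hh c τ) * (iY (σ (en c)))⁻¹)⁻¹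
  | .inr (.inl i) => iY (T i)
  | .inr (.inr x) => cm (FreeGroup.of (Sum.inl x.1.1))
      (iY (σ x.1.2.2) * FreeGroup.of (Sum.inl x.1.2.1) * (iY (σ x.1.2.2))⁻¹)

/-- The data. -/
structure HostW (p : ℕ) (ψ : FreeGroup (Fin a) →* P) (φ : FreeGroup (Fin b) →* Q) (σ : Q → FreeGroup (Fin b))
    (en : Fin n ≃ Q) (s : Fin ρ → FreeGroup (Fin a)) (e : Fin m → FreeGroup (Fin a))
    (hh : Fin n → Fin ρ ⊕ Fin g → FreeGroup (Fin a)) (T : Fin t → FreeGroup (Fin b)) (CS : Finset (Fin a × Fin a × Q)) : Prop where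
  hψ : Function.Surjective ψ
  hφ : Function.Surjective φ
  hσ : ∀ q, φ (σ q) = q
  hT : normalClosure (Set.range T) = φ.ker
  hH : ∀ i j h, h ≠ 1 → (i, j, h) ∈ CS ∨ (j, i, h⁻¹) ∈ CS
  hone : ∀ x ∈ CS, x.2.2 ≠ 1
  nf : NF p ψ ρ m s e
  h1 : ∀ c τ, hh c τ = 1 ∨ ∃ i, hh c τ = e i
  h1' : ∀ c i, en c = 1 → hh c (Sum.inl i) = 1
  h2 : ∀ i, ∃ c τ, hh c τ = e i

namespace HostW

variable {ψ : FreeGroup (Fin a) →* P} {φ : FreeGroup (Fin b) →* Q} {σ : Q → FreeGroup (Fin b)}
    {en : Fin n ≃ Q} {s : Fin ρ → FreeGroup (Fin a)} {e : Fin m → FreeGroup (Fin a)}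
    {hh : Fin n → Fin ρ ⊕ Fin g → FreeGroup (Fin a)} {T : Fin t → FreeGroup (Fin b)} {CS : Finset (Fin a × Fin a × Q)}

theorem e_mem (H : HostW p ψ φ σ en s e hh T CS) (i : Fin m) : e i ∈ ψ.ker := by
  rw [← H.nf.ncl]
  exact subset_normalClosure (Or.inr ⟨i, rfl⟩)

theorem s_mem (H : HostW p ψ φ σ en s e hh T CS) (i : Fin ρ) : s i ∈ ψ.ker := by
  rw [← H.nf.ncl]
  exact subset_normalClosure (Or.inl ⟨i, rfl⟩)

theorem hh_mem (H : HostW p ψ φ σ en s e hh T CS) (c : Fin n) (τ : Fin ρ ⊕ Fin g) : hh c τ ∈ ψ.ker := by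
  rcases H.h1 c τ with h1 | ⟨i, h1⟩
  · rw [h1]; exact one_mem _
  · rw [h1]; exact H.e_mem i

theorem hh_comm (H : HostW p ψ φ σ en s e hh T CS) (c : Fin n) (τ : Fin ρ ⊕ Fin g) :
    hh c τ ∈ commutator (FreeGroup (Fin a)) := by
  rcases H.h1 c τ with h1 | ⟨i, h1⟩
  · rw [h1]; exact one_mem _
  · rw [h1]; exact H.nf.comm i

variable [DecidableEq Q]

theorem T_mem (H : HostW p ψ φ σ en s e hh T CS) (i : Fin t) : iY (T i) ∈ (Ps ψ φ).ker := by
  rw [iY_mem, ← H.hT]
  exact subset_normalClosure ⟨i, rfl⟩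

theorem cm_mem (H : HostW p ψ φ σ en s e hh T CS) [Fintype Q] {i j : Fin a} {h : Q} (hh' : (i, j, h) ∈ CS) :
    cm (FreeGroup.of (Sum.inl i)) (iY (σ h) * FreeGroup.of (Sum.inl j) * (iY (σ h))⁻¹) ∈ (Ps ψ φ).ker := by
  refine cmW_mem i j ?_
  rw [H.hσ]
  exact H.hone _ hh'

theorem base_mem (H : HostW p ψ φ σ en s e hh T CS) (τ : Fin ρ ⊕ Fin g) : baseW s τ ∈ (Ps ψ φ).ker := by
  rcases τ with i | i
  · exact (iX_mem ψ φ).2 (H.s_mem i)
  · exact one_mem _

theorem fac_mem (H : HostW p ψ φ σ en s e hh T CS) (c : Fin n) (τ : Fin ρ ⊕ Fin g) :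
    iY (σ (en c)) * iX (hh c τ) * (iY (σ (en c)))⁻¹ ∈ (Ps ψ φ).ker :=
  Subgroup.Normal.conj_mem inferInstance _ ((iX_mem ψ φ).2 (H.hh_mem c τ)) _

theorem rel_mem (H : HostW p ψ φ σ en s e hh T CS) [Fintype Q]
    (x : (Fin ρ ⊕ Fin g) ⊕ (Fin t ⊕ CS)) : relW σ en s hh T CS x ∈ (Ps ψ φ).ker := by
  rcases x with τ | i | x
  · exact mul_mem (H.base_mem τ) (inv_mem (pro_mem fun c => H.fac_mem c τ))
  · exact H.T_mem i
  · exact H.cm_mem x.2

theorem ker_le_ncl [Fact p.Prime] [Fintype Q] [Finite P] (hP : IsPGroup p P) (hQ : IsPGroup p Q)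
    (H : HostW p ψ φ σ en s e hh T CS) : (Ps ψ φ).ker ≤ normalClosure (Set.range (relW σ en s hh T CS)) := by
  set N := normalClosure (Set.range (relW σ en s hh T CS)) with hN
  have hNle : N ≤ (Ps ψ φ).ker := by
    refine normalClosure_le_normal ?_
    rintro _ ⟨x, rfl⟩
    exact H.rel_mem x
  let π : GX a b →* GX a b ⧸ N := QuotientGroup.mk' N
  have hπ : Function.Surjective π := QuotientGroup.mk'_surjective N
  have hπk : ∀ r, π r = 1 ↔ r ∈ N := fun r => QuotientGroup.eq_one_iff r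
  have hπcm : ∀ x y, π (cm x y) = cm (π x) (π y) := by
    intro x y
    unfold cm
    rw [map_mul, map_mul, map_mul, map_inv, map_inv]
  have hsub : ∀ x, π (relW σ en s hh T CS x) = 1 := fun x => (hπk _).2 (subset_normalClosure ⟨x, rfl⟩)
  have D : Dt π φ σ (CS : Set (Fin a × Fin a × Q)) := by
    refine ⟨H.hσ, ?_, fun i j h hh' => ?_, H.hH⟩
    · have h1 : φ.ker ≤ (π.comp iY).ker := by
        rw [← H.hT]
        refine normalClosure_le_normal ?_
        rintro _ ⟨i, rfl⟩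
        exact hsub (Sum.inr (Sum.inl i))
      exact fun v hv => h1 hv
    · have h1 := hsub (Sum.inr (Sum.inr ⟨(i, j, h), hh'⟩))
      unfold relW at h1
      rw [hπcm] at h1
      exact h1
  have hfac : ∀ c τ, π (iY (σ (en c)) * iX (hh c τ) * (iY (σ (en c)))⁻¹) = Bh π σ (en c) (hh c τ) := by
    intro c τ
    rw [Bh_apply, map_mul, map_mul, map_inv]
  have hrel : ∀ τ, π (baseW s τ) = pro fun c => Bh π σ (en c) (hh c τ) := by
    intro τ
    have h1 := hsub (Sum.inl τ)
    unfold relW at h1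
    rw [map_mul, map_inv, mul_inv_eq_one, map_pro] at h1
    exact h1
  have habs : ∀ τ, (∀ c q w, Commute (Bh π σ q w) (Bh π σ (en c) (hh c τ))) ∧
      ∀ q w, Commute (Bh π σ q w) (π (baseW s τ)) := by
    intro τ
    refine D.absorb en (hrel τ) ?_
    rcases τ with i | i
    · right
      refine ⟨fun q w hq => ?_, fun c hc => H.h1' c i hc⟩
      show Commute (Bh π σ q w) (π (iX (s i)))
      rw [← D.Bh_one]
      exact D.comm hq _ _
    · left
      intro q w
      show Commute (Bh π σ q w) (π 1)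
      rw [map_one]
      exact Commute.one_right _
  have hBn : (BB π σ).Normal := D.BB_normal hπ
  set ZB : Subgroup (GX a b ⧸ N) := ⁅BB π σ, BB π σ⁆ ⊓ centralizer (BB π σ : Set (GX a b ⧸ N)) with hZB
  have hZBn : ZB.Normal := inferInstance
  have hcB : ⁅BB π σ, BB π σ⁆ ≤ BB π σ := Subgroup.commutator_le_left _ _
  set K : Subgroup (GX a b ⧸ N) := (Ps ψ φ).ker.map π with hKdef
  have hKn : K.Normal := Subgroup.Normal.map inferInstance π hπ
  have hfacZ : ∀ c τ, Bh π σ (en c) (hh c τ) ∈ ZB := fun c τ =>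
    ⟨Bh_comm_mem _ (H.hh_comm c τ), mem_cent ((habs τ).1 c)⟩
  have hKZ : K ≤ ZB := by
    rw [hKdef, map_le_iff_le_comap]
    refine ker_Ps_le H.hψ H.hφ H.hσ H.hH _ ?_ ?_ ?_
    · have h1 : ψ.ker ≤ (ZB.comap π).comap iX := by
        rw [← H.nf.ncl]
        refine normalClosure_le_normal ?_
        rintro _ (⟨i, rfl⟩ | ⟨i, rfl⟩)
        · show π (baseW s (Sum.inl i : Fin ρ ⊕ Fin g)) ∈ ZB
          rw [hrel]
          exact pro_mem fun c => hfacZ c _
        · obtain ⟨c, τ, h2⟩ := H.h2 i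
          show π (iX (e i)) ∈ ZB
          rw [← h2]
          have h3 : π (iX (hh c τ)) = (π (iY (σ (en c))))⁻¹ * Bh π σ (en c) (hh c τ) *
              ((π (iY (σ (en c))))⁻¹)⁻¹ := by
            rw [Bh_apply]
            simp only [mul_assoc, mul_inv_cancel, mul_one, inv_mul_cancel_left]
          rw [h3]
          exact hZBn.conj_mem _ (hfacZ c τ) _
      exact fun w hw => h1 hw
    · intro v hv
      rw [mem_comap, D.hY v hv]
      exact one_mem _
    · intro i j h hh'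
      rw [mem_comap, hπcm]
      have h1 := D.hc i j h hh'
      rw [h1]
      exact one_mem _
  have hcomm : ∀ x ∈ K, ∀ y ∈ K, x * y = y * x := by
    intro x hx y hy
    exact mem_centralizer_iff.1 (hKZ hy).2 x (hcB (hKZ hx).1)
  have hKmem : ∀ r, π r ∈ K → r ∈ (Ps ψ φ).ker := by
    rintro r ⟨r', hr', h1⟩
    have h2 : r'⁻¹ * r ∈ N := by
      rw [← hπk, map_mul, map_inv, h1, inv_mul_cancel]
    have h3 := mul_mem (show r' ∈ (Ps ψ φ).ker from hr') (hNle h2)
    rwa [mul_inv_cancel_left] at h3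
  have hidx : ∃ k : ℕ, K.index = p ^ k := by
    have h1 : K.index = (Ps ψ φ).ker.index := by
      rw [hKdef, Subgroup.index_map, QuotientGroup.ker_mk', sup_eq_left.2 hNle,
        MonoidHom.range_eq_top.2 hπ, Subgroup.index_top, mul_one]
    have h2 : (Ps ψ φ).ker.index = Nat.card (P ≀ᵣ Q) := by
      rw [Subgroup.index_ker, MonoidHom.range_eq_top.2 (Ps_surj H.hφ H.hψ), Subgroup.card_top]
    obtain ⟨k1, hk1⟩ := IsPGroup.iff_card.1 hP
    obtain ⟨k2, hk2⟩ := IsPGroup.iff_card.1 hQ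
    rw [h1, h2]
    rw [RegularWreathProduct.card, hk1, hk2]
    exact ⟨_, by rw [← pow_mul, ← pow_add]⟩
  obtain ⟨k, hk⟩ := hidx
  have hfg : K.FG := by
    have h1 : K.FiniteIndex := ⟨by
      rw [hk]
      exact pow_ne_zero _ (Fact.out : p.Prime).ne_zero⟩
    have h2 : Group.FG (GX a b ⧸ N) := QuotientGroup.fg N
    exact (Group.fg_iff_subgroup_fg K).1 (Subgroup.fg_of_index_ne_zero K)
  have hsep : ∀ l ∈ IL p K, ∀ r ∈ K, l r = 0 := by
    intro l hl
    have hpull : ∀ {r}, r ∈ (Ps ψ φ).ker → π r ∈ K := fun {r} hr => ⟨r, hr, rfl⟩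
    have hL : (fun r => l (π r)) ∈ IL p (Ps ψ φ).ker := by
      refine ⟨fun r hr => IL_out hl fun h1 => hr (hKmem r h1), fun r hr t ht => ?_, fun f r hr => ?_⟩
      · show l (π (r * t)) = _
        rw [map_mul, IL_mul hl (hpull hr) (hpull ht)]
      · show l (π (f * r * f⁻¹)) = _
        rw [map_mul, map_mul, map_inv, IL_conj hl _ (hpull hr)]
    have hLX : (fun w => l (π (iX w))) ∈ IL p ψ.ker := by
      refine ⟨fun w hw => ?_, fun v hv w hw => ?_, fun f w hw => ?_⟩
      · exact IL_out hL (f := iX w) fun h1 => hw ((iX_mem ψ φ).1 h1)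
      · show l (π (iX (v * w))) = _
        rw [map_mul]
        exact IL_mul hL ((iX_mem ψ φ).2 hv) ((iX_mem ψ φ).2 hw)
      · have h1 : iX (f * w * f⁻¹) = (iX f * iX w * (iX f)⁻¹ : GX a b) := by
          rw [map_mul, map_mul, map_inv]
        show l (π (iX (f * w * f⁻¹))) = _
        rw [h1]
        exact IL_conj hL (iX f) ((iX_mem ψ φ).2 hw)
    have hbase : ∀ τ : Fin ρ ⊕ Fin g, l (π (baseW s τ)) = 0 := by
      intro τ
      have h0 : π (baseW s τ) = π (pro fun c => iY (σ (en c)) * iX (hh c τ) * (iY (σ (en c)))⁻¹) := by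
        rw [hrel, map_pro]
        rfl
      rw [h0]
      have h1 : ∀ r ∈ (List.finRange n).map fun c => iY (σ (en c)) * iX (hh c τ) * (iY (σ (en c)))⁻¹,
          r ∈ (Ps ψ φ).ker := by
        intro r hr
        obtain ⟨c, _, rfl⟩ := List.mem_map.1 hr
        exact H.fac_mem c τ
      have h2 := IL_prod hL _ h1
      refine h2.trans ?_
      rw [List.map_map]
      apply List.sum_eq_zero
      intro x hx
      obtain ⟨c, _, rfl⟩ := List.mem_map.1 hx
      show l (π (iY (σ (en c)) * iX (hh c τ) * (iY (σ (en c)))⁻¹)) = 0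
      have h4 := IL_conj hL (iY (σ (en c))) ((iX_mem ψ φ).2 (H.hh_mem c τ))
      refine h4.trans ?_
      show l (π (iX (hh c τ))) = 0
      rcases H.h1 c τ with h3 | ⟨i, h3⟩
      · rw [h3, map_one, map_one]
        exact IL_one hl
      · rw [h3]
        exact H.nf.null _ hLX i
    have hX0 : ∀ w, l (π (iX w)) = 0 := fun w =>
      congrFun (H.nf.sep hLX fun i => hbase (Sum.inl i : Fin ρ ⊕ Fin g)) w
    rintro _ ⟨r, hr, rfl⟩
    have hmem : r ∈ normalClosure (({w | ∃ v ∈ ψ.ker, w = iX v} ∪ {w | ∃ v ∈ φ.ker, w = iY v}) ∪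
        {w | ∃ i j h, (i, j, h) ∈ CS ∧ w = (cm (FreeGroup.of (Sum.inl i))
          (iY (σ h) * FreeGroup.of (Sum.inl j) * (iY (σ h))⁻¹) : GX a b)}) := by
      refine ker_Ps_le (HS := (CS : Set (Fin a × Fin a × Q))) H.hψ H.hφ H.hσ H.hH _ (fun w hw => ?_) (fun v hv => ?_)
        (fun i j h hh' => ?_) hr
      · exact subset_normalClosure (Or.inl (Or.inl ⟨w, hw, rfl⟩))
      · exact subset_normalClosure (Or.inl (Or.inr ⟨v, hv, rfl⟩))
      · exact subset_normalClosure (Or.inr ⟨i, j, h, hh', rfl⟩)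
    refine IL_closure hL ?_ r hmem
    rintro _ ((⟨w, hw, rfl⟩ | ⟨w, hw, rfl⟩) | ⟨i, j, h, hh', rfl⟩)
    · exact ⟨(iX_mem ψ φ).2 hw, hX0 w⟩
    · refine ⟨(iY_mem ψ φ).2 hw, ?_⟩
      show l (π (iY w)) = 0
      rw [D.hY w hw]
      exact IL_one hl
    · refine ⟨H.cm_mem hh', ?_⟩
      show l (π (cm _ _)) = 0
      have h1 : π (cm (FreeGroup.of (Sum.inl i)) (iY (σ h) * FreeGroup.of (Sum.inl j) * (iY (σ h))⁻¹)) = 1 := by
        rw [hπcm]
        exact D.hc i j h hh'
      rw [h1]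
      exact IL_one hl
  obtain ⟨q, hq, hq1⟩ := exists_coprime K hcomm hfg hk hsep
  -- the exponent in the base group
  have hKB : K ≤ BB π σ := fun x hx => hcB (hKZ hx).1
  have hidx2 : ∃ k' : ℕ, (K.subgroupOf (BB π σ)).index = p ^ k' := by
    have h1 : K.relIndex (BB π σ) ∣ p ^ k := by
      rw [← hk]
      exact Subgroup.relIndex_dvd_index_of_normal K (BB π σ)
    obtain ⟨k', _, h2⟩ := (Nat.dvd_prime_pow (Fact.out : p.Prime)).1 h1
    exact ⟨k', h2⟩
  obtain ⟨k', hk'⟩ := hidx2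
  obtain ⟨m', hm'⟩ := pow_comm_of_central (K.subgroupOf (BB π σ)) (by
    intro x hx
    rw [mem_center_iff]
    intro y
    apply Subtype.ext
    exact mem_centralizer_iff.1 (hKZ hx).2 y y.2) hk'
  have hbot : K = ⊥ := by
    rw [eq_bot_iff]
    intro x hx
    rw [mem_bot]
    refine one_of_coprime (hq.pow_right m') (hq1 x hx) ?_
    have h1 : (⟨x, hKB hx⟩ : BB π σ) ∈ commutator (BB π σ) := by
      have h2 := (hKZ hx).1
      have h3 : (commutator (BB π σ)).map (BB π σ).subtype = ⁅BB π σ, BB π σ⁆ := by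
        rw [_root_.commutator_def, Subgroup.map_commutator, ← MonoidHom.range_eq_map, Subgroup.range_subtype]
      rw [← h3] at h2
      obtain ⟨y, hy, h4⟩ := h2
      have h5 : y = ⟨x, hKB hx⟩ := Subtype.ext h4
      rwa [← h5]
    exact congrArg Subtype.val (hm' _ h1)
  intro r hr
  have h1 : π r ∈ K := ⟨r, hr, rfl⟩
  rw [hbot, mem_bot] at h1
  exact (hπk r).1 h1

theorem ncl_eq [Fact p.Prime] [Fintype Q] [Finite P] (hP : IsPGroup p P) (hQ : IsPGroup p Q)
    (H : HostW p ψ φ σ en s e hh T CS) : normalClosure (Set.range (relW σ en s hh T CS)) = (Ps ψ φ).ker := by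
  refine le_antisymm (normalClosure_le_normal ?_) (H.ker_le_ncl hP hQ)
  rintro _ ⟨x, rfl⟩
  exact H.rel_mem x

end HostW

end

end Pool.Agent.RG.WR
end
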